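import Pool.Agent.Lib.MP_2c8569_lc.Game

set_option autoImplicit false

namespace Pool.Agent.Lib.MP_2c8569_lc

open Classical Ob

/-- Conditions: finitely many values `(ξ, n, m)` and finitely many promises `(ξ, x, n)`. -/
abbrev Cond := List (Λ × ℕ × ℕ) × List (Λ × Obj × ℕ)

def Sub (p q : Cond) : Prop := p.1 ⊆ q.1 ∧ p.2 ⊆ q.2
def un (p q : Cond) : Cond := (p.1 ++ q.1, p.2 ++ q.2)
noncomputable def res (η : Λ) (p : Cond) : Cond :=
  (p.1.filter fun a => decide (a.1 < η), p.2.filter fun a => decide (a.1 < η))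
def Supp (η : Λ) (p : Cond) : Prop := (∀ a ∈ p.1, a.1 < η) ∧ ∀ a ∈ p.2, a.1 < η
def emp : Cond := ([], [])

instance : Fix emp := ⟨fun _ => rfl⟩

lemma Sub.rfl {p : Cond} : Sub p p := ⟨fun _ h => h, fun _ h => h⟩
lemma Sub.trans {p q r : Cond} (h : Sub p q) (h' : Sub q r) : Sub p r :=
  ⟨List.Subset.trans h.1 h'.1, List.Subset.trans h.2 h'.2⟩
lemma sub_un_left (p q : Cond) : Sub p (un p q) := by simp [Sub, un]
lemma sub_un_right (p q : Cond) : Sub q (un p q) := by simp [Sub, un]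
lemma emp_sub (p : Cond) : Sub emp p := by simp [Sub, emp]
lemma res_sub (η : Λ) (p : Cond) : Sub (res η p) p :=
  ⟨List.filter_sublist.subset, List.filter_sublist.subset⟩
@[simp] lemma mem_res1 {η : Λ} {p : Cond} {a} : a ∈ (res η p).1 ↔ a ∈ p.1 ∧ a.1 < η := by
  simp [res]
@[simp] lemma mem_res2 {η : Λ} {p : Cond} {a} : a ∈ (res η p).2 ↔ a ∈ p.2 ∧ a.1 < η := by
  simp [res]
@[simp] lemma mem_un1 {p q : Cond} {a} : a ∈ (un p q).1 ↔ a ∈ p.1 ∨ a ∈ q.1 := by simp [un]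
@[simp] lemma mem_un2 {p q : Cond} {a} : a ∈ (un p q).2 ↔ a ∈ p.2 ∨ a ∈ q.2 := by simp [un]
lemma supp_res (η : Λ) (p : Cond) : Supp η (res η p) := by simp +contextual [Supp]
lemma Sub.res {p q : Cond} (h : Sub p q) (η : Λ) : Sub (res η p) (res η q) :=
  ⟨fun _ ha => mem_res1.2 ⟨h.1 (mem_res1.1 ha).1, (mem_res1.1 ha).2⟩,
    fun _ ha => mem_res2.2 ⟨h.2 (mem_res2.1 ha).1, (mem_res2.1 ha).2⟩⟩
lemma Supp.sub_res {η : Λ} {p q : Cond} (hp : Supp η p) (h : Sub p q) : Sub p (res η q) :=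
  ⟨fun _ ha => mem_res1.2 ⟨h.1 ha, hp.1 _ ha⟩, fun _ ha => mem_res2.2 ⟨h.2 ha, hp.2 _ ha⟩⟩
lemma Supp.of_sub {η : Λ} {p q : Cond} (hq : Supp η q) (h : Sub p q) : Supp η p :=
  ⟨fun _ ha => hq.1 _ (h.1 ha), fun _ ha => hq.2 _ (h.2 ha)⟩
lemma Supp.mono {η η' : Λ} {p : Cond} (hp : Supp η p) (h : η ≤ η') : Supp η' p :=
  ⟨fun _ ha => (hp.1 _ ha).trans_le h, fun _ ha => (hp.2 _ ha).trans_le h⟩
lemma Supp.un {η : Λ} {p q : Cond} (hp : Supp η p) (hq : Supp η q) : Supp η (un p q) :=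
  ⟨fun a ha => (mem_un1.1 ha).elim (hp.1 a) (hq.1 a),
    fun a ha => (mem_un2.1 ha).elim (hp.2 a) (hq.2 a)⟩

lemma mx_cond_lt {p : Cond} {μ : Λ} : mx (enc p) < μ ↔
    (∀ a ∈ p.1, a.1 < μ) ∧ ∀ a ∈ p.2, a.1 < μ ∧ mx a.2.1 < μ := by
  obtain ⟨p, q⟩ := p
  simp only [enc_pair, mx_node, max_lt_iff, mx_list_lt]
  refine and_congr (forall₂_congr fun a _ => ?_) (forall₂_congr fun a _ => ?_)
  · obtain ⟨a, b⟩ := a; simp
  · obtain ⟨a, b, c⟩ := a; simp

lemma Sub.mx_lt {p q : Cond} {μ : Λ} (h : Sub p q) (hq : mx (enc q) < μ) : mx (enc p) < μ :=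
  mx_cond_lt.2 ⟨fun a ha => (mx_cond_lt.1 hq).1 a (h.1 ha),
    fun a ha => (mx_cond_lt.1 hq).2 a (h.2 ha)⟩

lemma supp_of_mx {p : Cond} {μ : Λ} (h : mx (enc p) < μ) : Supp μ p :=
  ⟨(mx_cond_lt.1 h).1, fun a ha => ((mx_cond_lt.1 h).2 a ha).1⟩

lemma mx_un_lt {p q : Cond} {μ : Λ} (hp : mx (enc p) < μ) (hq : mx (enc q) < μ) :
    mx (enc (un p q)) < μ := by
  rw [mx_cond_lt] at *
  exact ⟨fun a ha => (mem_un1.1 ha).elim (hp.1 a) (hq.1 a),
    fun a ha => (mem_un2.1 ha).elim (hp.2 a) (hq.2 a)⟩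

@[simp] lemma mx_emp : mx (enc emp) = ⊥ := by simp [emp]

section
variable {α : Type*} [Act α]
@[fun_prop] lemma Inv.Sub {f g : α → Cond} (hf : Inv f) (hg : Inv g) :
    Inv fun a => Sub (f a) (g a) := by unfold MP_2c8569_lc.Sub; fun_prop
@[fun_prop] lemma Inv.un {f g : α → Cond} (hf : Inv f) (hg : Inv g) :
    Inv fun a => un (f a) (g a) := by unfold MP_2c8569_lc.un; fun_prop
@[fun_prop] lemma Inv.res {f : α → Λ} {g : α → Cond} (hf : Inv f) (hg : Inv g) :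
    Inv fun a => res (f a) (g a) := fun e he a => by
  simp [hf e he a, hg e he a, MP_2c8569_lc.res, act_list, List.filter_map, Function.comp_def,
    he.lt_iff_lt]
@[fun_prop] lemma Inv.Supp {f : α → Λ} {g : α → Cond} (hf : Inv f) (hg : Inv g) :
    Inv fun a => Supp (f a) (g a) := fun e he a => by
  simp only [hf e he a, hg e he a, MP_2c8569_lc.Supp, act_fst, act_snd, act_list,
    List.forall_mem_map, act_lab, he.lt_iff_lt, act_pur]
end

noncomputable def pV (k η : Λ) (p : Cond) : Obj := node (hd 0 (lab η) 0 1 0 []) (enc (p, k, η))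
noncomputable def pE (k η : Λ) (x y : Obj) (p : Cond) : Obj :=
  node (hd 1 (node x y) 0 1 1 []) (enc (p, k, η, x, y))
def Fm.dep : Fm → ℕ
  | .imp φ ψ => max φ.dep ψ.dep + 1
  | .all φ => φ.dep + 1
  | _ => 0
noncomputable def pF (k η β : Λ) (φ : Fm) (v : List Obj) (p : Cond) : Obj :=
  node (hd 1 (node (lab β) (enc v)) (φ.dep + 1) 1 2 []) (enc (p, k, η, β, φ, v))
noncomputable def pN (j : Λ) (n : ℕ) : Obj := node (hd 0 nil 0 1 3 []) (enc (n, j))
/-- The name of the ordinal `j`. -/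
def on (j : Λ) : Obj := node (lab j) (node (hd 0 nil 0 1 4 []) nil)

@[simp] lemma mx_pV (k η : Λ) (p : Cond) :
    mx (pV k η p) = max (mx (enc p)) (max (k : WithBot Λ) η) := by
  simp [pV]
@[simp] lemma mx_pE (k η : Λ) (x y : Obj) (p : Cond) :
    mx (pE k η x y p) = max (mx (enc p)) (max (k : WithBot Λ) (max η (max (mx x) (mx y)))) := by
  simp [pE]
@[simp] lemma mx_pF (k η β : Λ) (φ : Fm) (v : List Obj) (p : Cond) :
    mx (pF k η β φ v p) =
      max (mx (enc p)) (max (k : WithBot Λ) (max η (max β (mx (enc v))))) := by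
  simp [pF]
@[simp] lemma mx_pN (j : Λ) (n : ℕ) : mx (pN j n) = j := by simp [pN]
@[simp] lemma mx_on (j : Λ) : mx (on j) = j := by simp [on]
@[simp] lemma on_inj {i j : Λ} : on i = on j ↔ i = j := by simp [on]

section
variable {α : Type*} [Act α] {k η β : α → Λ} {p : α → Cond} {x y : α → Obj}
@[fun_prop] lemma Inv.pV (h1 : Inv k) (h2 : Inv η) (h3 : Inv p) :
    Inv fun a => pV (k a) (η a) (p a) := by unfold MP_2c8569_lc.pV; fun_prop
@[fun_prop] lemma Inv.pE (h1 : Inv k) (h2 : Inv η) (h3 : Inv x) (h4 : Inv y) (h5 : Inv p) :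
    Inv fun a => pE (k a) (η a) (x a) (y a) (p a) := by unfold MP_2c8569_lc.pE; fun_prop
@[fun_prop] lemma Inv.pF {φ : α → Fm} {v : α → List Obj} (h1 : Inv k) (h2 : Inv η) (h3 : Inv β)
    (h4 : Inv φ) (h5 : Inv v) (h6 : Inv p) :
    Inv fun a => pF (k a) (η a) (β a) (φ a) (v a) (p a) := by unfold MP_2c8569_lc.pF; fun_prop
@[fun_prop] lemma Inv.pN {n : α → ℕ} (h1 : Inv k) (h2 : Inv n) :
    Inv fun a => pN (k a) (n a) := by unfold MP_2c8569_lc.pN; fun_prop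
@[fun_prop] lemma Inv.on (h1 : Inv k) : Inv fun a => on (k a) := by
  unfold MP_2c8569_lc.on; fun_prop
end

/-- A part of `r` puts `c` into the real named by the program `x`. -/
def Hit (O : Orc) (x : Obj) (c : ℕ) (r : Cond) : Prop :=
  ∃ r₀ : Cond, mx (enc r₀) ≤ mx x ∧ Sub r₀ r ∧ O (plug x (enc (c, r₀)))

/-- `r` forces that the value at `n` of the function named by `x` is at most `M`. -/
def Bnd (O : Orc) (k ξ : Λ) (x : Obj) (n M : ℕ) (r : Cond) : Prop :=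
  ∀ r' : Cond, mx (enc r') < k → O (pV k ξ r') → Sub r r' → (∃ m, Hit O x (Nat.pair n m) r') →
    ∃ r'' : Cond, mx (enc r'') < k ∧ O (pV k ξ r'') ∧ Sub r' r'' ∧
      ∃ m, m ≤ M ∧ Hit O x (Nat.pair n m) r''

def cV (O : Orc) (a : Cond × Λ × Λ) : Prop :=
  mx (enc a.1) < a.2.1 ∧ a.2.2 ≤ a.2.1 ∧ Supp a.2.2 a.1 ∧
  (∀ c, c ∈ a.1.1 → ∀ c', c' ∈ a.1.1 → c.1 = c'.1 → c.2.1 = c'.2.1 → c.2.2 = c'.2.2) ∧
  ∀ c, c ∈ a.1.2 → ∀ c', c' ∈ a.1.1 → c'.1 = c.1 → c.2.2 ≤ c'.2.1 →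
    Bnd O a.2.1 c.1 c.2.1 c'.2.1 c'.2.2 (res c.1 a.1)

def child (O : Orc) (x z : Obj) (r : Cond) : Prop :=
  mx (plug x.snd (enc (z, r))) < mx x ∧ O (plug x.snd (enc (z, r)))

def Mem (O : Orc) (k η : Λ) (p : Cond) (z x : Obj) : Prop :=
  ∀ q : Cond, mx (enc q) < k → O (pV k η q) → Sub p q →
    ∃ r : Cond, mx (enc r) < k ∧ O (pV k η r) ∧ Sub q r ∧ ∃ z', mx z' < mx x ∧
      (∃ r₀ : Cond, mx (enc r₀) < mx x ∧ Sub r₀ r ∧ child O x z' r₀) ∧ O (pE k η z z' r)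

def cE (O : Orc) (a : Cond × Λ × Λ × Obj × Obj) : Prop :=
  ∀ z, mx z < max (mx a.2.2.2.1) (mx a.2.2.2.2) → ∀ q : Cond, mx (enc q) < a.2.1 →
    O (pV a.2.1 a.2.2.1 q) → Sub a.1 q →
    (Mem O a.2.1 a.2.2.1 q z a.2.2.2.1 ↔ Mem O a.2.1 a.2.2.1 q z a.2.2.2.2)

def cF (O : Orc) (a : Cond × Λ × Λ × Λ × Fm × List Obj) : Prop :=
  (∀ i j, a.2.2.2.2.1 = .mem i j →
    Mem O a.2.1 a.2.2.1 a.1 (a.2.2.2.2.2.getD i nil) (a.2.2.2.2.2.getD j nil)) ∧
  (∀ i j, a.2.2.2.2.1 = .eq i j →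
    O (pE a.2.1 a.2.2.1 (a.2.2.2.2.2.getD i nil) (a.2.2.2.2.2.getD j nil) a.1)) ∧
  a.2.2.2.2.1 ≠ .fls ∧
  (∀ ψ χ, a.2.2.2.2.1 = .imp ψ χ → ∀ q : Cond, mx (enc q) < a.2.1 → O (pV a.2.1 a.2.2.1 q) →
    Sub a.1 q → O (pF a.2.1 a.2.2.1 a.2.2.2.1 ψ a.2.2.2.2.2 q) →
    O (pF a.2.1 a.2.2.1 a.2.2.2.1 χ a.2.2.2.2.2 q)) ∧
  ∀ ψ, a.2.2.2.2.1 = .all ψ → ∀ z, mx z < a.2.2.2.1 →
    O (pF a.2.1 a.2.2.1 a.2.2.2.1 ψ (z :: a.2.2.2.2.2) a.1)

def cN (O : Orc) (a : ℕ × Λ) : Prop :=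
  (∀ j, j < a.2 → ∃ m, m < a.1 ∧ O (pN j m)) ∧ ∀ m, m < a.1 → ∃ j, j < a.2 ∧ O (pN j m)

def cO (_ : Orc) (a : (Obj × Cond) × Obj) : Prop :=
  ∃ j : Λ, (j : WithBot Λ) ≤ mx a.1.1 ∧ a.1.1 = on j

section
variable {α : Type*} [Enc α] {k η : α → Λ} {p : α → Cond} {x y : α → Obj} {n m : α → ℕ}

lemma Dfn.Hit (h1 : Inv x) (h2 : Inv n) (h3 : Inv p) :
    Dfn fun O a => Hit O (x a) (n a) (p a) := by
  unfold MP_2c8569_lc.Hit
  repeat' first
    | (refine Dfn.inv ?_; fun_prop) | (refine Dfn.orc ?_; fun_prop) | assumption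
    | refine Dfn.and ?_ ?_ | refine Dfn.or ?_ ?_ | refine Dfn.iff ?_ ?_ | refine Dfn.not ?_
    | refine Dfn.allO (by fun_prop) ?_ | refine Dfn.exO (by fun_prop) ?_
    | refine Dfn.allO' (by fun_prop) ?_ | refine Dfn.exO' (by fun_prop) ?_
    | refine Dfn.allE (by fun_prop) ?_ | refine Dfn.exE (by fun_prop) ?_
    | refine Dfn.allE' (by fun_prop) ?_ | refine Dfn.exE' (by fun_prop) ?_
    | refine Dfn.allL (by fun_prop) ?_ | refine Dfn.exL (by fun_prop) ?_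
    | refine Dfn.allL' (by fun_prop) ?_ | refine Dfn.exL' (by fun_prop) ?_
    | refine Dfn.allM (by fun_prop) ?_ | refine Dfn.exM (by fun_prop) ?_
    | refine Dfn.imp ?_ ?_ | refine Dfn.allP ?_ | refine Dfn.exP ?_

lemma Dfn.child (h1 : Inv x) (h2 : Inv y) (h3 : Inv p) :
    Dfn fun O a => child O (x a) (y a) (p a) := by
  unfold MP_2c8569_lc.child
  repeat' first
    | (refine Dfn.inv ?_; fun_prop) | (refine Dfn.orc ?_; fun_prop) | assumption
    | refine Dfn.and ?_ ?_ | refine Dfn.or ?_ ?_ | refine Dfn.iff ?_ ?_ | refine Dfn.not ?_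
    | refine Dfn.allO (by fun_prop) ?_ | refine Dfn.exO (by fun_prop) ?_
    | refine Dfn.allO' (by fun_prop) ?_ | refine Dfn.exO' (by fun_prop) ?_
    | refine Dfn.allE (by fun_prop) ?_ | refine Dfn.exE (by fun_prop) ?_
    | refine Dfn.allE' (by fun_prop) ?_ | refine Dfn.exE' (by fun_prop) ?_
    | refine Dfn.allL (by fun_prop) ?_ | refine Dfn.exL (by fun_prop) ?_
    | refine Dfn.allL' (by fun_prop) ?_ | refine Dfn.exL' (by fun_prop) ?_
    | refine Dfn.allM (by fun_prop) ?_ | refine Dfn.exM (by fun_prop) ?_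
    | refine Dfn.imp ?_ ?_ | refine Dfn.allP ?_ | refine Dfn.exP ?_

lemma Dfn.Mem (h1 : Inv k) (h2 : Inv η) (h3 : Inv p) (h4 : Inv x) (h5 : Inv y) :
    Dfn fun O a => Mem O (k a) (η a) (p a) (x a) (y a) := by
  unfold MP_2c8569_lc.Mem MP_2c8569_lc.child
  repeat' first
    | (refine Dfn.inv ?_; fun_prop) | (refine Dfn.orc ?_; fun_prop) | assumption
    | refine Dfn.and ?_ ?_ | refine Dfn.or ?_ ?_ | refine Dfn.iff ?_ ?_ | refine Dfn.not ?_
    | refine Dfn.allO (by fun_prop) ?_ | refine Dfn.exO (by fun_prop) ?_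
    | refine Dfn.allO' (by fun_prop) ?_ | refine Dfn.exO' (by fun_prop) ?_
    | refine Dfn.allE (by fun_prop) ?_ | refine Dfn.exE (by fun_prop) ?_
    | refine Dfn.allE' (by fun_prop) ?_ | refine Dfn.exE' (by fun_prop) ?_
    | refine Dfn.allL (by fun_prop) ?_ | refine Dfn.exL (by fun_prop) ?_
    | refine Dfn.allL' (by fun_prop) ?_ | refine Dfn.exL' (by fun_prop) ?_
    | refine Dfn.allM (by fun_prop) ?_ | refine Dfn.exM (by fun_prop) ?_
    | refine Dfn.imp ?_ ?_ | refine Dfn.allP ?_ | refine Dfn.exP ?_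
end

lemma dfn_cV : Dfn cV := by
  unfold cV Bnd Hit
  repeat' first
    | (refine Dfn.inv ?_; fun_prop) | (refine Dfn.orc ?_; fun_prop) | assumption
    | refine Dfn.and ?_ ?_ | refine Dfn.or ?_ ?_ | refine Dfn.iff ?_ ?_ | refine Dfn.not ?_
    | refine Dfn.allO (by fun_prop) ?_ | refine Dfn.exO (by fun_prop) ?_
    | refine Dfn.allO' (by fun_prop) ?_ | refine Dfn.exO' (by fun_prop) ?_
    | refine Dfn.allE (by fun_prop) ?_ | refine Dfn.exE (by fun_prop) ?_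
    | refine Dfn.allE' (by fun_prop) ?_ | refine Dfn.exE' (by fun_prop) ?_
    | refine Dfn.allL (by fun_prop) ?_ | refine Dfn.exL (by fun_prop) ?_
    | refine Dfn.allL' (by fun_prop) ?_ | refine Dfn.exL' (by fun_prop) ?_
    | refine Dfn.allM (by fun_prop) ?_ | refine Dfn.exM (by fun_prop) ?_
    | refine Dfn.imp ?_ ?_ | refine Dfn.allP ?_ | refine Dfn.exP ?_

lemma dfn_cE : Dfn cE := by
  unfold cE Mem child
  repeat' first
    | (refine Dfn.inv ?_; fun_prop) | (refine Dfn.orc ?_; fun_prop) | assumption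
    | refine Dfn.and ?_ ?_ | refine Dfn.or ?_ ?_ | refine Dfn.iff ?_ ?_ | refine Dfn.not ?_
    | refine Dfn.allO (by fun_prop) ?_ | refine Dfn.exO (by fun_prop) ?_
    | refine Dfn.allO' (by fun_prop) ?_ | refine Dfn.exO' (by fun_prop) ?_
    | refine Dfn.allE (by fun_prop) ?_ | refine Dfn.exE (by fun_prop) ?_
    | refine Dfn.allE' (by fun_prop) ?_ | refine Dfn.exE' (by fun_prop) ?_
    | refine Dfn.allL (by fun_prop) ?_ | refine Dfn.exL (by fun_prop) ?_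
    | refine Dfn.allL' (by fun_prop) ?_ | refine Dfn.exL' (by fun_prop) ?_
    | refine Dfn.allM (by fun_prop) ?_ | refine Dfn.exM (by fun_prop) ?_
    | refine Dfn.imp ?_ ?_ | refine Dfn.allP ?_ | refine Dfn.exP ?_

lemma dfn_cF : Dfn cF := by
  unfold cF Mem child
  repeat' first
    | (refine Dfn.inv ?_; fun_prop) | (refine Dfn.orc ?_; fun_prop) | assumption
    | refine Dfn.and ?_ ?_ | refine Dfn.or ?_ ?_ | refine Dfn.iff ?_ ?_ | refine Dfn.not ?_
    | refine Dfn.allO (by fun_prop) ?_ | refine Dfn.exO (by fun_prop) ?_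
    | refine Dfn.allO' (by fun_prop) ?_ | refine Dfn.exO' (by fun_prop) ?_
    | refine Dfn.allE (by fun_prop) ?_ | refine Dfn.exE (by fun_prop) ?_
    | refine Dfn.allE' (by fun_prop) ?_ | refine Dfn.exE' (by fun_prop) ?_
    | refine Dfn.allL (by fun_prop) ?_ | refine Dfn.exL (by fun_prop) ?_
    | refine Dfn.allL' (by fun_prop) ?_ | refine Dfn.exL' (by fun_prop) ?_
    | refine Dfn.allM (by fun_prop) ?_ | refine Dfn.exM (by fun_prop) ?_
    | refine Dfn.imp ?_ ?_ | refine Dfn.allP ?_ | refine Dfn.exP ?_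

lemma dfn_cN : Dfn cN := by
  unfold cN
  repeat' first
    | (refine Dfn.inv ?_; fun_prop) | (refine Dfn.orc ?_; fun_prop) | assumption
    | refine Dfn.and ?_ ?_ | refine Dfn.or ?_ ?_ | refine Dfn.iff ?_ ?_ | refine Dfn.not ?_
    | refine Dfn.allO (by fun_prop) ?_ | refine Dfn.exO (by fun_prop) ?_
    | refine Dfn.allO' (by fun_prop) ?_ | refine Dfn.exO' (by fun_prop) ?_
    | refine Dfn.allE (by fun_prop) ?_ | refine Dfn.exE (by fun_prop) ?_
    | refine Dfn.allE' (by fun_prop) ?_ | refine Dfn.exE' (by fun_prop) ?_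
    | refine Dfn.allL (by fun_prop) ?_ | refine Dfn.exL (by fun_prop) ?_
    | refine Dfn.allL' (by fun_prop) ?_ | refine Dfn.exL' (by fun_prop) ?_
    | refine Dfn.allM (by fun_prop) ?_ | refine Dfn.exM (by fun_prop) ?_
    | refine Dfn.imp ?_ ?_ | refine Dfn.allP ?_ | refine Dfn.exP ?_

lemma dfn_cO : Dfn cO := by
  unfold cO
  repeat' first
    | (refine Dfn.inv ?_; fun_prop) | (refine Dfn.orc ?_; fun_prop) | assumption
    | refine Dfn.and ?_ ?_ | refine Dfn.or ?_ ?_ | refine Dfn.iff ?_ ?_ | refine Dfn.not ?_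
    | refine Dfn.allO (by fun_prop) ?_ | refine Dfn.exO (by fun_prop) ?_
    | refine Dfn.allO' (by fun_prop) ?_ | refine Dfn.exO' (by fun_prop) ?_
    | refine Dfn.allE (by fun_prop) ?_ | refine Dfn.exE (by fun_prop) ?_
    | refine Dfn.allE' (by fun_prop) ?_ | refine Dfn.exE' (by fun_prop) ?_
    | refine Dfn.allL (by fun_prop) ?_ | refine Dfn.exL (by fun_prop) ?_
    | refine Dfn.allL' (by fun_prop) ?_ | refine Dfn.exL' (by fun_prop) ?_
    | refine Dfn.allM (by fun_prop) ?_ | refine Dfn.exM (by fun_prop) ?_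
    | refine Dfn.imp ?_ ?_ | refine Dfn.allP ?_ | refine Dfn.exP ?_

/-- The first five formulas of the system are the standard ones. -/
structure Std (s : Sys) : Prop where
  v : Rep s 0 cV
  e : Rep s 1 cE
  f : Rep s 2 cF
  n : Rep s 3 cN
  o : Rep s 4 cO

section
variable {y : Obj} {μ ν : WithBot Λ} {c c' : ℕ}
lemma RL.of_c (h : mx y ≤ μ) (h' : fc y < c) : RL y μ c ν c' :=
  h.lt_or_eq.imp_right fun h => ⟨h, .inl h'⟩
lemma RL.of_B (h : mx y ≤ μ) (h' : fc y = c) (h'' : mx (fB y) < ν) : RL y μ c ν c' :=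
  h.lt_or_eq.imp_right fun h => ⟨h, .inr ⟨h', .inl h''⟩⟩
lemma RL.of_c' (h : mx y ≤ μ) (h' : fc y = c) (h'' : mx (fB y) ≤ ν) (h3 : fc' y < c') :
    RL y μ c ν c' :=
  h.lt_or_eq.imp_right fun h => ⟨h, .inr ⟨h', h''.lt_or_eq.imp_right fun h => ⟨h, h3⟩⟩⟩
end

lemma Hit_congr {O O' : Orc} {x : Obj} (h : ∀ y, mx y ≤ mx x → (O y ↔ O' y)) (c : ℕ) (r : Cond) :
    Hit O x c r ↔ Hit O' x c r :=
  exists_congr fun r₀ => and_congr_right fun h1 => and_congr_right fun _ =>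
    h _ ((mx_plug_le _ _).trans (by simpa using h1))

lemma Hit.mono {O : Orc} {x : Obj} {c : ℕ} {r r' : Cond} (h : Hit O x c r) (h' : Sub r r') :
    Hit O x c r' := let ⟨r₀, h1, h2, h3⟩ := h; ⟨r₀, h1, h2.trans h', h3⟩

lemma Bnd.mono {O : Orc} {k ξ : Λ} {x : Obj} {n M : ℕ} {r r' : Cond} (h : Bnd O k ξ x n M r)
    (h' : Sub r r') : Bnd O k ξ x n M r' := fun q h1 h2 h3 => h q h1 h2 (h'.trans h3)

lemma Bnd.mono' {O : Orc} {k ξ : Λ} {x : Obj} {n M M' : ℕ} {r : Cond} (h : Bnd O k ξ x n M r)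
    (h' : M ≤ M') : Bnd O k ξ x n M' r := fun q h1 h2 h3 h4 =>
  let ⟨q', h5, h6, h7, m, h8, h9⟩ := h q h1 h2 h3 h4; ⟨q', h5, h6, h7, m, h8.trans h', h9⟩

lemma Mem_congr {O O' : Orc} {k η : Λ} {z x : Obj}
    (h1 : ∀ q : Cond, mx (enc q) < k → (O (pV k η q) ↔ O' (pV k η q)))
    (h2 : ∀ y, mx y < mx x → (O y ↔ O' y))
    (h3 : ∀ (r : Cond) z', mx (enc r) < k → mx z' < mx x →
      (O (pE k η z z' r) ↔ O' (pE k η z z' r))) (p : Cond) :
    Mem O k η p z x ↔ Mem O' k η p z x := by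
  refine forall₂_congr fun q hq => imp_congr (h1 q hq) (imp_congr_right fun _ =>
    exists_congr fun r => and_congr_right fun hr => and_congr (h1 r hr) (and_congr_right fun _ =>
    exists_congr fun z' => and_congr_right fun hz => and_congr ?_ (h3 r z' hr hz)))
  exact exists_congr fun r₀ => and_congr_right fun _ => and_congr_right fun _ =>
    and_congr_right fun h => h2 _ h

lemma mx_getD_le (v : List Obj) (i : ℕ) : mx (v.getD i nil) ≤ mx (enc v) := by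
  rcases lt_or_ge i v.length with h | h
  · rw [List.getD_eq_getElem _ _ h]
    exact mx_le_of_mem (a := v[i]) (List.getElem_mem h)
  · rw [List.getD_eq_default _ _ h]; simp

variable {s : Sys} {b : Set ℕ}

lemma T_pV (hs : Std s) (k η : Λ) (p : Cond) : T s b (pV k η p) ↔ cV (T s b) (p, k, η) := by
  refine (hs.v.T_iff 0 0 (a := (p, k, η)) (by simp)).trans ?_
  refine and_congr_right fun h1 => and_congr_right fun h2 => and_congr_right fun h3 =>
    and_congr_right fun _ => forall₂_congr fun c hc => forall₂_congr fun c' _ =>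
    forall₂_congr fun _ _ => ?_
  have hx := ((mx_cond_lt.1 h1).2 c hc).2
  have hξ := h3.2 c hc
  simp only at h1 h2 hx hξ ⊢
  have hH : ∀ c' r, Hit (fun y => RL y (mx (enc (p, k, η))) 0 (mx (lab η)) 0 ∧ T s b y) c.2.1 c' r ↔
      Hit (T s b) c.2.1 c' r := Hit_congr fun y hy =>
    and_iff_right (.inl ((hy.trans_lt hx).trans_le (by simp)))
  have hV : ∀ r : Cond, mx (enc r) < k →
      RL (pV k c.1 r) (mx (enc (p, k, η))) 0 (mx (lab η)) 0 := fun r hr =>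
    RL.of_B (by simp [hr.le, (hξ.trans_le h2).le]) rfl (by simpa [pV] using hξ)
  unfold Bnd
  simp only [hH]
  refine forall₂_congr fun r hr => imp_congr (and_iff_right (hV r hr)) (imp_congr_right fun _ =>
    imp_congr_right fun _ => exists_congr fun r' => and_congr_right fun hr' =>
    and_congr_left fun _ => and_iff_right (hV r' hr'))

lemma T_pE (hs : Std s) (k η : Λ) (x y : Obj) (p : Cond) :
    T s b (pE k η x y p) ↔ cE (T s b) (p, k, η, x, y) := by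
  refine (hs.e.T_iff 1 0 (a := (p, k, η, x, y)) (by simp)).trans ?_
  have hV : ∀ q : Cond, mx (enc q) < k →
      RL (pV k η q) (mx (enc (p, k, η, x, y))) 1 (mx (node x y)) 0 := fun q hq =>
    RL.of_c (by simp only [mx_pV, enc_pair, mx_node, enc_lab, mx_lab]; order) (by simp [pV])
  have hM : ∀ z w, mx z < max (mx x) (mx y) → mx w ≤ max (mx x) (mx y) → ∀ q,
      Mem (fun y' => RL y' (mx (enc (p, k, η, x, y))) 1 (mx (node x y)) 0 ∧ T s b y') k η q z w ↔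
        Mem (T s b) k η q z w := by
    intro z w hz hw
    have hw' : max (mx x) (mx y) ≤ mx (enc (p, k, η, x, y)) := by simp
    refine Mem_congr (fun q hq => and_iff_right (hV q hq))
      (fun y' hy => and_iff_right (.inl (hy.trans_le (hw.trans hw')))) fun r z' hr hz' => ?_
    refine and_iff_right (RL.of_B ?_ rfl ?_)
    · simp only [mx_pE, max_le_iff]
      exact ⟨hr.le.trans (by simp), by simp, by simp, hz.le.trans hw', (hz'.le.trans hw).trans hw'⟩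
    · simp only [pE, fB_hd, mx_node, max_lt_iff]
      exact ⟨hz, hz'.trans_le hw⟩
  refine forall₂_congr fun z hz => forall₂_congr fun q hq => imp_congr (and_iff_right (hV q hq))
    (imp_congr_right fun _ => iff_congr (hM _ _ hz (by simp) q) (hM _ _ hz (by simp) q))

lemma T_pF (hs : Std s) (k η β : Λ) (φ : Fm) (v : List Obj) (p : Cond) :
    T s b (pF k η β φ v p) ↔ cF (T s b) (p, k, η, β, φ, v) := by
  refine (hs.f.T_iff 1 (φ.dep + 1) (a := (p, k, η, β, φ, v)) (by simp)).trans ?_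
  set μ := mx (enc (p, k, η, β, φ, v)) with hμ
  set ν := mx (node (lab β) (enc v)) with hν
  have hv : mx (enc v) ≤ ν := by simp [hν]
  have hνμ : ν ≤ μ := by simp [hν, hμ]
  have hk : (k : WithBot Λ) ≤ μ := by simp [hμ]
  have hη : (η : WithBot Λ) ≤ μ := by simp [hμ]
  have hp : mx (enc p) ≤ μ := by simp [hμ]
  have hβ : (β : WithBot Λ) ≤ ν := by simp [hν]
  clear_value μ ν
  have hV : ∀ q : Cond, mx (enc q) < k → RL (pV k η q) μ 1 ν (φ.dep + 1) := fun q hq =>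
    RL.of_c (by simp [hq.le.trans hk, hk, hη]) (by simp [pV])
  have hE : ∀ (x y : Obj) (q : Cond), mx x ≤ ν → mx y ≤ ν → mx (enc q) ≤ μ →
      RL (pE k η x y q) μ 1 ν (φ.dep + 1) := fun x y q hx hy hq =>
    RL.of_c' (by simp [hq, hk, hη, hx.trans hνμ, hy.trans hνμ]) rfl (by simp [pE, hx, hy])
      (by simp [pE])
  have hF : ∀ ψ (v' : List Obj) (q : Cond), ψ.dep < φ.dep → mx (enc v') ≤ ν → mx (enc q) ≤ μ →
      RL (pF k η β ψ v' q) μ 1 ν (φ.dep + 1) := fun ψ v' q h1 h2 h3 =>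
    RL.of_c' (by simp [h3, hk, hη, h2.trans hνμ, hβ.trans hνμ]) rfl (by simp [pF, h2, hβ])
      (by simpa [pF] using h1)
  have hg := fun i => (mx_getD_le v i).trans hv
  have hM : ∀ i j, Mem (fun y => RL y μ 1 ν (φ.dep + 1) ∧ T s b y) k η p (v.getD i nil)
      (v.getD j nil) ↔ Mem (T s b) k η p (v.getD i nil) (v.getD j nil) := fun i j => by
    refine Mem_congr (fun q hq => and_iff_right (hV q hq)) (fun y' hy => ?_)
      (fun r z' hr hz' => ?_) _
    · exact and_iff_right (.inl (hy.trans_le ((hg j).trans hνμ)))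
    · exact and_iff_right (hE _ _ _ (hg i) (hz'.le.trans (hg j)) (hr.le.trans hk))
  refine and_congr (forall₃_congr fun i j _ => hM i j)
    (and_congr (forall₃_congr fun i j _ => and_iff_right (hE _ _ _ (hg i) (hg j) hp))
    (and_congr_right fun _ => and_congr (forall₃_congr fun ψ χ h => forall₂_congr fun q hq => ?_)
      (forall₂_congr fun ψ h => forall₂_congr fun z hz => ?_)))
  · simp only at h
    refine imp_congr (and_iff_right (hV q hq)) (imp_congr_right fun _ => imp_congr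
      (and_iff_right (hF _ _ _ ?_ hv (hq.le.trans hk)))
      (and_iff_right (hF _ _ _ ?_ hv (hq.le.trans hk)))) <;> simp [h, Fm.dep]
  · simp only at h hz
    exact and_iff_right (hF _ _ _ (by simp [h, Fm.dep]) (by simp [hz.le.trans hβ, hv]) hp)

lemma T_pN (hs : Std s) (j : Λ) (n : ℕ) : T s b (pN j n) ↔ j = n := by
  induction j using WellFoundedLT.induction generalizing n with
  | _ j ih =>
  refine (hs.n.T_iff 0 0 (a := (n, j)) (by simp)).trans ?_
  have : ∀ i < j, ∀ m, (RL (pN i m) (mx (enc (n, j))) 0 (mx nil) 0 ∧ T s b (pN i m)) ↔ i = m :=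
    fun i hi m => (and_iff_right (.inl (by simpa using hi))).trans (ih i hi m)
  constructor
  · rintro ⟨h1, h2⟩
    refine le_antisymm (not_lt.1 fun h => ?_) (not_lt.1 fun h => ?_)
    · obtain ⟨m, hm, h'⟩ := h1 _ h
      exact hm.ne' (Nat.cast_injective ((this _ h m).1 h'))
    · obtain ⟨m, rfl⟩ := Ordinal.lt_omega0.1 (h.trans (Ordinal.natCast_lt_omega0 n))
      obtain ⟨i, hi, h'⟩ := h2 m (Nat.cast_lt.1 h)
      exact hi.ne ((this _ hi m).1 h')
  · rintro rfl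
    refine ⟨fun i hi => ?_, fun m hm => ?_⟩
    · obtain ⟨m, rfl⟩ := Ordinal.lt_omega0.1 (hi.trans (Ordinal.natCast_lt_omega0 n))
      exact ⟨m, Nat.cast_lt.1 hi, (this _ hi m).2 rfl⟩
    · exact ⟨m, Nat.cast_lt.2 hm, (this _ (Nat.cast_lt.2 hm) m).2 rfl⟩

lemma child_on (hs : Std s) (j : Λ) (z : Obj) (r : Cond) :
    child (T s b) (on j) z r ↔ mx (enc r) < j ∧ ∃ i < j, z = on i := by
  have := hs.o.T_iff (b := b) 0 (B := nil) 0 (a := ((z, r), (nil : Obj))) (by simp)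
  unfold child
  rw [show plug (on j).snd (enc (z, r)) = node (hd 0 nil 0 1 4 []) (enc ((z, r), (nil : Obj)))
    from rfl, this]
  simp only [mx_node, mx_hd, mx_nil, enc_pair, enc_obj, mx_on, cO]
  constructor
  · rintro ⟨h, i, -, rfl⟩
    simp only [mx_on, bot_le, max_eq_right, max_eq_left, max_lt_iff, WithBot.coe_lt_coe] at h
    exact ⟨h.2, i, h.1, rfl⟩
  · rintro ⟨h, i, hi, rfl⟩
    exact ⟨by simp [h, hi], i, by simp, rfl⟩

end Pool.Agent.Lib.MP_2c8569_lc
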