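import Pool.Agent.Lib.MP_2c8569_lc.Gen

set_option autoImplicit false

namespace Pool.Agent.Lib.MP_2c8569_lc

open Classical Ob Filter Ctx

/-- `y` begins with one of the `n + 1` words of length `2 * n + 1` listed by `c` at `n`. -/
def cap (c y : ℕ → Prop) (n : ℕ) : Prop :=
  ∃ i, i < n + 1 ∧ ∀ t, t < 2 * n + 1 → (y t ↔ c (Nat.pair n (Nat.pair i t)))

def Dc (O : Orc) (k ξ : Λ) (x : Obj) (t : ℕ) (β : Prop) (q : Cond) : Prop :=
  (β ∧ Hit O x t q) ∨ (¬ β ∧ ∀ q' : Cond, mx (enc q') < k → O (pV k ξ q') → Sub q q' →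
    ¬ Hit O x t q')

def dL (i : ℕ) : List (ℕ × ℕ × ℕ) := Denumerable.ofNat _ i

def Pat (O : Orc) (e : Obj) (i : ℕ) (p : Cond) : Prop :=
  (∀ c, c ∈ p.1 → ∃ a, a ∈ dL i ∧ O (plug e (enc (c.1, a.1))) ∧ a.2 = c.2) ∧
  ∀ a, a ∈ dL i → ∃ c, c ∈ p.1 ∧ O (plug e (enc (c.1, a.1))) ∧ a.2 = c.2

def Gd (O : Orc) (k ξ : Λ) (x e : Obj) (i : ℕ) (s : List Bool) : Prop :=
  ∀ p : Cond, mx (enc p) < k → O (pV k ξ p) → Pat O e i p → ∃ q : Cond, mx (enc q) < k ∧
    O (pV k ξ q) ∧ Sub p q ∧ ∀ t, t < s.length → Dc O k ξ x t (s.getD t false = true) q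

lemma Pat.sub {O : Orc} {e : Obj} {ξ : Λ} (he : Enu O e ξ) {i : ℕ} {p q : Cond} (hp : Pat O e i p)
    (hq : Pat O e i q) (hp' : Supp ξ p) (hq' : Supp ξ q) : p.1 ⊆ q.1 := fun c hc => by
  obtain ⟨a, h1, h2, h3⟩ := hp.1 c hc
  obtain ⟨c', h4, h5, h6⟩ := hq.2 a h1
  have := he.2.2 _ _ ((WithBot.coe_le_coe.2 (hp'.1 c hc).le).trans he.1) _
    ((WithBot.coe_le_coe.2 (hq'.1 c' h4).le).trans he.1) h2 h5
  rwa [show c = c' from Prod.ext this (h3.symm.trans h6)]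

lemma exists_pat {O : Orc} {e : Obj} {ξ : Λ} (he : Enu O e ξ) {p : Cond} (hp : Supp ξ p) :
    ∃ i, Pat O e i p := by
  choose! g hg using he.2.1
  refine ⟨Encodable.encode (p.1.map fun c => (g c.1, c.2)), fun c hc => ⟨(g c.1, c.2), ?_,
    hg _ (hp.1 c hc), rfl⟩, fun a ha => ?_⟩
  · rw [dL, Denumerable.ofNat_encode]
    exact List.mem_map.2 ⟨c, hc, rfl⟩
  · rw [dL, Denumerable.ofNat_encode] at ha
    obtain ⟨c, hc, rfl⟩ := List.mem_map.1 ha
    exact ⟨c, hc, hg _ (hp.1 c hc), rfl⟩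

lemma exists_gd {C : Ctx} {ξ : Λ} {e : Obj} (he : Enu C.T e ξ) (x : Obj) (i N : ℕ) :
    ∃ s : List Bool, s.length = N ∧ Gd C.T C.k ξ x e i s := by
  by_contra hc
  simp only [Gd, not_exists, not_and, not_forall] at hc
  obtain ⟨p0, -, h0, h0', -⟩ := hc (List.replicate N false) (by simp)
  have h1 : ∀ S : Set (List Bool), S.Finite → (∀ s ∈ S, s.length = N) → ∃ p, C.V ξ p ∧
      Pat C.T e i p ∧ ∀ s ∈ S, ∀ q, C.V ξ q → Sub p q →
        ¬ ∀ t, t < s.length → Dc C.T C.k ξ x t (s.getD t false = true) q := by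
    intro S hS
    induction S, hS using Set.Finite.induction_on with
    | empty => exact fun _ => ⟨p0, h0, h0', by simp⟩
    | @insert s S _ _ ih =>
      intro h
      obtain ⟨p, e1, e2, e3⟩ := ih fun s hs => h s (.inr hs)
      obtain ⟨p', -, e4, e5, e6⟩ := hc s (h s (.inl rfl))
      have e7 := e2.sub he e5 (e1.supp C.std) (Valid.supp C.std e4)
      have e8 := e5.sub he e2 (Valid.supp C.std e4) (e1.supp C.std)
      refine ⟨un p p', valid_un C.std e1 e4 (fun c hc _ _ _ => .inl (e7 hc))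
        (fun _ _ _ hc _ => .inr (e8 hc)) fun _ _ _ hc _ => .inr (e7 hc),
        ⟨fun c hc => (mem_un1.1 hc).elim (e2.1 c) (e5.1 c), fun a ha =>
          (e2.2 a ha).imp fun c h => ⟨mem_un1.2 (.inl h.1), h.2⟩⟩, ?_⟩
      rintro s' (rfl | hs) q e9 e10
      · have := e6 q e9.mx_lt e9 ((sub_un_right _ _).trans e10)
        simpa only [not_forall] using this
      · exact e3 s' hs q e9 ((sub_un_left _ _).trans e10)
  obtain ⟨p, e1, -, e2⟩ := h1 _ (List.finite_length_eq Bool N) fun _ h => h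
  have h2 : ∀ M, ∃ q, C.V ξ q ∧ Sub p q ∧ ∀ t < M, Hit C.T x t q ∨
      ∀ q', C.V ξ q' → Sub q q' → ¬ Hit C.T x t q' := fun M => by
    induction M with
    | zero => exact ⟨p, e1, Sub.rfl, by simp⟩
    | succ M ih =>
      obtain ⟨q, e3, e4, e5⟩ := ih
      by_cases h : ∃ q', C.V ξ q' ∧ Sub q q' ∧ Hit C.T x M q'
      · obtain ⟨q', e6, e7, e8⟩ := h
        exact ⟨q', e6, e4.trans e7, Nat.forall_lt_succ_right.2 ⟨fun t ht => (e5 t ht).imp
          (fun h => h.mono e7) fun h r e9 e10 => h r e9 (e7.trans e10), .inl e8⟩⟩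
      · exact ⟨q, e3, e4, Nat.forall_lt_succ_right.2
          ⟨e5, .inr fun r e9 e10 e11 => h ⟨r, e9, e10, e11⟩⟩⟩
  obtain ⟨q, e3, e4, e5⟩ := h2 N
  refine e2 (pre (fun t => decide (Hit C.T x t q)) N) (by simp) q e3 e4 fun t ht => ?_
  rw [length_pre] at ht
  rw [getD_pre _ ht, decide_eq_true_eq]
  by_cases h : Hit C.T x t q
  · exact .inl ⟨h, h⟩
  · exact .inr ⟨h, fun r _ => (e5 t ht).resolve_left h r⟩

/-- Every real is captured infinitely often by a code of the ground model. -/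
lemma ev_cov : ∀ᶠ C in 𝓕, ∀ Y, C.RR C.k Y → ∃ x, mx x < C.k ∧
    ∀ j, ∃ n, j ≤ n ∧ cap (fun m => C.T (plug x (nat m))) (· ∈ Y) n := by
  have d1 : Dfn fun O (a : ℕ × Λ × Λ × Obj × Obj) => ∃ s : List Bool,
      s.length = 2 * a.1.unpair.1 + 1 ∧
      Gd O a.2.1 a.2.2.1 a.2.2.2.1 a.2.2.2.2 a.1.unpair.2.unpair.1 s ∧
      (∀ s' : List Bool, s'.length = s.length →
        Gd O a.2.1 a.2.2.1 a.2.2.2.1 a.2.2.2.2 a.1.unpair.2.unpair.1 s' →
        Encodable.encode s ≤ Encodable.encode s') ∧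
      s.getD a.1.unpair.2.unpair.2 false = true := by
    unfold Gd Pat Dc Hit
    repeat' first
      | (refine Dfn.inv ?_; fun_prop) | (refine Dfn.orc ?_; fun_prop) | assumption
      | refine Dfn.and ?_ ?_ | refine Dfn.or ?_ ?_ | refine Dfn.iff ?_ ?_ | refine Dfn.not ?_
      | refine Dfn.allO (by fun_prop) ?_ | refine Dfn.exO (by fun_prop) ?_
      | refine Dfn.allO' (by fun_prop) ?_ | refine Dfn.exO' (by fun_prop) ?_
      | refine Dfn.allE (by fun_prop) ?_ | refine Dfn.exE (by fun_prop) ?_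
      | refine Dfn.allE' (by fun_prop) ?_ | refine Dfn.exE' (by fun_prop) ?_
      | refine Dfn.allL (by fun_prop) ?_ | refine Dfn.exL (by fun_prop) ?_
      | refine Dfn.allL' (by fun_prop) ?_ | refine Dfn.exL' (by fun_prop) ?_
      | refine Dfn.allM (by fun_prop) ?_ | refine Dfn.exM (by fun_prop) ?_
      | refine Dfn.imp ?_ ?_ | refine Dfn.allP ?_ | refine Dfn.exP ?_
  have d2 : Dfn fun O (a : Cond × Λ × Λ × Obj × Obj × ℕ) => ∃ n, a.2.2.2.2.2 ≤ n ∧ ∃ i, i < n + 1 ∧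
      ∀ t, t < 2 * n + 1 → Dc O a.2.1 a.2.2.1 a.2.2.2.1 t
        (O (plug a.2.2.2.2.1 (nat (Nat.pair n (Nat.pair i t))))) a.1 := by
    unfold Dc Hit
    repeat' first
      | (refine Dfn.inv ?_; fun_prop) | (refine Dfn.orc ?_; fun_prop) | assumption
      | refine Dfn.and ?_ ?_ | refine Dfn.or ?_ ?_ | refine Dfn.iff ?_ ?_ | refine Dfn.not ?_
      | refine Dfn.allO (by fun_prop) ?_ | refine Dfn.exO (by fun_prop) ?_
      | refine Dfn.allO' (by fun_prop) ?_ | refine Dfn.exO' (by fun_prop) ?_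
      | refine Dfn.allE (by fun_prop) ?_ | refine Dfn.exE (by fun_prop) ?_
      | refine Dfn.allE' (by fun_prop) ?_ | refine Dfn.exE' (by fun_prop) ?_
      | refine Dfn.allL (by fun_prop) ?_ | refine Dfn.exL (by fun_prop) ?_
      | refine Dfn.allL' (by fun_prop) ?_ | refine Dfn.exL' (by fun_prop) ?_
      | refine Dfn.allM (by fun_prop) ?_ | refine Dfn.exM (by fun_prop) ?_
      | refine Dfn.imp ?_ ?_ | refine Dfn.allP ?_ | refine Dfn.exP ?_
  filter_upwards [ev_prog d1, ev_dec d2, ev_stage, ev_hull] with C ⟨d, h1⟩ h2 hS hH Y hY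
  obtain ⟨ξ, hξ, x, hx, h⟩ := hS Y hY
  obtain ⟨e, he, hE⟩ := C.good.enu ξ hξ
  obtain ⟨l, hl, hk, hx'⟩ := C.exists_lt_δ (max_lt hx (he.trans (WithBot.coe_lt_coe.2 C.good.aδ)))
  simp only [max_lt_iff] at hx'
  have ha : mx (enc (C.k, ξ, x, e)) < l := by simp [hk, hξ.trans hk, hx']
  have hX : mx (prog d l (C.k, ξ, x, e)) < C.δ := by
    simp only [mx_prog, max_lt_iff]
    exact ⟨WithBot.coe_lt_coe.2 hl, ha.trans (WithBot.coe_lt_coe.2 hl)⟩
  have hδ := WithBot.coe_lt_coe.2 C.δD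
  have key : ∀ j, ∃ n, j ≤ n ∧
      cap (fun m => C.T (plug (prog d l (C.k, ξ, x, e)) (nat m))) (· ∈ Y) n := fun j => by
    obtain ⟨r, hr, -, n, e1, i, e2, e3⟩ := h2.meet hξ.le
      (a := (C.k, ξ, x, prog d l (C.k, ξ, x, e), j))
      (by simp only [enc_pair, mx_node, max_lt_iff]
          simp [C.kD, hξ.trans C.kD, hx.trans hδ, hX.trans hδ, -mx_prog]) (emp_mem hξ.le)
      fun p hp _ => by
        obtain ⟨i, hi⟩ := exists_pat hE (hp.supp C.std)
        obtain ⟨s, ⟨e1, e2⟩, e3⟩ := (measure Encodable.encode).wf.has_min _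
          (exists_gd hE x i (2 * max i j + 1))
        obtain ⟨q, -, e4, e5, e6⟩ := e2 p hp.mx_lt hp hi
        refine ⟨q, e4, e5, max i j, le_max_right _ _, i, by omega, fun t ht => ?_⟩
        convert e6 t (e1 ▸ ht) using 1
        refine (h1 _ _ _ (Nat.pair (max i j) (Nat.pair i t)) ha).trans ?_
        simp only [Nat.unpair_pair, mx_enc_pur, WithBot.bot_lt_coe, true_and]
        refine ⟨fun ⟨s', f1, f2, f3, f4⟩ => ?_, fun f => ⟨s, e1, e2, fun s' f1 f2 =>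
          not_lt.1 (e3 s' ⟨f1.trans e1, f2⟩), f⟩⟩
        rwa [Encodable.encode_injective ((f3 s (e1.trans f1.symm) e2).antisymm
          (not_lt.1 (e3 s' ⟨f1, f2⟩)))] at f4
    refine ⟨n, e1, i, e2, fun t ht => ?_⟩
    rcases e3 t ht with ⟨e4, e5⟩ | ⟨e4, e5⟩
    · exact iff_of_true ((h t).2 ⟨r, hr, e5⟩) e4
    · refine iff_of_false (fun e6 => ?_) e4
      obtain ⟨r', e7, e8⟩ := (h t).1 e6
      obtain ⟨q, -, e9, e10, e11⟩ := (C.gen ξ hξ.le).dir hr e7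
      exact e5 q (V.mx_lt e9) e9 e10 (e8.mono e11)
  obtain ⟨g, hg⟩ := hH _ hX
  refine ⟨Ob.map (col (Set.range g)) (prog d l (C.k, ξ, x, e)), mx_lt_iff.2 ?_, fun j => ?_⟩
  · simp only [labs_map, List.forall_mem_map]
    intro i hi
    obtain ⟨n, rfl⟩ := hg.mem i hi
    exact hg.lt n
  · have := fun m => T_col_plug hg.cl hg.mem (y := nat m) (by simp [ObIn])
    simp only [map_nat] at this
    simpa only [Ctx.T, this] using key j

end Pool.Agent.Lib.MP_2c8569_lc
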