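import Mathlib

set_option autoImplicit false

namespace Pool.Agent.Lib.MP_2c8569_lc

open ZFSet MeasureTheory

/-- Formulas of the language of set theory (de Bruijn variables). -/
inductive Fm : Type
  | mem (i j : ℕ) : Fm
  | eq (i j : ℕ) : Fm
  | fls : Fm
  | imp (φ ψ : Fm) : Fm
  | all (φ : Fm) : Fm

/-- Satisfaction in the structure `(N, ∈)`. -/
def Sat (N : Set ZFSet.{0}) : Fm → List ZFSet.{0} → Prop
  | .mem i j, v => v.getD i ∅ ∈ v.getD j ∅
  | .eq i j, v => v.getD i ∅ = v.getD j ∅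
  | .fls, _ => False
  | .imp φ ψ, v => Sat N φ v → Sat N ψ v
  | .all φ, v => ∀ x ∈ N, Sat N φ (x :: v)

/-- `N` is a transitive model of ZFC: transitivity (which gives Extensionality and Foundation),
Infinity, Pairing, Union, Power Set, the Separation and Collection schemes, and Choice. -/
def IsModel (N : Set ZFSet.{0}) : Prop :=
  (∀ x ∈ N, ∀ y ∈ x, y ∈ N) ∧
  omega ∈ N ∧
  (∀ a ∈ N, ∀ b ∈ N, ({a, b} : ZFSet) ∈ N) ∧
  (∀ a ∈ N, sUnion a ∈ N) ∧
  (∀ a ∈ N, ∃ y ∈ N, ∀ z ∈ N, z ⊆ a → z ∈ y) ∧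
  (∀ (φ : Fm) (v : List ZFSet), (∀ x ∈ v, x ∈ N) → ∀ a ∈ N,
    ZFSet.sep (fun x => Sat N φ (x :: v)) a ∈ N) ∧
  (∀ (φ : Fm) (v : List ZFSet), (∀ x ∈ v, x ∈ N) → ∀ a ∈ N,
    (∀ x ∈ a, ∃ y ∈ N, Sat N φ (y :: x :: v)) → ∃ b ∈ N, ∀ x ∈ a, ∃ y ∈ b, Sat N φ (y :: x :: v)) ∧
  (∀ a ∈ N, ∅ ∉ a → ∃ f ∈ N, ∀ x ∈ a, (∃! y, pair x y ∈ f) ∧ ∀ y, pair x y ∈ f → y ∈ x)

/-- The subsets of `X` that are first-order definable over `(X, ∈)` from parameters in `X` and the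
predicate `a`. -/
noncomputable def DefSet (a X : ZFSet.{0}) : ZFSet.{0} :=
  ZFSet.sep (fun Y => ∃ (φ : Fm) (v : List ZFSet), (∀ x ∈ v, x ∈ X ∨ x = a) ∧
    ∀ z, z ∈ Y ↔ z ∈ X ∧ Sat {x | x ∈ X} φ (z :: v)) (powerset X)

/-- The constructible hierarchy relative to `a`: `L_α[a]` is the union of `Def(L_β[a])` over
`β ∈ α`. -/
noncomputable def Lset (a : ZFSet.{0}) : ZFSet.{0} → ZFSet.{0} :=
  mem_wf.fix fun α L => sUnion (range fun β : {β // β ∈ α} => DefSet a (L β.1 β.2))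

/-- `L[a]` as computed in the transitive model `N`: the union of the levels `L_α[a]` over the
ordinals `α` of `N`. -/
def LIn (N : Set ZFSet.{0}) (a : ZFSet.{0}) : Set ZFSet.{0} :=
  {x | ∃ α ∈ N, α.IsOrdinal ∧ x ∈ Lset a α}

/-- The von Neumann natural number `n`. -/
def natZ (n : ℕ) : ZFSet.{0} := ZFSet.mk (PSet.ofNat n)

/-- A set of natural numbers as a subset of `ω`. -/
def setZ (S : Set ℕ) : ZFSet.{0} := ZFSet.sep (fun x => ∃ n ∈ S, x = natZ n) omega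

/-- A point of Baire space as the set of the pairs `(n, f n)`. -/
noncomputable def funZ (f : ℕ → ℕ) : ZFSet.{0} := range fun n => pair (natZ n) (natZ (f n))

/-- A point of Cantor space as a subset of `ω`. -/
def bitZ (y : ℕ → Bool) : ZFSet.{0} := setZ {n | y n = true}

/-- The statement (D) in `N`: for every real `a` there is a dominating real over `L[a]`. -/
def PropD (N : Set ZFSet.{0}) : Prop :=
  ∀ a : Set ℕ, setZ a ∈ N → ∃ z : ℕ → ℕ, funZ z ∈ N ∧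
    ∀ y : ℕ → ℕ, funZ y ∈ LIn N (setZ a) → ∀ᶠ n in Filter.atTop, y n ≤ z n

/-- The first `n` values of a sequence. -/
def pre {α : Type} (x : ℕ → α) (n : ℕ) : List α := (List.range n).map x

/-- On the points of `N`, `A` is boldface `Σ¹₂` in the sense of `N`: it is given by
`∃ u, ∀ v, (x, y, u, v) ∈ O` with `u, v` ranging over Baire space of `N` and `O` an open set
coded in `N` by a set `S` of initial segments. -/
def Sigma12 (N : Set ZFSet.{0}) (A : Set ((ℕ → ℕ) × (ℕ → Bool))) : Prop :=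
  ∃ S : Set (List ℕ × List Bool × List ℕ × List ℕ), setZ (Encodable.encode '' S) ∈ N ∧
    ∀ x y, funZ x ∈ N → bitZ y ∈ N → ((x, y) ∈ A ↔
      ∃ u, funZ u ∈ N ∧ ∀ v, funZ v ∈ N → ∃ n, (pre x n, pre y n, pre u n, pre v n) ∈ S)

/-- The fair coin-tossing measure on Cantor space. -/
noncomputable def coin : Measure (ℕ → Bool) :=
  Measure.infinitePi fun _ => (PMF.uniformOfFintype Bool).toMeasure

/-- The basic open set of the sequences extending `s`. -/
def cyl (s : List Bool) : Set (ℕ → Bool) := {y | pre y s.length = s}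

/-- The points of `B` in `N` form a null set in the sense of `N`: there is a sequence, coded in
`N`, of open covers of measure at most `2 ^ (-n)`. -/
def NullIn (N : Set ZFSet.{0}) (B : Set (ℕ → Bool)) : Prop :=
  ∃ U : Set (ℕ × List Bool), setZ (Encodable.encode '' U) ∈ N ∧ ∀ n : ℕ,
    coin (⋃ s ∈ {s | (n, s) ∈ U}, cyl s) ≤ 2⁻¹ ^ n ∧
    ∀ y ∈ B, bitZ y ∈ N → ∃ s, (n, s) ∈ U ∧ y ∈ cyl s

/-- Goldstern's principle in `N` for boldface `Δ¹₂` sets, for Cantor space with the fair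
coin-tossing measure. -/
def GPDelta (N : Set ZFSet.{0}) : Prop :=
  ∀ A : Set ((ℕ → ℕ) × (ℕ → Bool)), Sigma12 N A → Sigma12 N Aᶜ →
    (∀ x, funZ x ∈ N → NullIn N {y | (x, y) ∈ A}) →
    (∀ x x', funZ x ∈ N → funZ x' ∈ N → x ≤ x' →
      ∀ y, bitZ y ∈ N → (x, y) ∈ A → (x', y) ∈ A) →
    NullIn N {y | ∃ x, funZ x ∈ N ∧ (x, y) ∈ A}

end Pool.Agent.Lib.MP_2c8569_lc
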