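import Pool.Agent.Lib.MP_2c8569_lc.Ob

set_option autoImplicit false

namespace Pool.Agent.Lib.MP_2c8569_lc

open Classical Ob

/-- Formulas over the objects, with invariant atoms and an oracle. -/
inductive F : Type 2
  | atom (R : Obj → Prop) (h : Inv R) : F
  | norc : F
  | nand (φ ψ : F) : F
  | nall (φ : F) : F

abbrev Orc := Obj → Prop

def SatF (O : Orc) : F → Obj → Prop
  | .atom R _, z => R z
  | .norc, z => ¬ O z.fst
  | .nand φ ψ, z => ¬ (SatF O φ z ∧ SatF O ψ z)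
  | .nall φ, z => ¬ ∀ y, mx y ≤ mx z → SatF O φ (node y z)

lemma SatF_loc {O O' : Orc} (φ : F) {z : Obj} (h : ∀ y, mx y ≤ mx z → (O y ↔ O' y)) :
    SatF O φ z ↔ SatF O' φ z := by
  induction φ generalizing z with
  | atom => rfl
  | norc => simp only [SatF, h _ (mx_fst z)]
  | nand φ ψ ih ih' => simp only [SatF, ih h, ih' h]
  | nall φ ih =>
    simp only [SatF]
    refine not_congr (forall_congr' fun y => forall_congr' fun hy => ih fun w hw => h w ?_)
    simpa [hy] using hw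

/-- Definable predicates. -/
def Dfn {α : Type*} [Enc α] (P : Orc → α → Prop) : Prop :=
  ∀ g : Obj → Obj, Inv g → ∃ φ : F, ∀ O z a, g z = enc a → (SatF O φ z ↔ P O a)

lemma Inv.lift {α : Type*} [Enc α] {R : Obj → α → Prop} {g : Obj → Obj} (hg : Inv g)
    (hR : Inv fun p : Obj × α => R p.1 p.2) : Inv fun z => ∃ a, g z = Enc.enc a ∧ R z a := by
  intro e he z
  simp only [hg e he z, act_pur, eq_iff_iff]
  constructor
  · rintro ⟨a, ha, h⟩
    obtain ⟨a', ha'⟩ := Enc.rng e _ _ ha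
    refine ⟨a', ha', ?_⟩
    rw [ha', act_obj, map_enc, enc_eq_enc] at ha
    rw [← ha] at h
    exact (hR.iff' he (z, a')).1 h
  · rintro ⟨a, ha, h⟩
    exact ⟨act e a, by simp [ha], (hR.iff' he (z, a)).2 h⟩

namespace Dfn

variable {α β : Type*} [Enc α] [Enc β]

lemma loc {P : Orc → α → Prop} (hP : Dfn P) {O O' : Orc} {a : α}
    (h : ∀ y, mx y ≤ mx (enc a) → (O y ↔ O' y)) : P O a ↔ P O' a := by
  obtain ⟨φ, hφ⟩ := hP (fun z => z) Inv.id'
  rw [← hφ O _ a rfl, ← hφ O' _ a rfl, SatF_loc φ h]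

lemma of_iff {P Q : Orc → α → Prop} (hP : Dfn P) (h : ∀ O a, P O a ↔ Q O a) : Dfn Q :=
  (funext fun O => funext fun a => propext (h O a) : P = Q) ▸ hP

lemma inv {R : α → Prop} (h : Inv R) : Dfn fun _ a => R a := fun g hg =>
  ⟨.atom _ (Inv.lift (R := fun _ a => R a) hg (by fun_prop)), fun O z a ha => by simp [SatF, ha]⟩

lemma nand {P Q : Orc → α → Prop} (hP : Dfn P) (hQ : Dfn Q) :
    Dfn fun O a => ¬ (P O a ∧ Q O a) := fun g hg => by
  obtain ⟨φ, hφ⟩ := hP g hg
  obtain ⟨ψ, hψ⟩ := hQ g hg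
  exact ⟨.nand φ ψ, fun O z a ha => by simp only [SatF, hφ O z a ha, hψ O z a ha]⟩

lemma not {P : Orc → α → Prop} (hP : Dfn P) : Dfn fun O a => ¬ P O a :=
  (hP.nand hP).of_iff (by simp)

lemma and {P Q : Orc → α → Prop} (hP : Dfn P) (hQ : Dfn Q) : Dfn fun O a => P O a ∧ Q O a :=
  (hP.nand hQ).not.of_iff (by simp)

lemma or {P Q : Orc → α → Prop} (hP : Dfn P) (hQ : Dfn Q) : Dfn fun O a => P O a ∨ Q O a :=
  (hP.not.nand hQ.not).of_iff (by tauto)

lemma imp {P Q : Orc → α → Prop} (hP : Dfn P) (hQ : Dfn Q) : Dfn fun O a => P O a → Q O a :=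
  (hP.nand hQ.not).of_iff (by tauto)

lemma iff {P Q : Orc → α → Prop} (hP : Dfn P) (hQ : Dfn Q) : Dfn fun O a => (P O a ↔ Q O a) :=
  ((hP.imp hQ).and (hQ.imp hP)).of_iff (by tauto)

lemma orc {f : α → Obj} (hf : Inv f) : Dfn fun O a => O (f a) := fun g hg => by
  have h1 : Inv fun z : Obj => g z.snd := by fun_prop
  refine ⟨.nall (.nand (.atom _ (Inv.lift (R := fun z a => z.fst = f a) h1 (by fun_prop)))
    (.nand .norc .norc)), fun O z a ha => ?_⟩
  have : mx (f a) ≤ mx z := (hf.mx_le a).trans (ha ▸ hg.mx_le z)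
  simp [SatF, ha, this]

lemma comp {P : Orc → β → Prop} (hP : Dfn P) {f : α → β} (hf : Inv f) :
    Dfn fun O a => P O (f a) := fun g hg => by
  let g' : Obj → Obj := fun z => if h : ∃ a : α, g z = enc a then enc (f h.choose) else nil
  have hg1 : ∀ z a, g z = enc a → g' z = enc (f a) := fun z a ha => by
    have h : ∃ a : α, g z = enc a := ⟨a, ha⟩
    simp only [g', dif_pos h]
    rw [enc_eq_enc.1 (h.choose_spec.symm.trans ha)]
  have hg' : Inv g' := by
    intro e he z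
    by_cases h : ∃ a : α, g z = enc a
    · obtain ⟨a, ha⟩ := h
      rw [hg1 z a ha, hg1 _ (act e a) (by rw [hg e he z, ha]; simp), hf e he a]
      simp
    · have h' : ¬ ∃ a : α, g (act e z) = enc a := by
        rintro ⟨a, ha⟩
        rw [hg e he z] at ha
        exact h (Enc.rng e _ _ ha)
      simp only [g', dif_neg h, dif_neg h']
      rfl
  obtain ⟨φ, hφ⟩ := hP g' hg'
  exact ⟨φ, fun O z a ha => hφ O z _ (hg1 z a ha)⟩

lemma all_of {R : α → β → Prop} {P : Orc → α → β → Prop}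
    (hb : ∀ a y, R a y → mx (enc y) ≤ mx (enc a)) (hR : Inv fun p : β × α => R p.2 p.1)
    (hP : Dfn fun O (p : β × α) => P O p.2 p.1) : Dfn fun O a => ∀ y, R a y → P O a y := by
  intro g hg
  have h1 : Inv fun z : Obj => node z.fst (g z.snd) := by fun_prop
  obtain ⟨φ, hφ⟩ := (inv hR).imp hP _ h1
  have h2 := Inv.lift (α := β) (R := fun _ _ => True) (g := fun z => z.fst) (by fun_prop)
    (by fun_prop)
  refine ⟨.nand (.nall (.nand (.atom _ h2) (.nand φ φ))) (.nall (.nand (.atom _ h2) (.nand φ φ))),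
    fun O z a ha => ?_⟩
  simp only [SatF, and_self, not_not, fst_node, and_true, not_and, forall_exists_index]
  constructor
  · intro h y hy
    exact (hφ O _ (y, a) (by simp [ha])).1
      (h (enc y) ((hb a y hy).trans (ha ▸ hg.mx_le z)) y rfl) hy
  · rintro h _ - y rfl
    exact (hφ O _ (y, a) (by simp [ha])).2 (h y)

lemma ex_of {R : α → β → Prop} {P : Orc → α → β → Prop}
    (hb : ∀ a y, R a y → mx (enc y) ≤ mx (enc a)) (hR : Inv fun p : β × α => R p.2 p.1)
    (hP : Dfn fun O (p : β × α) => P O p.2 p.1) : Dfn fun O a => ∃ y, R a y ∧ P O a y :=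
  (all_of (P := fun O a y => ¬ P O a y) hb hR hP.not).not.of_iff (by simp)

variable {μ : α → WithBot Λ}

lemma allP [Pur β] {P : Orc → α → β → Prop} (hP : Dfn fun O (p : β × α) => P O p.2 p.1) :
    Dfn fun O a => ∀ y, P O a y :=
  (all_of (R := fun _ _ => True) (by simp) (by fun_prop) hP).of_iff (by simp)

lemma exP [Pur β] {P : Orc → α → β → Prop} (hP : Dfn fun O (p : β × α) => P O p.2 p.1) :
    Dfn fun O a => ∃ y, P O a y :=
  (ex_of (R := fun _ _ => True) (by simp) (by fun_prop) hP).of_iff (by simp)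

lemma allE {P : Orc → α → β → Prop} (hμ : Inv μ) (hP : Dfn fun O (p : β × α) => P O p.2 p.1) :
    Dfn fun O a => ∀ y, mx (enc y) < μ a → P O a y :=
  all_of (fun a _ h => h.le.trans (hμ.wb_le a)) (by fun_prop) hP

lemma exE {P : Orc → α → β → Prop} (hμ : Inv μ) (hP : Dfn fun O (p : β × α) => P O p.2 p.1) :
    Dfn fun O a => ∃ y, mx (enc y) < μ a ∧ P O a y :=
  ex_of (fun a _ h => h.le.trans (hμ.wb_le a)) (by fun_prop) hP

lemma allE' {P : Orc → α → β → Prop} (hμ : Inv μ) (hP : Dfn fun O (p : β × α) => P O p.2 p.1) :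
    Dfn fun O a => ∀ y, mx (enc y) ≤ μ a → P O a y :=
  all_of (fun a _ h => h.trans (hμ.wb_le a)) (by fun_prop) hP

lemma exE' {P : Orc → α → β → Prop} (hμ : Inv μ) (hP : Dfn fun O (p : β × α) => P O p.2 p.1) :
    Dfn fun O a => ∃ y, mx (enc y) ≤ μ a ∧ P O a y :=
  ex_of (fun a _ h => h.trans (hμ.wb_le a)) (by fun_prop) hP

lemma allO {P : Orc → α → Obj → Prop} (hμ : Inv μ) (hP : Dfn fun O (p : Obj × α) => P O p.2 p.1) :
    Dfn fun O a => ∀ y, mx y < μ a → P O a y := allE hμ hP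

lemma exO {P : Orc → α → Obj → Prop} (hμ : Inv μ) (hP : Dfn fun O (p : Obj × α) => P O p.2 p.1) :
    Dfn fun O a => ∃ y, mx y < μ a ∧ P O a y := exE hμ hP

lemma allO' {P : Orc → α → Obj → Prop} (hμ : Inv μ) (hP : Dfn fun O (p : Obj × α) => P O p.2 p.1) :
    Dfn fun O a => ∀ y, mx y ≤ μ a → P O a y := allE' hμ hP

lemma exO' {P : Orc → α → Obj → Prop} (hμ : Inv μ) (hP : Dfn fun O (p : Obj × α) => P O p.2 p.1) :
    Dfn fun O a => ∃ y, mx y ≤ μ a ∧ P O a y := exE' hμ hP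

lemma allL {f : α → Λ} {P : Orc → α → Λ → Prop} (hf : Inv f)
    (hP : Dfn fun O (p : Λ × α) => P O p.2 p.1) : Dfn fun O a => ∀ y, y < f a → P O a y :=
  all_of (fun a _ h => (WithBot.coe_le_coe.2 h.le).trans (hf.mx_le a)) (by fun_prop) hP

lemma exL {f : α → Λ} {P : Orc → α → Λ → Prop} (hf : Inv f)
    (hP : Dfn fun O (p : Λ × α) => P O p.2 p.1) : Dfn fun O a => ∃ y, y < f a ∧ P O a y :=
  ex_of (fun a _ h => (WithBot.coe_le_coe.2 h.le).trans (hf.mx_le a)) (by fun_prop) hP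

lemma allL' {P : Orc → α → Λ → Prop} (hμ : Inv μ)
    (hP : Dfn fun O (p : Λ × α) => P O p.2 p.1) :
    Dfn fun O a => ∀ y : Λ, (y : WithBot Λ) ≤ μ a → P O a y := allE' hμ hP

lemma exL' {P : Orc → α → Λ → Prop} (hμ : Inv μ)
    (hP : Dfn fun O (p : Λ × α) => P O p.2 p.1) :
    Dfn fun O a => ∃ y : Λ, (y : WithBot Λ) ≤ μ a ∧ P O a y := exE' hμ hP

lemma allM {l : α → List β} {P : Orc → α → β → Prop} (hl : Inv l)
    (hP : Dfn fun O (p : β × α) => P O p.2 p.1) : Dfn fun O a => ∀ y, y ∈ l a → P O a y :=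
  all_of (fun a _ h => (mx_le_of_mem h).trans (hl.mx_le a)) (by fun_prop) hP

lemma exM {l : α → List β} {P : Orc → α → β → Prop} (hl : Inv l)
    (hP : Dfn fun O (p : β × α) => P O p.2 p.1) : Dfn fun O a => ∃ y, y ∈ l a ∧ P O a y :=
  ex_of (fun a _ h => (mx_le_of_mem h).trans (hl.mx_le a)) (by fun_prop) hP

end Dfn

/-- Header of a position. -/
def hd (c : ℕ) (B : Obj) (c' kd d : ℕ) (π : List Bool) : Obj :=
  node (nat c) (node B (node (nat c') (node (nat kd) (node (nat d) (nat (Encodable.encode π))))))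

def fc (x : Obj) : ℕ := natOf x.fst.fst
def fB (x : Obj) : Obj := x.fst.snd.fst
def fc' (x : Obj) : ℕ := natOf x.fst.snd.snd.fst
def fk (x : Obj) : ℕ := natOf x.fst.snd.snd.snd.fst
def fd (x : Obj) : ℕ := natOf x.fst.snd.snd.snd.snd.fst
def fp (x : Obj) : List Bool := (Encodable.decode (natOf x.fst.snd.snd.snd.snd.snd)).getD []

section
variable (c : ℕ) (B : Obj) (c' kd d : ℕ) (π : List Bool) (z : Obj)
@[simp] lemma fc_hd : fc (node (hd c B c' kd d π) z) = c := rfl
@[simp] lemma fB_hd : fB (node (hd c B c' kd d π) z) = B := rfl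
@[simp] lemma fc'_hd : fc' (node (hd c B c' kd d π) z) = c' := rfl
@[simp] lemma fk_hd : fk (node (hd c B c' kd d π) z) = kd := rfl
@[simp] lemma fd_hd : fd (node (hd c B c' kd d π) z) = d := rfl
@[simp] lemma fp_hd : fp (node (hd c B c' kd d π) z) = π := by simp [fp, hd]
@[simp] lemma mx_hd : mx (hd c B c' kd d π) = mx B := by simp [hd]
@[simp] lemma labs_hd : labs (hd c B c' kd d π) = labs B := by simp [hd]
@[simp] lemma map_hd (e : Λ → Λ) : Ob.map e (hd c B c' kd d π) = hd c (Ob.map e B) c' kd d π := by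
  simp [hd]
end

section
variable (e : Λ → Λ) (x : Obj)
@[simp] lemma fc_map : fc (Ob.map e x) = fc x := by simp [fc]
@[simp] lemma fB_map : fB (Ob.map e x) = Ob.map e (fB x) := by simp [fB]
@[simp] lemma fc'_map : fc' (Ob.map e x) = fc' x := by simp [fc']
@[simp] lemma fk_map : fk (Ob.map e x) = fk x := by simp [fk]
@[simp] lemma fd_map : fd (Ob.map e x) = fd x := by simp [fd]
@[simp] lemma fp_map : fp (Ob.map e x) = fp x := by simp [fp]
end

lemma labs_fB {x : Obj} {i : Λ} (h : i ∈ labs (fB x)) : i ∈ labs x :=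
  labs_fst (labs_snd (labs_fst h))

lemma mx_fB (x : Obj) : mx (fB x) ≤ mx x := mx_le_iff.2 fun _ h => le_mx (labs_fB h)

@[fun_prop] lemma Inv.hd {α : Type*} [Act α] {c c' kd d : α → ℕ} {B : α → Obj} {π : α → List Bool}
    (h1 : Inv c) (h2 : Inv B) (h3 : Inv c') (h4 : Inv kd) (h5 : Inv d) (h6 : Inv π) :
    Inv fun a => hd (c a) (B a) (c' a) (kd a) (d a) (π a) := fun e he a => by
  simp [h1 e he a, h2 e he a, h3 e he a, h4 e he a, h5 e he a, h6 e he a]

/-- The rank of `y` is below the rank `(μ, c, ν, c')`. -/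
def RL (y : Obj) (μ : WithBot Λ) (c : ℕ) (ν : WithBot Λ) (c' : ℕ) : Prop :=
  mx y < μ ∨ (mx y = μ ∧ (fc y < c ∨ (fc y = c ∧ (mx (fB y) < ν ∨ (mx (fB y) = ν ∧ fc' y < c')))))

def rlt (y x : Obj) : Prop := RL y (mx x) (fc x) (mx (fB x)) (fc' x)

lemma inv_rlt : Inv fun p : Obj × Obj => rlt p.1 p.2 := fun e he a => by
  simp [rlt, RL, mx_map he.monotone, he.withBot_map.lt_iff_lt, he.withBot_map.injective.eq_iff]

def F.step : F → Bool → F
  | .nand φ _, false => φ
  | .nand _ ψ, true => ψ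
  | .nall φ, _ => φ
  | φ, _ => φ

def F.sub (φ : F) : List Bool → F
  | [] => φ
  | b :: π => (φ.sub π).step b

def F.dep : F → ℕ
  | .atom _ _ => 0
  | .norc => 0
  | .nand φ ψ => max φ.dep ψ.dep + 1
  | .nall φ => φ.dep + 1

/-- The header of the next position. -/
def nx (x : Obj) (b : Bool) : Obj := hd (fc x) (fB x) (fc' x) (fk x) (fd x) (b :: fp x)

def ChF : F → Obj → Obj → Prop
  | .atom R _, x, y => y = nil ∧ R x.snd
  | .norc, x, y => (y = x.snd.fst ∧ rlt y x) ∨ (y = nil ∧ ¬ rlt x.snd.fst x)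
  | .nand _ _, x, y => y = node (nx x false) x.snd ∨ y = node (nx x true) x.snd
  | .nall _, x, y => y = node (nx x false) (node y.snd.fst x.snd) ∧
      mx y.snd.fst ≤ mx (node (nx x false) x.snd)

abbrev Sys := ℕ → F

/-- The moves of the game. -/
def Ch (s : Sys) (b : Set ℕ) (x y : Obj) : Prop :=
  (fk x = 1 ∧ ChF ((s (fd x)).sub (fp x)) x y) ∨ (fk x = 2 ∧ y = nil ∧ natOf x.snd.fst ∈ b)

@[simp] lemma map_nx (e : Λ → Λ) (x : Obj) (b : Bool) :
    Ob.map e (nx x b) = nx (Ob.map e x) b := by simp [nx]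

lemma inv_ChF (φ : F) : Inv fun p : Obj × Obj => ChF φ p.1 p.2 := by
  have h1 : ∀ b, Inv fun x => nx x b := fun b e he x => by simp
  have h2 := inv_rlt
  have h3 : Inv fun p : Obj × Obj => rlt p.2 p.1 :=
    Inv.comp (g := fun p : Obj × Obj => (p.2, p.1)) h2 (by fun_prop)
  have h4 : Inv fun p : Obj × Obj => rlt p.1.snd.fst p.1 :=
    Inv.comp (g := fun p : Obj × Obj => (p.1.snd.fst, p.1)) h2 (by fun_prop)
  have h5 := h1 false
  have h6 := h1 true
  cases φ with
  | atom R h => simp only [ChF]; fun_prop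
  | norc => exact Inv.or (Inv.and (by fun_prop) h3) (Inv.and (by fun_prop) h4.not)
  | nand φ ψ =>
    exact Inv.or (Inv.eq (by fun_prop) (Inv.node (h5.comp (by fun_prop)) (by fun_prop)))
      (Inv.eq (by fun_prop) (Inv.node (h6.comp (by fun_prop)) (by fun_prop)))
  | nall φ =>
    exact Inv.and (Inv.eq (by fun_prop) (Inv.node (h5.comp (by fun_prop)) (by fun_prop)))
      (Inv.leb (by fun_prop) (Inv.mx (Inv.node (h5.comp (by fun_prop)) (by fun_prop))))

lemma inv_Ch (s : Sys) (b : Set ℕ) : Inv fun p : Obj × Obj => Ch s b p.1 p.2 := by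
  intro e he p
  have h1 := (inv_ChF ((s (fd p.1)).sub (fp p.1))).iff' he p
  have h2 : Ob.map e p.2 = nil ↔ p.2 = nil := (map_injective he.injective).eq_iff' rfl
  simp only [act_fst, act_snd, act_obj] at h1
  simp [Ch, h1, h2]

lemma Ch_wf (s : Sys) (b : Set ℕ) : WellFounded fun y x => Ch s b x y := by
  let m : Obj → WithBot Λ ×ₗ ℕ ×ₗ WithBot Λ ×ₗ ℕ ×ₗ ℕ := fun x =>
    toLex (mx x, toLex (fc x, toLex (mx (fB x), toLex (fc' x,
      if fk x = 0 then 0 else ((s (fd x)).sub (fp x)).dep + 1))))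
  refine Subrelation.wf ?_ (InvImage.wf m wellFounded_lt)
  intro y x h
  have hnil : fk x ≠ 0 → m nil < m x := fun hx => by
    have : fk nil = 0 := rfl
    have h1 : fc nil = 0 := rfl
    have h2 : fc' nil = 0 := rfl
    have h3 : fB nil = nil := rfl
    simp only [m, Prod.Lex.toLex_lt_toLex, this, if_neg hx, if_true, h1, h2, h3, mx_nil]
    rcases (bot_le : ⊥ ≤ mx x).eq_or_lt with h | h
    · rcases (Nat.zero_le (fc x)).eq_or_lt with h' | h'
      · rcases (bot_le : ⊥ ≤ mx (fB x)).eq_or_lt with h'' | h''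
        · rcases (Nat.zero_le (fc' x)).eq_or_lt with h4 | h4
          · simp [← h, ← h', ← h'', ← h4]
          · simp [← h, ← h', ← h'', h4]
        · simp [← h, ← h', h'']
      · simp [← h, h']
    · simp [h]
  have hstep : ∀ (β : Bool) (z : Obj), mx z ≤ mx x → fk x = 1 →
      (((s (fd x)).sub (fp x)).step β).dep < ((s (fd x)).sub (fp x)).dep →
      m (node (nx x β) z) < m x := fun β z hz hk hdep => by
    have : mx (node (nx x β) z) ≤ mx x := by simp [nx, hz, mx_fB]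
    simp only [m, Prod.Lex.toLex_lt_toLex]
    rcases this.eq_or_lt with h | h
    · right
      refine ⟨h, ?_⟩
      simp [nx, hk, F.sub, hdep]
    · exact .inl h
  show m y < m x
  rcases h with ⟨hk, h⟩ | ⟨hk, rfl, -⟩
  · generalize hφ : (s (fd x)).sub (fp x) = φ at h
    cases φ with
    | atom R _ => rw [h.1]; exact hnil (by omega)
    | norc =>
      rcases h with ⟨-, h⟩ | ⟨rfl, -⟩
      · simp only [m, Prod.Lex.toLex_lt_toLex]
        unfold rlt RL at h
        tauto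
      · exact hnil (by omega)
    | nand φ ψ =>
      rcases h with rfl | rfl <;> refine hstep _ _ (mx_snd x) hk ?_ <;>
        simp [hφ, F.step, F.dep]
    | nall φ =>
      rw [h.1]
      have : mx y.snd.fst ≤ mx x := h.2.trans (by simp [nx, mx_fB, mx_snd])
      exact hstep _ _ (by simp [this, mx_snd]) hk (by simp [hφ, F.step, F.dep])
  · exact hnil (by omega)

/-- The table: winning positions of the game. -/
def T (s : Sys) (b : Set ℕ) : Obj → Prop :=
  (Ch_wf s b).fix fun x IH => ∃ y, ∃ h : Ch s b x y, ¬ IH y h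

variable {s : Sys} {b : Set ℕ}

lemma T_iff (x : Obj) : T s b x ↔ ∃ y, Ch s b x y ∧ ¬ T s b y := by
  unfold T
  rw [WellFounded.fix_eq]
  simp

lemma T_nil : ¬ T s b nil := by
  have : fk nil = 0 := rfl
  rw [T_iff]; simp [Ch, this]

lemma T_sat (c : ℕ) (B : Obj) (c' d : ℕ) (φ : F) (π : List Bool) (z : Obj)
    (hφ : (s d).sub π = φ) (hB : mx B ≤ mx z) :
    T s b (node (hd c B c' 1 d π) z) ↔
      SatF (fun y => RL y (mx z) c (mx B) c' ∧ T s b y) φ z := by
  induction φ generalizing π z with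
  | atom R h => rw [T_iff]; simp [Ch, hφ, ChF, T_nil, SatF]
  | norc =>
    rw [T_iff]
    simp only [Ch, fk_hd, fd_hd, fp_hd, hφ, ChF, snd_node, rlt, mx_node, mx_hd, max_eq_right hB,
      fc_hd, fB_hd, fc'_hd, SatF]
    constructor
    · rintro ⟨y, (⟨-, ⟨rfl, -⟩ | ⟨rfl, h⟩⟩ | ⟨h, -⟩), hy⟩
      · exact fun h => hy h.2
      · exact fun h' => h h'.1
      · omega
    · intro h
      by_cases h' : RL z.fst (mx z) c (mx B) c'
      · exact ⟨_, .inl ⟨trivial, .inl ⟨rfl, h'⟩⟩, fun h'' => h ⟨h', h''⟩⟩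
      · exact ⟨_, .inl ⟨trivial, .inr ⟨rfl, h'⟩⟩, T_nil⟩
  | nand φ ψ ih ih' =>
    rw [T_iff]
    have h1 := ih (false :: π) z (by simp [F.sub, hφ, F.step]) hB
    have h2 := ih' (true :: π) z (by simp [F.sub, hφ, F.step]) hB
    simp only [SatF, ← h1, ← h2]
    simp [Ch, hφ, ChF, nx, or_and_right, exists_or]
    tauto
  | nall φ ih =>
    rw [T_iff]
    have h1 : ∀ y, mx y ≤ mx z → (T s b (node (hd c B c' 1 d (false :: π)) (node y z)) ↔
        SatF (fun y => RL y (mx z) c (mx B) c' ∧ T s b y) φ (node y z)) := fun y hy => by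
      have := ih (false :: π) (node y z) (by simp [F.sub, hφ, F.step]) (by simp [hB])
      simpa [hy] using this
    simp only [SatF, Ch, fk_hd, fd_hd, fp_hd, hφ, ChF, nx, snd_node, mx_node, mx_hd,
      max_eq_right hB, fc_hd, fB_hd, fc'_hd]
    constructor
    · rintro ⟨y, (⟨-, h, h'⟩ | ⟨h, -⟩), hy⟩
      · rw [h] at hy
        exact fun h'' => hy ((h1 _ h').2 (h'' _ h'))
      · omega
    · intro h
      push Not at h
      obtain ⟨y, hy, h⟩ := h
      exact ⟨node (hd c B c' 1 d (false :: π)) (node y z), .inl ⟨trivial, by simp, by simpa⟩,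
        fun h' => h ((h1 y hy).1 h')⟩

/-- The formula number `d` of the system defines `P`. -/
def Rep {α : Type*} [Enc α] (s : Sys) (d : ℕ) (P : Orc → α → Prop) : Prop :=
  ∀ O a, SatF O (s d) (enc a) ↔ P O a

lemma Dfn.exists_rep {α : Type*} [Enc α] {P : Orc → α → Prop} (h : Dfn P) :
    ∃ φ : F, ∀ (s : Sys) d, s d = φ → Rep s d P := by
  obtain ⟨φ, hφ⟩ := h (fun z => z) Inv.id'
  exact ⟨φ, fun s d h O a => h ▸ hφ O _ a rfl⟩

lemma Rep.T_iff {α : Type*} [Enc α] {d : ℕ} {P : Orc → α → Prop} (h : Rep s d P) (c : ℕ)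
    {B : Obj} (c' : ℕ) {a : α} (hB : mx B ≤ mx (enc a)) :
    T s b (node (hd c B c' 1 d []) (enc a)) ↔
      P (fun y => RL y (mx (enc a)) c (mx B) c' ∧ T s b y) a := by
  rw [T_sat c B c' d _ [] _ rfl hB]; exact h _ a

/-- The program number `d` at level `l` with parameters `a`. -/
def prog {α : Type*} [Enc α] (d : ℕ) (l : Λ) (a : α) : Obj :=
  node (hd 0 nil 0 1 d []) (enc (l, a))

@[simp] lemma mx_prog {α : Type*} [Enc α] (d : ℕ) (l : Λ) (a : α) :
    mx (prog d l a) = max (l : WithBot Λ) (mx (enc a)) := by simp [prog]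

@[simp] lemma labs_prog {α : Type*} [Enc α] (d : ℕ) (l : Λ) (a : α) :
    labs (prog d l a) = l :: labs (enc a) := by simp [prog]

@[simp] lemma map_prog {α : Type*} [Enc α] (d : ℕ) (l : Λ) (a : α) (e : Λ → Λ) :
    Ob.map e (prog d l a) = prog d (e l) (act e a) := by simp [prog]

@[simp] lemma mx_plug_prog {α : Type*} [Enc α] (d : ℕ) (l : Λ) (a : α) (y : Obj) :
    mx (plug (prog d l a) y) = max (mx y) (max (l : WithBot Λ) (mx (enc a))) := by simp [prog]

@[fun_prop] lemma Inv.prog {α β : Type*} [Act α] [Enc β] {d : α → ℕ} {l : α → Λ} {a : α → β}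
    (h1 : Inv d) (h2 : Inv l) (h3 : Inv a) : Inv fun x => prog (d x) (l x) (a x) := by
  unfold MP_2c8569_lc.prog; fun_prop

/-- `d` is a program for `P`. -/
def Prog {α β : Type*} [Enc α] [Enc β] (s : Sys) (d : ℕ) (P : Orc → β × α → Prop) : Prop :=
  ∀ (b : Set ℕ) (l : Λ) (a : α) (y : β), mx (enc a) < l →
    (T s b (plug (prog d l a) (enc y)) ↔ mx (enc y) < l ∧ P (T s b) (y, a))

lemma Dfn.exists_prog {α β : Type*} [Enc α] [Enc β] {P : Orc → β × α → Prop} (h : Dfn P) :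
    ∃ φ : F, ∀ (s : Sys) d, s d = φ → Prog s d P := by
  have h' : Dfn fun O (p : β × Λ × α) => mx (enc p.1) < p.2.1 ∧ P O (p.1, p.2.2) :=
    (Dfn.inv (by fun_prop)).and (h.comp (by fun_prop))
  obtain ⟨φ, hφ⟩ := h'.exists_rep
  refine ⟨φ, fun s d hd b l a y ha => ?_⟩
  have := (hφ s d hd).T_iff (b := b) 0 (B := nil) 0 (a := (y, l, a)) (by simp)
  refine this.trans (and_congr_right fun hy => h.loc fun w hw => and_iff_right (.inl ?_))
  simp only [enc_pair, mx_node, enc_lab, mx_lab] at hw ⊢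
  exact (hw.trans_lt (max_lt hy ha)).trans_le (by simp)

/-- The position that reads the parameter. -/
def par (n : ℕ) : Obj := node (hd 0 nil 0 2 0 []) (node (nat n) nil)

@[simp] lemma mx_par (n : ℕ) : mx (par n) = ⊥ := by simp [par]

lemma T_par (n : ℕ) : T s b (par n) ↔ n ∈ b := by
  rw [T_iff]; simp [Ch, par, T_nil]

@[fun_prop] lemma Inv.par {α : Type*} [Act α] {n : α → ℕ} (h : Inv n) :
    Inv fun x => par (n x) := by
  unfold MP_2c8569_lc.par; fun_prop

/-- `J` contains witnesses for the existential statements with parameters in `J`. -/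
def Closed (s : Sys) (b : Set ℕ) (J : Set Λ) : Prop :=
  ∀ (x : Obj) (p : Prop), (∀ i ∈ labs x, i ∈ J) →
    (∃ y, mx y ≤ mx x ∧ (T s b (plug x y) ↔ p)) →
    ∃ y, (∀ i ∈ labs y, i ∈ J) ∧ mx y ≤ mx x ∧ (T s b (plug x y) ↔ p)

lemma closed_lower {J : Set Λ} (hJ : IsLowerSet J) : Closed s b J := by
  rintro x p hx ⟨y, hy, h⟩
  refine ⟨y, fun i hi => ?_, hy, h⟩
  rcases exists_mx x with h' | ⟨j, hj, h'⟩
  · simpa [h'] using (le_mx hi).trans hy
  · exact hJ (WithBot.coe_le_coe.1 (h' ▸ (le_mx hi).trans hy)) (hx j hj)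

lemma Closed.exists_ch {J : Set Λ} (hJ : Closed s b J) {x : Obj} (hx : ∀ i ∈ labs x, i ∈ J)
    (h : T s b x) : ∃ y, (∀ i ∈ labs y, i ∈ J) ∧ Ch s b x y ∧ ¬ T s b y := by
  obtain ⟨y, hy, hy'⟩ := (T_iff x).1 h
  have hn : ∀ β z, (∀ i ∈ labs z, i ∈ J) → ∀ i ∈ labs (node (nx x β) z), i ∈ J := by
    intro β z hz i hi
    simp only [nx, labs_node, labs_hd, List.mem_append] at hi
    exact hi.elim (fun hi => hx i (labs_fB hi)) (hz i)
  by_cases hl : ∀ i ∈ labs y, i ∈ J
  · exact ⟨y, hl, hy, hy'⟩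
  rcases hy with ⟨hk, hy⟩ | ⟨-, rfl, -⟩
  · generalize hφ : (s (fd x)).sub (fp x) = φ at hy
    cases φ with
    | atom R _ => rw [hy.1] at hl; simp at hl
    | norc =>
      rcases hy with ⟨rfl, -⟩ | ⟨rfl, -⟩
      · exact absurd (fun i hi => hx i (labs_snd (labs_fst hi))) hl
      · simp at hl
    | nand φ ψ =>
      rcases hy with rfl | rfl <;> exact absurd (hn _ _ fun i hi => hx i (labs_snd hi)) hl
    | nall φ =>
      obtain ⟨h1, h2⟩ := hy
      obtain ⟨z, hz, hz1, hz2⟩ := hJ (node (nx x false) x.snd) False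
        (hn _ _ fun i hi => hx i (labs_snd hi)) ⟨_, h2, by rw [plug_node, ← h1]; simpa using hy'⟩
      refine ⟨node (nx x false) (node z x.snd), hn _ _ fun i hi => ?_,
        .inl ⟨hk, by rw [hφ]; exact ⟨rfl, hz1⟩⟩, by simpa using hz2⟩
      simp only [labs_node, List.mem_append] at hi
      exact hi.elim (hz i) fun hi => hx i (labs_snd hi)
  · simp at hl

/-- Condensation. -/
lemma T_map {J : Set Λ} {π : Λ → Λ} (hJ : Closed s b J) (hπ : StrictMonoOn π J)
    (hJ' : Closed s b (π '' J)) {x : Obj} (hx : ∀ i ∈ labs x, i ∈ J) :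
    T s b (Ob.map π x) ↔ T s b x := by
  induction x using (Ch_wf s b).induction with
  | _ x ih =>
  have key : ∀ y, (∀ i ∈ labs y, i ∈ J) → (Ch s b (Ob.map π x) (Ob.map π y) ↔ Ch s b x y) :=
    fun y hy => (inv_Ch s b).map_iff₂ (hπ.mono fun i hi => hi.elim (hx i) (hy i))
  constructor
  · intro h
    obtain ⟨y', hy, h1, h2⟩ := hJ'.exists_ch (by
      intro i hi
      simp only [labs_map, List.mem_map] at hi
      obtain ⟨j, hj, rfl⟩ := hi
      exact ⟨j, hx j hj, rfl⟩) h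
    obtain ⟨y, rfl⟩ := exists_map (e := fun j : J => π j) (y := y') fun i hi => by
      obtain ⟨j, hj, rfl⟩ := hy i hi
      exact ⟨⟨j, hj⟩, rfl⟩
    have hy' : ∀ i ∈ labs (Ob.map Subtype.val y), i ∈ J := by
      intro i hi
      simp only [labs_map, List.mem_map] at hi
      obtain ⟨j, -, rfl⟩ := hi
      exact j.2
    have e1 : Ob.map (fun j : J => π j) y = Ob.map π (Ob.map Subtype.val y) := by
      rw [map_map]; rfl
    rw [e1] at h1 h2
    rw [key _ hy'] at h1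
    exact (T_iff x).2 ⟨_, h1, fun h' => h2 ((ih _ h1 hy').2 h')⟩
  · intro h
    obtain ⟨y, hy, h1, h2⟩ := hJ.exists_ch hx h
    exact (T_iff _).2 ⟨_, (key y hy).2 h1, fun h' => h2 ((ih _ h1 hy).1 h')⟩

/-- The transitive collapse of a set of labels. -/
noncomputable def col (J : Set Λ) : Λ → Λ :=
  (wellFounded_lt (α := Λ)).fix fun i IH => sInf {γ | ∀ j ∈ J, ∀ h : j < i, IH j h < γ}

lemma col_eq (J : Set Λ) (i : Λ) : col J i = sInf {γ | ∀ j ∈ J, j < i → col J j < γ} := by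
  unfold col
  rw [WellFounded.fix_eq]

lemma col_le (J : Set Λ) (i : Λ) : col J i ≤ i := by
  induction i using WellFoundedLT.induction with
  | _ i ih =>
  rw [col_eq]
  exact csInf_le' fun j _ h => (ih j h).trans_lt h

lemma col_lt {J : Set Λ} {i j : Λ} (hj : j ∈ J) (h : j < i) : col J j < col J i := by
  rw [col_eq J i]
  exact csInf_mem (s := {γ | ∀ j ∈ J, j < i → col J j < γ})
    ⟨i, fun j _ h => (col_le J j).trans_lt h⟩ j hj h

lemma col_mono (J : Set Λ) : StrictMonoOn (col J) J := fun _ hi _ _ h => col_lt hi h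

lemma exists_col {J : Set Λ} {i γ : Λ} (h : γ < col J i) : ∃ j ∈ J, j < i ∧ col J j = γ := by
  induction i using WellFoundedLT.induction with
  | _ i ih =>
  by_contra hc
  refine h.not_ge ?_
  rw [col_eq]
  refine csInf_le' fun j hj hji => ?_
  rcases lt_trichotomy (col J j) γ with h' | h' | h'
  · exact h'
  · exact absurd ⟨j, hj, hji, h'⟩ hc
  · obtain ⟨j', h1, h2, h3⟩ := ih j hji h'
    exact absurd ⟨j', h1, h2.trans hji, h3⟩ hc

lemma col_lower (J : Set Λ) : IsLowerSet (col J '' J) := by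
  rintro _ γ h ⟨i, hi, rfl⟩
  rcases h.eq_or_lt with rfl | h
  · exact ⟨i, hi, rfl⟩
  · obtain ⟨j, hj, -, rfl⟩ := exists_col h
    exact ⟨j, hj, rfl⟩

lemma col_eq_self {J : Set Λ} {i : Λ} (h : ∀ j < i, j ∈ J) : col J i = i := by
  induction i using WellFoundedLT.induction with
  | _ i ih =>
  refine (col_le J i).antisymm (not_lt.1 fun hc => ?_)
  have := col_lt (h _ hc) hc
  rw [ih _ hc fun j hj => h j (hj.trans hc)] at this
  exact this.false

lemma T_col {J : Set Λ} (hJ : Closed s b J) {x : Obj} (hx : ∀ i ∈ labs x, i ∈ J) :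
    T s b (Ob.map (col J) x) ↔ T s b x :=
  T_map hJ (col_mono J) (closed_lower (col_lower J)) hx

/-- The moves of the game on objects labelled by numbers ordered by `w`. -/
def ChW (s : Sys) (b : Set ℕ) (w : ℕ → ℕ → Prop) (x y : Ob ℕ) : Prop :=
  ∃ e : ℕ → Λ, (∀ m ∈ labs (node x y), ∀ n ∈ labs (node x y), w m n ↔ e m < e n) ∧
    Ch s b (Ob.map e x) (Ob.map e y)

lemma ChW_iff {e : ℕ → Λ} {w : ℕ → ℕ → Prop} (hw : ∀ m n, w m n ↔ e m < e n) (x y : Ob ℕ) :
    ChW s b w x y ↔ Ch s b (Ob.map e x) (Ob.map e y) := by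
  refine ⟨fun ⟨e', h, h'⟩ => ?_, fun h => ⟨e, fun m _ n _ => hw m n, h⟩⟩
  exact ((inv_Ch s b).pat_iff fun m hm n hn => (h m hm n hn).symm.trans (hw m n)).1 h'

def IsTable (s : Sys) (b : Set ℕ) (w : ℕ → ℕ → Prop) (H : Ob ℕ → Prop) : Prop :=
  ∀ x, H x ↔ ∃ y, ChW s b w x y ∧ ¬ H y

lemma mem_range_of_labs {A : Type*} {e : A → Λ} (x : Ob A) :
    ∀ i ∈ labs (Ob.map e x), i ∈ Set.range e := by
  intro i hi
  simp only [labs_map, List.mem_map] at hi
  obtain ⟨j, -, rfl⟩ := hi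
  exact ⟨j, rfl⟩

lemma isTable_T {e : ℕ → Λ} {w : ℕ → ℕ → Prop} (hw : ∀ m n, w m n ↔ e m < e n)
    (he : Closed s b (Set.range e)) : IsTable s b w fun x => T s b (Ob.map e x) := by
  intro x
  simp only [ChW_iff hw]
  refine ⟨fun h => ?_, fun ⟨y, h1, h2⟩ => (T_iff _).2 ⟨_, h1, h2⟩⟩
  obtain ⟨y', hy, h1, h2⟩ := he.exists_ch (mem_range_of_labs x) h
  obtain ⟨y, rfl⟩ := exists_map hy
  exact ⟨y, h1, h2⟩

lemma IsTable.unique {e : ℕ → Λ} {w : ℕ → ℕ → Prop} (hw : ∀ m n, w m n ↔ e m < e n)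
    (he : Closed s b (Set.range e)) {H : Ob ℕ → Prop} (hH : IsTable s b w H) (x : Ob ℕ) :
    H x ↔ T s b (Ob.map e x) := by
  induction x using (InvImage.wf (Ob.map e) (Ch_wf s b)).induction with
  | _ x ih =>
  refine (hH x).trans (Iff.trans ?_ (isTable_T hw he x).symm)
  refine exists_congr fun y => and_congr_right fun h => not_congr (ih y ?_)
  exact (ChW_iff hw x y).1 h

lemma exists_rank {w : ℕ → ℕ → Prop} (hw : WellFounded w)
    (hn : ∀ a b c, w a b → w a c ∨ w c b) :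
    ∃ e : ℕ → Λ, (∀ m n, w m n ↔ e m < e n) ∧ IsLowerSet (Set.range e) := by
  let e : ℕ → Λ := hw.fix fun n IH => sInf {γ | ∀ m, ∀ h : w m n, IH m h < γ}
  have he : ∀ n, e n = sInf {γ | ∀ m, w m n → e m < γ} := fun n => by
    simp only [e]; rw [WellFounded.fix_eq]
  have h1 : ∀ m n, w m n → e m < e n := fun m n h => by
    obtain ⟨M, hM⟩ : BddAbove (Set.range e) := Ordinal.bddAbove_of_small
    rw [he n]
    exact csInf_mem (s := {γ | ∀ m, w m n → e m < γ})
      ⟨M + 1, fun m _ => Order.lt_add_one_iff.2 (hM ⟨m, rfl⟩)⟩ m h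
  refine ⟨e, fun m n => ⟨h1 m n, fun h => ?_⟩, ?_⟩
  · by_contra hc
    refine h.not_ge ?_
    rw [he n]
    exact csInf_le' fun c hc' => h1 _ _ ((hn c n m hc').resolve_right hc)
  · rintro _ γ h ⟨n, rfl⟩
    induction n using hw.induction with
    | _ n ih =>
    rcases h.eq_or_lt with rfl | h
    · exact ⟨n, rfl⟩
    by_contra hc
    refine h.not_ge ?_
    rw [he n]
    exact csInf_le' fun m hm => not_le.1 fun h' => hc (ih m hm h')

end Pool.Agent.Lib.MP_2c8569_lc
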