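import Pool.Agent.Lib.MP_2c8569_lc.Reals

set_option autoImplicit false

namespace Pool.Agent.Lib.MP_2c8569_lc

open Classical Ob Filter Ctx

lemma Ctx.res_mem {C : Ctx} {ξ : Λ} {q : Cond} (hq : q ∈ C.G C.k) : res ξ q ∈ C.G ξ :=
  (C.mem_G ξ _).2 ⟨(C.gen _ le_rfl).lower hq (res_sub ξ q), supp_res ξ q⟩

/-- The generic real of stage `ξ` is dominating and guesses infinitely often. -/
lemma ev_dom : ∀ᶠ C in 𝓕, ∀ ξ < C.k, ∃ d, C.RF C.k d ∧
    (∀ f, C.RF ξ f → ∀ᶠ n in atTop, f n ≤ d n) ∧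
    ∀ g, C.RF ξ g → ∀ N, ∃ m, N ≤ m ∧ (d m).unpair.1 = g m := by
  have d1 : Dfn fun _ (a : Cond × Λ × ℕ) => ∃ v, (a.2.1, a.2.2, v) ∈ a.1.1 := by
    repeat' first
      | (refine Dfn.inv ?_; fun_prop) | (refine Dfn.orc ?_; fun_prop) | assumption
      | refine Dfn.and ?_ ?_ | refine Dfn.or ?_ ?_ | refine Dfn.iff ?_ ?_ | refine Dfn.not ?_
      | refine Dfn.allO (by fun_prop) ?_ | refine Dfn.exO (by fun_prop) ?_
      | refine Dfn.allO' (by fun_prop) ?_ | refine Dfn.exO' (by fun_prop) ?_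
      | refine Dfn.allE (by fun_prop) ?_ | refine Dfn.exE (by fun_prop) ?_
      | refine Dfn.allE' (by fun_prop) ?_ | refine Dfn.exE' (by fun_prop) ?_
      | refine Dfn.allL (by fun_prop) ?_ | refine Dfn.exL (by fun_prop) ?_
      | refine Dfn.allL' (by fun_prop) ?_ | refine Dfn.exL' (by fun_prop) ?_
      | refine Dfn.allM (by fun_prop) ?_ | refine Dfn.exM (by fun_prop) ?_
      | refine Dfn.imp ?_ ?_ | refine Dfn.allP ?_ | refine Dfn.exP ?_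
  have d2 : Dfn fun _ (a : (ℕ × Cond) × Λ) =>
      (a.2, a.1.1.unpair.1, a.1.1.unpair.2) ∈ a.1.2.1 := Dfn.inv (by fun_prop)
  have d3 : Dfn fun _ (a : Cond × Λ × Obj) => ∃ N, (a.2.1, a.2.2, N) ∈ a.1.2 := by
    repeat' first
      | (refine Dfn.inv ?_; fun_prop) | (refine Dfn.orc ?_; fun_prop) | assumption
      | refine Dfn.and ?_ ?_ | refine Dfn.or ?_ ?_ | refine Dfn.iff ?_ ?_ | refine Dfn.not ?_
      | refine Dfn.allO (by fun_prop) ?_ | refine Dfn.exO (by fun_prop) ?_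
      | refine Dfn.allO' (by fun_prop) ?_ | refine Dfn.exO' (by fun_prop) ?_
      | refine Dfn.allE (by fun_prop) ?_ | refine Dfn.exE (by fun_prop) ?_
      | refine Dfn.allE' (by fun_prop) ?_ | refine Dfn.exE' (by fun_prop) ?_
      | refine Dfn.allL (by fun_prop) ?_ | refine Dfn.exL (by fun_prop) ?_
      | refine Dfn.allL' (by fun_prop) ?_ | refine Dfn.exL' (by fun_prop) ?_
      | refine Dfn.allM (by fun_prop) ?_ | refine Dfn.exM (by fun_prop) ?_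
      | refine Dfn.imp ?_ ?_ | refine Dfn.allP ?_ | refine Dfn.exP ?_
  have d4 : Dfn fun O (a : Cond × Obj × ℕ × ℕ) =>
      ∃ m, m ≤ a.2.2.2 ∧ Hit O a.2.1 (Nat.pair a.2.2.1 m) a.1 := by
    unfold Hit
    repeat' first
      | (refine Dfn.inv ?_; fun_prop) | (refine Dfn.orc ?_; fun_prop) | assumption
      | refine Dfn.and ?_ ?_ | refine Dfn.or ?_ ?_ | refine Dfn.iff ?_ ?_ | refine Dfn.not ?_
      | refine Dfn.allO (by fun_prop) ?_ | refine Dfn.exO (by fun_prop) ?_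
      | refine Dfn.allO' (by fun_prop) ?_ | refine Dfn.exO' (by fun_prop) ?_
      | refine Dfn.allE (by fun_prop) ?_ | refine Dfn.exE (by fun_prop) ?_
      | refine Dfn.allE' (by fun_prop) ?_ | refine Dfn.exE' (by fun_prop) ?_
      | refine Dfn.allL (by fun_prop) ?_ | refine Dfn.exL (by fun_prop) ?_
      | refine Dfn.allL' (by fun_prop) ?_ | refine Dfn.exL' (by fun_prop) ?_
      | refine Dfn.allM (by fun_prop) ?_ | refine Dfn.exM (by fun_prop) ?_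
      | refine Dfn.imp ?_ ?_ | refine Dfn.allP ?_ | refine Dfn.exP ?_
  have d5 : Dfn fun O (a : Cond × Λ × Λ × Obj × ℕ) => (∃ m, a.2.2.2.2 ≤ m ∧ ∃ v : ℕ,
      (a.2.2.1, m, v) ∈ a.1.1 ∧ Hit O a.2.2.2.1 (Nat.pair m v.unpair.1) (res a.2.2.1 a.1)) ∨
      ∃ m, ∀ w, ∀ q : Cond, mx (enc q) < a.2.1 → O (pV a.2.1 a.2.2.1 q) →
        Sub (res a.2.2.1 a.1) q → ¬ Hit O a.2.2.2.1 (Nat.pair m w) q := by
    unfold Hit
    repeat' first
      | (refine Dfn.inv ?_; fun_prop) | (refine Dfn.orc ?_; fun_prop) | assumption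
      | refine Dfn.and ?_ ?_ | refine Dfn.or ?_ ?_ | refine Dfn.iff ?_ ?_ | refine Dfn.not ?_
      | refine Dfn.allO (by fun_prop) ?_ | refine Dfn.exO (by fun_prop) ?_
      | refine Dfn.allO' (by fun_prop) ?_ | refine Dfn.exO' (by fun_prop) ?_
      | refine Dfn.allE (by fun_prop) ?_ | refine Dfn.exE (by fun_prop) ?_
      | refine Dfn.allE' (by fun_prop) ?_ | refine Dfn.exE' (by fun_prop) ?_
      | refine Dfn.allL (by fun_prop) ?_ | refine Dfn.exL (by fun_prop) ?_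
      | refine Dfn.allL' (by fun_prop) ?_ | refine Dfn.exL' (by fun_prop) ?_
      | refine Dfn.allM (by fun_prop) ?_ | refine Dfn.exM (by fun_prop) ?_
      | refine Dfn.imp ?_ ?_ | refine Dfn.allP ?_ | refine Dfn.exP ?_
  filter_upwards [ev_dec d1, ev_rl d2, ev_dec d3, ev_dec d4, ev_dec d5, ev_low]
    with C h1 h2 h3 h4 h5 hL ξ hξ
  have hξD := hξ.trans C.kD
  have hkD := WithBot.coe_lt_coe.2 C.kD
  have hG := C.gen _ le_rfl
  have hG' := C.gen _ hξ.le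
  have tot : ∀ n, ∃ v, ∃ p ∈ C.G C.k, (ξ, n, v) ∈ p.1 := fun n => by
    obtain ⟨r, hr, -, v, hv⟩ := h1.meet le_rfl (a := (ξ, n)) (by simp [hξD]) (emp_mem le_rfl)
      fun q hq _ => by
        by_cases h : ∃ v, (ξ, n, v) ∈ q.1
        · exact ⟨q, hq, Sub.rfl, h⟩
        · obtain ⟨B, hB⟩ := hq.add_stem C.std hξ (n := n)
            (fun c hc e1 e2 => h ⟨c.2.2, by rw [← e1, ← e2]; exact hc⟩) (hq.res C.std hξ.le) Sub.rfl
          obtain ⟨q', e1, e2, -, e3⟩ := hB B le_rfl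
          exact ⟨q', e1, e2, B, e3⟩
    exact ⟨v, r, hr, hv⟩
  choose d p hp hd using tot
  have hu : ∀ q ∈ C.G C.k, ∀ n v, (ξ, n, v) ∈ q.1 → d n = v := fun q hq n v h => by
    obtain ⟨r, -, e1, e2, e3⟩ := hG.dir (hp n) hq
    exact e1.func C.std _ (e2.1 (hd n)) _ (e3.1 h) rfl rfl
  refine ⟨d, (h2 _ le_rfl ξ (by simp [hξ.trans C.kδ])).of_iff fun c =>
    ⟨fun ⟨r, hr, h⟩ => hu r hr _ _ h, fun h => ⟨_, hp c.unpair.1, ?_⟩⟩, fun f hf => ?_,
    fun g ⟨x, hx, h⟩ N => ?_⟩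
  · have := hd c.unpair.1
    rwa [show d c.unpair.1 = c.unpair.2 from h] at this
  · obtain ⟨x, hx, h⟩ := hL ξ hξ.le _ hf
    obtain ⟨q, hq, -, N, hN⟩ := h3.meet le_rfl (a := (ξ, x)) (by simp [hξD, hx.trans hkD])
      (emp_mem le_rfl) fun q hq _ =>
        let ⟨N, hN⟩ := hq.add_prom C.std hξ hx
        ⟨_, hN, ⟨fun _ h => h, fun _ h => List.mem_cons_of_mem _ h⟩, N, List.mem_cons_self⟩
    refine eventually_atTop.2 ⟨N, fun n hn => ?_⟩
    obtain ⟨r, hr, e1, e2, e3⟩ := hG.dir hq (hp n)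
    have e4 := e1.prom C.std _ (e2.2 hN) _ (e3.1 (hd n)) rfl hn
    obtain ⟨r0, e5, e6⟩ := (h (Nat.pair n (f n))).1 (by simp)
    obtain ⟨r1, e7, -, e8, e9⟩ := hG'.dir (res_mem hr) e5
    obtain ⟨r2, f1, -, m, f2, f3⟩ := h4.meet hξ.le (a := (x, n, d n)) (by simp [hx.trans hkD]) e7
      fun q hq hq' =>
        let ⟨q', _, g1, g2, g3⟩ := e4 q hq.mx_lt hq (e8.trans hq') ⟨_, e6.mono (e9.trans hq')⟩
        ⟨q', g1, g2, g3⟩
    exact (pair_mem_gr.1 ((h _).2 ⟨r2, f1, f3⟩)).trans_le f2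
  · obtain ⟨q, hq, -, ⟨m, e1, v, e2, e3⟩ | ⟨m, e1⟩⟩ := h5.meet le_rfl (a := (C.k, ξ, x, N))
      (by simp [hξD, C.kD, hx.trans (WithBot.coe_lt_coe.2 C.δD)]) (emp_mem le_rfl) fun q hq _ => by
        obtain ⟨M, hM⟩ := (List.finite_toSet (q.1.map fun c => c.2.1)).bddAbove
        by_cases h : ∃ w r, C.V ξ r ∧ Sub (res ξ q) r ∧ Hit C.T x (Nat.pair (max N (M + 1)) w) r
        · obtain ⟨w, r, e1, e2, e3⟩ := h
          obtain ⟨B, hB⟩ := hq.add_stem C.std hξ (n := max N (M + 1)) (fun c hc _ e => by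
            have := hM (List.mem_map.2 ⟨c, hc, rfl⟩)
            omega) e1 e2
          obtain ⟨q', e4, e5, e6, e7⟩ := hB (Nat.pair w B) (Nat.right_le_pair _ _)
          refine ⟨q', e4, e5, .inl ⟨_, le_max_left _ _, _, e7, ?_⟩⟩
          rw [Nat.unpair_pair]
          exact e3.mono ((e1.supp C.std).sub_res e6)
        · exact ⟨q, hq, Sub.rfl, .inr ⟨_, fun w r _ e1 e2 e3 => h ⟨w, r, e1, e2, e3⟩⟩⟩
    · exact ⟨m, e1, by rw [hu q hq m v e2, pair_mem_gr.1 ((h _).2 ⟨_, res_mem hq, e3⟩)]⟩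
    · obtain ⟨r, e2, e3⟩ := (h (Nat.pair m (g m))).1 (by simp)
      obtain ⟨r', -, e4, e5, e6⟩ := hG'.dir (res_mem hq) e2
      exact absurd (e3.mono e6) (e1 _ r' (V.mx_lt e4) e4 e5)

/-- Choice of numbers. -/
def Ctx.Chs (C : Ctx) (R : ℕ → ℕ → (ℕ → ℕ) → Prop) : Prop :=
  ∀ {η}, η ≤ C.k → ∀ {F}, C.RF η F → (∀ a, ∃ b, R a b F) → ∃ f, C.RF η f ∧ ∀ a, R a (f a) F

lemma ev_chs {R : ℕ → ℕ → (ℕ → ℕ) → Prop} (h : ∀ a b, Clo (R a b)) : ∀ᶠ C in 𝓕, C.Chs R := by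
  filter_upwards [ev_op (P := fun c : ℕ => fun F => R c.unpair.1 c.unpair.2 F ∧
    ∀ j, j < c.unpair.2 → ¬ R c.unpair.1 j F) fun c =>
      ((h _ _).and (Clo.ball fun j => (h _ j).not)).opn] with C h η hη F hF hR
  refine ⟨fun a => Nat.find (hR a), (h.nat hη hF).of_iff fun c => ?_, fun a => Nat.find_spec (hR a)⟩
  simp [gr, Nat.find_eq_iff]

/-- Dependent choice of numbers. -/
def Ctx.DC (C : Ctx) (R : ℕ → ℕ → (ℕ → ℕ) → Prop) : Prop :=
  ∀ {η}, η ≤ C.k → ∀ {F}, C.RF η F → (∀ a, ∃ b, R a b F) → ∀ a, ∃ v, C.RF η v ∧ v 0 = a ∧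
    ∀ n, R (v n) (v (n + 1)) F

lemma ev_dc {R : ℕ → ℕ → (ℕ → ℕ) → Prop} (h : ∀ a b, Clo (R a b)) : ∀ᶠ C in 𝓕, C.DC R := by
  have : ∀ n, Cts fun F => (fun m => F (Nat.pair 1 m))^[n] (F (Nat.pair 0 0)) := fun n => by
    induction n with
    | zero => exact Cts.proj _
    | succ n ih =>
      simp only [Function.iterate_succ_apply']
      exact ih.bind (Ψ := fun a F => F (Nat.pair 1 a)) fun a => Cts.proj _
  filter_upwards [ev_chs h, ev_ct this, ev_cl] with C h1 h2 hC η hη F hF hR a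
  obtain ⟨f, hf, h⟩ := h1 hη hF hR
  have := h2 hη (hC.cns hη (hC.const hη a) (hC.cns hη hf hf))
  simp only [cns_one, cns_zero] at this
  exact ⟨_, this, rfl, fun n => by rw [Function.iterate_succ_apply']; exact h _⟩

/-- Reflection of existential statements. -/
def Ctx.Rf (C : Ctx) {α β : Type*} [Enc α] [Enc β] (P : Orc → β × α → Prop) : Prop :=
  ∀ γ < C.δ, Closed C.s C.b (insert C.δ (Set.Iio γ)) → ∀ a, mx (enc a) < γ → ∀ y,
    mx (enc y) < C.δ → P C.T (y, a) → ∃ y', mx (enc y') < γ ∧ P C.T (y', a)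

lemma ev_rf {α β : Type*} [Enc α] [Enc β] {P : Orc → β × α → Prop} (h : Dfn P) :
    ∀ᶠ C in 𝓕, C.Rf P := by
  have d1 : Dfn fun O (a : Obj × α) => ∃ y : β, mx (enc y) ≤ mx a.1 ∧ a.1 = enc y ∧
      P O (y, a.2) :=
    Dfn.exE' (by fun_prop) ((Dfn.inv (by fun_prop)).and (h.comp (by fun_prop)))
  filter_upwards [ev_prog d1] with C ⟨d, hd⟩ γ hγ hcl a ha y hy hP
  have ha' := ha.trans (WithBot.coe_lt_coe.2 hγ)
  obtain ⟨z, h1, -, h2⟩ := hcl (prog d C.δ a) True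
    (by simpa using fun i hi => .inr (mx_lt_iff.1 ha i hi))
    ⟨enc y, by simp [hy.le], iff_true_intro ((hd _ _ _ (enc y) ha').2 ⟨hy, y, le_rfl, rfl, hP⟩)⟩
  obtain ⟨h3, y', -, rfl, h4⟩ := (hd _ _ _ z ha').1 (h2.2 trivial)
  exact ⟨y', mx_lt_iff.2 fun i hi => (h1 i hi).resolve_left (mx_lt_iff.1 h3 i hi).ne, h4⟩

noncomputable def pR (d : ℕ) (k : Λ) (x : Obj) (n : ℕ) (γ : Λ) (r : Cond) : Obj :=
  node (hd 1 (lab γ) 0 1 d []) (enc (r, d, k, x, n, γ))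

@[fun_prop] lemma Inv.pR {α : Type*} [Act α] {d n : α → ℕ} {k γ : α → Λ} {x : α → Obj}
    {r : α → Cond} (h1 : Inv d) (h2 : Inv k) (h3 : Inv x) (h4 : Inv n) (h5 : Inv γ) (h6 : Inv r) :
    Inv fun a => pR (d a) (k a) (x a) (n a) (γ a) (r a) := by unfold MP_2c8569_lc.pR; fun_prop

def cR (O : Orc) (a : Cond × ℕ × Λ × Obj × ℕ × Λ) : Prop :=
  ∀ m, ∀ q : Cond, mx (enc q) < a.2.2.1 → O (pV a.2.2.1 a.2.2.1 q) → Sub a.1 q →
    Hit O a.2.2.2.1 (Nat.pair m a.2.2.2.2.1) q → ∃ q' : Cond, mx (enc q') < a.2.2.1 ∧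
      O (pV a.2.2.1 a.2.2.1 q') ∧ Sub q q' ∧ ∃ γ, γ < a.2.2.2.2.2 ∧
        O (pR a.2.1 a.2.2.1 a.2.2.2.1 m γ q')

lemma dfn_cR : Dfn cR := by
  unfold cR Hit
  repeat' first
    | (refine Dfn.inv ?_; fun_prop) | (refine Dfn.orc ?_; fun_prop) | assumption
    | refine Dfn.and ?_ ?_ | refine Dfn.or ?_ ?_ | refine Dfn.iff ?_ ?_ | refine Dfn.not ?_
    | refine Dfn.allO (by fun_prop) ?_ | refine Dfn.exO (by fun_prop) ?_
    | refine Dfn.allO' (by fun_prop) ?_ | refine Dfn.exO' (by fun_prop) ?_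
    | refine Dfn.allE (by fun_prop) ?_ | refine Dfn.exE (by fun_prop) ?_
    | refine Dfn.allE' (by fun_prop) ?_ | refine Dfn.exE' (by fun_prop) ?_
    | refine Dfn.allL (by fun_prop) ?_ | refine Dfn.exL (by fun_prop) ?_
    | refine Dfn.allL' (by fun_prop) ?_ | refine Dfn.exL' (by fun_prop) ?_
    | refine Dfn.allM (by fun_prop) ?_ | refine Dfn.exM (by fun_prop) ?_
    | refine Dfn.imp ?_ ?_ | refine Dfn.allP ?_ | refine Dfn.exP ?_

lemma T_pR {s : Sys} {b : Set ℕ} {d : ℕ} (h : Rep s d cR) {k : Λ} {x : Obj} (hx : mx x < k)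
    (n : ℕ) (γ : Λ) (r : Cond) : T s b (pR d k x n γ r) ↔ cR (T s b) (r, d, k, x, n, γ) := by
  refine (h.T_iff 1 0 (a := (r, d, k, x, n, γ)) (by simp)).trans ?_
  have hk : (k : WithBot Λ) ≤ mx (enc (r, d, k, x, n, γ)) := by simp
  have hγ : (γ : WithBot Λ) ≤ mx (enc (r, d, k, x, n, γ)) := by simp
  generalize mx (enc (r, d, k, x, n, γ)) = μ at hk hγ
  have hV : ∀ q : Cond, mx (enc q) < k → RL (pV k k q) μ 1 (mx (lab γ)) 0 := fun q hq =>
    RL.of_c (by simp [hq.le.trans hk, hk]) (by simp [pV])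
  refine forall₃_congr fun m q hq => imp_congr (and_iff_right (hV q hq)) (imp_congr_right fun _ =>
    imp_congr (Hit_congr (fun y hy => and_iff_right (.inl ((hy.trans_lt hx).trans_le hk))) _ _)
    (exists_congr fun q' => and_congr_right fun hq' => and_congr (and_iff_right (hV q' hq'))
    (and_congr_right fun _ => exists_congr fun γ' => and_congr_right fun h' =>
      and_iff_right (RL.of_B ?_ rfl (by simpa [pR] using h')))))
  have := (WithBot.coe_le_coe.2 (le_of_lt h')).trans hγ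
  simp only at hq' this
  simp [pR, hq'.le.trans hk, hk, hx.le.trans hk, this]

/-- Absoluteness of well-foundedness. -/
lemma ev_wf : ∀ᶠ C in 𝓕, ∀ w : ℕ → ℕ → Prop, C.RR C.k {c | w c.unpair.1 c.unpair.2} →
    (∀ v, C.RF C.k v → ∃ n, ¬ w (v (n + 1)) (v n)) → WellFounded w := by
  have d1 : Dfn fun O (a : Cond × ℕ × Λ × Obj × ℕ × Λ) => ∃ γ, γ < a.2.2.2.2.2 ∧
      O (pR a.2.1 a.2.2.1 a.2.2.2.1 a.2.2.2.2.1 γ a.1) := by
    repeat' first
      | (refine Dfn.inv ?_; fun_prop) | (refine Dfn.orc ?_; fun_prop) | assumption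
      | refine Dfn.and ?_ ?_ | refine Dfn.or ?_ ?_ | refine Dfn.iff ?_ ?_ | refine Dfn.not ?_
      | refine Dfn.allO (by fun_prop) ?_ | refine Dfn.exO (by fun_prop) ?_
      | refine Dfn.allO' (by fun_prop) ?_ | refine Dfn.exO' (by fun_prop) ?_
      | refine Dfn.allE (by fun_prop) ?_ | refine Dfn.exE (by fun_prop) ?_
      | refine Dfn.allE' (by fun_prop) ?_ | refine Dfn.exE' (by fun_prop) ?_
      | refine Dfn.allL (by fun_prop) ?_ | refine Dfn.exL (by fun_prop) ?_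
      | refine Dfn.allL' (by fun_prop) ?_ | refine Dfn.exL' (by fun_prop) ?_
      | refine Dfn.allM (by fun_prop) ?_ | refine Dfn.exM (by fun_prop) ?_
      | refine Dfn.imp ?_ ?_ | refine Dfn.allP ?_ | refine Dfn.exP ?_
  have d2 : Dfn fun O (a : (ℕ × Cond) × ℕ × Λ × Obj × Λ) => ∃ γ, γ < a.2.2.2.2 ∧
      O (pR a.2.1 a.2.2.1 a.2.2.2.1 a.1.1 γ a.1.2) := by
    repeat' first
      | (refine Dfn.inv ?_; fun_prop) | (refine Dfn.orc ?_; fun_prop) | assumption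
      | refine Dfn.and ?_ ?_ | refine Dfn.or ?_ ?_ | refine Dfn.iff ?_ ?_ | refine Dfn.not ?_
      | refine Dfn.allO (by fun_prop) ?_ | refine Dfn.exO (by fun_prop) ?_
      | refine Dfn.allO' (by fun_prop) ?_ | refine Dfn.exO' (by fun_prop) ?_
      | refine Dfn.allE (by fun_prop) ?_ | refine Dfn.exE (by fun_prop) ?_
      | refine Dfn.allE' (by fun_prop) ?_ | refine Dfn.exE' (by fun_prop) ?_
      | refine Dfn.allL (by fun_prop) ?_ | refine Dfn.exL (by fun_prop) ?_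
      | refine Dfn.allL' (by fun_prop) ?_ | refine Dfn.exL' (by fun_prop) ?_
      | refine Dfn.allM (by fun_prop) ?_ | refine Dfn.exM (by fun_prop) ?_
      | refine Dfn.imp ?_ ?_ | refine Dfn.allP ?_ | refine Dfn.exP ?_
  have d3 : Dfn fun O (a : Λ × Cond × ℕ × Λ × Obj × ℕ) =>
      O (pR a.2.2.1 a.2.2.2.1 a.2.2.2.2.1 a.2.2.2.2.2 a.1 a.2.1) := Dfn.orc (by fun_prop)
  have d4 : Dfn fun O (a : Cond × ℕ × Λ × Obj × ℕ × Λ) => ∃ m,
      Hit O a.2.2.2.1 (Nat.pair m a.2.2.2.2.1) a.1 ∧ ∀ q' : Cond, mx (enc q') < a.2.2.1 →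
      O (pV a.2.2.1 a.2.2.1 q') → Sub a.1 q' → ∀ γ, γ < a.2.2.2.2.2 →
        ¬ O (pR a.2.1 a.2.2.1 a.2.2.2.1 m γ q') := by
    unfold Hit
    repeat' first
      | (refine Dfn.inv ?_; fun_prop) | (refine Dfn.orc ?_; fun_prop) | assumption
      | refine Dfn.and ?_ ?_ | refine Dfn.or ?_ ?_ | refine Dfn.iff ?_ ?_ | refine Dfn.not ?_
      | refine Dfn.allO (by fun_prop) ?_ | refine Dfn.exO (by fun_prop) ?_
      | refine Dfn.allO' (by fun_prop) ?_ | refine Dfn.exO' (by fun_prop) ?_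
      | refine Dfn.allE (by fun_prop) ?_ | refine Dfn.exE (by fun_prop) ?_
      | refine Dfn.allE' (by fun_prop) ?_ | refine Dfn.exE' (by fun_prop) ?_
      | refine Dfn.allL (by fun_prop) ?_ | refine Dfn.exL (by fun_prop) ?_
      | refine Dfn.allL' (by fun_prop) ?_ | refine Dfn.exL' (by fun_prop) ?_
      | refine Dfn.allM (by fun_prop) ?_ | refine Dfn.exM (by fun_prop) ?_
      | refine Dfn.imp ?_ ?_ | refine Dfn.allP ?_ | refine Dfn.exP ?_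
  filter_upwards [ev_rep dfn_cR, ev_dec d1, ev_rl d2, ev_rf d3, ev_dec d4, ev_low, ev_cl,
    ev_dc (R := fun a b F => F (Nat.pair 0 a) = 1 ∨
      (F (Nat.pair 1 (Nat.pair b a)) = 1 ∧ ¬ F (Nat.pair 0 b) = 1))
      fun a b => (Clo.eq _ _).or ((Clo.eq _ _).and (Clo.eq _ _).not)]
    with C ⟨d, hd⟩ h1 h2 h3 h4 hL hC hD w hw hv
  obtain ⟨x, hx, h⟩ := hL _ le_rfl _ hw
  have h : ∀ m n, w m n ↔ ∃ r ∈ C.G C.k, Hit C.T x (Nat.pair m n) r := fun m n => by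
    simpa only [Set.mem_ofPred_eq, Nat.unpair_pair] using h (Nat.pair m n)
  have hG := C.gen _ le_rfl
  have hxD := hx.trans (WithBot.coe_lt_coe.2 C.kD)
  have mono : ∀ n γ r r', C.T (pR d C.k x n γ r) → Sub r r' → C.T (pR d C.k x n γ r') :=
    fun n γ r r' h h' => (T_pR hd hx _ _ _).2 fun m q e1 e2 e3 =>
      (T_pR hd hx _ _ _).1 h m q e1 e2 (h'.trans e3)
  have acc : ∀ γ < C.D, ∀ n, ∀ r ∈ C.G C.k, C.T (pR d C.k x n γ r) → Acc w n := by
    intro γ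
    induction γ using WellFoundedLT.induction with
    | _ γ ih =>
    refine fun hγ n r hr h' => ⟨_, fun m hm => ?_⟩
    obtain ⟨r0, e1, e2⟩ := (h m n).1 hm
    obtain ⟨r1, e3, -, e4, e5⟩ := hG.dir hr e1
    obtain ⟨r2, e6, -, γ', e7, e8⟩ := h1.meet le_rfl (a := (d, C.k, x, m, γ))
      (by simp [C.kD, hxD, hγ]) e3 fun q hq hq' =>
        let ⟨q', _, g1, g2, g3⟩ := (T_pR hd hx _ _ _).1 h' m q hq.mx_lt hq (e4.trans hq')
          (e2.mono (e5.trans hq'))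
        ⟨q', g1, g2, g3⟩
    exact ih γ' e7 (e7.trans hγ) m r2 e6 e8
  obtain ⟨β, hβ, hk, -, hcl⟩ := C.exists_refl (μ := ⊥) (by simp)
  have hk' := WithBot.coe_lt_coe.2 hk
  have hS := h2 _ le_rfl (d, C.k, x, β) (by simp [C.kδ, hx.trans (WithBot.coe_lt_coe.2 C.kδ), hβ])
  generalize hS' : {n | ∃ r ∈ C.G C.k, _} = S at hS
  have hS' : ∀ n, n ∈ S ↔ ∃ r ∈ C.G C.k, ∃ γ, γ < β ∧ C.T (pR d C.k x n γ r) := fun n =>
    hS' ▸ Iff.rfl
  have key : ∀ n, (∀ m, w m n → m ∈ S) → n ∈ S := fun n hn => by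
    obtain ⟨p, hp, -, e1⟩ := h4.avoid le_rfl (a := (d, C.k, x, n, β))
      (by simp [C.kD, hxD, hβ.trans C.δD]) (by
        rintro r hr - ⟨m, e1, e2⟩
        obtain ⟨r', e3, γ, e4, e5⟩ := (hS' m).1 (hn m ((h m n).2 ⟨r, hr, e1⟩))
        obtain ⟨q, -, e6, e7, e8⟩ := hG.dir hr e3
        exact e2 q (V.mx_lt e6) e6 e7 γ e4 (mono _ _ _ _ e5 e8))
    obtain ⟨γ, e2, e3⟩ := h3 β hβ hcl (p, d, C.k, x, n)
      (by simp [(mx_lt_of_mem le_rfl hp).trans hk', hk, hx.trans hk']) β (by simpa using hβ)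
      ((T_pR hd hx _ _ _).2 fun m q _ e2 e3 e4 => by
        by_contra hc
        exact e1 q e2 e3 ⟨m, e4, fun q' e5 e6 e7 γ e8 e9 => hc ⟨q', e5, e6, e7, γ, e8, e9⟩⟩)
    exact (hS' n).2 ⟨p, hp, γ, by simpa using e2, e3⟩
  refine ⟨fun n => ?_⟩
  by_cases hn : n ∈ S
  · obtain ⟨r, e1, γ, e2, e3⟩ := (hS' n).1 hn
    exact acc γ ((e2.trans hβ).trans C.δD) n r e1 e3
  obtain ⟨v, e1, e2, e3⟩ := hD le_rfl (hC.cns le_rfl (hC.ind le_rfl hS)
    (hC.cns le_rfl (hC.ind le_rfl hw) (hC.const le_rfl 0))) (fun a => by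
      simp only [cns_zero, cns_one, ind_eq_one, Set.mem_ofPred_eq, Nat.unpair_pair]
      by_contra hc
      push Not at hc
      exact (hc 0).1 (key a fun m => (hc m).2)) n
  simp only [cns_zero, cns_one, ind_eq_one, Set.mem_ofPred_eq, Nat.unpair_pair] at e3
  have : ∀ i, v i ∉ S := fun i => by
    induction i with
    | zero => rwa [e2]
    | succ i ih => exact ((e3 i).resolve_left ih).2
  obtain ⟨i, hi⟩ := hv v e1
  exact absurd ((e3 i).resolve_left (this i)).1 hi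

end Pool.Agent.Lib.MP_2c8569_lc
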