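import Pool.Agent.Lib.MP_2c8569_lc.ZFC

set_option autoImplicit false

namespace Pool.Agent.Lib.MP_2c8569_lc

open Classical Ob Filter

/-- Skolem terms. -/
inductive Tm : Type
  | x0 : Tm
  | nil : Tm
  | nat (n : ℕ) : Tm
  | node (a b : Tm) : Tm
  | fst (a : Tm) : Tm
  | snd (a : Tm) : Tm
  | sk (p : Bool) (a : Tm) : Tm
  | lbl (a : Tm) : Tm

deriving instance Countable for Tm

noncomputable instance : Enc Tm := .ofInj _ (Countable.exists_injective_nat Tm).choose_spec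
instance : Pur Tm := ⟨fun _ _ => rfl⟩
instance : Nonempty Tm := ⟨.nil⟩

def Tm.sz : Tm → ℕ
  | .node a b => a.sz + b.sz + 1
  | .fst a => a.sz + 1
  | .snd a => a.sz + 1
  | .sk _ a => a.sz + 1
  | .lbl a => a.sz + 1
  | _ => 0

noncomputable def dT : ℕ → Tm := (exists_surjective_nat Tm).choose
lemma dT_surj : Function.Surjective dT := (exists_surjective_nat Tm).choose_spec

noncomputable instance : Encodable (Ob ℕ) := Encodable.ofCountable _
noncomputable def dO (c : ℕ) : Ob ℕ := (Encodable.decode c).getD nil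
@[simp] lemma dO_encode (x : Ob ℕ) : dO (Encodable.encode x) = x := by simp [dO]

noncomputable def tau : Ob ℕ → Tm
  | .nil => .nil
  | .nat n => .nat n
  | .lab n => .lbl (dT n)
  | .node a b => .node (tau a) (tau b)

variable {s : Sys} {b : Set ℕ}

noncomputable def skf (s : Sys) (b : Set ℕ) (p : Bool) (x : Obj) : Obj :=
  if h : ∃ y, mx y ≤ mx x ∧ (T s b (plug x y) ↔ p = true) then
    wo_wf.min {y | mx y ≤ mx x ∧ (T s b (plug x y) ↔ p = true)} h else nil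

lemma skf_spec {p : Bool} {x : Obj} (h : ∃ y, mx y ≤ mx x ∧ (T s b (plug x y) ↔ p = true)) :
    mx (skf s b p x) ≤ mx x ∧ (T s b (plug x (skf s b p x)) ↔ p = true) := by
  rw [skf, dif_pos h]
  exact wo_wf.min_mem {y | mx y ≤ mx x ∧ (T s b (plug x y) ↔ p = true)} h

lemma mx_skf (p : Bool) (x : Obj) : mx (skf s b p x) ≤ mx x := by
  by_cases h : ∃ y, mx y ≤ mx x ∧ (T s b (plug x y) ↔ p = true)
  · exact (skf_spec h).1
  · rw [skf, dif_neg h]; simp

lemma eq_skf_iff {p : Bool} {x y : Obj} : y = skf s b p x ↔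
    (mx y ≤ mx x ∧ (T s b (plug x y) ↔ p = true) ∧
      ∀ y', mx y' ≤ mx x → wo y' y → ¬ (T s b (plug x y') ↔ p = true)) ∨
    (y = nil ∧ ∀ y', mx y' ≤ mx x → ¬ (T s b (plug x y') ↔ p = true)) := by
  by_cases h : ∃ y, mx y ≤ mx x ∧ (T s b (plug x y) ↔ p = true)
  · have h1 := skf_spec h
    have h2 : ∀ y', mx y' ≤ mx x → wo y' (skf s b p x) → ¬ (T s b (plug x y') ↔ p = true) := by
      intro y' hy hw h'
      rw [skf, dif_pos h] at hw
      exact wo_wf.not_lt_min {y | mx y ≤ mx x ∧ (T s b (plug x y) ↔ p = true)} ⟨hy, h'⟩ hw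
    refine ⟨fun e => e ▸ .inl ⟨h1.1, h1.2, h2⟩, ?_⟩
    rintro (⟨h3, h4, h5⟩ | ⟨-, h3⟩)
    · rcases wo_tri y (skf s b p x) with h | h | h
      exacts [absurd h4 (h2 y h3 h), h, absurd h1.2 (h5 _ h1.1 h)]
    · exact absurd h1.2 (h3 _ h1.1)
  · rw [skf, dif_neg h]
    exact ⟨fun e => .inr ⟨e, fun y' hy h' => h ⟨y', hy, h'⟩⟩,
      fun h' => h'.elim (fun h' => absurd ⟨y, h'.1, h'.2.1⟩ h) fun h' => h'.1⟩

/-- The value of a Skolem term. -/
noncomputable def hval (s : Sys) (b : Set ℕ) (x : Obj) : Tm → Obj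
  | .x0 => x
  | .nil => nil
  | .nat n => nat n
  | .node c d => node (hval s b x c) (hval s b x d)
  | .fst c => (hval s b x c).fst
  | .snd c => (hval s b x c).snd
  | .sk p c => skf s b p (hval s b x c)
  | .lbl c => if ∃ i, hval s b x c = lab i then hval s b x c else x.fst

lemma mx_hval (x : Obj) (τ : Tm) : mx (hval s b x τ) ≤ mx x := by
  induction τ with
  | x0 => exact le_rfl
  | nil => simp [hval]
  | nat n => simp [hval]
  | node c d ih ih' => simp [hval, ih, ih']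
  | fst c ih => exact (mx_fst _).trans ih
  | snd c ih => exact (mx_snd _).trans ih
  | sk p c ih => exact (mx_skf _ _).trans ih
  | lbl c ih => simp only [hval]; split_ifs; exacts [ih, mx_fst _]

noncomputable def hen (s : Sys) (b : Set ℕ) (x : Obj) (n : ℕ) : Λ :=
  labOf (hval s b x (.lbl (dT n)))

section
variable {i₀ : Λ} {x : Obj}

lemma hval_lbl (h0 : x.fst = lab i₀) (n : ℕ) : hval s b x (.lbl (dT n)) = lab (hen s b x n) := by
  simp only [hen, hval]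
  split_ifs with h
  · obtain ⟨i, h⟩ := h; rw [h]; rfl
  · rw [h0]; rfl

lemma labs_hval (τ : Tm) : hval s b x τ ∈ ObIn (Set.range (hen s b x)) := by
  generalize hy : hval s b x τ = y
  induction y generalizing τ with
  | nil => simp [ObIn]
  | nat n => simp [ObIn]
  | lab i =>
    obtain ⟨n, rfl⟩ := dT_surj τ
    intro j hj
    simp only [labs_lab, List.mem_singleton] at hj
    exact ⟨n, by simp [hen, hval, hy, labOf, hj]⟩
  | node c d ih ih' =>
    intro j hj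
    simp only [labs_node, List.mem_append] at hj
    exact hj.elim (ih (.fst τ) (by simp [hval, hy]) j) (ih' (.snd τ) (by simp [hval, hy]) j)

lemma hval_tau (h0 : x.fst = lab i₀) (z : Ob ℕ) : hval s b x (tau z) = Ob.map (hen s b x) z := by
  induction z with
  | nil => rfl
  | nat n => rfl
  | lab n => exact hval_lbl h0 n
  | node c d ih ih' => simp [tau, hval, ih, ih']

lemma closed_hen (h0 : x.fst = lab i₀) : Closed s b (Set.range (hen s b x)) := by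
  intro z p hz hp
  obtain ⟨z, rfl⟩ := exists_map hz
  rw [← hval_tau h0] at hp ⊢
  refine ⟨_, labs_hval (.sk (decide p) (tau z)), ?_⟩
  simpa [hval] using skf_spec (p := decide p) (by simpa using hp)

end

noncomputable def pH (d : ℕ) (l : Λ) (x : Obj) (τ : Tm) (y : Obj) : Obj :=
  node (hd 1 nil τ.sz 1 d []) (enc (y, d, l, x, τ))

noncomputable def pC (d d' : ℕ) (l : Λ) (x : Obj) (n : ℕ) (γ : Λ) : Obj :=
  node (hd 1 (lab γ) 0 1 d []) (enc ((γ, n), d, d', l, x))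

@[simp] lemma mx_pH (d : ℕ) (l : Λ) (x : Obj) (τ : Tm) (y : Obj) :
    mx (pH d l x τ y) = max (mx y) (max (l : WithBot Λ) (mx x)) := by simp [pH]

section
variable {α : Type*} [Act α] {d d' n : α → ℕ} {l γ : α → Λ} {x y : α → Obj} {τ : α → Tm}
@[fun_prop] lemma Inv.pH (h1 : Inv d) (h2 : Inv l) (h3 : Inv x) (h4 : Inv τ) (h5 : Inv y) :
    Inv fun a => pH (d a) (l a) (x a) (τ a) (y a) := by unfold MP_2c8569_lc.pH; fun_prop
@[fun_prop] lemma Inv.pC (h1 : Inv d) (h2 : Inv d') (h3 : Inv l) (h4 : Inv x) (h5 : Inv n)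
    (h6 : Inv γ) : Inv fun a => pC (d a) (d' a) (l a) (x a) (n a) (γ a) := by
  unfold MP_2c8569_lc.pC; fun_prop
end

def cH (O : Orc) (a : Obj × ℕ × Λ × Obj × Tm) : Prop :=
  mx a.1 < a.2.2.1 ∧ (a.2.2.2.2 = .x0 → a.1 = a.2.2.2.1) ∧ (a.2.2.2.2 = .nil → a.1 = nil) ∧
  (∀ n, a.2.2.2.2 = .nat n → a.1 = nat n) ∧
  (∀ c d, a.2.2.2.2 = .node c d → ∃ y, mx y < a.2.2.1 ∧ ∃ z, mx z < a.2.2.1 ∧
    O (pH a.2.1 a.2.2.1 a.2.2.2.1 c y) ∧ O (pH a.2.1 a.2.2.1 a.2.2.2.1 d z) ∧ a.1 = node y z) ∧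
  (∀ c, a.2.2.2.2 = .fst c → ∃ y, mx y < a.2.2.1 ∧ O (pH a.2.1 a.2.2.1 a.2.2.2.1 c y) ∧
    a.1 = y.fst) ∧
  (∀ c, a.2.2.2.2 = .snd c → ∃ y, mx y < a.2.2.1 ∧ O (pH a.2.1 a.2.2.1 a.2.2.2.1 c y) ∧
    a.1 = y.snd) ∧
  (∀ p c, a.2.2.2.2 = .sk p c → ∃ y, mx y < a.2.2.1 ∧ O (pH a.2.1 a.2.2.1 a.2.2.2.1 c y) ∧
    ((mx a.1 ≤ mx y ∧ (O (plug y a.1) ↔ p = true) ∧
      ∀ y', mx y' ≤ mx y → wo y' a.1 → ¬ (O (plug y y') ↔ p = true)) ∨
    (a.1 = nil ∧ ∀ y', mx y' ≤ mx y → ¬ (O (plug y y') ↔ p = true)))) ∧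
  ∀ c, a.2.2.2.2 = .lbl c → ∃ y, mx y < a.2.2.1 ∧ O (pH a.2.1 a.2.2.1 a.2.2.2.1 c y) ∧
    (((∃ i : Λ, (i : WithBot Λ) ≤ mx y ∧ y = lab i) ∧ a.1 = y) ∨
      ((¬ ∃ i : Λ, (i : WithBot Λ) ≤ mx y ∧ y = lab i) ∧ a.1 = a.2.2.2.1.fst))

lemma dfn_cH : Dfn cH := by
  unfold cH
  repeat' first
    | (refine Dfn.inv ?_; fun_prop) | (refine Dfn.orc ?_; fun_prop) | assumption
    | refine Dfn.and ?_ ?_ | refine Dfn.or ?_ ?_ | refine Dfn.iff ?_ ?_ | refine Dfn.not ?_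
    | refine Dfn.allO (by fun_prop) ?_ | refine Dfn.exO (by fun_prop) ?_
    | refine Dfn.allO' (by fun_prop) ?_ | refine Dfn.exO' (by fun_prop) ?_
    | refine Dfn.allE (by fun_prop) ?_ | refine Dfn.exE (by fun_prop) ?_
    | refine Dfn.allE' (by fun_prop) ?_ | refine Dfn.exE' (by fun_prop) ?_
    | refine Dfn.allL (by fun_prop) ?_ | refine Dfn.exL (by fun_prop) ?_
    | refine Dfn.allL' (by fun_prop) ?_ | refine Dfn.exL' (by fun_prop) ?_
    | refine Dfn.allM (by fun_prop) ?_ | refine Dfn.exM (by fun_prop) ?_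
    | refine Dfn.imp ?_ ?_ | refine Dfn.allP ?_ | refine Dfn.exP ?_

lemma T_pH {d : ℕ} (h : Rep s d cH) {l : Λ} {x : Obj} (hx : mx x < l) (τ : Tm) (y : Obj) :
    T s b (pH d l x τ y) ↔ y = hval s b x τ := by
  induction τ using (measure Tm.sz).wf.induction generalizing y with
  | _ τ ih =>
  refine (h.T_iff 1 τ.sz (a := (y, d, l, x, τ)) (by simp)).trans ?_
  set O := fun y' => RL y' (mx (enc (y, d, l, x, τ))) 1 (mx nil) τ.sz ∧ T s b y' with hO
  have hl : (l : WithBot Λ) ≤ mx (enc (y, d, l, x, τ)) := by simp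
  have hv := fun τ => (mx_hval (s := s) (b := b) x τ).trans_lt hx
  have h1 : ∀ c, c.sz < τ.sz → ∀ P : Obj → Prop,
      (∃ z, mx z < l ∧ O (pH d l x c z) ∧ P z) ↔ P (hval s b x c) := by
    intro c hc P
    have : ∀ z, mx z < l → (O (pH d l x c z) ↔ z = hval s b x c) := fun z hz =>
      (and_iff_right (RL.of_c' (by simp [hz.le, hx.le]) rfl (by simp [pH])
        (by simpa [pH] using hc))).trans (ih c hc z)
    exact ⟨fun ⟨z, h1, h2, h3⟩ => (this z h1).1 h2 ▸ h3,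
      fun h => ⟨_, hv c, (this _ (hv c)).2 rfl, h⟩⟩
  have h2 : ∀ z w, mx z < l → mx w ≤ mx z → (O (plug z w) ↔ T s b (plug z w)) := fun z w hz hw =>
    and_iff_right (.inl (((mx_plug_le _ _).trans_lt (max_lt hz (hw.trans_lt hz))).trans_le hl))
  clear_value O
  refine Iff.trans ?_ (and_iff_right_of_imp (a := mx y < l) fun h => h ▸ hv τ)
  refine and_congr_right fun hy => ?_
  cases τ with
  | x0 => simp [hval]
  | nil => simp [hval]
  | nat n => simp [hval]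
  | node c c' =>
    have := h1 c (by simp only [Tm.sz]; omega) fun z => ∃ z', mx z' < l ∧ O (pH d l x c' z') ∧
      y = node z z'
    rw [h1 c' (by simp only [Tm.sz]; omega)] at this
    simp only [reduceCtorEq, false_imp_iff, implies_true, true_and, and_true, Tm.node.injEq,
      and_imp, forall_apply_eq_imp_iff, forall_eq', hval, ← this]
    exact ⟨fun ⟨z, h1, z', h2, h3, h4, h5⟩ => ⟨z, h1, h3, z', h2, h4, h5⟩,
      fun ⟨z, h1, h3, z', h2, h4, h5⟩ => ⟨z, h1, z', h2, h3, h4, h5⟩⟩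
  | fst c => simp [hval, h1 c (by simp [Tm.sz])]
  | snd c => simp [hval, h1 c (by simp [Tm.sz])]
  | sk p c =>
    simp only [reduceCtorEq, false_imp_iff, implies_true, true_and, and_true, Tm.sk.injEq,
      and_imp, forall_apply_eq_imp_iff, forall_eq', hval, h1 c (by simp [Tm.sz]), eq_skf_iff]
    refine or_congr (and_congr_right fun h => and_congr (by rw [h2 _ _ (hv c) h])
      (forall₂_congr fun y' h' => by rw [h2 _ _ (hv c) h']))
      (and_congr_right fun _ => forall₂_congr fun y' h' => by rw [h2 _ _ (hv c) h'])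
  | lbl c =>
    simp only [reduceCtorEq, false_imp_iff, implies_true, true_and, Tm.lbl.injEq,
      forall_eq', hval, h1 c (by simp [Tm.sz])]
    split_ifs with h
    · obtain ⟨i, h⟩ := h; simp [h]
    · have : ¬ ∃ i : Λ, (i : WithBot Λ) ≤ mx (hval s b x c) ∧ hval s b x c = lab i :=
        fun ⟨i, _, h'⟩ => h ⟨i, h'⟩
      simp [this]

def Wl (O : Orc) (d : ℕ) (l : Λ) (x : Obj) (m n : ℕ) : Prop :=
  ∃ i, i < l ∧ ∃ j, j < l ∧ O (pH d l x (.lbl (dT m)) (lab i)) ∧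
    O (pH d l x (.lbl (dT n)) (lab j)) ∧ i < j

def cC (O : Orc) (a : (Λ × ℕ) × ℕ × ℕ × Λ × Obj) : Prop :=
  a.1.1 < a.2.2.2.1 ∧ (∀ γ, γ < a.1.1 → ∃ m, Wl O a.2.2.1 a.2.2.2.1 a.2.2.2.2 m a.1.2 ∧
    O (pC a.2.1 a.2.2.1 a.2.2.2.1 a.2.2.2.2 m γ)) ∧
  ∀ m, Wl O a.2.2.1 a.2.2.2.1 a.2.2.2.2 m a.1.2 → ∃ γ, γ < a.1.1 ∧
    O (pC a.2.1 a.2.2.1 a.2.2.2.1 a.2.2.2.2 m γ)

lemma dfn_cC : Dfn cC := by
  unfold cC Wl
  repeat' first
    | (refine Dfn.inv ?_; fun_prop) | (refine Dfn.orc ?_; fun_prop) | assumption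
    | refine Dfn.and ?_ ?_ | refine Dfn.or ?_ ?_ | refine Dfn.iff ?_ ?_ | refine Dfn.not ?_
    | refine Dfn.allO (by fun_prop) ?_ | refine Dfn.exO (by fun_prop) ?_
    | refine Dfn.allO' (by fun_prop) ?_ | refine Dfn.exO' (by fun_prop) ?_
    | refine Dfn.allE (by fun_prop) ?_ | refine Dfn.exE (by fun_prop) ?_
    | refine Dfn.allE' (by fun_prop) ?_ | refine Dfn.exE' (by fun_prop) ?_
    | refine Dfn.allL (by fun_prop) ?_ | refine Dfn.exL (by fun_prop) ?_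
    | refine Dfn.allL' (by fun_prop) ?_ | refine Dfn.exL' (by fun_prop) ?_
    | refine Dfn.allM (by fun_prop) ?_ | refine Dfn.exM (by fun_prop) ?_
    | refine Dfn.imp ?_ ?_ | refine Dfn.allP ?_ | refine Dfn.exP ?_

lemma hen_lt {l i₀ : Λ} {x : Obj} (h0 : x.fst = lab i₀) (hx : mx x < l) (n : ℕ) :
    hen s b x n < l := by
  have := (mx_hval (s := s) (b := b) _ (.lbl (dT n))).trans_lt hx
  rwa [hval_lbl h0, mx_lab, WithBot.coe_lt_coe] at this

lemma Wl_iff {d : ℕ} (h : Rep s d cH) {l i₀ : Λ} {x : Obj} (h0 : x.fst = lab i₀) (hx : mx x < l)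
    {O : Orc} (hO : ∀ τ i, i < l → (O (pH d l x τ (lab i)) ↔ T s b (pH d l x τ (lab i))))
    (m n : ℕ) : Wl O d l x m n ↔ hen s b x m < hen s b x n := by
  constructor
  · rintro ⟨i, hi, j, hj, h1, h2, h3⟩
    rw [hO _ _ hi, T_pH h hx, hval_lbl h0, lab.injEq] at h1
    rw [hO _ _ hj, T_pH h hx, hval_lbl h0, lab.injEq] at h2
    rwa [← h1, ← h2]
  · intro h'
    refine ⟨_, hen_lt h0 hx m, _, hen_lt h0 hx n, ?_, ?_, h'⟩ <;>
      rw [hO _ _ (hen_lt h0 hx _), T_pH h hx, hval_lbl h0]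

lemma T_pC {d d' : ℕ} (h : Rep s d cC) (h' : Rep s d' cH) {l i₀ : Λ} {X : Obj}
    (h0 : X.fst = lab i₀) (hx : mx X < l) (n : ℕ) {γ : Λ} (hγ : γ < l) :
    T s b (pC d d' l X n γ) ↔ γ = col (Set.range (hen s b X)) (hen s b X n) := by
  induction γ using WellFoundedLT.induction generalizing n with
  | _ γ ih =>
  refine (h.T_iff 1 0 (a := ((γ, n), d, d', l, X)) (by simp)).trans ?_
  set O := fun y' => RL y' (mx (enc ((γ, n), d, d', l, X))) 1 (mx (lab γ)) 0 ∧ T s b y' with hO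
  have h1 : ∀ m, Wl O d' l X m n ↔ hen s b X m < hen s b X n := fun m =>
    Wl_iff h' h0 hx (fun τ i hi => and_iff_right (RL.of_B (by simp [hi.le, hx.le]) rfl
      (by simp [pH]))) m n
  have h2 : ∀ m, ∀ γ' < γ, O (pC d d' l X m γ') ↔
      γ' = col (Set.range (hen s b X)) (hen s b X m) := fun m γ' hγ' =>
    (and_iff_right (RL.of_B (by simp [pC, (hγ'.trans hγ).le, hx.le]) rfl
      (by simpa [pC] using hγ'))).trans (ih γ' hγ' m (hγ'.trans hγ))
  clear_value O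
  simp only [cC, h1]
  constructor
  · rintro ⟨-, h3, h4⟩
    refine le_antisymm (not_lt.1 fun h5 => ?_) (not_lt.1 fun h5 => ?_)
    · obtain ⟨m, hm, h6⟩ := h3 _ h5
      exact (col_lt (Set.mem_range_self m) hm).ne' ((h2 m _ h5).1 h6)
    · obtain ⟨_, ⟨m, rfl⟩, h6, h7⟩ := exists_col h5
      obtain ⟨γ', h8, h9⟩ := h4 m h6
      exact h8.ne (((h2 m _ h8).1 h9).trans h7)
  · rintro rfl
    refine ⟨hγ, fun γ' hγ => ?_, fun m hm => ?_⟩
    · obtain ⟨_, ⟨m, rfl⟩, h6, h7⟩ := exists_col hγ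
      exact ⟨m, h6, (h2 m _ hγ).2 h7.symm⟩
    · exact ⟨_, col_lt ⟨m, rfl⟩ hm, (h2 m _ (col_lt ⟨m, rfl⟩ hm)).2 rfl⟩

noncomputable def tauO (c : ℕ) : Tm := tau (dO c)

lemma Ctx.exists_gt (C : Ctx) {l : Λ} (h : l < C.δ) : ∃ l', l < l' ∧ l' < C.δ :=
  ⟨l + 1, lt_succ' l, C.succ_lt h⟩

/-- Reals of the ground model. -/
def Ctx.KR (C : Ctx) (S : Set ℕ) : Prop := ∃ x, mx x < C.δ ∧ ∀ n, n ∈ S ↔ C.T (plug x (nat n))

/-- Countable hulls. -/
structure Ctx.Hull (C : Ctx) (x : Obj) (e : ℕ → Λ) : Prop where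
  cl : Closed C.s C.b (Set.range e)
  mem : x ∈ ObIn (Set.range e)
  k : C.k ∈ Set.range e
  w : C.KR {c | e c.unpair.1 < e c.unpair.2}
  h : C.KR {c | C.T (Ob.map e (dO c))}
  lt : ∀ n, col (Set.range e) (e n) < C.k
  low : ∀ i ∈ Set.range e, i < C.k → ∀ j < i, j ∈ Set.range e

lemma dfn_Enu : Dfn fun O (a : Obj × Λ × Λ) => mx a.1 < a.2.1 ∧ Enu O a.1 a.2.2 := by
  unfold Enu
  repeat' first
    | (refine Dfn.inv ?_; fun_prop) | (refine Dfn.orc ?_; fun_prop) | assumption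
    | refine Dfn.and ?_ ?_ | refine Dfn.or ?_ ?_ | refine Dfn.iff ?_ ?_ | refine Dfn.not ?_
    | refine Dfn.allO (by fun_prop) ?_ | refine Dfn.exO (by fun_prop) ?_
    | refine Dfn.allO' (by fun_prop) ?_ | refine Dfn.exO' (by fun_prop) ?_
    | refine Dfn.allE (by fun_prop) ?_ | refine Dfn.exE (by fun_prop) ?_
    | refine Dfn.allE' (by fun_prop) ?_ | refine Dfn.exE' (by fun_prop) ?_
    | refine Dfn.allL (by fun_prop) ?_ | refine Dfn.exL (by fun_prop) ?_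
    | refine Dfn.allL' (by fun_prop) ?_ | refine Dfn.exL' (by fun_prop) ?_
    | refine Dfn.allM (by fun_prop) ?_ | refine Dfn.exM (by fun_prop) ?_
    | refine Dfn.imp ?_ ?_ | refine Dfn.allP ?_ | refine Dfn.exP ?_

lemma ev_hull : ∀ᶠ C in 𝓕, ∀ x, mx x < C.δ → ∃ e, C.Hull x e := by
  have d1 : Dfn fun O (a : ℕ × ℕ × Λ × Obj) =>
      Wl O a.2.1 a.2.2.1 a.2.2.2 a.1.unpair.1 a.1.unpair.2 := by
    unfold Wl
    repeat' first
      | (refine Dfn.inv ?_; fun_prop) | (refine Dfn.orc ?_; fun_prop) | assumption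
      | refine Dfn.and ?_ ?_ | refine Dfn.or ?_ ?_ | refine Dfn.iff ?_ ?_ | refine Dfn.not ?_
      | refine Dfn.allO (by fun_prop) ?_ | refine Dfn.exO (by fun_prop) ?_
      | refine Dfn.allO' (by fun_prop) ?_ | refine Dfn.exO' (by fun_prop) ?_
      | refine Dfn.allE (by fun_prop) ?_ | refine Dfn.exE (by fun_prop) ?_
      | refine Dfn.allE' (by fun_prop) ?_ | refine Dfn.exE' (by fun_prop) ?_
      | refine Dfn.allL (by fun_prop) ?_ | refine Dfn.exL (by fun_prop) ?_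
      | refine Dfn.allL' (by fun_prop) ?_ | refine Dfn.exL' (by fun_prop) ?_
      | refine Dfn.allM (by fun_prop) ?_ | refine Dfn.exM (by fun_prop) ?_
      | refine Dfn.imp ?_ ?_ | refine Dfn.allP ?_ | refine Dfn.exP ?_
  have d2 : Dfn fun O (a : ℕ × ℕ × Λ × Obj) => ∃ y, mx y < a.2.2.1 ∧
      O (pH a.2.1 a.2.2.1 a.2.2.2 (tauO a.1) y) ∧ O y := by
    repeat' first
      | (refine Dfn.inv ?_; fun_prop) | (refine Dfn.orc ?_; fun_prop) | assumption
      | refine Dfn.and ?_ ?_ | refine Dfn.or ?_ ?_ | refine Dfn.iff ?_ ?_ | refine Dfn.not ?_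
      | refine Dfn.allO (by fun_prop) ?_ | refine Dfn.exO (by fun_prop) ?_
      | refine Dfn.allO' (by fun_prop) ?_ | refine Dfn.exO' (by fun_prop) ?_
      | refine Dfn.allE (by fun_prop) ?_ | refine Dfn.exE (by fun_prop) ?_
      | refine Dfn.allE' (by fun_prop) ?_ | refine Dfn.exE' (by fun_prop) ?_
      | refine Dfn.allL (by fun_prop) ?_ | refine Dfn.exL (by fun_prop) ?_
      | refine Dfn.allL' (by fun_prop) ?_ | refine Dfn.exL' (by fun_prop) ?_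
      | refine Dfn.allM (by fun_prop) ?_ | refine Dfn.exM (by fun_prop) ?_
      | refine Dfn.imp ?_ ?_ | refine Dfn.allP ?_ | refine Dfn.exP ?_
  have d3 : Dfn fun O (a : (Λ × ℕ) × ℕ × ℕ × Λ × Obj) =>
      a.1.1 < a.2.2.2.1 ∧ O (pC a.2.1 a.2.2.1 a.2.2.2.1 a.2.2.2.2 a.1.2 a.1.1) := by
    repeat' first
      | (refine Dfn.inv ?_; fun_prop) | (refine Dfn.orc ?_; fun_prop) | assumption
      | refine Dfn.and ?_ ?_ | refine Dfn.or ?_ ?_ | refine Dfn.iff ?_ ?_ | refine Dfn.not ?_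
      | refine Dfn.allO (by fun_prop) ?_ | refine Dfn.exO (by fun_prop) ?_
      | refine Dfn.allO' (by fun_prop) ?_ | refine Dfn.exO' (by fun_prop) ?_
      | refine Dfn.allE (by fun_prop) ?_ | refine Dfn.exE (by fun_prop) ?_
      | refine Dfn.allE' (by fun_prop) ?_ | refine Dfn.exE' (by fun_prop) ?_
      | refine Dfn.allL (by fun_prop) ?_ | refine Dfn.exL (by fun_prop) ?_
      | refine Dfn.allL' (by fun_prop) ?_ | refine Dfn.exL' (by fun_prop) ?_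
      | refine Dfn.allM (by fun_prop) ?_ | refine Dfn.exM (by fun_prop) ?_
      | refine Dfn.imp ?_ ?_ | refine Dfn.allP ?_ | refine Dfn.exP ?_
  have d4 : Dfn fun O (a : Obj × Obj × ℕ) => ∃ i : Λ, (i : WithBot Λ) ≤ mx a.2.1 ∧ a.1 = lab i ∧
      O (plug a.2.1 (enc (i, a.2.2))) := by
    repeat' first
      | (refine Dfn.inv ?_; fun_prop) | (refine Dfn.orc ?_; fun_prop) | assumption
      | refine Dfn.and ?_ ?_ | refine Dfn.or ?_ ?_ | refine Dfn.iff ?_ ?_ | refine Dfn.not ?_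
      | refine Dfn.allO (by fun_prop) ?_ | refine Dfn.exO (by fun_prop) ?_
      | refine Dfn.allO' (by fun_prop) ?_ | refine Dfn.exO' (by fun_prop) ?_
      | refine Dfn.allE (by fun_prop) ?_ | refine Dfn.exE (by fun_prop) ?_
      | refine Dfn.allE' (by fun_prop) ?_ | refine Dfn.exE' (by fun_prop) ?_
      | refine Dfn.allL (by fun_prop) ?_ | refine Dfn.exL (by fun_prop) ?_
      | refine Dfn.allL' (by fun_prop) ?_ | refine Dfn.exL' (by fun_prop) ?_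
      | refine Dfn.allM (by fun_prop) ?_ | refine Dfn.exM (by fun_prop) ?_
      | refine Dfn.imp ?_ ?_ | refine Dfn.allP ?_ | refine Dfn.exP ?_
  filter_upwards [ev_rep dfn_cH, ev_rep dfn_cC, ev_prog d1, ev_prog d2, ev_prog d3, ev_prog d4,
    ev_prog dfn_Enu] with C ⟨dH, hH⟩ ⟨dC, hC⟩ ⟨d1, h1⟩ ⟨d2, h2⟩ ⟨d3, h3⟩ ⟨d4, h4⟩ ⟨d5, h5⟩ x hx
  obtain ⟨a1, ha0, ha1⟩ := C.exists_gt C.good.aδ
  obtain ⟨X, hXd⟩ : ∃ X, X = node (lab a1) (node (lab C.k) (node (lab C.a) x)) := ⟨_, rfl⟩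
  have h0 : X.fst = lab a1 := by simp [hXd]
  obtain ⟨l, hl, hkl, hX⟩ := C.exists_lt_δ (μ := mx X) (by simp [hXd, ha1, C.kδ, C.good.aδ, hx])
  obtain ⟨l1, hl2, hl1⟩ := C.exists_gt hl
  have hX1 := hX.trans (WithBot.coe_lt_coe.2 hl2)
  have hXl : mx (enc (dH, l, X)) < l1 := by simp [hl2, hX1]
  have hmem : X ∈ ObIn (Set.range (hen C.s C.b X)) := labs_hval .x0
  have hp : ∀ d, mx (prog d l1 (dH, l, X)) < C.δ := fun d => by
    simp only [mx_prog, max_lt_iff]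
    exact ⟨WithBot.coe_lt_coe.2 hl1, hXl.trans (WithBot.coe_lt_coe.2 hl1)⟩
  have hcl : Closed C.s C.b (Set.range (hen C.s C.b X)) := closed_hen h0
  refine ⟨hen C.s C.b X, hcl, fun i hi => hmem i (by simp [hXd, hi]), hmem _ (by simp [hXd]),
    ⟨_, hp d1, fun n => ?_⟩, ⟨_, hp d2, fun n => ?_⟩, fun n => ?_, fun i hi hik j hj => ?_⟩
  · refine Iff.trans ?_ (h1 _ _ _ n hXl).symm
    exact (Wl_iff hH h0 hX (fun _ _ _ => Iff.rfl) _ _).symm.trans (and_iff_right (by simp)).symm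
  · refine Iff.trans ?_ (h2 _ _ _ n hXl).symm
    simp only [T_pH hH hX, tauO, hval_tau h0, Set.mem_ofPred_eq, mx_enc_pur, WithBot.bot_lt_coe,
      true_and]
    refine ⟨fun h => ⟨_, ?_, rfl, h⟩, fun ⟨_, _, h, h'⟩ => h ▸ h'⟩
    rw [← hval_tau h0]
    exact (mx_hval _ _).trans_lt hX
  · have hXl' : mx (enc (dC, dH, l, X)) < l1 := by simpa using hXl
    have key : ∀ i n, C.T (plug (prog d3 l1 (dC, dH, l, X)) (enc (i, n))) ↔
        i = col (Set.range (hen C.s C.b X)) (hen C.s C.b X n) := fun i n => by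
      refine (h3 _ _ _ (i, n) hXl').trans ⟨fun h => (T_pC hC hH h0 hX n h.2.1).1 h.2.2, ?_⟩
      rintro rfl
      have := (col_le (Set.range (hen C.s C.b X)) _).trans_lt (hen_lt (s := C.s) (b := C.b) h0 hX n)
      exact ⟨by simpa using this.trans hl2, this, (T_pC hC hH h0 hX n this).2 rfl⟩
    by_contra hc
    refine C.good.nenu (prog d3 l1 (dC, dH, l, X)) (by simpa using hp 0)
      ⟨?_, fun i hi => ?_, fun n i _ j _ h h' => ((key i n).1 h).trans ((key j n).1 h').symm⟩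
    · simp [hkl.le]
    · obtain ⟨_, ⟨m, rfl⟩, h⟩ := col_lower _ (hi.le.trans (not_lt.1 hc))
        ⟨_, Set.mem_range_self n, rfl⟩
      exact ⟨m, (key i m).2 h.symm⟩
  · have e1 : a1 ∈ Set.range (hen C.s C.b X) := hmem _ (by simp [hXd])
    have e2 : C.a ∈ Set.range (hen C.s C.b X) := hmem _ (by simp [hXd])
    have e3 := WithBot.coe_lt_coe.2 ha0
    have e5 : mx (enc (C.a, i)) < a1 := by simp [ha0, (hik.trans C.good.ka).trans ha0]
    generalize Set.range (hen C.s C.b X) = J at *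
    obtain ⟨y, hy, hy'⟩ := C.good.enu i hik
    obtain ⟨y, f1, -, f2⟩ := hcl (prog d5 a1 (C.a, i)) True (by simp [e1, e2, hi])
      ⟨y, by simp [hy.le], iff_true_intro ((h5 _ _ _ y e5).2 ⟨hy.trans e3, hy, hy'⟩)⟩
    obtain ⟨-, f3, f4⟩ := (h5 _ _ _ y e5).1 (f2.2 trivial)
    simp only at f3 f4
    obtain ⟨n, hn⟩ := f4.2.1 j hj
    have e6 : mx (enc (y, n)) < a1 := by simpa using f3.trans e3
    have e7 : (j : WithBot Λ) ≤ mx y := (WithBot.coe_le_coe.2 hj.le).trans f4.1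
    obtain ⟨z, g1, -, g2⟩ := hcl (prog d4 a1 (y, n)) True (by simpa [e1] using f1)
      ⟨lab j, by simp [e7], iff_true_intro ((h4 _ _ _ (lab j) e6).2
        ⟨e7.trans_lt (f3.trans e3), j, e7, rfl, hn⟩)⟩
    obtain ⟨-, j', g3, g4, g5⟩ := (h4 _ _ _ z e6).1 (g2.2 trivial)
    simp only at g3 g4 g5
    rw [f4.2.2 n j e7 j' g3 hn g5]
    exact g1 j' (by simp [g4])

end Pool.Agent.Lib.MP_2c8569_lc
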