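import Pool.Agent.Lib.MP_2c8569_lc.Gen

set_option autoImplicit false

namespace Pool.Agent.Lib.MP_2c8569_lc

open Classical Ob Filter Ctx

def shf (n i : ℕ) : ℕ := if i < n then i else i + 1

/-- Relativization to the variable number `n`. -/
def Fm.rel : ℕ → Fm → Fm
  | n, .mem i j => .mem (shf n i) (shf n j)
  | n, .eq i j => .eq (shf n i) (shf n j)
  | _, .fls => .fls
  | n, .imp φ ψ => .imp (rel n φ) (rel n ψ)
  | n, .all φ => .all (.imp (.mem 0 (n + 1)) (rel (n + 1) φ))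

lemma getD_shf (us v : List ZFSet) (X : ZFSet) (i : ℕ) :
    (us ++ X :: v).getD (shf us.length i) ∅ = (us ++ v).getD i ∅ := by
  induction us generalizing i with
  | nil => simp [shf]
  | cons a us ih =>
    cases i with
    | zero => simp [shf]
    | succ i =>
      have : shf (a :: us).length (i + 1) = shf us.length i + 1 := by
        simp only [shf, List.length_cons]; split_ifs <;> omega
      rw [this]
      exact ih i

lemma sat_rel {N : Set ZFSet} {X : ZFSet} (hX : ∀ x ∈ X, x ∈ N) (φ : Fm) (us v : List ZFSet) :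
    Sat N (φ.rel us.length) (us ++ X :: v) ↔ Sat {x | x ∈ X} φ (us ++ v) := by
  induction φ generalizing us with
  | mem i j => simp only [Fm.rel, Sat, getD_shf]
  | eq i j => simp only [Fm.rel, Sat, getD_shf]
  | fls => rfl
  | imp φ ψ ih ih' => simp only [Fm.rel, Sat, ih, ih']
  | all φ ih =>
    have h1 : ∀ x, Sat N (φ.rel (us.length + 1)) (x :: (us ++ X :: v)) ↔
        Sat {x | x ∈ X} φ (x :: (us ++ v)) := fun x => ih (x :: us)
    have h2 : (us ++ X :: v).getD us.length ∅ = X := by simp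
    simp only [Fm.rel, Sat, h1, List.getD_cons_zero, List.getD_cons_succ, h2]
    exact ⟨fun h x hx => h x (hX x hx) hx, fun h x _ hx => h x hx⟩

lemma mem_Lset {a α u : ZFSet} : u ∈ Lset a α ↔ ∃ β ∈ α, u ∈ DefSet a (Lset a β) := by
  unfold Lset
  rw [WellFounded.fix_eq]
  simp

namespace Ctx

variable {C : Ctx} {η η' : Λ}

lemma val_on_eq (hη : η ≤ C.k) (hη' : η' ≤ C.k) {j : Λ} (hj : j < C.D) :
    C.val η (on j) = C.val η' (on j) := by
  induction j using WellFoundedLT.induction with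
  | _ j ih =>
  ext u
  rw [mem_val_on hη hj, mem_val_on hη' hj]
  exact exists_congr fun i => and_congr_right fun hi => by rw [ih i hi (hi.trans hj)]

lemma exists_on (hη : η ≤ C.k) {β : Λ} (hβ : β < C.D) {α : ZFSet} (h : α ∈ C.W η β)
    (hα : α.IsOrdinal) : ∃ j ≤ β, C.val η (on j) = α := by
  induction β using WellFoundedLT.induction generalizing α with
  | _ β ih =>
  obtain ⟨x, hx, rfl⟩ := h
  have h1 : ∀ u ∈ C.val η x, ∃ i < β, C.val η (on i) = u := fun u hu => by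
    obtain ⟨z, ⟨r, -, h⟩, rfl⟩ := (mem_val (hx.trans (WithBot.coe_lt_coe.2 hβ))).1 hu
    have := h.lt
    generalize mx x = μ at hx this
    cases μ with
    | bot => simp at this
    | coe μ =>
      have hμ := WithBot.coe_lt_coe.1 hx
      obtain ⟨j, h2, h3⟩ := ih μ hμ (hμ.trans hβ) ⟨z, this, rfl⟩ (hα.mem hu)
      exact ⟨j, h2.trans_lt hμ, h3⟩
  obtain ⟨j, h2, h3⟩ := wellFounded_lt.has_min {i | ¬ (i < β ∧ C.val η (on i) ∈ C.val η x)}
    ⟨β, fun h => h.1.false⟩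
  have h4 : j ≤ β := not_lt.1 (h3 β fun h => h.1.false)
  refine ⟨j, h4, ZFSet.ext fun u => ?_⟩
  rw [mem_val_on hη (h4.trans_lt hβ)]
  constructor
  · rintro ⟨i, hi, rfl⟩
    by_contra hc
    exact h3 i (fun h => hc h.2) hi
  · intro hu
    obtain ⟨i, hi, rfl⟩ := h1 u hu
    refine ⟨i, not_le.1 fun h => h2 ⟨h.trans_lt hi, ?_⟩, rfl⟩
    rcases h.eq_or_lt with rfl | h
    · exact hu
    · exact hα.subset_of_mem hu ((mem_val_on hη (hi.trans hβ)).2 ⟨j, h, rfl⟩)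

end Ctx

noncomputable def pA (d : ℕ) (l j i : Λ) : Obj := node (hd 0 nil 0 1 d []) (enc (d, l, j, i))

@[fun_prop] lemma Inv.pA {α : Type*} [Act α] {d : α → ℕ} {l j i : α → Λ} (h1 : Inv d) (h2 : Inv l)
    (h3 : Inv j) (h4 : Inv i) : Inv fun a => pA (d a) (l a) (j a) (i a) := by
  unfold MP_2c8569_lc.pA; fun_prop

def cA (O : Orc) (a : ℕ × Λ × Λ × Λ) : Prop :=
  a.2.1 < a.2.2.2 ∧ a.2.2.1 < a.2.2.2 ∧ ∀ i, i < a.2.2.1 → ∃ i4, i4 < a.2.2.2 ∧ ∃ i3, i3 < i4 ∧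
    ∃ i2, i2 < i3 ∧ ∃ i1, i1 < i2 ∧ O (pA a.1 a.2.1 i i1)

lemma dfn_cA : Dfn cA := by
  unfold cA
  repeat' first
    | (refine Dfn.inv ?_; fun_prop) | (refine Dfn.orc ?_; fun_prop) | assumption
    | refine Dfn.and ?_ ?_ | refine Dfn.or ?_ ?_ | refine Dfn.iff ?_ ?_ | refine Dfn.not ?_
    | refine Dfn.allO (by fun_prop) ?_ | refine Dfn.exO (by fun_prop) ?_
    | refine Dfn.allO' (by fun_prop) ?_ | refine Dfn.exO' (by fun_prop) ?_
    | refine Dfn.allE (by fun_prop) ?_ | refine Dfn.exE (by fun_prop) ?_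
    | refine Dfn.allE' (by fun_prop) ?_ | refine Dfn.exE' (by fun_prop) ?_
    | refine Dfn.allL (by fun_prop) ?_ | refine Dfn.exL (by fun_prop) ?_
    | refine Dfn.allL' (by fun_prop) ?_ | refine Dfn.exL' (by fun_prop) ?_
    | refine Dfn.allM (by fun_prop) ?_ | refine Dfn.exM (by fun_prop) ?_
    | refine Dfn.imp ?_ ?_ | refine Dfn.allP ?_ | refine Dfn.exP ?_

lemma T_pA {s : Sys} {b : Set ℕ} {d : ℕ} (h : Rep s d cA) (l j i : Λ) :
    T s b (pA d l j i) ↔ cA (T s b) (d, l, j, i) := by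
  refine (h.T_iff 0 0 (a := (d, l, j, i)) (by simp)).trans ?_
  refine and_congr_right fun h1 => and_congr_right fun h2 => forall₂_congr fun i' h3 =>
    exists_congr fun i4 => and_congr_right fun h4 => exists_congr fun i3 =>
    and_congr_right fun h5 => exists_congr fun i2 => and_congr_right fun h6 =>
    exists_congr fun i1 => and_congr_right fun h7 => and_iff_right (.inl ?_)
  simp only at h1 h2 h3 h4
  refine lt_of_lt_of_le (b := (i : WithBot Λ)) ?_ (by simp)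
  simp [pA, h1, h3.trans h2, ((h7.trans h6).trans h5).trans h4]

abbrev Prm := ℕ × ℕ × ℕ × Λ × Λ × Λ × Obj

/-- Names for the levels of the constructible hierarchy. -/
noncomputable def Ln (a : Prm) (j l l' : Λ) : Obj := node (lab l') (prog a.1 l (a, j))

noncomputable def Sn (a : Prm) (t : Obj) (φ : Fm) (v : List Obj) (i2 i3 i4 : Λ) : Obj :=
  node (lab i4) (prog a.2.1 i3 (a.2.2.2.1, a.2.2.2.2.1, i2, φ.rel 1, t :: v, t))

def cL (O : Orc) (a : (Obj × Cond) × Prm × Λ) : Prop :=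
  ∃ i, i < a.2.2 ∧ ∃ i4 : Λ, (i4 : WithBot Λ) ≤ mx a.1.1 ∧ ∃ i3, i3 < i4 ∧ ∃ i2, i2 < i3 ∧
    ∃ i1, i1 < i2 ∧ O (pA a.2.1.2.2.1 a.2.1.2.2.2.2.2.1 i i1) ∧ ∃ φ, ∃ v : List Obj,
      mx (enc v) < i3 ∧ a.1.1 = Sn a.2.1 (Ln a.2.1 i i1 i2) φ v i2 i3 i4 ∧
      ∀ x, x ∈ v → (x = a.2.1.2.2.2.2.2.2 ∨
        Mem O a.2.1.2.2.2.1 a.2.1.2.2.2.2.1 a.1.2 x (Ln a.2.1 i i1 i2))

lemma dfn_cL : Dfn cL := by
  unfold cL Mem child Sn Ln
  repeat' first
    | (refine Dfn.inv ?_; fun_prop) | (refine Dfn.orc ?_; fun_prop) | assumption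
    | refine Dfn.and ?_ ?_ | refine Dfn.or ?_ ?_ | refine Dfn.iff ?_ ?_ | refine Dfn.not ?_
    | refine Dfn.allO (by fun_prop) ?_ | refine Dfn.exO (by fun_prop) ?_
    | refine Dfn.allO' (by fun_prop) ?_ | refine Dfn.exO' (by fun_prop) ?_
    | refine Dfn.allE (by fun_prop) ?_ | refine Dfn.exE (by fun_prop) ?_
    | refine Dfn.allE' (by fun_prop) ?_ | refine Dfn.exE' (by fun_prop) ?_
    | refine Dfn.allL (by fun_prop) ?_ | refine Dfn.exL (by fun_prop) ?_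
    | refine Dfn.allL' (by fun_prop) ?_ | refine Dfn.exL' (by fun_prop) ?_
    | refine Dfn.allM (by fun_prop) ?_ | refine Dfn.exM (by fun_prop) ?_
    | refine Dfn.imp ?_ ?_ | refine Dfn.allP ?_ | refine Dfn.exP ?_

/-- The intermediate models contain the levels of `L[a]`. -/
lemma ev_L : ∀ᶠ C in 𝓕, ∀ η ≤ C.k, ∀ a ∈ C.W η C.δ, ∀ j < C.δ,
    Lset a (C.val η (on j)) ∈ C.W η C.δ := by
  have d1 : Dfn fun O (a : (Obj × Cond) × Λ × Λ × Λ × Fm × List Obj × Obj) =>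
      Mem O a.2.1 a.2.2.1 a.1.2 a.1.1 a.2.2.2.2.2.2 ∧
      O (pF a.2.1 a.2.2.1 a.2.2.2.1 a.2.2.2.2.1 (a.1.1 :: a.2.2.2.2.2.1) a.1.2) := by
    unfold Mem child
    repeat' first
      | (refine Dfn.inv ?_; fun_prop) | (refine Dfn.orc ?_; fun_prop) | assumption
      | refine Dfn.and ?_ ?_ | refine Dfn.or ?_ ?_ | refine Dfn.iff ?_ ?_ | refine Dfn.not ?_
      | refine Dfn.allO (by fun_prop) ?_ | refine Dfn.exO (by fun_prop) ?_
      | refine Dfn.allO' (by fun_prop) ?_ | refine Dfn.exO' (by fun_prop) ?_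
      | refine Dfn.allE (by fun_prop) ?_ | refine Dfn.exE (by fun_prop) ?_
      | refine Dfn.allE' (by fun_prop) ?_ | refine Dfn.exE' (by fun_prop) ?_
      | refine Dfn.allL (by fun_prop) ?_ | refine Dfn.exL (by fun_prop) ?_
      | refine Dfn.allL' (by fun_prop) ?_ | refine Dfn.exL' (by fun_prop) ?_
      | refine Dfn.allM (by fun_prop) ?_ | refine Dfn.exM (by fun_prop) ?_
      | refine Dfn.imp ?_ ?_ | refine Dfn.allP ?_ | refine Dfn.exP ?_
  have d2 : Dfn fun O (a : Λ × ℕ × Λ × Λ) => O (pA a.2.1 a.2.2.1 a.2.2.2 a.1) :=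
    Dfn.orc (by fun_prop)
  filter_upwards [ev_rep dfn_cA, ev_prog dfn_cL, ev_prog d1, ev_rf d2, ev_tr]
    with C ⟨dA, hA⟩ ⟨dL, hL⟩ ⟨dS, hS⟩ h2 hT η hη
  rintro _ ⟨ta, hta, rfl⟩
  obtain ⟨l0, hl0, hk, hta⟩ := C.exists_lt_δ hta
  have hG := C.gen η hη
  have ex : ∀ j < C.δ, ∃ l < C.δ, C.T (pA dA l0 j l) := by
    intro j
    induction j using WellFoundedLT.induction with
    | _ j ih =>
    intro hj
    obtain ⟨β, hβ, -, h3, hcl⟩ := C.exists_refl (μ := max (l0 : WithBot Λ) j) (by simp [hl0, hj])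
    simp only [max_lt_iff, WithBot.coe_lt_coe] at h3
    obtain ⟨i3, e1, e2⟩ := C.exists_gt hβ
    obtain ⟨i4, e3, e4⟩ := C.exists_gt e2
    obtain ⟨i5, e5, e6⟩ := C.exists_gt e4
    have e7 := (e1.trans e3).trans e5
    refine ⟨i5, e6, (T_pA hA _ _ _).2 ⟨h3.1.trans e7, h3.2.trans e7, fun i hi => ?_⟩⟩
    obtain ⟨l, e8, e9⟩ := ih i hi (hi.trans hj)
    obtain ⟨l', f1, f2⟩ := h2 β hβ hcl (dA, l0, i) (by simp [h3.1, hi.trans h3.2]) l
      (by simpa using e8) e9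
    exact ⟨i4, e5, i3, e3, β, e1, l', by simpa using f1, f2⟩
  obtain ⟨P, hP⟩ : ∃ P : Prm, P = (dL, dS, dA, C.k, η, l0, ta) := ⟨_, rfl⟩
  have hPl : ∀ {j l}, C.T (pA dA l0 j l) → mx (enc (P, j)) < l := fun {j l} h => by
    obtain ⟨e1, e2, -⟩ := (T_pA hA _ _ _).1 h
    simp only at e1 e2
    simp [hP, e1, e2, hk.trans e1, (hη.trans_lt hk).trans e1, hta.trans (WithBot.coe_lt_coe.2 e1)]
  have hLn : ∀ {j l l'}, C.T (pA dA l0 j l) → l < l' → mx (Ln P j l l') = l' := fun {j l l'} h h' => by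
    have h' := WithBot.coe_lt_coe.2 h'
    rw [Ln, mx_node, mx_prog, mx_lab, max_eq_left (max_le h'.le ((hPl h).trans h').le)]
  have sep : ∀ {t : Obj} {v : List Obj} {i2 i3 i4 : Λ} (φ : Fm), mx t = i2 → C.k < i2 → i2 < i3 →
      i3 < i4 → i4 < C.D → mx (enc v) < i3 → ∀ u, u ∈ C.val η (Sn P t φ v i2 i3 i4) ↔
        u ∈ C.val η t ∧ Sat {x | x ∈ C.val η t} φ (u :: v.map (C.val η)) := by
    intro t v i2 i3 i4 φ e1 e2 e3 e4 e5 e6 u
    have e7 := WithBot.coe_lt_coe.2 (e4.trans e5)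
    have e8 : mx t < i3 := e1 ▸ WithBot.coe_lt_coe.2 e3
    have key : ∀ z, mx z < i3 → ((∃ p ∈ C.G η, C.Fr η i2 (φ.rel 1) (z :: t :: v) p) ↔
        Sat {x | x ∈ C.val η t} φ (C.val η z :: v.map (C.val η))) := fun z hz => by
      rw [hT.frc hη ((e3.trans e4).trans e5) _ (by simp [hz.trans e7, e8.trans e7, e6.trans e7])]
      refine sat_rel (fun x hx => ?_) φ [C.val η z] _
      obtain ⟨y, ⟨r, -, h⟩, rfl⟩ := (mem_val (e8.trans e7)).1 hx
      exact ⟨y, e1 ▸ h.lt, rfl⟩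
    rw [hP, Sn, mem_val_prog hS e4 e5
      (by simp [e2.trans e3, (hη.trans_lt e2).trans e3, e3, e8, e6])]
    constructor
    · rintro ⟨z, r, hr, ⟨hz, -⟩, ⟨f1, f2⟩, rfl⟩
      exact ⟨(hT.mem hη (hz.trans e7) (e8.trans e7)).1 ⟨r, hr, f1⟩, (key z hz).1 ⟨r, hr, f2⟩⟩
    · rintro ⟨f1, f2⟩
      obtain ⟨z, ⟨r, -, h⟩, rfl⟩ := (mem_val (e8.trans e7)).1 f1
      have hz := h.lt.trans e8
      obtain ⟨p, hp, f3⟩ := (hT.mem hη (hz.trans e7) (e8.trans e7)).2 f1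
      obtain ⟨q, hq, f4⟩ := (key z hz).2 f2
      obtain ⟨r, hr, -, f5, f6⟩ := hG.dir hp hq
      exact ⟨z, r, hr, ⟨hz, (mx_lt_of_mem hη hr).trans (WithBot.coe_lt_coe.2 (e2.trans e3))⟩,
        ⟨f3.mono f5, f4.mono f6⟩, rfl⟩
  have main : ∀ j l l', C.T (pA dA l0 j l) → l < l' → l' < C.D →
      C.val η (Ln P j l l') = Lset (C.val η ta) (C.val η (on j)) := by
    intro j
    induction j using WellFoundedLT.induction with
    | _ j ih =>
    intro l l' h h' h''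
    have hlD := h'.trans h''
    have hlD' := WithBot.coe_lt_coe.2 hlD
    obtain ⟨e1, e2, e3⟩ := (T_pA hA _ _ _).1 h
    simp only at e1 e2 e3
    have hk1 : ∀ {i i1}, C.T (pA dA l0 i i1) → C.k < i1 := fun h => hk.trans ((T_pA hA _ _ _).1 h).1
    ext u
    have := mem_val_prog hL h' h'' (hPl h) (u := u) (η := η)
    rw [Ln, show P.1 = dL by rw [hP], this, mem_Lset]
    simp only [mem_val_on hη (e2.trans hlD), DefSet, ZFSet.mem_sep, ZFSet.mem_powerset]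
    constructor
    · rintro ⟨z, r, hr, ⟨hz, -⟩, ⟨i, f1, i4, f2, i3, f3, i2, f4, i1, f5, f6, φ, v, f7, f8, f9⟩, rfl⟩
      simp only [hP] at f1 f2 f6 f8 f9
      rw [← hP] at f8 f9
      have g1 : i4 < C.D := WithBot.coe_lt_coe.1 ((f2.trans_lt hz).trans hlD')
      have g2 := (f4.trans f3).trans g1
      have g3 := sep φ (hLn f6 f5) ((hk1 f6).trans f5) f4 f3 g1 f7
      rw [← f8] at g3
      refine ⟨_, ⟨i, f1, rfl⟩, ?_⟩
      rw [← ih i f1 i1 i2 f6 f5 g2]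
      refine ⟨fun u hu => ((g3 u).1 hu).1, φ, _, List.forall_mem_map.2 fun x hx => ?_, g3⟩
      refine (f9 x hx).symm.imp (fun h => (hT.mem hη ?_ ?_).1 ⟨r, hr, h⟩) (congrArg _)
      · exact ((mx_le_of_mem (a := x) hx).trans_lt f7).trans (WithBot.coe_lt_coe.2 (f3.trans g1))
      · rw [hLn f6 f5]; exact WithBot.coe_lt_coe.2 g2
    · rintro ⟨_, ⟨i, f1, rfl⟩, -, φ, v, f8, f9⟩
      obtain ⟨i4, f2, i3, f3, i2, f4, i1, f5, f6⟩ := e3 i f1
      have g1 := f2.trans hlD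
      have g2 := (f4.trans f3).trans g1
      have g4 := hLn f6 f5
      have g5 : mx (Ln P i i1 i2) < i3 := g4 ▸ WithBot.coe_lt_coe.2 f4
      have g6 := WithBot.coe_lt_coe.2 (f3.trans g1)
      rw [← ih i f1 i1 i2 f6 f5 g2] at f8 f9
      obtain ⟨w, g7, rfl, r, hr, g8⟩ : ∃ w : List Obj, mx (enc w) < i3 ∧ w.map (C.val η) = v ∧
          ∃ r ∈ C.G η, ∀ x ∈ w, x = ta ∨ C.M η r x (Ln P i i1 i2) := by
        clear f9
        induction v with
        | nil => exact ⟨[], by simp, rfl, emp, emp_mem hη, by simp⟩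
        | cons y v ih =>
          obtain ⟨w, g7, rfl, r, hr, g8⟩ := ih fun x hx => f8 x (by simp [hx])
          rcases f8 y (by simp) with h | rfl
          · obtain ⟨z, ⟨_, -, hz⟩, rfl⟩ := (mem_val (g5.trans g6)).1 h
            have hz := hz.lt.trans g5
            obtain ⟨p, hp, g9⟩ := (hT.mem hη (hz.trans g6) (g5.trans g6)).2 h
            obtain ⟨q, hq, -, g10, g11⟩ := hG.dir hr hp
            exact ⟨z :: w, by simp [hz, g7], rfl, q, hq, List.forall_mem_cons.2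
              ⟨.inr (g9.mono g11), fun x hx => (g8 x hx).imp_right fun h => h.mono g10⟩⟩
          · have := hta.trans (WithBot.coe_lt_coe.2 ((((T_pA hA _ _ _).1 f6).1.trans f5).trans f4))
            exact ⟨ta :: w, by simp [this, g7], rfl, r, hr, List.forall_mem_cons.2 ⟨.inl rfl, g8⟩⟩
      have g9 := (hk1 f6).trans f5
      have g10 : mx (Sn P (Ln P i i1 i2) φ w i2 i3 i4) = i4 := by
        have h3 := WithBot.coe_lt_coe.2 f3
        rw [Sn, mx_node, mx_prog, mx_lab, max_eq_left (max_le h3.le (le_trans (le_of_lt ?_) h3.le))]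
        simp only [hP]
        rw [← hP]
        simp [g9.trans f4, (hη.trans_lt g9).trans f4, f4, g5, g7]
      refine ⟨Sn P (Ln P i i1 i2) φ w i2 i3 i4, r, hr, ⟨g10 ▸ WithBot.coe_lt_coe.2 f2,
        (mx_lt_of_mem hη hr).trans (WithBot.coe_lt_coe.2 (hk.trans e1))⟩,
        ⟨i, f1, i4, g10.ge, i3, f3, i2, f4, i1, f5, by simpa only [hP] using f6, φ, w, g7, rfl,
          fun x hx => by simpa only [hP] using g8 x hx⟩, ZFSet.ext fun u => ?_⟩
      rw [f9, sep φ g4 g9 f4 f3 g1 g7]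
  intro j hj
  obtain ⟨l, e1, e2⟩ := ex j hj
  obtain ⟨l', e3, e4⟩ := C.exists_gt e1
  exact ⟨_, by rw [hLn e2 e3]; exact WithBot.coe_lt_coe.2 e4, main j l l' e2 e3 (e4.trans C.δD)⟩

lemma ev_D : ∀ᶠ C in 𝓕, PropD (C.W C.k C.δ) := by
  filter_upwards [ev_L, ev_dom, ev_cl, ev_stage] with C hL hD hC hS a ha
  obtain ⟨ξ, hξ, h⟩ := hS a ((hC.set le_rfl).1 ha)
  obtain ⟨d, h1, h2, -⟩ := hD ξ hξ
  refine ⟨d, (hC.fn le_rfl).2 h1, fun y ⟨α, h0, h3, h4⟩ => h2 y ((hC.fn hξ.le).1 ?_)⟩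
  obtain ⟨x, hx, rfl⟩ := h0
  obtain ⟨β, h5, -, h6⟩ := C.exists_lt_δ hx
  obtain ⟨j, h7, h8⟩ := exists_on le_rfl (h5.trans C.δD) ⟨x, h6, rfl⟩ h3
  rw [← h8, val_on_eq le_rfl hξ.le (h7.trans_lt (h5.trans C.δD))] at h4
  exact W_trans C.δD.le (hL ξ hξ.le _ ((hC.set hξ.le).2 h) j (h7.trans_lt h5)) h4

end Pool.Agent.Lib.MP_2c8569_lc
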