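import Pool.Agent.Lib.MP_2c8569_lc.Sig
import Pool.Agent.Lib.MP_2c8569_lc.LL

set_option autoImplicit false

namespace Pool.Agent.Lib.MP_2c8569_lc

open Classical Ob Filter Ctx MeasureTheory

instance : IsProbabilityMeasure coin := by unfold coin; infer_instance

lemma coin_cyl (s : List Bool) : coin (cyl s) = 2⁻¹ ^ s.length := by
  have : cyl s = Set.pi (Finset.range s.length : Finset ℕ) fun i => {s.getD i false} := by
    ext y
    simp only [cyl, Set.mem_ofPred_eq, Set.mem_pi, Finset.coe_range, Set.mem_Iio,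
      Set.mem_singleton_iff]
    refine ⟨fun h i hi => by rw [← h, getD_pre _ hi], fun h => List.ext_getElem (by simp)
      fun i h1 h2 => ?_⟩
    simpa [pre, h2] using h i h2
  rw [this, coin, Measure.infinitePi_pi _ fun _ _ => by simp]
  simp [PMF.uniformOfFintype_apply]

noncomputable def wd (c : ℕ → Prop) (n i : ℕ) : List Bool :=
  pre (fun t => decide (c (Nat.pair n (Nat.pair i t)))) (2 * n + 1)

lemma coin_wd (c : ℕ → Prop) (n : ℕ) :
    coin (⋃ i ∈ Finset.range (n + 1), cyl (wd c n i)) ≤ 2⁻¹ ^ (n + 1) := by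
  refine (measure_biUnion_finset_le _ _).trans ?_
  simp only [coin_cyl, wd, length_pre, Finset.sum_const, Finset.card_range, nsmul_eq_mul]
  have h1 : ((n + 1 : ℕ) : ENNReal) ≤ 2 ^ n := by exact_mod_cast Nat.lt_two_pow_self
  calc ((n + 1 : ℕ) : ENNReal) * 2⁻¹ ^ (2 * n + 1) ≤ 2 ^ n * 2⁻¹ ^ (2 * n + 1) := by gcongr
    _ = (2 * 2⁻¹) ^ n * 2⁻¹ ^ (n + 1) := by ring
    _ = _ := by rw [ENNReal.mul_inv_cancel (by simp) (by simp)]; simp

lemma mem_cyl_wd {c : ℕ → Prop} {y : ℕ → Bool} {n i : ℕ}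
    (h : ∀ t, t < 2 * n + 1 → (y t = true ↔ c (Nat.pair n (Nat.pair i t)))) :
    y ∈ cyl (wd c n i) := by
  simp only [cyl, wd, length_pre, Set.mem_ofPred_eq, pre_eq_pre]
  exact fun t ht => by simp [← h t ht]

/-- The cover read off from a sequence of guesses. -/
def Cv (c : ℕ → ℕ → Prop) : Set (ℕ × List Bool) :=
  {a | ∃ m, a.1 < m ∧ ∃ n, m ≤ n ∧ ∃ i, i < n + 1 ∧ a.2 = wd (c m) n i}

lemma coin_Cv (c : ℕ → ℕ → Prop) (n : ℕ) :
    coin (⋃ s ∈ {s | (n, s) ∈ Cv c}, cyl s) ≤ 2⁻¹ ^ n := by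
  have h1 : (⋃ s ∈ {s | (n, s) ∈ Cv c}, cyl s) ⊆ ⋃ m, ⋃ k,
      ⋃ i ∈ Finset.range (k + (m + (n + 1)) + 1), cyl (wd (c (m + (n + 1))) (k + (m + (n + 1))) i) := by
    simp only [Set.iUnion_subset_iff]
    rintro _ ⟨m, h1, k, h2, i, h3, h⟩ y hy
    obtain ⟨m, rfl⟩ := Nat.exists_eq_add_of_le' (Nat.succ_le_of_lt h1)
    obtain ⟨k, rfl⟩ := Nat.exists_eq_add_of_le' h2
    simp only at h
    exact Set.mem_iUnion₂.2 ⟨m, k, Set.mem_iUnion₂.2 ⟨i, Finset.mem_range.2 h3, h ▸ hy⟩⟩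
  have h2 : ∀ j, ∑' k, (2⁻¹ : ENNReal) ^ (k + j + 1) = 2⁻¹ ^ j := fun j => by
    simp only [add_assoc, pow_add, ENNReal.tsum_mul_right, ENNReal.tsum_geometric_two, pow_one]
    rw [mul_comm _ 2⁻¹, ← mul_assoc, ENNReal.mul_inv_cancel (by simp) (by simp), one_mul]
  refine (measure_mono h1).trans ((measure_iUnion_le _).trans ?_)
  rw [← h2 n]
  refine ENNReal.tsum_le_tsum fun m => (measure_iUnion_le _).trans ?_
  rw [add_assoc, ← h2]
  exact ENNReal.tsum_le_tsum fun k => coin_wd _ _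

lemma pair_le {a a' b b' : ℕ} (h : a ≤ a') (h' : b ≤ b') : Nat.pair a b ≤ Nat.pair a' b' :=
  ((strictMono_nat_of_lt_succ (f := fun a => Nat.pair a b) fun _ =>
    Nat.pair_lt_pair_left _ (by omega)).monotone h).trans
  ((strictMono_nat_of_lt_succ (f := fun b => Nat.pair a' b) fun _ =>
    Nat.pair_lt_pair_right _ (by omega)).monotone h')

lemma ev_null : ∀ᶠ C in 𝓕, ∀ z, C.RF C.k z → NullIn (C.W C.k C.δ) {y | ∀ j, ∃ n, j ≤ n ∧
    n ≤ z j ∧ cap (fun m => C.T (plug (cd C.s C.b (y · = true)) (nat m))) (y · = true) n} := by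
  filter_upwards [ev_cl, ev_stage, ev_dom, ev_cd,
    ev_op (P := fun a d => a ∈ Cv fun m t =>
      (Denumerable.ofNat (List ℕ) (d m).unpair.1).getD t 0 = 1) fun a => Opn.ex fun m =>
        ((Clo.const _).and (Clo.atom m fun v => ∃ n, m ≤ n ∧ ∃ i, i < n + 1 ∧ a.2 =
          wd (fun t => (Denumerable.ofNat (List ℕ) v.unpair.1).getD t 0 = 1) n i)).opn,
    ev_ct (Φ := fun m F => Encodable.encode (pre (fun a => F (Nat.pair 1 a))
      (Nat.pair (F (Nat.pair 0 m)) (Nat.pair (F (Nat.pair 0 m)) (2 * F (Nat.pair 0 m))) + 1)))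
      fun m => Cts.bind (Ψ := fun M F => Encodable.encode (pre (fun a => F (Nat.pair 1 a))
        (Nat.pair M (Nat.pair M (2 * M)) + 1))) (Cts.proj _) fun M e => (Clo.of_finite
        ((Set.finite_Iio (Nat.pair M (Nat.pair M (2 * M)) + 1)).image (Nat.pair 1))
        fun F F' h h' => by
          beta_reduce at h' ⊢
          rwa [pre_eq_pre.2 fun i hi => h _ ⟨i, hi, rfl⟩]).opn]
    with C hC hS hD hc h1 h2 z hz
  obtain ⟨ξ, hξ, hz⟩ := hS _ hz
  obtain ⟨d, e1, -, e2⟩ := hD ξ hξ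
  refine ⟨_, (hC.set le_rfl).2 (h1 le_rfl e1), fun n => ⟨coin_Cv _ n, fun y hy hy' => ?_⟩⟩
  obtain ⟨m, e3, e4⟩ := e2 _ (h2 hξ.le (hC.cns hξ.le hz (hC.cns hξ.le (hC.ind hξ.le (hC.kr hξ.le
    (S := {m | C.T (plug (cd C.s C.b (y · = true)) (nat m))})
    ⟨_, (hc _ ((hC.set le_rfl).1 hy')).1, fun _ => Iff.rfl⟩)) hz))) (n + 1)
  obtain ⟨k, e5, e6, i, e7, e8⟩ := hy m
  refine ⟨wd (fun t => (Denumerable.ofNat (List ℕ) (d m).unpair.1).getD t 0 = 1) k i,
    ⟨m, e3, k, e5, i, e7, rfl⟩, mem_cyl_wd fun t ht => ?_⟩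
  simp only [e4, Denumerable.ofNat_encode, cns_zero, cns_one]
  rw [getD_pre _ (Nat.lt_succ_of_le (pair_le e6 (pair_le (by omega) (by omega)))), ind_eq_one]
  exact e8 t ht

lemma ev_big : ∀ᶠ C in 𝓕, ∀ B : Set (ℕ → Bool), (∀ y, bitZ y ∈ C.W C.k C.δ → y ∈ B) →
    ¬ NullIn (C.W C.k C.δ) B := by
  filter_upwards [ev_cl,
    ev_op (P := fun (s : List Bool) F => ∃ N, ∀ y ∈ cyl s, ∃ i < N,
      F (Encodable.encode (1, pre y i)) = 1) fun s => Opn.ex fun N => (Clo.of_finite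
        ((List.finite_length_lt Bool N).image fun l => Encodable.encode (1, l))
        fun F F' h h' y hy => (h' y hy).imp fun i hi =>
          ⟨hi.1, (h _ ⟨pre y i, by simpa using hi.1, rfl⟩).trans hi.2⟩).opn,
    ev_dc (R := fun a b F => ¬ F a = 1 → ∀ s : List Bool, a = Encodable.encode s →
      ¬ F b = 1 ∧ ∃ β, b = Encodable.encode (s ++ [β])) fun a b => (Clo.eq _ _).not.imp
        (Clo.atom b fun v => ∀ s : List Bool, a = Encodable.encode s →
          ¬ v = 1 ∧ ∃ β, b = Encodable.encode (s ++ [β])),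
    ev_op (P := fun (t : ℕ) v => ∃ s : List Bool, v (t + 1) = Encodable.encode s ∧
      s.getD t false = true) fun t => (Clo.atom (t + 1) fun v => ∃ s : List Bool,
        v = Encodable.encode s ∧ s.getD t false = true).opn]
    with C hC h1 h2 h3 B hB ⟨U, hU, h⟩
  have hS := h1 le_rfl (hC.ind le_rfl ((hC.set le_rfl).1 hU))
  simp only [ind_eq_one, Encodable.encode_injective.mem_set_image] at hS
  generalize hS' : {s : List Bool | _} = S at hS
  have hS' : ∀ s, s ∈ S ↔ ∃ N, ∀ y ∈ cyl s, ∃ i < N, (1, pre y i) ∈ U := fun s => hS' ▸ Iff.rfl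
  have hp : ∀ (y : ℕ → Bool) n, pre y (n + 1) = pre y n ++ [y n] := fun y n => by
    simp [pre, List.range_succ]
  obtain ⟨v, e1, e2, e3⟩ := h2 le_rfl (hC.ind le_rfl hS) (fun a => by
    by_cases ha : ∃ s : List Bool, a = Encodable.encode s ∧ s ∉ S
    · obtain ⟨s, rfl, hs⟩ := ha
      obtain ⟨β, hβ⟩ : ∃ β, s ++ [β] ∉ S := by
        by_contra hc
        push Not at hc
        choose N hN using fun β => (hS' _).1 (hc β)
        refine hs ((hS' s).2 ⟨N true + N false, fun y hy => ?_⟩)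
        obtain ⟨i, h4, h5⟩ := hN (y s.length) y (by
          simp only [cyl, Set.mem_ofPred_eq, List.length_append, List.length_singleton, hp] at hy ⊢
          rw [hy])
        exact ⟨i, by cases h : y s.length <;> rw [h] at h4 <;> omega, h5⟩
      refine ⟨Encodable.encode (s ++ [β]), fun _ s' h => ⟨?_, β, ?_⟩⟩
      · simpa only [ind_eq_one, Encodable.encode_injective.mem_set_image] using hβ
      · rw [Encodable.encode_injective h]
    · refine ⟨0, fun h s hs => absurd ⟨s, hs, fun h' => h ?_⟩ ha⟩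
      simpa only [hs, ind_eq_one, Encodable.encode_injective.mem_set_image] using h')
    (Encodable.encode ([] : List Bool))
  have e4 : [] ∉ S := fun h0 => by
    obtain ⟨N, hN⟩ := (hS' _).1 h0
    have := (h 1).1
    rw [Set.eq_univ_of_forall (s := ⋃ s ∈ {s | (1, s) ∈ U}, cyl s) fun y =>
      let ⟨i, _, h⟩ := hN y rfl
      Set.mem_iUnion₂.2 ⟨_, h, by simp [cyl]⟩] at this
    norm_num at this
  let y : ℕ → Bool := fun t => decide (∃ s : List Bool, v (t + 1) = Encodable.encode s ∧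
    s.getD t false = true)
  have e5 : ∀ n, v n = Encodable.encode (pre y n) ∧ pre y n ∉ S := fun n => by
    induction n with
    | zero => exact ⟨e2, e4⟩
    | succ n ih =>
      obtain ⟨f1, β, f2⟩ := e3 n (by
        simpa only [ih.1, ind_eq_one, Encodable.encode_injective.mem_set_image] using ih.2) _ ih.1
      have : y n = β := by simp [y, f2, List.getD_eq_getElem?_getD]
      rw [hp, this]
      exact ⟨f2, by simpa only [f2, ind_eq_one, Encodable.encode_injective.mem_set_image] using f1⟩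
  have hy : bitZ y ∈ C.W C.k C.δ := (hC.set le_rfl).2 ((h3.nat le_rfl e1).of_iff (by simp [y]))
  obtain ⟨s, f1, f2⟩ := (h 1).2 y (hB y hy) hy
  refine (e5 s.length).2 ?_
  rw [f2, hS']
  exact ⟨s.length + 1, fun y' hy' => ⟨s.length, by omega, by rwa [hy']⟩⟩

lemma ev_notGP : ∀ᶠ C in 𝓕, ¬ GPDelta (C.W C.k C.δ) := by
  filter_upwards [ev_cl, ev_cd, ev_null, ev_big,
    ev_sig (Q := fun j z h => ∃ n, j ≤ n ∧ n ≤ z j ∧ h n) fun j zc h hh => Opn.ex fun n =>
      ((Clo.const _).and ((Clo.le _ _).and (hh n))).opn,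
    ev_sig (Q := fun _ z h => ∃ j, ∀ n, n < z j + 1 → j ≤ n → ¬ h n) fun _ zc h hh =>
      Opn.ex fun j => Opn.bind (R := fun M F => ∀ n, n < M + 1 → j ≤ n → ¬ h n F) (Cts.proj _)
        fun M => (Clo.ball fun n => (Clo.const _).imp (hh n).not).opn,
    ev_chs (R := fun j n F => j ≤ n ∧ cap (fun m => F (Nat.pair 0 m) = 1)
      (fun t => F (Nat.pair 1 t) = 1) n) fun j n => (Clo.const _).and (clo_cap _ _ _)]
    with C hC hc h1 h2 h3 h4 h5 h
  refine h2 _ (fun y hy => ?_) (h _ h3 ?_ (fun z hz => h1 z ((hC.fn le_rfl).1 hz))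
    fun z z' _ _ hz y _ h j => (h j).imp fun n h => ⟨h.1, h.2.1.trans (hz j), h.2.2⟩)
  · have hy := (hC.set le_rfl).1 hy
    obtain ⟨e1, e2, -⟩ := hc _ hy
    obtain ⟨z, e3, e4⟩ := h5 le_rfl (hC.cns le_rfl (hC.ind le_rfl (hC.kr le_rfl
      (S := {m | C.T (plug (cd C.s C.b (y · = true)) (nat m))}) ⟨_, e1, fun _ => Iff.rfl⟩))
      (hC.cns le_rfl (hC.ind le_rfl hy) (hC.const le_rfl 0))) fun j => by simpa using e2 j
    exact ⟨z, (hC.fn le_rfl).2 e3, fun j => ⟨z j, (e4 j).1, le_rfl, by simpa using (e4 j).2⟩⟩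
  · convert h4 using 2
    ext p
    simp only [Set.mem_compl_iff, Set.mem_ofPred_eq, not_forall, not_exists, not_and, forall_const,
      Nat.lt_succ_iff]
    exact exists_congr fun j => forall_congr' fun n => imp.swap

theorem main : ∃ W : Set ZFSet.{0}, W.Countable ∧ IsModel W ∧ PropD W ∧ ¬ GPDelta W := by
  obtain ⟨C, h1, h2, h3⟩ := (ev_model.and (ev_D.and ev_notGP)).exists
  refine ⟨_, ?_, h1 _ le_rfl, h2, h3⟩
  exact ((countable_obIn C.cnt).mono fun x hx => mx_lt_iff.1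
    (lt_trans hx (WithBot.coe_lt_coe.2 C.δD))).image (C.val C.k)

end Pool.Agent.Lib.MP_2c8569_lc
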