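import Pool.Agent.Lib.MP_2c8569_lc.Defs

set_option autoImplicit false

namespace Pool.Agent.Lib.MP_2c8569_lc

open Classical

/-- Finite binary trees with labelled leaves. -/
inductive Ob (A : Type*)
  | nil : Ob A
  | nat (n : ℕ) : Ob A
  | lab (i : A) : Ob A
  | node (a b : Ob A) : Ob A

deriving instance Countable for Ob
instance {A : Type*} : Inhabited (Ob A) := ⟨.nil⟩
deriving instance Countable for Fm

abbrev Λ := Ordinal.{1}
abbrev Obj := Ob Λ

namespace Ob

variable {A B C : Type*}

def map (e : A → B) : Ob A → Ob B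
  | nil => nil
  | nat n => nat n
  | lab i => lab (e i)
  | node a b => node (map e a) (map e b)

def labs : Ob A → List A
  | nil => []
  | nat _ => []
  | lab i => [i]
  | node a b => labs a ++ labs b

def fst : Ob A → Ob A
  | node a _ => a
  | _ => nil

def snd : Ob A → Ob A
  | node _ b => b
  | _ => nil

def natOf : Ob A → ℕ
  | nat n => n
  | _ => 0

def plug (s y : Ob A) : Ob A := node s.fst (node y s.snd)

@[simp] lemma map_nil (e : A → B) : map e nil = nil := rfl
@[simp] lemma map_nat (e : A → B) (n : ℕ) : map e (nat n) = nat n := rfl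
@[simp] lemma map_lab (e : A → B) (i : A) : map e (lab i) = lab (e i) := rfl
@[simp] lemma map_node (e : A → B) (a b : Ob A) : map e (node a b) = node (map e a) (map e b) := rfl
@[simp] lemma labs_nil : labs (nil : Ob A) = [] := rfl
@[simp] lemma labs_nat (n : ℕ) : labs (nat n : Ob A) = [] := rfl
@[simp] lemma labs_lab (i : A) : labs (lab i) = [i] := rfl
@[simp] lemma labs_node (a b : Ob A) : labs (node a b) = labs a ++ labs b := rfl
@[simp] lemma fst_node (a b : Ob A) : fst (node a b) = a := rfl
@[simp] lemma snd_node (a b : Ob A) : snd (node a b) = b := rfl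
@[simp] lemma fst_nil : fst (nil : Ob A) = nil := rfl
@[simp] lemma snd_nil : snd (nil : Ob A) = nil := rfl
@[simp] lemma natOf_nat (n : ℕ) : natOf (nat n : Ob A) = n := rfl
@[simp] lemma natOf_nil : natOf (nil : Ob A) = 0 := rfl
@[simp] lemma fst_map (e : A → B) (a : Ob A) : fst (map e a) = map e (fst a) := by
  cases a <;> rfl
@[simp] lemma snd_map (e : A → B) (a : Ob A) : snd (map e a) = map e (snd a) := by
  cases a <;> rfl
@[simp] lemma natOf_map (e : A → B) (a : Ob A) : natOf (map e a) = natOf a := by
  cases a <;> rfl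
@[simp] lemma plug_map (e : A → B) (a b : Ob A) : map e (plug a b) = plug (map e a) (map e b) := by
  simp [plug]
@[simp] lemma plug_node (a b y : Ob A) : plug (node a b) y = node a (node y b) := rfl
@[simp] lemma labs_map (e : A → B) (a : Ob A) : labs (map e a) = (labs a).map e := by
  induction a <;> simp [*]
@[simp] lemma map_map (e : A → B) (f : B → C) (a : Ob A) : map f (map e a) = map (f ∘ e) a := by
  induction a <;> simp [*]

lemma map_congr {e f : A → B} {a : Ob A} (h : ∀ i ∈ labs a, e i = f i) : map e a = map f a := by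
  induction a with
  | nil => rfl
  | nat n => rfl
  | lab i => simp [h i (by simp)]
  | node a b iha ihb =>
    simp only [labs_node, List.mem_append] at h
    simp [iha fun i hi => h i (.inl hi), ihb fun i hi => h i (.inr hi)]

@[simp] lemma map_id' (a : Ob A) : map (fun i => i) a = a := by induction a <;> simp [*]

lemma map_eq_self {e : A → A} {a : Ob A} (h : ∀ i ∈ labs a, e i = i) : map e a = a :=
  (map_congr h).trans (map_id' a)

lemma map_injective {e : A → B} (he : Function.Injective e) : Function.Injective (map e) := by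
  intro a b h
  induction a generalizing b with
  | nil => cases b <;> simp_all
  | nat n => cases b <;> simp_all
  | lab i => cases b <;> simp_all [he.eq_iff]
  | node a a' ih ih' =>
    cases b with
    | node b b' => simp only [map_node, node.injEq] at h; rw [ih h.1, ih' h.2]
    | _ => simp_all

lemma exists_map {e : A → B} {y : Ob B} (h : ∀ i ∈ labs y, ∃ a, e a = i) : ∃ x, map e x = y := by
  induction y with
  | nil => exact ⟨nil, rfl⟩
  | nat n => exact ⟨nat n, rfl⟩
  | lab i => obtain ⟨a, rfl⟩ := h i (by simp); exact ⟨lab a, rfl⟩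
  | node a b iha ihb =>
    simp only [labs_node, List.mem_append] at h
    obtain ⟨x, rfl⟩ := iha fun i hi => h i (.inl hi)
    obtain ⟨y, rfl⟩ := ihb fun i hi => h i (.inr hi)
    exact ⟨node x y, rfl⟩

lemma labs_fst {a : Ob A} {i : A} (h : i ∈ labs a.fst) : i ∈ labs a := by
  cases a <;> simp_all [fst]

lemma labs_snd {a : Ob A} {i : A} (h : i ∈ labs a.snd) : i ∈ labs a := by
  cases a <;> simp_all [snd]

lemma eq_of_shape {a b : Ob A} (h : map (fun _ => ()) a = map (fun _ => ()) b)
    (h' : labs a = labs b) : a = b := by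
  induction a generalizing b with
  | nil => cases b <;> simp_all
  | nat n => cases b <;> simp_all
  | lab i => cases b <;> simp_all
  | node a a' ih ih' =>
    cases b with
    | node b b' =>
      simp only [map_node, node.injEq] at h
      have : (labs a).length = (labs b).length := by
        have := congrArg (fun z => (labs z).length) h.1
        simpa using this
      simp only [labs_node] at h'
      obtain ⟨h1, h2⟩ := List.append_inj h' this
      rw [ih h.1 h1, ih' h.2 h2]
    | _ => simp_all

/-- The largest label. -/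
noncomputable def mx : Obj → WithBot Λ
  | nil => ⊥
  | nat _ => ⊥
  | lab i => i
  | node a b => max (mx a) (mx b)

@[simp] lemma mx_nil : mx nil = ⊥ := rfl
@[simp] lemma mx_nat (n : ℕ) : mx (nat n) = ⊥ := rfl
@[simp] lemma mx_lab (i : Λ) : mx (lab i) = i := rfl
@[simp] lemma mx_node (a b : Obj) : mx (node a b) = max (mx a) (mx b) := rfl

lemma mx_le_iff {a : Obj} {μ : WithBot Λ} : mx a ≤ μ ↔ ∀ i ∈ labs a, (i : WithBot Λ) ≤ μ := by
  induction a <;> simp [*, or_imp, forall_and]

lemma mx_lt_iff {a : Obj} {μ : Λ} : mx a < μ ↔ ∀ i ∈ labs a, i < μ := by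
  induction a <;> simp [*, or_imp, forall_and]

lemma le_mx {a : Obj} {i : Λ} (h : i ∈ labs a) : (i : WithBot Λ) ≤ mx a := mx_le_iff.1 le_rfl i h

lemma mx_fst (a : Obj) : mx a.fst ≤ mx a := mx_le_iff.2 fun _ h => le_mx (labs_fst h)
lemma mx_snd (a : Obj) : mx a.snd ≤ mx a := mx_le_iff.2 fun _ h => le_mx (labs_snd h)

lemma mx_plug (s y : Obj) : mx (plug s y) = max (mx s) (mx y) ∨
    (mx (plug s y) = mx y ∧ ∀ a b, s ≠ node a b) := by
  cases s with
  | node a b => left; simp only [plug_node, mx_node]; rw [max_comm (mx y), max_assoc]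
  | _ => right; simp [plug, fst, snd]

lemma mx_plug_le (s y : Obj) : mx (plug s y) ≤ max (mx s) (mx y) := by
  rcases mx_plug s y with h | h
  · exact h.le
  · rw [h.1]; exact le_max_right _ _

lemma le_mx_plug (s y : Obj) : mx y ≤ mx (plug s y) := by simp [plug]

lemma mx_map {e : Λ → Λ} (he : Monotone e) (a : Obj) : mx (map e a) = (mx a).map e := by
  induction a with
  | nil => rfl
  | nat n => rfl
  | lab i => rfl
  | node a b iha ihb =>
    simp only [map_node, mx_node, iha, ihb]
    exact ((he.withBot_map).map_max).symm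

lemma exists_mx (a : Obj) : mx a = ⊥ ∨ ∃ i ∈ labs a, mx a = (i : WithBot Λ) := by
  induction a with
  | nil => simp
  | nat n => simp
  | lab i => simp
  | node a b iha ihb =>
    rcases max_cases (mx a) (mx b) with h | h
    · rcases iha with h' | ⟨i, hi, h'⟩
      · left; rw [mx_node, h.1, h']
      · right; exact ⟨i, by simp [hi], by rw [mx_node, h.1, h']⟩
    · rcases ihb with h' | ⟨i, hi, h'⟩
      · left; rw [mx_node, h.1, h']
      · right; exact ⟨i, by simp [hi], by rw [mx_node, h.1, h']⟩

end Ob

open Ob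

/-- Types on which maps of labels act. -/
class Act (α : Type*) where
  act : (Λ → Λ) → α → α

export Act (act)

/-- Types with the trivial action. -/
class Pur (α : Type*) [Act α] : Prop where
  pur : ∀ (e : Λ → Λ) (a : α), act e a = a

/-- Elements fixed by the action. -/
class Fix {α : Type*} [Act α] (a : α) : Prop where
  fix : ∀ e : Λ → Λ, act e a = a

/-- Types coded by objects. -/
class Enc (α : Type*) extends Act α where
  enc : α → Obj
  enc_inj : Function.Injective enc
  enc_act : ∀ e a, enc (act e a) = Ob.map e (enc a)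
  rng : ∀ (e : Λ → Λ) z a, Ob.map e z = enc a → ∃ a', z = enc a'

export Enc (enc)

instance : Act Prop := ⟨fun _ p => p⟩
instance : Pur Prop := ⟨fun _ _ => rfl⟩
instance : Act (WithBot Λ) := ⟨fun e => WithBot.map e⟩

instance : Enc Obj where
  act := Ob.map
  enc := fun x => x
  enc_inj := fun _ _ h => h
  enc_act := fun _ _ => rfl
  rng := fun _ z _ _ => ⟨z, rfl⟩

instance : Enc Λ where
  act := fun e i => e i
  enc := lab
  enc_inj := fun _ _ h => by simpa using h
  enc_act := fun _ _ => rfl
  rng := fun _ z _ h => by cases z <;> simp_all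

/-- Countable types coded by numbers. -/
@[reducible] noncomputable def Enc.ofInj {α : Type*} (f : α → ℕ) (hf : Function.Injective f) :
    Enc α where
  act := fun _ a => a
  enc := fun a => nat (f a)
  enc_inj := fun _ _ h => hf (by simpa using h)
  enc_act := fun _ _ => rfl
  rng := fun _ z a h => ⟨a, by cases z <;> simp_all⟩

noncomputable instance : Enc ℕ := .ofInj id fun _ _ h => h
instance : Pur ℕ := ⟨fun _ _ => rfl⟩
noncomputable instance : Enc Bool := .ofInj Encodable.encode Encodable.encode_injective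
instance : Pur Bool := ⟨fun _ _ => rfl⟩
noncomputable instance : Enc Fm := .ofInj _ (Countable.exists_injective_nat Fm).choose_spec
instance : Pur Fm := ⟨fun _ _ => rfl⟩

instance {α β : Type*} [Act α] [Act β] : Act (α × β) := ⟨fun e p => (act e p.1, act e p.2)⟩
instance {α : Type*} [Act α] : Act (List α) := ⟨fun e l => l.map (act e)⟩

instance {α β : Type*} [Act α] [Act β] [Pur α] [Pur β] : Pur (α × β) :=
  ⟨fun e p => Prod.ext (Pur.pur e p.1) (Pur.pur e p.2)⟩
instance {α : Type*} [Act α] [Pur α] : Pur (List α) :=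
  ⟨fun e l => (List.map_congr_left fun a _ => Pur.pur e a).trans (List.map_id' l)⟩

instance {α β : Type*} [Enc α] [Enc β] : Enc (α × β) where
  enc := fun p => node (enc p.1) (enc p.2)
  enc_inj := fun p q h => by
    simp only [node.injEq] at h
    exact Prod.ext (Enc.enc_inj h.1) (Enc.enc_inj h.2)
  enc_act := fun e p => by
    show node (enc (act e p.1)) (enc (act e p.2)) = _
    simp [Enc.enc_act]
  rng := fun e z p h => by
    cases z with
    | node a b =>
      simp only [map_node, node.injEq] at h
      obtain ⟨a', rfl⟩ := Enc.rng e a _ h.1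
      obtain ⟨b', rfl⟩ := Enc.rng e b _ h.2
      exact ⟨(a', b'), rfl⟩
    | _ => simp at h

def encL {α : Type*} [Enc α] : List α → Obj
  | [] => nil
  | a :: l => node (enc a) (encL l)

instance {α : Type*} [Enc α] : Enc (List α) where
  enc := encL
  enc_inj := fun p q h => by
    induction p generalizing q with
    | nil => cases q <;> simp_all [encL]
    | cons a l ih =>
      cases q with
      | nil => simp [encL] at h
      | cons b m =>
        simp only [encL, node.injEq] at h
        rw [Enc.enc_inj h.1, ih m h.2]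
  enc_act := fun e p => by
    show encL (p.map (act e)) = _
    induction p <;> simp [encL, Enc.enc_act, *]
  rng := fun e z p h => by
    induction p generalizing z with
    | nil => cases z <;> simp [encL] at h; exact ⟨[], rfl⟩
    | cons a l ih =>
      cases z with
      | node c d =>
        simp only [encL, map_node, node.injEq] at h
        obtain ⟨a', rfl⟩ := Enc.rng e c _ h.1
        obtain ⟨b', rfl⟩ := ih d h.2
        exact ⟨a' :: b', rfl⟩
      | _ => simp [encL] at h

section simps
variable {α β : Type*}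
@[simp] lemma enc_obj (x : Obj) : enc x = x := rfl
@[simp] lemma enc_lab (i : Λ) : enc i = lab i := rfl
@[simp] lemma enc_nat (n : ℕ) : enc n = (nat n : Obj) := rfl
@[simp] lemma enc_pair [Enc α] [Enc β] (a : α) (b : β) : enc (a, b) = node (enc a) (enc b) := rfl
@[simp] lemma enc_nil [Enc α] : enc ([] : List α) = nil := rfl
@[simp] lemma enc_cons [Enc α] (a : α) (l : List α) : enc (a :: l) = node (enc a) (enc l) := rfl
@[simp] lemma act_obj (e : Λ → Λ) (x : Obj) : act e x = Ob.map e x := rfl
@[simp] lemma act_lab (e : Λ → Λ) (x : Λ) : act e x = e x := rfl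
@[simp] lemma act_wb (e : Λ → Λ) (x : WithBot Λ) : act e x = x.map e := rfl
@[simp] lemma act_pur [Act α] [Pur α] (e : Λ → Λ) (x : α) : act e x = x := Pur.pur e x
@[simp] lemma act_pair [Act α] [Act β] (e : Λ → Λ) (a : α) (b : β) :
    act e (a, b) = (act e a, act e b) := rfl
@[simp] lemma act_fst [Act α] [Act β] (e : Λ → Λ) (p : α × β) : (act e p).1 = act e p.1 := rfl
@[simp] lemma act_snd [Act α] [Act β] (e : Λ → Λ) (p : α × β) : (act e p).2 = act e p.2 := rfl
lemma act_list [Act α] (e : Λ → Λ) (l : List α) : act e l = l.map (act e) := rfl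
@[simp] lemma map_enc [Enc α] (e : Λ → Λ) (a : α) : Ob.map e (enc a) = enc (act e a) :=
  (Enc.enc_act e a).symm
@[simp] lemma enc_eq_enc [Enc α] {a b : α} : enc a = enc b ↔ a = b := Enc.enc_inj.eq_iff

lemma act_injective [Enc α] {e : Λ → Λ} (he : StrictMono e) : Function.Injective (act e : α → α) :=
  fun a b h => Enc.enc_inj (map_injective he.injective (by simp [h]))

@[simp] lemma labs_enc_pur [Enc α] [Pur α] (a : α) : labs (enc a) = [] := by
  by_contra h
  obtain ⟨i, hi⟩ := List.exists_mem_of_ne_nil _ h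
  have h1 := congrArg labs (map_enc (fun _ => i + 1) a)
  have h2 := congrArg labs (map_enc (fun _ => i) a)
  simp only [labs_map, act_pur] at h1 h2
  rw [← h1, List.mem_map] at hi
  obtain ⟨_, _, hi⟩ := hi
  exact (Order.lt_add_one_iff.2 le_rfl : i < i + 1).ne' hi

@[simp] lemma mx_enc_pur [Enc α] [Pur α] (a : α) : mx (enc a) = ⊥ :=
  le_bot_iff.1 (mx_le_iff.2 (by simp))

lemma mem_labs_encL [Enc α] {l : List α} {i : Λ} :
    i ∈ labs (enc l) ↔ ∃ a ∈ l, i ∈ labs (enc a) := by
  induction l <;> simp [*]

lemma mx_le_of_mem [Enc α] {l : List α} {a : α} (h : a ∈ l) : mx (enc a) ≤ mx (enc l) :=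
  mx_le_iff.2 fun _ hi => le_mx (mem_labs_encL.2 ⟨a, h, hi⟩)

lemma mx_list_lt [Enc α] {l : List α} {μ : Λ} : mx (enc l) < μ ↔ ∀ a ∈ l, mx (enc a) < μ := by
  induction l <;> simp [*]

lemma mx_list_le [Enc α] {l : List α} {μ : WithBot Λ} :
    mx (enc l) ≤ μ ↔ ∀ a ∈ l, mx (enc a) ≤ μ := by
  induction l <;> simp [*]

lemma act_eq_self [Enc α] {e : Λ → Λ} {a : α} (h : ∀ i ∈ labs (enc a), e i = i) : act e a = a :=
  Enc.enc_inj (by rw [← map_enc, map_eq_self h])

end simps

instance {α : Type*} [Act α] [Pur α] (a : α) : Fix a := ⟨fun e => Pur.pur e a⟩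
instance : Fix (nil : Obj) := ⟨fun _ => rfl⟩
instance (n : ℕ) : Fix (nat n : Obj) := ⟨fun _ => rfl⟩
instance (a b : Obj) [Fix a] [Fix b] : Fix (node a b) :=
  ⟨fun e => by
    have ha := Fix.fix (a := a) e
    have hb := Fix.fix (a := b) e
    simp_all⟩
instance {α : Type*} [Act α] : Fix ([] : List α) := ⟨fun _ => rfl⟩
instance {α β : Type*} [Act α] [Act β] (a : α) (b : β) [Fix a] [Fix b] : Fix (a, b) :=
  ⟨fun e => by simp [Fix.fix]⟩
instance {α : Type*} [Enc α] (a : α) [Fix a] : Fix (enc a) := ⟨fun e => by simp [Fix.fix]⟩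

/-- Functions that commute with all strictly monotone maps of labels. -/
@[fun_prop] def Inv {α β : Type*} [Act α] [Act β] (f : α → β) : Prop :=
  ∀ e : Λ → Λ, StrictMono e → ∀ a, f (act e a) = act e (f a)

namespace Inv

variable {α β γ : Type*} [Act α] [Act β] [Act γ]

@[fun_prop] lemma id' : Inv fun x : α => x := fun _ _ _ => rfl
@[fun_prop] lemma const (b : β) [Fix b] : Inv fun _ : α => b := fun e _ _ => (Fix.fix e).symm
@[fun_prop] lemma comp {f : β → γ} {g : α → β} (hf : Inv f) (hg : Inv g) : Inv fun x => f (g x) :=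
  fun e he a => by simp only [hg e he a, hf e he]
@[fun_prop] lemma pure [Pur α] [Pur β] (f : α → β) : Inv f := fun e _ a => by simp
@[fun_prop] lemma pair {f : α → β} {g : α → γ} (hf : Inv f) (hg : Inv g) :
    Inv fun x => (f x, g x) := fun e he a => by simp [hf e he a, hg e he a]
@[fun_prop] lemma fst {f : α → β × γ} (hf : Inv f) : Inv fun x => (f x).1 :=
  fun e he a => by simp [hf e he a]
@[fun_prop] lemma snd {f : α → β × γ} (hf : Inv f) : Inv fun x => (f x).2 :=
  fun e he a => by simp [hf e he a]
@[fun_prop] lemma node {f g : α → Obj} (hf : Inv f) (hg : Inv g) :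
    Inv fun x => Ob.node (f x) (g x) := fun e he a => by simp [hf e he a, hg e he a]
@[fun_prop] lemma plug {f g : α → Obj} (hf : Inv f) (hg : Inv g) :
    Inv fun x => Ob.plug (f x) (g x) := fun e he a => by simp [hf e he a, hg e he a]
@[fun_prop] lemma lab {f : α → Λ} (hf : Inv f) : Inv fun x => (Ob.lab (f x) : Obj) :=
  fun e he a => by simp [hf e he a]
@[fun_prop] lemma nat {f : α → ℕ} (hf : Inv f) : Inv fun x => (Ob.nat (f x) : Obj) :=
  fun e he a => by simp [hf e he a]
@[fun_prop] lemma ofst {f : α → Obj} (hf : Inv f) : Inv fun x => Ob.fst (f x) :=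
  fun e he a => by simp [hf e he a]
@[fun_prop] lemma osnd {f : α → Obj} (hf : Inv f) : Inv fun x => Ob.snd (f x) :=
  fun e he a => by simp [hf e he a]
@[fun_prop] lemma natOf {f : α → Obj} (hf : Inv f) : Inv fun x => Ob.natOf (f x) :=
  fun e he a => by simp [hf e he a]
@[fun_prop] lemma mx {f : α → Obj} (hf : Inv f) : Inv fun x => Ob.mx (f x) :=
  fun e he a => by simp [hf e he a, mx_map he.monotone]
@[fun_prop] lemma coe {f : α → Λ} (hf : Inv f) : Inv fun x => ((f x : Λ) : WithBot Λ) :=
  fun e he a => by simp [hf e he a]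
@[fun_prop] lemma enc {δ : Type*} [Enc δ] {f : α → δ} (hf : Inv f) : Inv fun x => enc (f x) :=
  fun e he a => by simp [hf e he a]
@[fun_prop] lemma eq {δ : Type*} [Enc δ] {f g : α → δ} (hf : Inv f) (hg : Inv g) :
    Inv fun x => f x = g x := fun e he a => by
  simp [hf e he a, hg e he a, (act_injective he).eq_iff]
@[fun_prop] lemma ne {δ : Type*} [Enc δ] {f g : α → δ} (hf : Inv f) (hg : Inv g) :
    Inv fun x => f x ≠ g x := fun e he a => by
  simp [hf e he a, hg e he a, (act_injective he).eq_iff]
@[fun_prop] lemma lt {f g : α → Λ} (hf : Inv f) (hg : Inv g) : Inv fun x => f x < g x :=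
  fun e he a => by simp [hf e he a, hg e he a, he.lt_iff_lt]
@[fun_prop] lemma le {f g : α → Λ} (hf : Inv f) (hg : Inv g) : Inv fun x => f x ≤ g x :=
  fun e he a => by simp [hf e he a, hg e he a, he.le_iff_le]
@[fun_prop] lemma ltn {f g : α → ℕ} (hf : Inv f) (hg : Inv g) : Inv fun x => f x < g x :=
  fun e he a => by simp [hf e he a, hg e he a]
@[fun_prop] lemma len {f g : α → ℕ} (hf : Inv f) (hg : Inv g) : Inv fun x => f x ≤ g x :=
  fun e he a => by simp [hf e he a, hg e he a]
@[fun_prop] lemma ltb {f g : α → WithBot Λ} (hf : Inv f) (hg : Inv g) : Inv fun x => f x < g x :=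
  fun e he a => by simp [hf e he a, hg e he a, he.withBot_map.lt_iff_lt]
@[fun_prop] lemma leb {f g : α → WithBot Λ} (hf : Inv f) (hg : Inv g) : Inv fun x => f x ≤ g x :=
  fun e he a => by simp [hf e he a, hg e he a, he.withBot_map.le_iff_le]
@[fun_prop] lemma maxb {f g : α → WithBot Λ} (hf : Inv f) (hg : Inv g) :
    Inv fun x => max (f x) (g x) :=
  fun e he a => by simp [hf e he a, hg e he a, he.monotone.withBot_map.map_max]
@[fun_prop] lemma and {f g : α → Prop} (hf : Inv f) (hg : Inv g) : Inv fun x => f x ∧ g x :=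
  fun e he a => by simp [hf e he a, hg e he a]
@[fun_prop] lemma or {f g : α → Prop} (hf : Inv f) (hg : Inv g) : Inv fun x => f x ∨ g x :=
  fun e he a => by simp [hf e he a, hg e he a]
@[fun_prop] lemma iff {f g : α → Prop} (hf : Inv f) (hg : Inv g) : Inv fun x => (f x ↔ g x) :=
  fun e he a => by simp [hf e he a, hg e he a]
@[fun_prop] lemma not {f : α → Prop} (hf : Inv f) : Inv fun x => ¬ f x :=
  fun e he a => by simp [hf e he a]
@[fun_prop] lemma cons {f : α → β} {g : α → List β} (hf : Inv f) (hg : Inv g) :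
    Inv fun x => f x :: g x := fun e he a => by simp [hf e he a, hg e he a, act_list]
@[fun_prop] lemma append {f g : α → List β} (hf : Inv f) (hg : Inv g) :
    Inv fun x => f x ++ g x := fun e he a => by simp [hf e he a, hg e he a, act_list]
@[fun_prop] lemma getD {f : α → List β} {g : α → ℕ} {d : α → β} (hf : Inv f) (hg : Inv g)
    (hd : Inv d) : Inv fun x => (f x).getD (g x) (d x) := fun e he a => by
  simp only [hf e he a, hg e he a, hd e he a, act_list, act_pur]
  exact List.getD_map _ _ _
@[fun_prop] lemma mem {δ : Type*} [Enc δ] {f : α → δ} {g : α → List δ} (hf : Inv f) (hg : Inv g) :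
    Inv fun x => f x ∈ g x := fun e he a => by
  simp only [hf e he a, hg e he a, act_list, act_pur]
  exact propext (List.mem_map_of_injective (act_injective he))
@[fun_prop] lemma subset {δ : Type*} [Enc δ] {f g : α → List δ} (hf : Inv f) (hg : Inv g) :
    Inv fun x => f x ⊆ g x := fun e he a => by
  simp only [hf e he a, hg e he a, act_list, act_pur]
  exact propext (List.map_subset_iff _ (act_injective he))

lemma iff' {R : α → Prop} (h : Inv R) {e : Λ → Λ} (he : StrictMono e) (a : α) :
    R (act e a) ↔ R a := by rw [h e he a]; simp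

@[fun_prop] lemma eqb {f g : α → WithBot Λ} (hf : Inv f) (hg : Inv g) : Inv fun x => f x = g x :=
  fun e he a => by simp [hf e he a, hg e he a, he.withBot_map.injective.eq_iff]

/-- An invariant function does not raise the largest label. -/
lemma wb_le {δ : Type*} [Enc δ] {f : δ → WithBot Λ} (hf : Inv f) (a : δ) :
    f a ≤ Ob.mx (Enc.enc a) := by
  let e : Λ → Λ := fun j => if (j : WithBot Λ) ≤ Ob.mx (Enc.enc a) then j else j + 1
  have he : StrictMono e := by
    intro i j hij
    simp only [e]
    split_ifs with h1 h2 h2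
    · exact hij
    · exact hij.trans (Order.lt_add_one_iff.2 le_rfl)
    · exact absurd ((WithBot.coe_le_coe.2 hij.le).trans h2) h1
    · exact (Order.lt_add_one_iff.2 le_rfl).trans_le' (Order.add_one_le_iff.2 hij)
  have h1 : act e a = a := act_eq_self fun i hi => if_pos (le_mx hi)
  have h2 := hf e he a
  rw [h1] at h2
  by_contra hc
  cases h : f a with
  | bot => simp [h] at hc
  | coe i =>
    rw [h] at h2 hc
    simp only [act_wb, WithBot.map_coe, WithBot.coe_inj, e, if_neg hc] at h2
    exact (Order.lt_add_one_iff.2 le_rfl).ne h2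

lemma mx_le {δ ε : Type*} [Enc δ] [Enc ε] {f : δ → ε} (hf : Inv f) (a : δ) :
    Ob.mx (Enc.enc (f a)) ≤ Ob.mx (Enc.enc a) :=
  wb_le (f := fun a => Ob.mx (Enc.enc (f a))) (by fun_prop) a

end Inv

lemma exists_ext {n : ℕ} (σ : Fin n → Λ) (hσ : StrictMono σ) :
    ∃ g : Λ → Λ, StrictMono g ∧ ∀ i : Fin n, g (i : ℕ) = σ i := by
  obtain ⟨M, hM⟩ := (Set.finite_range σ).bddAbove
  refine ⟨fun j => if h : ∃ i : Fin n, j = (i : ℕ) then σ h.choose else M + 1 + j, ?_, ?_⟩
  · intro i j hij
    simp only
    split_ifs with h1 h2 h2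
    · apply hσ
      have := h1.choose_spec.symm.trans_lt (hij.trans_eq h2.choose_spec)
      exact_mod_cast this
    · exact (Order.lt_add_one_iff.2 (hM ⟨_, rfl⟩)).trans_le le_self_add
    · exfalso
      obtain ⟨m, rfl⟩ := h2
      obtain ⟨k, rfl⟩ := Ordinal.lt_omega0.1 (hij.trans (Ordinal.natCast_lt_omega0 m))
      exact h1 ⟨⟨k, (Nat.cast_lt.1 hij).trans m.2⟩, rfl⟩
    · exact add_lt_add_right hij _
  · intro i
    have h : ∃ i' : Fin n, ((i : ℕ) : Λ) = (i' : ℕ) := ⟨i, rfl⟩
    simp only [dif_pos h]
    congr 1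
    exact Fin.ext (Nat.cast_injective h.choose_spec).symm

/-- Invariance under maps that are strictly monotone on the labels present. -/
lemma Inv.map_iff {R : Obj → Prop} (h : Inv R) {z : Obj} {f : Λ → Λ}
    (hf : StrictMonoOn f {i | i ∈ labs z}) : R (Ob.map f z) ↔ R z := by
  let S := (labs z).toFinset
  let σ := S.orderEmbOfFin rfl
  have hσ : ∀ i, σ i ∈ labs z := fun i => List.mem_toFinset.1 (S.orderEmbOfFin_mem rfl i)
  obtain ⟨g, hg, hg'⟩ := exists_ext σ σ.strictMono
  obtain ⟨g', hg2, hg2'⟩ := exists_ext (fun i => f (σ i))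
    fun i j hij => hf (hσ i) (hσ j) (σ.strictMono hij)
  have hex : ∀ s ∈ labs z, ∃ i, σ i = s := fun s hs => by
    have : s ∈ Set.range σ := by
      rw [Finset.range_orderEmbOfFin]; exact List.mem_toFinset.2 hs
    exact this
  let ι : Λ → Λ := fun s => if h : ∃ i, σ i = s then (h.choose : ℕ) else 0
  have h1 : z = act g (Ob.map ι z) := by
    simp only [act_obj, map_map]
    refine (map_eq_self fun s hs => ?_).symm
    simp only [Function.comp, ι, dif_pos (hex s hs), hg', (hex s hs).choose_spec]
  have h2 : Ob.map f z = act g' (Ob.map ι z) := by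
    simp only [act_obj, map_map]
    refine map_congr fun s hs => ?_
    simp only [Function.comp, ι, dif_pos (hex s hs), hg2', (hex s hs).choose_spec]
  rw [h2, h.iff' hg2]
  conv_rhs => rw [h1]
  rw [h.iff' hg]

lemma Inv.map_iff₂ {R : Obj → Obj → Prop} (h : Inv fun p : Obj × Obj => R p.1 p.2) {x y : Obj}
    {f : Λ → Λ} (hf : StrictMonoOn f {i | i ∈ labs x ∨ i ∈ labs y}) :
    R (Ob.map f x) (Ob.map f y) ↔ R x y := by
  have h' : Inv fun z : Obj => R z.fst z.snd :=
    Inv.comp (g := fun z : Obj => (z.fst, z.snd)) h (by fun_prop)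
  simpa using h'.map_iff (z := .node x y) (f := f) (by simpa using hf)

/-- Two labellings with the same order pattern give the same invariant relations. -/
lemma Inv.pat_iff {A : Type*} {R : Obj → Obj → Prop} (h : Inv fun p : Obj × Obj => R p.1 p.2)
    {x y : Ob A} {e e' : A → Λ}
    (hp : ∀ a ∈ labs (Ob.node x y), ∀ b ∈ labs (Ob.node x y), e a < e b ↔ e' a < e' b) :
    R (Ob.map e x) (Ob.map e y) ↔ R (Ob.map e' x) (Ob.map e' y) := by
  let f : Λ → Λ := fun s => if h : ∃ a ∈ labs (Ob.node x y), e a = s then e' h.choose else 0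
  have hf : ∀ a ∈ labs (Ob.node x y), f (e a) = e' a := fun a ha => by
    have h : ∃ a' ∈ labs (Ob.node x y), e a' = e a := ⟨a, ha, rfl⟩
    simp only [f, dif_pos h]
    have h1 := hp _ h.choose_spec.1 a ha
    have h2 := hp _ ha _ h.choose_spec.1
    rw [h.choose_spec.2] at h1 h2
    simp only [lt_irrefl, false_iff, not_lt] at h1 h2
    exact le_antisymm h2 h1
  have h1 : Ob.map e' x = Ob.map f (Ob.map e x) := by
    rw [map_map]; exact map_congr fun a ha => (hf a (by simp [ha])).symm
  have h2 : Ob.map e' y = Ob.map f (Ob.map e y) := by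
    rw [map_map]; exact map_congr fun a ha => (hf a (by simp [ha])).symm
  rw [h1, h2, h.map_iff₂]
  have key : ∀ i, (i ∈ labs (Ob.map e x) ∨ i ∈ labs (Ob.map e y)) →
      ∃ a ∈ labs (Ob.node x y), e a = i := by
    intro i hi
    simp only [labs_map, List.mem_map] at hi
    rcases hi with ⟨a, ha, rfl⟩ | ⟨a, ha, rfl⟩ <;> exact ⟨a, by simp [ha], rfl⟩
  intro i hi j hj hij
  obtain ⟨a, ha, rfl⟩ := key i hi
  obtain ⟨b, hb, rfl⟩ := key j hj
  rw [hf a ha, hf b hb]
  exact (hp a ha b hb).1 hij

/-- The shape of an object. -/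
noncomputable def sh (x : Obj) : ℕ :=
  (Countable.exists_injective_nat (Ob Unit)).choose (Ob.map (fun _ => ()) x)

/-- A well-order of the objects, first by the largest label. -/
def wo (x y : Obj) : Prop :=
  mx x < mx y ∨ (mx x = mx y ∧ (sh x < sh y ∨ (sh x = sh y ∧
    List.Shortlex (· < ·) (labs x) (labs y))))

lemma wo_wf : WellFounded wo := by
  have : WellFounded (Prod.Lex (· < · : WithBot Λ → _) (Prod.Lex (· < · : ℕ → _)
      (List.Shortlex (· < · : Λ → Λ → Prop)))) :=
    WellFounded.prod_lex wellFounded_lt (WellFounded.prod_lex wellFounded_lt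
      (List.Shortlex.wf wellFounded_lt))
  refine Subrelation.wf ?_ (InvImage.wf (fun x : Obj => (mx x, sh x, labs x)) this)
  intro x y h
  simpa only [InvImage, Prod.lex_def, wo] using h

lemma wo_tri (x y : Obj) : wo x y ∨ x = y ∨ wo y x := by
  unfold wo
  rcases lt_trichotomy (mx x) (mx y) with h | h | h
  · simp [h]
  · rcases lt_trichotomy (sh x) (sh y) with h' | h' | h'
    · simp [h, h']
    · rcases trichotomous_of (List.Shortlex (· < · : Λ → Λ → Prop)) (labs x) (labs y)
        with h'' | h'' | h''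
      · simp [h, h', h'']
      · exact .inr (.inl (eq_of_shape ((Countable.exists_injective_nat _).choose_spec h') h''))
      · simp [h, h', h'']
    · simp [h, h']
  · simp [h]

lemma wo_mx {x y : Obj} (h : wo x y) : mx x ≤ mx y := by
  rcases h with h | h
  exacts [h.le, h.1.le]

lemma lex_map_iff {e : Λ → Λ} (he : StrictMono e) (l m : List Λ) :
    List.Lex (· < ·) (l.map e) (m.map e) ↔ List.Lex (· < ·) l m := by
  induction l generalizing m with
  | nil => cases m <;> simp
  | cons a l ih =>
    cases m with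
    | nil => simp
    | cons b m => simp [List.cons_lex_cons_iff, he.lt_iff_lt, he.injective.eq_iff, ih]

@[fun_prop] lemma Inv.wo {α : Type*} [Act α] {f g : α → Obj} (hf : Inv f) (hg : Inv g) :
    Inv fun x => wo (f x) (g x) := fun e he a => by
  have hs : ∀ x, sh (Ob.map e x) = sh x := fun x => by simp [sh, Function.comp_def]
  simp [hf e he a, hg e he a, MP_2c8569_lc.wo, hs, mx_map he.monotone, he.withBot_map.lt_iff_lt,
    he.withBot_map.injective.eq_iff, List.shortlex_def, lex_map_iff he]

end Pool.Agent.Lib.MP_2c8569_lc
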