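import Pool.Agent.Lib.MP_2c8569_lc.Defs

set_option autoImplicit false

namespace Pool.Agent.Lib.MP_2c8569_lc

/-- Open subsets of Baire space. -/
def Opn (P : (ℕ → ℕ) → Prop) : Prop := ∀ F, P F → ∃ N, ∀ F', (∀ i < N, F' i = F i) → P F'

/-- Sets that depend on finitely many coordinates. -/
def Clo (P : (ℕ → ℕ) → Prop) : Prop := ∃ N, ∀ F F', (∀ i < N, F' i = F i) → P F → P F'

variable {P Q : (ℕ → ℕ) → Prop}

lemma Clo.opn (h : Clo P) : Opn P := let ⟨N, h⟩ := h; fun F hF => ⟨N, fun F' h' => h F F' h' hF⟩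

lemma Clo.const (p : Prop) : Clo fun _ => p := ⟨0, fun _ _ _ h => h⟩

lemma Clo.atom (i : ℕ) (R : ℕ → Prop) : Clo fun F => R (F i) :=
  ⟨i + 1, fun _ _ h h' => by
    show R _
    rw [h i (Nat.lt_succ_self i)]; exact h'⟩

lemma Clo.eq (i m : ℕ) : Clo fun F => F i = m := Clo.atom i fun a => a = m

lemma Clo.le (i m : ℕ) : Clo fun F => m ≤ F i := Clo.atom i fun a => m ≤ a

lemma Clo.of_list (l : List ℕ) (h : ∀ F F', (∀ i ∈ l, F' i = F i) → P F → P F') : Clo P := by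
  obtain ⟨N, hN⟩ := (List.finite_toSet l).bddAbove
  exact ⟨N + 1, fun F F' h' => h F F' fun i hi => h' i (Nat.lt_succ_of_le (hN hi))⟩

lemma Clo.of_finite {S : Set ℕ} (hS : S.Finite)
    (h : ∀ F F', (∀ i ∈ S, F' i = F i) → P F → P F') : Clo P := by
  obtain ⟨N, hN⟩ := hS.bddAbove
  exact ⟨N + 1, fun F F' h' => h F F' fun i hi => h' i (Nat.lt_succ_of_le (hN hi))⟩

lemma Clo.not (h : Clo P) : Clo fun F => ¬ P F :=
  let ⟨N, h⟩ := h; ⟨N, fun F F' h' h1 h2 => h1 (h F' F (fun i hi => (h' i hi).symm) h2)⟩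

lemma Clo.and (h : Clo P) (h' : Clo Q) : Clo fun F => P F ∧ Q F :=
  let ⟨N, h⟩ := h; let ⟨M, h'⟩ := h'
  ⟨max N M, fun F F' h1 h2 => ⟨h F F' (fun i hi => h1 i (by omega)) h2.1,
    h' F F' (fun i hi => h1 i (by omega)) h2.2⟩⟩

lemma Clo.of_iff (h : Clo P) (h' : ∀ F, P F ↔ Q F) : Clo Q :=
  (funext fun F => propext (h' F) : P = Q) ▸ h

lemma Clo.or (h : Clo P) (h' : Clo Q) : Clo fun F => P F ∨ Q F :=
  (h.not.and h'.not).not.of_iff (by tauto)

lemma Clo.imp (h : Clo P) (h' : Clo Q) : Clo fun F => P F → Q F :=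
  (h.and h'.not).not.of_iff (by tauto)

lemma Clo.iff (h : Clo P) (h' : Clo Q) : Clo fun F => (P F ↔ Q F) :=
  ((h.imp h').and (h'.imp h)).of_iff (by tauto)

lemma Clo.ball {R : ℕ → (ℕ → ℕ) → Prop} {N : ℕ} (h : ∀ n, Clo (R n)) :
    Clo fun F => ∀ n, n < N → R n F := by
  induction N with
  | zero => simpa using Clo.const True
  | succ N ih => exact (ih.and (h N)).of_iff fun F => Nat.forall_lt_succ_right.symm

lemma Clo.bex {R : ℕ → (ℕ → ℕ) → Prop} {N : ℕ} (h : ∀ n, Clo (R n)) :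
    Clo fun F => ∃ n, n < N ∧ R n F :=
  (Clo.ball (N := N) fun n => (h n).not).not.of_iff (by simp)

lemma Opn.and (h : Opn P) (h' : Opn Q) : Opn fun F => P F ∧ Q F := fun F hF =>
  let ⟨N, h⟩ := h F hF.1; let ⟨M, h'⟩ := h' F hF.2
  ⟨max N M, fun F' h1 => ⟨h F' fun i hi => h1 i (by omega), h' F' fun i hi => h1 i (by omega)⟩⟩

lemma Opn.or (h : Opn P) (h' : Opn Q) : Opn fun F => P F ∨ Q F := fun F hF =>
  hF.elim (fun hF => (h F hF).imp fun _ h F' h1 => .inl (h F' h1))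
    fun hF => (h' F hF).imp fun _ h F' h1 => .inr (h F' h1)

lemma Opn.ex {ι : Type*} {R : ι → (ℕ → ℕ) → Prop} (h : ∀ i, Opn (R i)) :
    Opn fun F => ∃ i, R i F := fun F ⟨i, hF⟩ => (h i F hF).imp fun _ h F' h1 => ⟨i, h F' h1⟩

lemma Opn.imp (h : Clo P) (h' : Opn Q) : Opn fun F => P F → Q F := by
  simpa only [imp_iff_not_or] using h.not.opn.or h'

lemma Opn.of_iff (h : Opn P) (h' : ∀ F, P F ↔ Q F) : Opn Q :=
  (funext fun F => propext (h' F) : P = Q) ▸ h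

lemma Opn.ball {R : ℕ → (ℕ → ℕ) → Prop} {N : ℕ} (h : ∀ n, Opn (R n)) :
    Opn fun F => ∀ n, n < N → R n F := by
  induction N with
  | zero => simpa using (Clo.const True).opn
  | succ N ih => exact (ih.and (h N)).of_iff fun F => Nat.forall_lt_succ_right.symm

/-- Continuous functionals. -/
def Cts (Φ : (ℕ → ℕ) → ℕ) : Prop := ∀ m, Opn fun F => Φ F = m

lemma Cts.const (m : ℕ) : Cts fun _ => m := fun _ => (Clo.const _).opn

lemma Cts.proj (i : ℕ) : Cts fun F => F i := fun m => (Clo.eq i m).opn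

lemma Opn.bind {Φ : (ℕ → ℕ) → ℕ} {R : ℕ → (ℕ → ℕ) → Prop} (h : Cts Φ) (h' : ∀ a, Opn (R a)) :
    Opn fun F => R (Φ F) F :=
  (Opn.ex fun a => (h a).and (h' a)).of_iff (by simp)

lemma Cts.bind {Φ : (ℕ → ℕ) → ℕ} {Ψ : ℕ → (ℕ → ℕ) → ℕ} (h : Cts Φ) (h' : ∀ a, Cts (Ψ a)) :
    Cts fun F => Ψ (Φ F) F := fun m => Opn.bind (R := fun a F => Ψ a F = m) h fun a => h' a m

/-- Putting a function in front of a sequence of functions. -/
def cns (f F : ℕ → ℕ) (c : ℕ) : ℕ :=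
  if c.unpair.1 = 0 then f c.unpair.2 else F (Nat.pair (c.unpair.1 - 1) c.unpair.2)

@[simp] lemma cns_zero (f F : ℕ → ℕ) (n : ℕ) : cns f F (Nat.pair 0 n) = f n := by simp [cns]
@[simp] lemma cns_succ (f F : ℕ → ℕ) (i n : ℕ) :
    cns f F (Nat.pair (i + 1) n) = F (Nat.pair i n) := by simp [cns]
@[simp] lemma cns_one (f F : ℕ → ℕ) (n : ℕ) : cns f F (Nat.pair 1 n) = F (Nat.pair 0 n) :=
  cns_succ f F 0 n
@[simp] lemma cns_two (f F : ℕ → ℕ) (n : ℕ) : cns f F (Nat.pair 2 n) = F (Nat.pair 1 n) :=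
  cns_succ f F 1 n
@[simp] lemma cns_three (f F : ℕ → ℕ) (n : ℕ) : cns f F (Nat.pair 3 n) = F (Nat.pair 2 n) :=
  cns_succ f F 2 n
@[simp] lemma cns_four (f F : ℕ → ℕ) (n : ℕ) : cns f F (Nat.pair 4 n) = F (Nat.pair 3 n) :=
  cns_succ f F 3 n

open Classical in
/-- The characteristic function. -/
noncomputable def ind (S : Set ℕ) (n : ℕ) : ℕ := if n ∈ S then 1 else 0

@[simp] lemma ind_eq_one {S : Set ℕ} {n : ℕ} : ind S n = 1 ↔ n ∈ S := by simp [ind]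

/-- The graph of a function. -/
def gr (f : ℕ → ℕ) : Set ℕ := {c | f c.unpair.1 = c.unpair.2}

@[simp] lemma pair_mem_gr {f : ℕ → ℕ} {n m : ℕ} : Nat.pair n m ∈ gr f ↔ f n = m := by simp [gr]

@[simp] lemma length_pre {α : Type} (x : ℕ → α) (n : ℕ) : (pre x n).length = n := by simp [pre]

lemma pre_eq_pre {α : Type} {x y : ℕ → α} {n : ℕ} : pre x n = pre y n ↔ ∀ i < n, x i = y i := by
  simp [pre, List.map_inj_left]

lemma getD_pre {α : Type} (x : ℕ → α) {n i : ℕ} (h : i < n) (d : α) : (pre x n).getD i d = x i := by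
  simp [pre, List.getD_eq_getElem?_getD, h]

end Pool.Agent.Lib.MP_2c8569_lc
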