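import Pool.Agent.Lib.MP_2c8569_lc.Hull
import Pool.Agent.Lib.MP_2c8569_lc.Opn

set_option autoImplicit false

namespace Pool.Agent.Lib.MP_2c8569_lc

open Classical Ob Filter

namespace Ctx

variable (C : Ctx)

/-- The reals of the intermediate model of length `η`. -/
def RR (η : Λ) (S : Set ℕ) : Prop :=
  ∃ x, mx x < C.δ ∧ ∀ n, n ∈ S ↔ ∃ r ∈ C.G η, Hit C.T x n r

def RF (η : Λ) (f : ℕ → ℕ) : Prop := C.RR η (gr f)

def Rl {α : Type*} [Enc α] (P : Orc → (ℕ × Cond) × α → Prop) : Prop :=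
  ∀ η ≤ C.k, ∀ a, mx (enc a) < C.δ → C.RR η {n | ∃ r ∈ C.G η, P C.T ((n, r), a)}

variable {C} {η : Λ}

lemma RR.of_iff {S S' : Set ℕ} (h : C.RR η S) (h' : ∀ n, n ∈ S ↔ n ∈ S') : C.RR η S' :=
  (Set.ext h' : S = S') ▸ h

lemma exists_forall_hit (hη : η ≤ C.k) {x : Obj} {c : ℕ → ℕ} {N : ℕ}
    (h : ∀ i < N, ∃ r ∈ C.G η, Hit C.T x (c i) r) : ∃ r ∈ C.G η, ∀ i < N, Hit C.T x (c i) r := by
  induction N with
  | zero => exact ⟨emp, emp_mem hη, by simp⟩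
  | succ N ih =>
    obtain ⟨r, hr, h1⟩ := ih fun i hi => h i (by omega)
    obtain ⟨r', hr', h2⟩ := h N (by omega)
    obtain ⟨q, hq, -, h3, h4⟩ := (C.gen η hη).dir hr hr'
    exact ⟨q, hq, Nat.forall_lt_succ_right.2 ⟨fun i hi => (h1 i hi).mono h3, h2.mono h4⟩⟩

/-- Closure properties of the reals of the intermediate models. -/
structure Cl (C : Ctx) : Prop where
  kr : ∀ {η}, η ≤ C.k → ∀ {S}, C.KR S → C.RR η S
  par : ∀ {η}, η ≤ C.k → ∀ j, C.RR η {n | Nat.pair j n ∈ C.b}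
  const : ∀ {η}, η ≤ C.k → ∀ m, C.RF η fun _ => m
  ind : ∀ {η}, η ≤ C.k → ∀ {S}, C.RR η S → C.RF η (ind S)
  cns : ∀ {η}, η ≤ C.k → ∀ {f F}, C.RF η f → C.RF η F → C.RF η (cns f F)
  set : ∀ {η}, η ≤ C.k → ∀ {S}, setZ S ∈ C.W η C.δ ↔ C.RR η S
  fn : ∀ {η}, η ≤ C.k → ∀ {f}, funZ f ∈ C.W η C.δ ↔ C.RF η f

def Op (C : Ctx) {α : Type*} [Encodable α] (P : α → (ℕ → ℕ) → Prop) : Prop :=
  ∀ {η}, η ≤ C.k → ∀ {F}, C.RF η F → C.RR η (Encodable.encode '' {a | P a F})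

end Ctx

open Ctx

lemma ev_rl {α : Type*} [Enc α] {P : Orc → (ℕ × Cond) × α → Prop} (h : Dfn P) :
    ∀ᶠ C in 𝓕, C.Rl P := by
  filter_upwards [ev_prog h] with C ⟨d, hd⟩ η hη a ha
  obtain ⟨l, hl, hk, hal⟩ := C.exists_lt_δ ha
  refine ⟨prog d l a, by simp [hl, ha], fun n => ⟨fun ⟨r, hr, h⟩ => ⟨r, hr, r, ?_, Sub.rfl, ?_⟩,
    fun ⟨r, hr, r₀, _, h1, h2⟩ => ⟨r₀, (C.gen η hη).lower hr h1, ((hd _ l a _ hal).1 h2).2⟩⟩⟩
  · simp [((mx_lt_of_mem hη hr).trans (WithBot.coe_lt_coe.2 hk)).le]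
  · exact (hd _ l a _ hal).2 ⟨by simp [(mx_lt_of_mem hη hr).trans (WithBot.coe_lt_coe.2 hk)], h⟩

lemma ev_hit : ∀ᶠ C in 𝓕, C.Dec fun O (a : Cond × Obj × ℕ) => Hit O a.2.1 a.2.2 a.1 :=
  ev_dec (Dfn.Hit (by fun_prop) (by fun_prop) (by fun_prop))

lemma ev_cl : ∀ᶠ C in 𝓕, C.Cl := by
  have d1 : Dfn fun O (a : (ℕ × Cond) × Obj) => O (plug a.2 (nat a.1.1)) := Dfn.orc (by fun_prop)
  have d2 : Dfn fun O (a : (ℕ × Cond) × ℕ) => O (par (Nat.pair a.2 a.1.1)) :=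
    Dfn.orc (by fun_prop)
  have d3 : Dfn fun O (a : (ℕ × Cond) × Λ × Λ × Obj) =>
      (a.1.1.unpair.2 = 1 ∧ Hit O a.2.2.2 a.1.1.unpair.1 a.1.2) ∨ (a.1.1.unpair.2 = 0 ∧
        ∀ q : Cond, mx (enc q) < a.2.1 → O (pV a.2.1 a.2.2.1 q) → Sub a.1.2 q →
          ¬ Hit O a.2.2.2 a.1.1.unpair.1 q) := by
    unfold Hit
    repeat' first
      | (refine Dfn.inv ?_; fun_prop) | (refine Dfn.orc ?_; fun_prop) | assumption
      | refine Dfn.and ?_ ?_ | refine Dfn.or ?_ ?_ | refine Dfn.iff ?_ ?_ | refine Dfn.not ?_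
      | refine Dfn.allO (by fun_prop) ?_ | refine Dfn.exO (by fun_prop) ?_
      | refine Dfn.allO' (by fun_prop) ?_ | refine Dfn.exO' (by fun_prop) ?_
      | refine Dfn.allE (by fun_prop) ?_ | refine Dfn.exE (by fun_prop) ?_
      | refine Dfn.allE' (by fun_prop) ?_ | refine Dfn.exE' (by fun_prop) ?_
      | refine Dfn.allL (by fun_prop) ?_ | refine Dfn.exL (by fun_prop) ?_
      | refine Dfn.allL' (by fun_prop) ?_ | refine Dfn.exL' (by fun_prop) ?_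
      | refine Dfn.allM (by fun_prop) ?_ | refine Dfn.exM (by fun_prop) ?_
      | refine Dfn.imp ?_ ?_ | refine Dfn.allP ?_ | refine Dfn.exP ?_
  have d4 : Dfn fun O (a : (ℕ × Cond) × Obj × Obj) =>
      (a.1.1.unpair.1.unpair.1 = 0 ∧
        Hit O a.2.1 (Nat.pair a.1.1.unpair.1.unpair.2 a.1.1.unpair.2) a.1.2) ∨
      (a.1.1.unpair.1.unpair.1 ≠ 0 ∧ Hit O a.2.2 (Nat.pair (Nat.pair (a.1.1.unpair.1.unpair.1 - 1)
        a.1.1.unpair.1.unpair.2) a.1.1.unpair.2) a.1.2) := by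
    unfold Hit
    repeat' first
      | (refine Dfn.inv ?_; fun_prop) | (refine Dfn.orc ?_; fun_prop) | assumption
      | refine Dfn.and ?_ ?_ | refine Dfn.or ?_ ?_ | refine Dfn.iff ?_ ?_ | refine Dfn.not ?_
      | refine Dfn.allO (by fun_prop) ?_ | refine Dfn.exO (by fun_prop) ?_
      | refine Dfn.allO' (by fun_prop) ?_ | refine Dfn.exO' (by fun_prop) ?_
      | refine Dfn.allE (by fun_prop) ?_ | refine Dfn.exE (by fun_prop) ?_
      | refine Dfn.allE' (by fun_prop) ?_ | refine Dfn.exE' (by fun_prop) ?_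
      | refine Dfn.allL (by fun_prop) ?_ | refine Dfn.exL (by fun_prop) ?_
      | refine Dfn.allL' (by fun_prop) ?_ | refine Dfn.exL' (by fun_prop) ?_
      | refine Dfn.allM (by fun_prop) ?_ | refine Dfn.exM (by fun_prop) ?_
      | refine Dfn.imp ?_ ?_ | refine Dfn.allP ?_ | refine Dfn.exP ?_
  have d5 : Dfn fun O (a : (Obj × Cond) × Obj) => ∃ n, ∃ j : Λ, (j : WithBot Λ) ≤ mx a.1.1 ∧
      O (pN j n) ∧ a.1.1 = on j ∧ Hit O a.2 n a.1.2 := by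
    unfold Hit
    repeat' first
      | (refine Dfn.inv ?_; fun_prop) | (refine Dfn.orc ?_; fun_prop) | assumption
      | refine Dfn.and ?_ ?_ | refine Dfn.or ?_ ?_ | refine Dfn.iff ?_ ?_ | refine Dfn.not ?_
      | refine Dfn.allO (by fun_prop) ?_ | refine Dfn.exO (by fun_prop) ?_
      | refine Dfn.allO' (by fun_prop) ?_ | refine Dfn.exO' (by fun_prop) ?_
      | refine Dfn.allE (by fun_prop) ?_ | refine Dfn.exE (by fun_prop) ?_
      | refine Dfn.allE' (by fun_prop) ?_ | refine Dfn.exE' (by fun_prop) ?_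
      | refine Dfn.allL (by fun_prop) ?_ | refine Dfn.exL (by fun_prop) ?_
      | refine Dfn.allL' (by fun_prop) ?_ | refine Dfn.exL' (by fun_prop) ?_
      | refine Dfn.allM (by fun_prop) ?_ | refine Dfn.exM (by fun_prop) ?_
      | refine Dfn.imp ?_ ?_ | refine Dfn.allP ?_ | refine Dfn.exP ?_
  have d6 : Dfn fun O (a : (ℕ × Cond) × Λ × Λ × Λ × Obj) => ∃ j, j < a.2.2.2.1 ∧
      O (pN j a.1.1) ∧ Mem O a.2.1 a.2.2.1 a.1.2 (on j) a.2.2.2.2 := by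
    unfold Mem child
    repeat' first
      | (refine Dfn.inv ?_; fun_prop) | (refine Dfn.orc ?_; fun_prop) | assumption
      | refine Dfn.and ?_ ?_ | refine Dfn.or ?_ ?_ | refine Dfn.iff ?_ ?_ | refine Dfn.not ?_
      | refine Dfn.allO (by fun_prop) ?_ | refine Dfn.exO (by fun_prop) ?_
      | refine Dfn.allO' (by fun_prop) ?_ | refine Dfn.exO' (by fun_prop) ?_
      | refine Dfn.allE (by fun_prop) ?_ | refine Dfn.exE (by fun_prop) ?_
      | refine Dfn.allE' (by fun_prop) ?_ | refine Dfn.exE' (by fun_prop) ?_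
      | refine Dfn.allL (by fun_prop) ?_ | refine Dfn.exL (by fun_prop) ?_
      | refine Dfn.allL' (by fun_prop) ?_ | refine Dfn.exL' (by fun_prop) ?_
      | refine Dfn.allM (by fun_prop) ?_ | refine Dfn.exM (by fun_prop) ?_
      | refine Dfn.imp ?_ ?_ | refine Dfn.allP ?_ | refine Dfn.exP ?_
  have d7 : Dfn fun O (a : (Obj × Cond) × Obj × ℕ × Λ × Λ × Λ × Λ) => ∃ n m, ∃ i, i < a.2.2.2.1 ∧
      ∃ j, j < a.2.2.2.1 ∧ O (pN i n) ∧ O (pN j m) ∧ a.1.1 = opn a.2.2.1 a.2.2.2 (on i) (on j) ∧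
      Hit O a.2.1 (Nat.pair n m) a.1.2 := by
    unfold Hit
    repeat' first
      | (refine Dfn.inv ?_; fun_prop) | (refine Dfn.orc ?_; fun_prop) | assumption
      | refine Dfn.and ?_ ?_ | refine Dfn.or ?_ ?_ | refine Dfn.iff ?_ ?_ | refine Dfn.not ?_
      | refine Dfn.allO (by fun_prop) ?_ | refine Dfn.exO (by fun_prop) ?_
      | refine Dfn.allO' (by fun_prop) ?_ | refine Dfn.exO' (by fun_prop) ?_
      | refine Dfn.allE (by fun_prop) ?_ | refine Dfn.exE (by fun_prop) ?_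
      | refine Dfn.allE' (by fun_prop) ?_ | refine Dfn.exE' (by fun_prop) ?_
      | refine Dfn.allL (by fun_prop) ?_ | refine Dfn.exL (by fun_prop) ?_
      | refine Dfn.allL' (by fun_prop) ?_ | refine Dfn.exL' (by fun_prop) ?_
      | refine Dfn.allM (by fun_prop) ?_ | refine Dfn.exM (by fun_prop) ?_
      | refine Dfn.imp ?_ ?_ | refine Dfn.allP ?_ | refine Dfn.exP ?_
  have d8 : Dfn fun O (a : (ℕ × Cond) × Λ × Λ × Obj × ℕ × Λ × Λ × Λ × Λ) =>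
      ∃ i, i < a.2.2.2.2.2.1 ∧ ∃ j, j < a.2.2.2.2.2.1 ∧ O (pN i a.1.1.unpair.1) ∧
      O (pN j a.1.1.unpair.2) ∧
      Mem O a.2.1 a.2.2.1 a.1.2 (opn a.2.2.2.2.1 a.2.2.2.2.2 (on i) (on j)) a.2.2.2.1 := by
    unfold Mem child
    repeat' first
      | (refine Dfn.inv ?_; fun_prop) | (refine Dfn.orc ?_; fun_prop) | assumption
      | refine Dfn.and ?_ ?_ | refine Dfn.or ?_ ?_ | refine Dfn.iff ?_ ?_ | refine Dfn.not ?_
      | refine Dfn.allO (by fun_prop) ?_ | refine Dfn.exO (by fun_prop) ?_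
      | refine Dfn.allO' (by fun_prop) ?_ | refine Dfn.exO' (by fun_prop) ?_
      | refine Dfn.allE (by fun_prop) ?_ | refine Dfn.exE (by fun_prop) ?_
      | refine Dfn.allE' (by fun_prop) ?_ | refine Dfn.exE' (by fun_prop) ?_
      | refine Dfn.allL (by fun_prop) ?_ | refine Dfn.exL (by fun_prop) ?_
      | refine Dfn.allL' (by fun_prop) ?_ | refine Dfn.exL' (by fun_prop) ?_
      | refine Dfn.allM (by fun_prop) ?_ | refine Dfn.exM (by fun_prop) ?_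
      | refine Dfn.imp ?_ ?_ | refine Dfn.allP ?_ | refine Dfn.exP ?_
  have d9 : Dfn fun _ (a : (ℕ × Cond) × ℕ) => a.2 = a.1.1.unpair.2 := Dfn.inv (by fun_prop)
  filter_upwards [ev_rl d1, ev_rl d2, ev_rl d3, ev_rl d4, ev_nm d5, ev_rl d6, ev_nm d7, ev_rl d8,
    ev_rl d9, ev_hit, ev_tr, ev_pr] with C h1 h2 h3 h4 h5 h6 h7 h8 h0 hH hT ⟨dp, hp⟩
  have hδ := WithBot.coe_lt_coe.2 C.δD
  have hω := C.good.om
  have hn : ∀ n : ℕ, mx (on n) < Ordinal.omega0 := fun n => by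
    simp
  have hn' : ∀ n : ℕ, mx (on n) < C.D := fun n => (hn n).trans (WithBot.coe_lt_coe.2 (hω.trans C.δD))
  have hω3 := C.succ_lt (C.succ_lt (C.succ_lt hω))
  have hLv : mx (enc (Lv Ordinal.omega0)) < C.δ := by rw [mx_Lv]; exact WithBot.coe_lt_coe.2 hω3
  have hop : ∀ n m : ℕ, mx (opn dp (Lv Ordinal.omega0) (on n) (on m)) =
      mx (enc (Lv Ordinal.omega0)) := fun n m => by rw [mx_Lv, mx_opn (hn n) (hn m)]
  have hop' : ∀ η ≤ C.k, ∀ n m : ℕ, C.val η (opn dp (Lv Ordinal.omega0) (on n) (on m)) =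
      ZFSet.pair (natZ n) (natZ m) := fun η hη n m => by
    rw [hp η hη _ (hω3.trans C.δD) _ _ (hn n) (hn m), val_on_nat hη, val_on_nat hη]
  refine ⟨fun {η} hη S ⟨x, hx, h⟩ => (h1 η hη x hx).of_iff fun n => ?_,
    fun {η} hη j => (h2 η hη j (by simp)).of_iff fun n => ?_,
    fun {η} hη j => (h0 η hη j (by simp)).of_iff fun n =>
      ⟨fun ⟨_, _, h'⟩ => h', fun h' => ⟨emp, emp_mem hη, h'⟩⟩, fun {η} hη S ⟨x, hx, h⟩ => ?_,
    fun {η} hη f F ⟨x, hx, h⟩ ⟨y, hy, h'⟩ => ?_, fun {η} hη S => ⟨?_, fun ⟨x, hx, h⟩ => ?_⟩,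
    fun {η} hη f => ⟨?_, fun ⟨x, hx, h⟩ => ?_⟩⟩
  · exact ⟨fun ⟨_, _, h'⟩ => (h n).2 h', fun h' => ⟨emp, emp_mem hη, (h n).1 h'⟩⟩
  · exact ⟨fun ⟨_, _, h'⟩ => (T_par (Nat.pair j n)).1 h',
      fun h' => ⟨emp, emp_mem hη, (T_par (Nat.pair j n)).2 h'⟩⟩
  · refine (h3 η hη (C.k, η, x) (by simp [hx, C.kδ, hη.trans_lt C.kδ])).of_iff fun c => ?_
    constructor
    · rintro ⟨r, hr, ⟨h9, h10⟩ | ⟨h9, h10⟩⟩
      · exact (ind_eq_one.2 ((h _).2 ⟨r, hr, h10⟩)).trans h9.symm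
      · refine (if_neg fun h11 => ?_).trans h9.symm
        obtain ⟨r', hr', h12⟩ := (h _).1 h11
        obtain ⟨q, -, h13, h14, h15⟩ := (C.gen η hη).dir hr hr'
        exact h10 q (V.mx_lt h13) h13 h14 (h12.mono h15)
    · intro hc
      obtain ⟨p, hp, -, h9 | h9⟩ := hH η hη (x, c.unpair.1) (by simp [hx.trans hδ])
      · exact ⟨p, hp, .inl ⟨hc.symm.trans (ind_eq_one.2 ((h _).2 ⟨p, hp, h9⟩)), h9⟩⟩
      · refine ⟨p, hp, .inr ⟨hc.symm.trans (if_neg fun h11 => ?_), fun q _ => h9 q⟩⟩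
        obtain ⟨r', hr', h12⟩ := (h _).1 h11
        obtain ⟨q, -, h13, h14, h15⟩ := (C.gen η hη).dir hp hr'
        exact h9 q h13 h14 (h12.mono h15)
  · refine (h4 η hη (x, y) (by simp [hx, hy])).of_iff fun c => ?_
    by_cases hc : c.unpair.1.unpair.1 = 0
    · simp only [gr, MP_2c8569_lc.cns, hc, Set.mem_ofPred_eq, ne_eq, not_true, false_and, or_false,
        true_and, ← h, if_true, Nat.unpair_pair]
    · simp only [gr, MP_2c8569_lc.cns, hc, Set.mem_ofPred_eq, ne_eq, not_false_eq_true, false_and,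
        false_or, true_and, ← h', if_false, Nat.unpair_pair]
  · rintro ⟨t, ht, h⟩
    refine (h6 η hη (C.k, η, Ordinal.omega0, t) (by simp [ht, C.kδ, hη.trans_lt C.kδ, hω])).of_iff
      fun n => ?_
    rw [← natZ_mem_setZ (S := S), ← h, ← val_on_nat hη, ← hT.mem hη (hn' n) (ht.trans hδ)]
    simp [T_pN C.std]
  · obtain ⟨l, hl, hk, hxl⟩ := C.exists_lt_δ (μ := max (mx x) Ordinal.omega0) (by simp [hx, hω])
    simp only [max_lt_iff] at hxl
    obtain ⟨X, ⟨hX, -⟩, h'⟩ := h5 η hη l hk.le hl x hxl.1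
    convert hX using 1
    ext u
    simp only [h', mem_setZ, h, T_pN C.std]
    constructor
    · rintro ⟨n, ⟨r, hr, h9⟩, rfl⟩
      exact ⟨on n, r, hr, (hn n).trans hxl.2, ⟨n, n, by simp, rfl, rfl, h9⟩, val_on_nat hη n⟩
    · rintro ⟨_, r, hr, -, ⟨n, _, -, rfl, rfl, h9⟩, rfl⟩
      exact ⟨n, ⟨r, hr, h9⟩, (val_on_nat hη n).symm⟩
  · rintro ⟨t, ht, h⟩
    refine (h8 η hη (C.k, η, t, dp, Lv Ordinal.omega0)
      (by simp [ht, C.kδ, hη.trans_lt C.kδ, hLv])).of_iff fun c => ?_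
    rw [gr, Set.mem_ofPred_eq, Set.mem_ofPred_eq, ← pair_mem_funZ, ← h, ← hop' η hη,
      ← hT.mem hη (by rw [hop]; exact hLv.trans hδ) (ht.trans hδ)]
    simp [T_pN C.std, Lv]
  · obtain ⟨l, hl, hk, hxl⟩ := C.exists_lt_δ (max_lt hx hLv)
    simp only [max_lt_iff] at hxl
    obtain ⟨X, ⟨hX, -⟩, h'⟩ := h7 η hη l hk.le hl (x, dp, Lv Ordinal.omega0) (by simp [hxl])
    convert hX using 1
    ext u
    simp only [h', mem_funZ, T_pN C.std]
    constructor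
    · rintro ⟨n, rfl⟩
      obtain ⟨r, hr, h9⟩ := (h (Nat.pair n (f n))).1 (by simp)
      exact ⟨_, r, hr, by rw [hop]; exact hxl.2, ⟨n, f n, n, Ordinal.natCast_lt_omega0 _, f n,
        Ordinal.natCast_lt_omega0 _, rfl, rfl, rfl, h9⟩, hop' η hη _ _⟩
    · rintro ⟨_, r, hr, -, ⟨n, m, _, -, _, -, rfl, rfl, rfl, h9⟩, rfl⟩
      exact ⟨n, by rw [hop' η hη, pair_mem_gr.1 ((h _).2 ⟨r, hr, h9⟩)]⟩

lemma ev_op {α : Type*} [Encodable α] {P : α → (ℕ → ℕ) → Prop} (hP : ∀ a, Opn (P a)) :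
    ∀ᶠ C in 𝓕, C.Op P := by
  have d1 : Dfn fun O (a : (ℕ × Cond) × ℕ × Obj) => ∃ l : List ℕ,
      O (par (Nat.pair a.2.1 (Nat.pair a.1.1 (Encodable.encode l)))) ∧
      ∀ i, i < l.length → Hit O a.2.2 (Nat.pair i (l.getD i 0)) a.1.2 := by
    unfold Hit
    repeat' first
      | (refine Dfn.inv ?_; fun_prop) | (refine Dfn.orc ?_; fun_prop) | assumption
      | refine Dfn.and ?_ ?_ | refine Dfn.or ?_ ?_ | refine Dfn.iff ?_ ?_ | refine Dfn.not ?_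
      | refine Dfn.allO (by fun_prop) ?_ | refine Dfn.exO (by fun_prop) ?_
      | refine Dfn.allO' (by fun_prop) ?_ | refine Dfn.exO' (by fun_prop) ?_
      | refine Dfn.allE (by fun_prop) ?_ | refine Dfn.exE (by fun_prop) ?_
      | refine Dfn.allE' (by fun_prop) ?_ | refine Dfn.exE' (by fun_prop) ?_
      | refine Dfn.allL (by fun_prop) ?_ | refine Dfn.exL (by fun_prop) ?_
      | refine Dfn.allL' (by fun_prop) ?_ | refine Dfn.exL' (by fun_prop) ?_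
      | refine Dfn.allM (by fun_prop) ?_ | refine Dfn.exM (by fun_prop) ?_
      | refine Dfn.imp ?_ ?_ | refine Dfn.allP ?_ | refine Dfn.exP ?_
  filter_upwards [ev_rl d1, ev_par (g := fun _ _ => {c | ∃ (a : α) (l : List ℕ),
    c = Nat.pair (Encodable.encode a) (Encodable.encode l) ∧ ∀ F, pre F l.length = l → P a F})
    fun _ _ _ _ _ => Iff.rfl] with C h1 ⟨j, hj⟩ η hη F ⟨x, hx, h⟩
  refine (h1 η hη (j, x) (by simp [hx])).of_iff fun n => ?_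
  simp only [T_par, hj, Set.mem_ofPred_eq, Set.mem_image]
  constructor
  · rintro ⟨r, hr, l, ⟨a, l', h2, h3⟩, h4⟩
    rw [Nat.pair_eq_pair, Encodable.encode_inj] at h2
    obtain ⟨rfl, rfl⟩ := h2
    refine ⟨a, h3 F (List.ext_getElem (by simp) fun i h5 h6 => ?_), rfl⟩
    have := pair_mem_gr.1 ((h _).2 ⟨r, hr, h4 i h6⟩)
    simpa [pre, h6] using this
  · rintro ⟨a, ha, rfl⟩
    obtain ⟨N, hN⟩ := hP a F ha
    obtain ⟨r, hr, h2⟩ := exists_forall_hit hη (x := x) (c := fun i => Nat.pair i (F i)) (N := N)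
      fun i _ => (h _).1 (by simp)
    refine ⟨r, hr, pre F N, ⟨a, _, rfl, fun F' h3 => hN F' ?_⟩, fun i hi => ?_⟩
    · rwa [length_pre, pre_eq_pre] at h3
    · rw [length_pre] at hi
      rw [getD_pre F hi]
      exact h2 i hi

lemma Ctx.Op.nat {C : Ctx} {P : ℕ → (ℕ → ℕ) → Prop} (h : C.Op P) {η : Λ} (hη : η ≤ C.k)
    {F : ℕ → ℕ} (hF : C.RF η F) : C.RR η {n | P n F} := (h hη hF).of_iff (by simp)

def Ctx.Ct (C : Ctx) (Φ : ℕ → (ℕ → ℕ) → ℕ) : Prop :=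
  ∀ {η}, η ≤ C.k → ∀ {F}, C.RF η F → C.RF η fun n => Φ n F

lemma ev_ct {Φ : ℕ → (ℕ → ℕ) → ℕ} (h : ∀ n, Cts (Φ n)) : ∀ᶠ C in 𝓕, C.Ct Φ := by
  filter_upwards [ev_op (P := fun c : ℕ => fun F => Φ c.unpair.1 F = c.unpair.2) fun c => h _ _]
    with C h η hη F hF using h.nat hη hF

/-- `q'` has the same values as `q` on the support of `q`. -/
def Same (q q' : Cond) : Prop :=
  q.1 ⊆ q'.1 ∧ ∀ c', c' ∈ q'.1 → ((∃ c, c ∈ q.1 ∧ c.1 = c'.1) ∨ ∃ c, c ∈ q.2 ∧ c.1 = c'.1) →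
    c' ∈ q.1

/-- Every real has a name of low level. -/
lemma ev_nice : ∀ᶠ C in 𝓕, ∀ η ≤ C.k, ∀ S, C.RR η S → ∃ x, mx x < C.k ∧ ∃ ξ < C.k, ∀ n,
    (n ∈ S → ∃ r ∈ C.G η, Supp ξ r ∧ mx (enc r) ≤ mx x ∧ C.T (plug x (enc (n, r)))) ∧
    ((∃ r ∈ C.G η, Hit C.T x n r) → n ∈ S) := by
  have d1 : Dfn fun O (a : (ℕ × Cond) × Λ × Obj) =>
      mx (enc a.1.2) < a.2.1 ∧ Hit O a.2.2 a.1.1 a.1.2 := by
    unfold Hit
    repeat' first
      | (refine Dfn.inv ?_; fun_prop) | (refine Dfn.orc ?_; fun_prop) | assumption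
      | refine Dfn.and ?_ ?_ | refine Dfn.or ?_ ?_ | refine Dfn.iff ?_ ?_ | refine Dfn.not ?_
      | refine Dfn.allO (by fun_prop) ?_ | refine Dfn.exO (by fun_prop) ?_
      | refine Dfn.allO' (by fun_prop) ?_ | refine Dfn.exO' (by fun_prop) ?_
      | refine Dfn.allE (by fun_prop) ?_ | refine Dfn.exE (by fun_prop) ?_
      | refine Dfn.allE' (by fun_prop) ?_ | refine Dfn.exE' (by fun_prop) ?_
      | refine Dfn.allL (by fun_prop) ?_ | refine Dfn.exL (by fun_prop) ?_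
      | refine Dfn.allL' (by fun_prop) ?_ | refine Dfn.exL' (by fun_prop) ?_
      | refine Dfn.allM (by fun_prop) ?_ | refine Dfn.exM (by fun_prop) ?_
      | refine Dfn.imp ?_ ?_ | refine Dfn.allP ?_ | refine Dfn.exP ?_
  have d2 : Dfn fun O (a : Obj × Λ × Λ × Obj × ℕ × Cond) => ∃ q' : Cond, mx (enc q') < a.2.1 ∧
      a.1 = enc q' ∧ O (pV a.2.1 a.2.2.1 q') ∧ (Hit O a.2.2.2.1 a.2.2.2.2.1 q' ∨
        ∀ q : Cond, mx (enc q) < a.2.1 → O (pV a.2.1 a.2.2.1 q) → Sub q' q →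
          ¬ Hit O a.2.2.2.1 a.2.2.2.2.1 q) ∧ Same a.2.2.2.2.2 q' := by
    unfold Hit Same
    repeat' first
      | (refine Dfn.inv ?_; fun_prop) | (refine Dfn.orc ?_; fun_prop) | assumption
      | refine Dfn.and ?_ ?_ | refine Dfn.or ?_ ?_ | refine Dfn.iff ?_ ?_ | refine Dfn.not ?_
      | refine Dfn.allO (by fun_prop) ?_ | refine Dfn.exO (by fun_prop) ?_
      | refine Dfn.allO' (by fun_prop) ?_ | refine Dfn.exO' (by fun_prop) ?_
      | refine Dfn.allE (by fun_prop) ?_ | refine Dfn.exE (by fun_prop) ?_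
      | refine Dfn.allE' (by fun_prop) ?_ | refine Dfn.exE' (by fun_prop) ?_
      | refine Dfn.allL (by fun_prop) ?_ | refine Dfn.exL (by fun_prop) ?_
      | refine Dfn.allL' (by fun_prop) ?_ | refine Dfn.exL' (by fun_prop) ?_
      | refine Dfn.allM (by fun_prop) ?_ | refine Dfn.exM (by fun_prop) ?_
      | refine Dfn.imp ?_ ?_ | refine Dfn.allP ?_ | refine Dfn.exP ?_
  have d3 : Dfn fun O (a : Cond × Λ × Λ × Obj × ℕ × Λ) => ∃ q' : Cond, mx (enc q') < a.2.2.2.2.2 ∧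
      Sub q' a.1 ∧ (Hit O a.2.2.2.1 a.2.2.2.2.1 q' ∨
        ∀ q : Cond, mx (enc q) < a.2.1 → O (pV a.2.1 a.2.2.1 q) → Sub q' q →
          ¬ Hit O a.2.2.2.1 a.2.2.2.2.1 q) := by
    unfold Hit
    repeat' first
      | (refine Dfn.inv ?_; fun_prop) | (refine Dfn.orc ?_; fun_prop) | assumption
      | refine Dfn.and ?_ ?_ | refine Dfn.or ?_ ?_ | refine Dfn.iff ?_ ?_ | refine Dfn.not ?_
      | refine Dfn.allO (by fun_prop) ?_ | refine Dfn.exO (by fun_prop) ?_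
      | refine Dfn.allO' (by fun_prop) ?_ | refine Dfn.exO' (by fun_prop) ?_
      | refine Dfn.allE (by fun_prop) ?_ | refine Dfn.exE (by fun_prop) ?_
      | refine Dfn.allE' (by fun_prop) ?_ | refine Dfn.exE' (by fun_prop) ?_
      | refine Dfn.allL (by fun_prop) ?_ | refine Dfn.exL (by fun_prop) ?_
      | refine Dfn.allL' (by fun_prop) ?_ | refine Dfn.exL' (by fun_prop) ?_
      | refine Dfn.allM (by fun_prop) ?_ | refine Dfn.exM (by fun_prop) ?_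
      | refine Dfn.imp ?_ ?_ | refine Dfn.allP ?_ | refine Dfn.exP ?_
  filter_upwards [ev_prog d1, ev_prog d2, ev_dec d3, ev_hull] with C ⟨d1, h1⟩ ⟨d2, h2⟩ h3 h4 η hη S
    ⟨x, hx, h⟩
  obtain ⟨l, hl, hk, hxl⟩ := C.exists_lt_δ hx
  have hk' := WithBot.coe_lt_coe.2 hk
  have hx1 : mx (enc (C.k, x)) < l := by simp [hk, hxl]
  obtain ⟨e, he⟩ := h4 (node (lab η) (prog d1 l (C.k, x)))
    (by simp [hη.trans_lt C.kδ, hl, C.kδ, hx])
  have hlt : ∀ i ∈ Set.range e, col (Set.range e) i < C.k := by rintro _ ⟨n, rfl⟩; exact he.lt n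
  have hcl := he.cl
  have hlow := he.low
  have hkJ := he.k
  have hmem := he.mem
  generalize Set.range e = J at hlt hcl hlow hkJ hmem
  have hs : prog d1 l (C.k, x) ∈ ObIn J := fun i hi => hmem i (by
    simp only [labs_node, List.mem_append]; exact .inr hi)
  have hfix : ∀ i ∈ J, i < C.k → col J i = i := fun i hi hik => col_eq_self (hlow i hi hik)
  have hlt' : ∀ i ∈ J, i < C.k → i < col J C.k := fun i hi hik => hfix i hi hik ▸ col_lt hi hik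
  have hin : ∀ i < col J C.k, i ∈ J := fun i hi => by
    obtain ⟨j, h5, h6, rfl⟩ := exists_col hi
    rwa [hfix j h5 h6]
  have hact : ∀ (n : ℕ) (r : Cond), enc r ∈ ObIn J → mx (enc r) < C.k →
      act (col J) (n, r) = (n, r) := fun n r hr hr' =>
    act_eq_self fun i hi => hfix i (hr i (by simpa using hi)) (mx_lt_iff.1 hr' i (by simpa using hi))
  refine ⟨Ob.map (col J) (prog d1 l (C.k, x)), mx_lt_iff.2 ?_, col J C.k, hlt _ hkJ,
    fun n => ⟨fun hn => ?_, ?_⟩⟩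
  · simp only [labs_map, List.forall_mem_map]
    exact fun i hi => hlt i (hs i hi)
  · obtain ⟨q, hq, -, r, h5, h6, h7⟩ := h3.meet hη (a := (C.k, η, x, n, col J C.k)) (by
      simp [C.kD, hη.trans_lt C.kD, hx.trans (WithBot.coe_lt_coe.2 C.δD), (hlt _ hkJ).trans C.kD])
      (emp_mem hη) (by
        intro q hq _
        have e0 : ∃ q1, C.V η q1 ∧ Sub q q1 ∧ (Hit C.T x n q1 ∨
            ∀ q : Cond, mx (enc q) < C.k → C.V η q → Sub q1 q → ¬ Hit C.T x n q) := by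
          by_cases h : ∃ q1, C.V η q1 ∧ Sub q q1 ∧ Hit C.T x n q1
          · exact h.imp fun q1 h => ⟨h.1, h.2.1, .inl h.2.2⟩
          · exact ⟨q, hq, Sub.rfl, .inr fun q' _ h1 h2 h3 => h ⟨q', h1, h2, h3⟩⟩
        obtain ⟨q1, e1, e2, e3⟩ := e0
        let q0 : Cond := ((res (col J C.k) q1).1, (res (col J C.k) q1).2.map fun c => (c.1, nil, 0))
        have e4 : mx (enc q0) < (col J C.k : Λ) := mx_cond_lt.2
          ⟨fun a ha => (mem_res1.1 ha).2, List.forall_mem_map.2 fun a ha =>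
            ⟨(mem_res2.1 ha).2, by simp⟩⟩
        have e5 : mx (enc (C.k, η, x, n, q0)) < l := by
          simp [hk, hη.trans_lt hk, hxl, (e4.trans (WithBot.coe_lt_coe.2 (hlt _ hkJ))).trans hk']
        obtain ⟨y, f1, -, f2⟩ := hcl (prog d2 l (C.k, η, x, n, q0)) True (by
          intro i hi
          simp only [labs_prog, enc_pair, labs_node, enc_lab, labs_lab, enc_obj, labs_enc_pur,
            List.mem_cons, List.mem_append, List.not_mem_nil, or_false, false_or] at hi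
          rcases hi with rfl | rfl | rfl | hi | hi
          exacts [hmem _ (by simp), hkJ, hmem _ (by simp), hmem _ (by simp [hi]),
            hin i (mx_lt_iff.1 e4 i hi)])
          ⟨enc q1, by simp [(e1.mx_lt.trans hk').le], iff_true_intro ((h2 _ _ _ (enc q1) e5).2
            ⟨e1.mx_lt.trans hk', q1, e1.mx_lt, rfl, e1, e3, (res_sub _ _).1, by
              rintro c' hc' (⟨c, hc, h⟩ | ⟨c, hc, h⟩) <;> simp only [q0, mem_res1, List.mem_map,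
                mem_res2] at hc ⊢
              · exact ⟨hc', h ▸ hc.2⟩
              · obtain ⟨c, hc, rfl⟩ := hc
                exact ⟨hc', h ▸ hc.2⟩⟩)⟩
        obtain ⟨-, q', g1, rfl, g2, g3, g4, g5⟩ := (h2 _ _ _ y e5).1 (f2.2 trivial)
        have g6 : mx (enc q') < (col J C.k : Λ) :=
          mx_lt_iff.2 fun i hi => hlt' i (f1 i hi) (mx_lt_iff.1 g1 i hi)
        have g7 := supp_of_mx g6
        refine ⟨un q1 q', valid_un C.std e1 g2 (fun c hc c' hc' h => .inl (g4 ?_))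
          (fun c hc c' hc' h => .inr ?_) (fun c hc c' hc' h => .inr (g4 ?_)),
          e2.trans (sub_un_left _ _), q', g6, sub_un_right _ _, g3⟩
        · exact mem_res1.2 ⟨hc, h ▸ g7.1 c' hc'⟩
        · exact (mem_res1.1 (g5 c' hc' (.inr ⟨(c.1, nil, 0), List.mem_map.2
            ⟨c, mem_res2.2 ⟨hc, h ▸ g7.1 c' hc'⟩, rfl⟩, h.symm⟩))).1
        · exact mem_res1.2 ⟨hc', h ▸ g7.2 c hc⟩)
    simp only at h5 h6 h7
    have hr := (C.gen η hη).lower hq h6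
    have hr' := mx_lt_of_mem hη hr
    have hrJ : enc r ∈ ObIn J := fun i hi => hin i (mx_lt_iff.1 h5 i hi)
    refine ⟨r, hr, supp_of_mx h5, h5.le.trans ((le_mx_col hs hkJ).2 (by simp)), ?_⟩
    rw [← hact n r hrJ hr', ← map_enc, Ctx.T, T_col_plug hcl hs (by simpa [ObIn] using hrJ)]
    refine (h1 _ _ _ (n, r) hx1).2 ⟨by simp [hr'.trans hk'], hr', h7.resolve_right fun h8 => ?_⟩
    obtain ⟨r', h9, h10⟩ := (h n).1 hn
    obtain ⟨q', -, h11, h12, h13⟩ := (C.gen η hη).dir hr h9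
    exact h8 q' (V.mx_lt h11) h11 h12 (h10.mono h13)
  · rintro ⟨r, hr, r₀, h5, h6, h7⟩
    obtain ⟨y, hy, h8⟩ := exists_pre (y := enc (n, r₀)) hs (by simpa using h5)
    obtain ⟨⟨n', r'⟩, rfl⟩ := Enc.rng _ _ _ h8
    rw [← h8, Ctx.T, T_col_plug hcl hs hy] at h7
    obtain ⟨-, h9, h10⟩ := (h1 _ _ _ (n', r') hx1).1 h7
    rw [map_enc, hact n' r' (by simpa [ObIn] using hy) h9, enc_eq_enc, Prod.mk.injEq] at h8
    obtain ⟨rfl, rfl⟩ := h8
    exact (h _).2 ⟨_, (C.gen η hη).lower hr h6, h10⟩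

lemma ev_stage : ∀ᶠ C in 𝓕, ∀ S, C.RR C.k S → ∃ ξ < C.k, C.RR ξ S := by
  filter_upwards [ev_nice] with C h S hS
  obtain ⟨x, hx, ξ, hξ, h⟩ := h _ le_rfl S hS
  refine ⟨ξ, hξ, x, hx.trans (WithBot.coe_lt_coe.2 C.kδ), fun n => ⟨fun hn => ?_,
    fun ⟨r, hr, h'⟩ => (h n).2 ⟨r, G_mono hξ.le hr, h'⟩⟩⟩
  obtain ⟨r, h1, h2, h3, h4⟩ := (h n).1 hn
  exact ⟨r, (C.mem_G _ _).2 ⟨h1, h2⟩, r, h3, Sub.rfl, h4⟩

lemma ev_low : ∀ᶠ C in 𝓕, ∀ η ≤ C.k, ∀ S, C.RR η S →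
    ∃ x, mx x < C.k ∧ ∀ n, n ∈ S ↔ ∃ r ∈ C.G η, Hit C.T x n r := by
  filter_upwards [ev_nice] with C h η hη S hS
  obtain ⟨x, hx, ξ, -, h⟩ := h η hη S hS
  refine ⟨x, hx, fun n => ⟨fun hn => ?_, (h n).2⟩⟩
  obtain ⟨r, h1, -, h3, h4⟩ := (h n).1 hn
  exact ⟨r, h1, r, h3, Sub.rfl, h4⟩

end Pool.Agent.Lib.MP_2c8569_lc
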