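import Pool.Agent.Lib.MP_2c8569_lc.Valid

set_option autoImplicit false

namespace Pool.Agent.Lib.MP_2c8569_lc

open Classical Ob Filter

variable {s : Sys} {b : Set ℕ}

/-- The objects with labels in `J`. -/
def ObIn (J : Set Λ) : Set Obj := {x | ∀ i ∈ labs x, i ∈ J}

lemma obIn_subset (J : Set Λ) : ObIn J ⊆ Set.range (Ob.map (Subtype.val : J → Λ)) :=
  fun _ hx => exists_map fun i hi => ⟨⟨i, hx i hi⟩, rfl⟩

lemma countable_obIn {J : Set Λ} (hJ : J.Countable) : (ObIn J).Countable := by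
  have := hJ.to_subtype
  exact (Set.countable_range _).mono (obIn_subset J)

lemma small_obIn {J : Set Λ} [Small.{0} J] : Small.{0} (ObIn J) := by
  have : Small.{0} (Set.range fun x : Ob (Shrink.{0} J) =>
      Ob.map (fun i => ((equivShrink J).symm i : Λ)) x) := small_range _
  refine small_subset (s := Set.range fun x : Ob (Shrink.{0} J) =>
      Ob.map (fun i => ((equivShrink J).symm i : Λ)) x) fun x hx => ?_
  exact exists_map fun i hi => ⟨equivShrink J ⟨i, hx i hi⟩, by simp⟩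

lemma exists_closure (f : ℕ → Obj → Obj) {A : Set Λ} (hA : A.Countable) :
    ∃ J : Set Λ, A ⊆ J ∧ J.Countable ∧ ∀ n, ∀ x ∈ ObIn J, f n x ∈ ObIn J := by
  let st : Set Λ → Set Λ := fun J => J ∪ ⋃ n, ⋃ x ∈ ObIn J, {i | i ∈ labs (f n x)}
  have hst : ∀ J : Set Λ, J.Countable → (st J).Countable := fun J hJ =>
    hJ.union (Set.countable_iUnion fun n => (countable_obIn hJ).biUnion fun x _ =>
      (List.finite_toSet _).countable)
  have hmono : Monotone fun n => st^[n] A := monotone_nat_of_le_succ fun n => by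
    rw [Function.iterate_succ_apply']; exact Set.subset_union_left
  refine ⟨⋃ n, st^[n] A, Set.subset_iUnion (fun n => st^[n] A) 0, Set.countable_iUnion fun n => ?_,
    fun n x hx i hi => ?_⟩
  · induction n with
    | zero => exact hA
    | succ n ih => rw [Function.iterate_succ_apply']; exact hst _ ih
  · choose! g hg using fun i hi => Set.mem_iUnion.1 (hx i hi)
    obtain ⟨m, hm⟩ := (List.finite_toSet ((labs x).map g)).bddAbove
    refine Set.mem_iUnion.2 ⟨m + 1, ?_⟩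
    rw [Function.iterate_succ_apply']
    refine .inr (Set.mem_iUnion.2 ⟨n, Set.mem_iUnion₂.2 ⟨x, fun j hj => ?_, hi⟩⟩)
    exact hmono (hm (List.mem_map.2 ⟨j, hj, rfl⟩)) (hg j hj)

noncomputable abbrev lam : Λ := Ordinal.univ.{0, 1}

lemma lt_lam {α : Λ} : α < lam ↔ ∃ α₀ : Ordinal.{0}, α = Ordinal.lift.{1} α₀ := by
  have := Ordinal.liftPrincipalSeg.{0, 1}.mem_range_iff_rel (b := α)
  simpa [eq_comm] using this.symm

lemma small_Iio_of_lt {α : Λ} (h : α < lam) : Small.{0} (Set.Iio α) := by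
  have : Small.{0} (Set.range (Ordinal.lift.{1} ∘ (Subtype.val : Set.Iio (lt_lam.1 h).choose → _)))
    := small_range _
  refine small_subset (s := Set.range (Ordinal.lift.{1} ∘
    (Subtype.val : Set.Iio (lt_lam.1 h).choose → _))) fun i hi => ?_
  obtain ⟨j, rfl⟩ := lt_lam.1 (lt_trans hi h)
  refine ⟨⟨j, ?_⟩, rfl⟩
  have h' := (lt_lam.1 h).choose_spec
  exact Ordinal.lift_lt.1 (h' ▸ hi)

lemma exists_bound {ι : Type*} [Small.{0} ι] (f : ι → Λ) (hf : ∀ i, f i < lam) :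
    ∃ β < lam, ∀ i, f i < β := by
  choose g hg using fun i => lt_lam.1 (hf i)
  obtain ⟨M, hM⟩ : BddAbove (Set.range g) := Ordinal.bddAbove_of_small
  refine ⟨Ordinal.lift.{1} (M + 1), lt_lam.2 ⟨_, rfl⟩, fun i => ?_⟩
  rw [hg i]
  exact Ordinal.lift_lt.2 (Order.lt_add_one_iff.2 (hM ⟨i, rfl⟩))

lemma exists_bound_ob {ι : Type*} [Small.{0} ι] (f : ι → Obj) :
    ∃ β < lam, ∀ i, ∀ j ∈ labs (f i), j < lam → j < β := by
  have : ∀ i, ∃ β < lam, ∀ j ∈ labs (f i), j < lam → j < β := fun i => by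
    have : Finite {j // j ∈ labs (f i) ∧ j < lam} :=
      ((List.finite_toSet (labs (f i))).subset fun _ h => h.1).to_subtype
    obtain ⟨β, h1, h2⟩ := exists_bound (fun j : {j // j ∈ labs (f i) ∧ j < lam} => j.1)
      fun j => j.2.2
    exact ⟨β, h1, fun j h h' => h2 ⟨j, h, h'⟩⟩
  choose g hg hg' using this
  obtain ⟨β, h1, h2⟩ := exists_bound g hg
  exact ⟨β, h1, fun i j h h' => (hg' i j h h').trans (h2 i)⟩

lemma not_enu_of_uncountable {x : Obj} {ζ : Λ} (h : Enu (T s b) x ζ) : (Set.Iio ζ).Countable := by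
  choose! g hg using h.2.1
  refine Set.countable_of_injective_of_countable_image (f := g) (fun i hi j hj hij => ?_)
    (Set.to_countable _)
  have e : ∀ i < ζ, (i : WithBot Λ) ≤ mx x := fun i hi => (WithBot.coe_le_coe.2 hi.le).trans h.1
  exact h.2.2 (g i) i (e i hi) j (e j hj) (hg i hi) (hij ▸ hg j hj)

/-- A witness function. -/
noncomputable def wit (s : Sys) (b : Set ℕ) (J : Set Λ) (p : Prop) (x : Obj) : Obj :=
  if h : ∃ y, y ∈ ObIn J ∧ mx y ≤ mx x ∧ (T s b (plug x y) ↔ p) then h.choose else nil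

lemma wit_spec {J : Set Λ} {p : Prop} {x : Obj}
    (h : ∃ y, y ∈ ObIn J ∧ mx y ≤ mx x ∧ (T s b (plug x y) ↔ p)) :
    wit s b J p x ∈ ObIn J ∧ mx (wit s b J p x) ≤ mx x ∧ (T s b (plug x (wit s b J p x)) ↔ p) := by
  rw [wit, dif_pos h]; exact h.choose_spec

lemma good_lam : ∃ k a, Good s b k a lam := by
  have hω : Ordinal.omega0 < lam := lt_lam.2 ⟨Ordinal.omega0, by simp⟩
  have hex : ∃ k, k < lam ∧ ∀ x, mx x < lam → ¬ Enu (T s b) x k := by
    refine ⟨Ordinal.omega 1, lt_lam.2 ⟨Ordinal.omega 1, by simp⟩, fun x _ h => ?_⟩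
    have := (not_enu_of_uncountable h).le_aleph0
    rw [Cardinal.mk_Iio_ordinal, Cardinal.lift_le_aleph0, Ordinal.card_omega] at this
    exact this.not_gt Cardinal.aleph0_lt_aleph_one
  let k := wellFounded_lt.min _ hex
  have hk : k < lam ∧ ∀ x, mx x < lam → ¬ Enu (T s b) x k := wellFounded_lt.min_mem _ hex
  have hk' : ∀ ζ : Set.Iio k, ∃ x, mx x < lam ∧ Enu (T s b) x ζ := fun ζ => by
    by_contra hc
    push Not at hc
    exact wellFounded_lt.not_lt_min {k | k < lam ∧ ∀ x, mx x < lam → ¬ Enu (T s b) x k}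
      ⟨ζ.2.trans hk.1, hc⟩ ζ.2
  choose g hg hg' using hk'
  have := small_Iio_of_lt hk.1
  obtain ⟨a, ha, ha'⟩ := exists_bound_ob g
  obtain ⟨a', h1, h2⟩ := exists_bound ![k, a] (by simp [Fin.forall_fin_two, hk.1, ha])
  refine ⟨k, a', h2 0, h1, hω, fun ζ hζ => ⟨g ⟨ζ, hζ⟩, mx_lt_iff.2 fun j hj =>
    (ha' _ j hj (mx_lt_iff.1 (hg _) j hj)).trans (h2 1), hg' _⟩, hk.2, fun α hα => ?_,
    fun α hα => ?_⟩
  · have step : ∀ β : Set.Iio lam, ∃ β' : Set.Iio lam, β < β' ∧ ∀ p : Prop,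
        ∀ x ∈ ObIn (insert lam (Set.Iio β)), ∀ j ∈ labs (wit s b Set.univ p x), j < lam →
          j < β' := by
      intro β
      have := small_Iio_of_lt β.2
      have : Small.{0} (insert lam (Set.Iio β.1) : Set Λ) := small_insert _ _
      have := small_obIn (J := insert lam (Set.Iio β.1))
      obtain ⟨γ, h3, h4⟩ := exists_bound_ob
        fun z : Prop × ObIn (insert lam (Set.Iio β.1)) => wit s b Set.univ z.1 z.2
      obtain ⟨γ', h5, h6⟩ := exists_bound ![γ, β] (by simp [Fin.forall_fin_two, h3, β.2.out])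
      exact ⟨⟨γ', h5⟩, h6 1, fun p x hx j hj hj' => (h4 (p, ⟨x, hx⟩) j hj hj').trans (h6 0)⟩
    choose nxt hn1 hn2 using step
    let c : ℕ → Set.Iio lam := fun n => nxt^[n] ⟨α, hα⟩
    have hc : ∀ n, c (n + 1) = nxt (c n) := fun n => Function.iterate_succ_apply' _ _ _
    have hcm : StrictMono c := strictMono_nat_of_lt_succ fun n => by rw [hc]; exact hn1 _
    obtain ⟨M, hM, hM'⟩ := exists_bound (fun n => (c n).1) fun n => (c n).2
    have hbdd : BddAbove (Set.range fun n => (c n).1) := ⟨M, by rintro _ ⟨n, rfl⟩; exact (hM' n).le⟩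
    refine ⟨⨆ n, (c n).1, (show (c 0).1 < (c 1).1 from hcm one_pos).trans_le (le_ciSup hbdd 1),
      (ciSup_le fun n => (hM' n).le).trans_lt hM, fun x p hx ⟨y, hy⟩ => ?_⟩
    have hw := wit_spec (J := Set.univ) ⟨y, fun _ _ => trivial, hy⟩
    refine ⟨_, fun j hj => ?_, hw.2⟩
    have : ∀ i ∈ labs x, ∃ n, i ∈ insert lam (Set.Iio (c n).1) := fun i hi =>
      (hx i hi).elim (fun h => ⟨0, .inl h⟩) fun h =>
        ((lt_ciSup_iff hbdd).1 h).imp fun n h => .inr h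
    choose! g hg using this
    obtain ⟨m, hm⟩ := (List.finite_toSet ((labs x).map g)).bddAbove
    have hx' : x ∈ ObIn (insert lam (Set.Iio (c m).1)) := fun i hi => (hg i hi).imp_right fun h =>
      lt_of_lt_of_le h (Subtype.coe_le_coe.2 (hcm.monotone (hm (List.mem_map.2 ⟨i, hi, rfl⟩))))
    have hj' : j ≤ lam := WithBot.coe_le_coe.1 (((le_mx hj).trans hw.2.1).trans
      (mx_le_iff.2 fun i hi => WithBot.coe_le_coe.2 ((hx' i hi).elim le_of_eq
        fun h => (h.trans (c m).2).le)))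
    refine hj'.eq_or_lt.imp_right fun h => ?_
    exact (hn2 _ p x hx' j hj h).trans_le (hc m ▸ le_ciSup hbdd (m + 1))
  · have := small_Iio_of_lt hα
    have := small_obIn (J := Set.Iio α)
    let tr : Obj → Set (ObIn (Set.Iio α)) := fun x => {y | T s b (plug x y)}
    have : ∀ S : Set (ObIn (Set.Iio α)), ∃ x', mx x' < lam ∧
        ((∃ x, mx x < lam ∧ tr x = S) → tr x' = S) := fun S => by
      by_cases h : ∃ x, mx x < lam ∧ tr x = S
      · exact ⟨h.choose, h.choose_spec.1, fun _ => h.choose_spec.2⟩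
      · exact ⟨nil, by simp, fun h' => absurd h' h⟩
    choose g hg hg' using this
    obtain ⟨β, h3, h4⟩ := exists_bound_ob g
    refine ⟨β, h3, fun x hx => ⟨g (tr x), mx_lt_iff.2 fun j hj =>
      h4 _ j hj (mx_lt_iff.1 (hg _) j hj), fun y hy => ?_⟩⟩
    exact (Set.ext_iff.1 (hg' (tr x) ⟨x, hx, rfl⟩) ⟨y, mx_lt_iff.1 hy⟩).symm

section collapse

variable {J : Set Λ}

lemma mem_obIn_of_col {y : Obj} {i : Λ} (hi : i ∈ J) (h : mx y ≤ (col J i : Λ)) :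
    ∃ y' ∈ ObIn J, Ob.map (col J) y' = y := by
  obtain ⟨y', rfl⟩ := exists_map (e := fun j : J => col J j) (y := y) fun j hj => by
    obtain ⟨j', h1, h2⟩ := col_lower J (WithBot.coe_le_coe.1 ((le_mx hj).trans h)) ⟨i, hi, rfl⟩
    exact ⟨⟨j', h1⟩, h2⟩
  refine ⟨Ob.map Subtype.val y', fun i hi => ?_, by rw [Ob.map_map]; rfl⟩
  obtain ⟨j, rfl⟩ := mem_range_of_labs _ i hi
  exact j.2

lemma col_lt_col {i j : Λ} (hi : i ∈ J) (hj : j ∈ J) : col J i < col J j ↔ i < j :=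
  (col_mono J).lt_iff_lt hi hj

lemma mx_col_lt {x : Obj} (hx : x ∈ ObIn J) {i : Λ} (hi : i ∈ J) :
    mx (Ob.map (col J) x) < (col J i : Λ) ↔ mx x < i := by
  simp only [mx_lt_iff, labs_map, List.forall_mem_map]
  exact forall₂_congr fun j hj => col_lt_col (hx j hj) hi

lemma mx_col_le {x y : Obj} (hx : x ∈ ObIn J) (hy : y ∈ ObIn J) :
    mx (Ob.map (col J) x) ≤ mx (Ob.map (col J) y) ↔ mx x ≤ mx y :=
  Inv.map_iff₂ (R := fun x y => mx x ≤ mx y) (by fun_prop)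
    ((col_mono J).mono fun i hi => hi.elim (hx i) (hy i))

lemma plug_mem_obIn {x y : Obj} (hx : x ∈ ObIn J) (hy : y ∈ ObIn J) : plug x y ∈ ObIn J := by
  intro i hi
  simp only [Ob.plug, labs_node, List.mem_append] at hi
  rcases hi with h | h | h
  exacts [hx i (labs_fst h), hy i h, hx i (labs_snd h)]

lemma T_col_plug (hJ : Closed s b J) {x y : Obj} (hx : x ∈ ObIn J) (hy : y ∈ ObIn J) :
    T s b (plug (Ob.map (col J) x) (Ob.map (col J) y)) ↔ T s b (plug x y) := by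
  rw [← plug_map]; exact T_col hJ (plug_mem_obIn hx hy)

lemma exists_pre {y : Obj} {x : Obj} (hx : x ∈ ObIn J) (h : mx y ≤ mx (Ob.map (col J) x)) :
    ∃ y' ∈ ObIn J, Ob.map (col J) y' = y := by
  rcases exists_mx (Ob.map (col J) x) with h' | ⟨i, hi, h'⟩
  · refine ⟨y, fun i hi => ?_, map_eq_self fun i hi => ?_⟩ <;>
      simpa [h'] using (le_mx hi).trans h
  · simp only [labs_map, List.mem_map] at hi
    obtain ⟨j, hj, rfl⟩ := hi
    exact mem_obIn_of_col (hx j hj) (h' ▸ h)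

lemma exists_pre_lab {γ i : Λ} (hi : i ∈ J) (h : γ ≤ col J i) : ∃ j ∈ J, col J j = γ :=
  col_lower J h ⟨i, hi, rfl⟩

lemma enc_mem_obIn {i : Λ} (hi : i ∈ J) (n : ℕ) : enc (i, n) ∈ ObIn J := by
  intro j hj; simp at hj; exact hj ▸ hi

lemma T_col_enc (hJ : Closed s b J) {x : Obj} (hx : x ∈ ObIn J) {i : Λ} (hi : i ∈ J) (n : ℕ) :
    T s b (plug (Ob.map (col J) x) (enc (col J i, n))) ↔ T s b (plug x (enc (i, n))) :=
  T_col_plug hJ hx (enc_mem_obIn hi n)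

lemma le_mx_col {x : Obj} (hx : x ∈ ObIn J) {i : Λ} (hi : i ∈ J) :
    (col J i : WithBot Λ) ≤ mx (Ob.map (col J) x) ↔ (i : WithBot Λ) ≤ mx x := by
  rw [← not_lt, mx_col_lt hx hi, not_lt]

lemma exists_pre_lab' {x : Obj} (hx : x ∈ ObIn J) {γ : Λ}
    (h : (γ : WithBot Λ) ≤ mx (Ob.map (col J) x)) : ∃ j ∈ J, col J j = γ := by
  obtain ⟨y, hy, h'⟩ := exists_pre (y := lab γ) hx h
  cases y <;> simp at h'
  exact ⟨_, hy _ (by simp), h'⟩

lemma Enu.col (hJ : Closed s b J) {x : Obj} (hx : x ∈ ObIn J) {ζ : Λ} (hζ : ζ ∈ J)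
    (h : Enu (T s b) x ζ) : Enu (T s b) (Ob.map (col J) x) (col J ζ) := by
  refine ⟨(le_mx_col hx hζ).2 h.1, fun i hi => ?_, fun n i hi j hj h1 h2 => ?_⟩
  · obtain ⟨j, hj, h1, rfl⟩ := exists_col hi
    exact (h.2.1 j h1).imp fun n hn => (T_col_enc hJ hx hj n).2 hn
  · obtain ⟨i, hi', rfl⟩ := exists_pre_lab' hx hi
    obtain ⟨j, hj', rfl⟩ := exists_pre_lab' hx hj
    rw [h.2.2 n i ((le_mx_col hx hi').1 hi) j ((le_mx_col hx hj').1 hj)
      ((T_col_enc hJ hx hi' n).1 h1) ((T_col_enc hJ hx hj' n).1 h2)]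

end collapse

noncomputable def labOf : Obj → Λ
  | .lab i => i
  | _ => 0

lemma exists_good : ∃ k a δ, Good s b k a δ ∧ (Set.Iic δ).Countable := by
  obtain ⟨k, a, hg⟩ := good_lam (s := s) (b := b)
  choose! f1 hf1 hf1' using hg.enu
  choose! f2 hf2 hf2' hf2'' using hg.refl
  choose! f3 hf3 f4 hf4 hf4' using hg.pw
  have h5 : ∀ x, ∃ y : Λ × Λ, mx x < lam → ¬ ((k : WithBot Λ) ≤ mx x ∧
      (y.1 < k → ∃ n : ℕ, T s b (plug x (enc (y.1, n)))) ∧ ∀ n : ℕ, (y.1 : WithBot Λ) ≤ mx x →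
      (y.2 : WithBot Λ) ≤ mx x → T s b (plug x (enc (y.1, n))) → T s b (plug x (enc (y.2, n))) →
      y.1 = y.2) := fun x => by
    by_contra hc
    push Not at hc
    exact hg.nenu x (hc (0, 0)).1 ⟨(hc (0, 0)).2.1, fun i => (hc (i, 0)).2.2.1,
      fun n i hi j hj => (hc (i, j)).2.2.2 n hi hj⟩
  choose f5 hf5 using h5
  let f : ℕ → Obj → Obj := fun n x => match n with
    | 0 => wit s b Set.univ True x
    | 1 => wit s b Set.univ False x
    | 2 => f1 (labOf x)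
    | 3 => lab (f2 (labOf x))
    | 4 => lab (f3 (labOf x))
    | 5 => f4 (labOf x.fst) x.snd
    | 6 => enc (f5 x)
    | 7 => wit s b (insert lam (Set.Iio (labOf x.fst))) True x.snd
    | _ => wit s b (insert lam (Set.Iio (labOf x.fst))) False x.snd
  obtain ⟨J, hA, hJc, hJ⟩ := exists_closure f
    (A := {k, a, lam, Ordinal.omega0} ∪ Set.range Nat.cast)
    ((Set.toFinite _).countable.union (Set.countable_range _))
  have hk : k ∈ J := hA (by simp)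
  have ha : a ∈ J := hA (by simp)
  have hl : lam ∈ J := hA (by simp)
  have hω : Ordinal.omega0 ∈ J := hA (by simp)
  have hlab : ∀ i ∈ J, lab i ∈ ObIn J := fun i hi j hj => by simp at hj; exact hj ▸ hi
  have hnode : ∀ i ∈ J, ∀ x ∈ ObIn J, node (lab i) x ∈ ObIn J := fun i hi x hx j hj => by
    simp at hj; exact hj.elim (fun h => h ▸ hi) (hx j)
  have hcl : Closed s b J := fun x p hx ⟨y, hy⟩ => by
    have := (wit_spec (J := Set.univ) ⟨y, fun _ _ => trivial, hy⟩).2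
    rcases propComplete p with rfl | rfl
    exacts [⟨_, hJ 0 x hx, this⟩, ⟨_, hJ 1 x hx, this⟩]
  have hpre : ∀ {x : Obj} {i}, i ∈ J → mx x < (col J i : Λ) →
      ∃ x' ∈ ObIn J, mx x' < i ∧ Ob.map (col J) x' = x := fun hi hx => by
    obtain ⟨x', h1, rfl⟩ := mem_obIn_of_col hi hx.le
    exact ⟨x', h1, (mx_col_lt h1 hi).1 hx, rfl⟩
  refine ⟨col J k, col J a, col J lam, ⟨col_lt hk hg.ka, col_lt ha hg.aδ, ?_, fun ζ hζ => ?_,
    fun x hx h => ?_, fun α hα => ?_, fun α hα => ?_⟩, ?_⟩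
  · refine (col_lt hω hg.om).trans_eq' (col_eq_self fun j hj => hA (.inr ?_))
    obtain ⟨n, rfl⟩ := Ordinal.lt_omega0.1 hj
    exact ⟨n, rfl⟩
  · obtain ⟨j, hj, h1, rfl⟩ := exists_col hζ
    have h2 : f1 j ∈ ObIn J := hJ 2 _ (hlab j hj)
    exact ⟨_, (mx_col_lt h2 ha).2 (hf1 j h1), (hf1' j h1).col hcl h2 hj⟩
  · obtain ⟨x, h1, h2, rfl⟩ := hpre hl hx
    have h3 : enc (f5 x) ∈ ObIn J := hJ 6 _ h1
    have h4 : (f5 x).1 ∈ J := h3 _ (by generalize f5 x = z; obtain ⟨z, z'⟩ := z; simp)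
    have h5 : (f5 x).2 ∈ J := h3 _ (by generalize f5 x = z; obtain ⟨z, z'⟩ := z; simp)
    refine hf5 x h2 ⟨(le_mx_col h1 hk).1 h.1, fun h' => ?_, fun n e1 e2 e3 e4 => ?_⟩
    · exact (h.2.1 _ (col_lt h4 h')).imp fun n hn => (T_col_enc hcl h1 h4 n).1 hn
    · exact (col_mono J).injOn h4 h5 (h.2.2 n _ ((le_mx_col h1 h4).2 e1) _ ((le_mx_col h1 h5).2 e2)
        ((T_col_enc hcl h1 h4 n).2 e3) ((T_col_enc hcl h1 h5 n).2 e4))
  · obtain ⟨j, hj, h1, rfl⟩ := exists_col hα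
    have h2 : f2 j ∈ J := hJ 3 _ (hlab j hj) _ (by simp [f, labOf])
    refine ⟨col J (f2 j), col_lt hj (hf2 j h1), col_lt h2 (hf2' j h1), fun x p hx ⟨y, hy, hy'⟩ => ?_⟩
    have hx1 : mx x ≤ (col J lam : Λ) := mx_le_iff.2 fun i hi => WithBot.coe_le_coe.2
      ((hx i hi).elim le_of_eq fun h => (h.trans (col_lt h2 (hf2' j h1))).le)
    obtain ⟨x, h3, rfl⟩ := mem_obIn_of_col hl hx1
    obtain ⟨y, h4, rfl⟩ := exists_pre h3 hy
    rw [mx_col_le h4 h3] at hy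
    rw [T_col_plug hcl h3 h4] at hy'
    have h5 : ∀ i ∈ labs x, i ∈ insert lam (Set.Iio (f2 j)) := fun i hi =>
      (hx (col J i) (by simpa using ⟨i, hi, rfl⟩)).imp ((col_mono J).injOn (h3 i hi) hl)
        (col_lt_col (h3 i hi) h2).1
    have h6 := hf2'' j h1 x p h5 ⟨y, hy, hy'⟩
    obtain ⟨z, h7, h8, h9, h10⟩ : ∃ z ∈ ObIn J, z ∈ ObIn (insert lam (Set.Iio (f2 j))) ∧
        mx z ≤ mx x ∧ (T s b (plug x z) ↔ p) := by
      have := wit_spec h6
      rcases propComplete p with rfl | rfl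
      exacts [⟨_, hJ 7 _ (hnode _ h2 x h3), this⟩, ⟨_, hJ 8 _ (hnode _ h2 x h3), this⟩]
    refine ⟨Ob.map (col J) z, fun i hi => ?_, (mx_col_le h7 h3).2 h9,
      (T_col_plug hcl h3 h7).trans h10⟩
    simp only [labs_map, List.mem_map] at hi
    obtain ⟨i, hi, rfl⟩ := hi
    exact (h8 i hi).imp (fun h => by rw [h]) (col_lt (h7 i hi))
  · obtain ⟨j, hj, h1, rfl⟩ := exists_col hα
    have h2 : f3 j ∈ J := hJ 4 _ (hlab j hj) _ (by simp [f, labOf])
    refine ⟨col J (f3 j), col_lt h2 (hf3 j h1), fun x hx => ?_⟩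
    obtain ⟨x, h3, h4, rfl⟩ := hpre hl hx
    have h5 : f4 j x ∈ ObIn J := hJ 5 _ (hnode _ hj x h3)
    refine ⟨_, (mx_col_lt h5 h2).2 (hf4 j h1 x h4), fun y hy => ?_⟩
    obtain ⟨y, h6, h7, rfl⟩ := hpre hj hy
    rw [T_col_plug hcl h3 h6, T_col_plug hcl h5 h6]
    exact hf4' j h1 x h4 y h7
  · exact (hJc.image (col J)).mono fun i hi => col_lower J hi ⟨lam, hl, rfl⟩

lemma exists_ctx (hs : Std s) (b : Set ℕ) : ∃ C : Ctx, C.s = s ∧ C.b = b := by
  obtain ⟨k, a, δ, hg, hc⟩ := exists_good (s := s) (b := b)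
  have hD : (Set.Iio (δ + Ordinal.omega0)).Countable := by
    refine (hc.union (Set.countable_range fun n : ℕ => δ + n)).mono fun i hi => ?_
    rcases le_or_gt i δ with h | h
    · exact .inl h
    · obtain ⟨j, rfl⟩ := exists_add_of_le h.le
      obtain ⟨n, rfl⟩ := Ordinal.lt_omega0.1 (lt_of_add_lt_add_left hi)
      exact .inr ⟨n, rfl⟩
  have hδ : δ < δ + Ordinal.omega0 := lt_add_of_pos_right _ Ordinal.omega0_pos
  have hk : k < δ := hg.ka.trans hg.aδ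
  obtain ⟨t, ht⟩ := ((hc.mono (Set.Iic_subset_Iic.2 hk.le)).prod
    (countable_obIn hD)).exists_eq_range ⟨(k, nil), Set.mem_Iic.2 le_rfl, by simp [ObIn]⟩
  have step : ∀ (n : ℕ) (p : {p // Valid s b k k p}), ∃ q : {p // Valid s b k k p}, Sub p.1 q.1 ∧
      ((t n).1 ≤ k → ∃ r, Sub r q.1 ∧ Valid s b k (t n).1 r ∧ (T s b (plug (t n).2 (enc r)) ∨
        ∀ q, Valid s b k (t n).1 q → Sub r q → ¬ T s b (plug (t n).2 (enc q)))) := by
    intro n p
    by_cases h : (t n).1 ≤ k ∧ ∃ r, Valid s b k (t n).1 r ∧ Sub (res (t n).1 p.1) r ∧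
      T s b (plug (t n).2 (enc r))
    · obtain ⟨h, r, h1, h2, h3⟩ := h
      exact ⟨⟨un p r, p.2.amalg hs h1 h h2⟩, sub_un_left _ _,
        fun _ => ⟨r, sub_un_right _ _, h1, .inl h3⟩⟩
    · exact ⟨p, Sub.rfl, fun h' => ⟨_, res_sub _ _, p.2.res hs h',
        .inr fun q h1 h2 h3 => h ⟨h', q, h1, h2, h3⟩⟩⟩
  choose nxt hn1 hn2 using step
  let c : ℕ → {p // Valid s b k k p} := fun n => Nat.rec ⟨emp, valid_emp hs le_rfl⟩ nxt n
  have hcm : ∀ m n, m ≤ n → Sub (c m).1 (c n).1 := fun m n h => by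
    induction h with
    | refl => exact Sub.rfl
    | step _ ih => exact ih.trans (hn1 _ _)
  refine ⟨⟨s, b, k, a, δ, δ + Ordinal.omega0, fun η => {p | (∃ n, Sub p (c n).1) ∧ Supp η p},
    hs, hg, hδ, fun i hi => ?_, hD, fun η hη => ⟨?_, ?_, fun x hx => ?_⟩, fun η p => ?_⟩, rfl, rfl⟩
  · exact (Ordinal.isSuccLimit_add δ Ordinal.isSuccLimit_omega0).add_one_lt hi
  · rintro p q ⟨⟨n, hn⟩, hq⟩ h
    exact ⟨⟨n, h.trans hn⟩, hq.of_sub h⟩
  · rintro p q ⟨⟨n, hn⟩, hp⟩ ⟨⟨m, hm⟩, hq⟩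
    exact ⟨res η (c (max n m)).1, ⟨⟨_, res_sub _ _⟩, supp_res _ _⟩, (c _).2.res hs hη,
      hp.sub_res (hn.trans (hcm _ _ (le_max_left _ _))),
      hq.sub_res (hm.trans (hcm _ _ (le_max_right _ _)))⟩
  · obtain ⟨n, hn⟩ : (η, x) ∈ Set.range t := ht ▸ ⟨hη, mx_lt_iff.1 hx⟩
    obtain ⟨r, h1, h2, h3⟩ := hn2 n (c n) (by rw [hn]; exact hη)
    rw [hn] at h2 h3
    exact ⟨r, ⟨⟨n + 1, h1⟩, h2.supp hs⟩, h2, h3⟩
  · exact ⟨fun h => ⟨⟨h.1, let ⟨n, hn⟩ := h.1; ((c n).2.supp hs).of_sub hn⟩, h.2⟩,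
      fun h => ⟨h.1.1, h.2⟩⟩

lemma exists_fix (s : Sys) (l : List (Sys → Set ℕ → Set ℕ)) (hl : ∀ g ∈ l, Causal g) :
    ∃ b : Set ℕ, ∀ g ∈ l, ∃ j, ∀ n, Nat.pair j n ∈ b ↔ n ∈ g s b := by
  let B : ℕ → Prop := (wellFounded_lt (α := ℕ)).fix fun n IH =>
    n.unpair.2 ∈ l.getD n.unpair.1 (fun _ _ => ∅) s {m | ∃ h : m < n, IH m h}
  have hB : ∀ n, B n ↔ n.unpair.2 ∈ l.getD n.unpair.1 (fun _ _ => ∅) s {m | m < n ∧ B m} := by
    intro n
    simp only [B]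
    rw [WellFounded.fix_eq]
    simp
  refine ⟨{n | B n}, fun g hg => ?_⟩
  obtain ⟨j, hj, rfl⟩ := List.getElem_of_mem hg
  refine ⟨j, fun n => (hB _).trans ?_⟩
  simp only [Nat.unpair_pair, List.getD_eq_getElem _ _ hj]
  exact hl _ hg s _ _ n fun m hm => by simp [hm.trans_le (Nat.right_le_pair j n)]

instance : (𝓕).NeBot := by
  obtain ⟨φ0, h0⟩ := dfn_cV.exists_rep
  obtain ⟨φ1, h1⟩ := dfn_cE.exists_rep
  obtain ⟨φ2, h2⟩ := dfn_cF.exists_rep
  obtain ⟨φ3, h3⟩ := dfn_cN.exists_rep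
  obtain ⟨φ4, h4⟩ := dfn_cO.exists_rep
  refine forall_mem_nonempty_iff_neBot.1 fun S hS => ?_
  obtain ⟨S1, hS1, S2, hS2, rfl⟩ := mem_inf_iff.1 hS
  obtain ⟨I, hI, V, hV, rfl⟩ := mem_iInf.1 hS1
  obtain ⟨I', hI', V', hV', rfl⟩ := mem_iInf.1 hS2
  let s : Sys := fun d => (φ0 :: φ1 :: φ2 :: φ3 :: φ4 :: hI.toFinset.toList).getD d φ0
  obtain ⟨b, hb⟩ := exists_fix s (hI'.toFinset.toList.map Subtype.val) (by
    simp only [List.forall_mem_map]; exact fun g _ => g.2)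
  obtain ⟨C, e1, e2⟩ := exists_ctx (s := s)
    ⟨h0 s 0 rfl, h1 s 1 rfl, h2 s 2 rfl, h3 s 3 rfl, h4 s 4 rfl⟩ b
  refine ⟨C, Set.mem_iInter.2 fun i => hV i ?_, Set.mem_iInter.2 fun i => hV' i ?_⟩
  · have : i.1 ∈ φ0 :: φ1 :: φ2 :: φ3 :: φ4 :: hI.toFinset.toList := by simp [i.2]
    obtain ⟨d, hd, h⟩ := List.getElem_of_mem this
    exact ⟨d, by rw [e1, ← h]; exact List.getD_eq_getElem _ _ hd⟩
  · simp only [Set.mem_ofPred_eq, e1, e2]
    exact hb _ (List.mem_map.2 ⟨i.1, by simp [i.2], rfl⟩)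

end Pool.Agent.Lib.MP_2c8569_lc
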