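import Pool.Agent.Lib.MP_2c8569_lc.Cov

set_option autoImplicit false

namespace Pool.Agent.Lib.MP_2c8569_lc

open Classical Ob Filter Ctx

/-- The well-order on objects labelled by numbers ordered by `w`. -/
def woW (w : ℕ → ℕ → Prop) (x y : Ob ℕ) : Prop :=
  ∃ e : ℕ → Λ, (∀ m ∈ labs (node x y), ∀ n ∈ labs (node x y), w m n ↔ e m < e n) ∧
    wo (Ob.map e x) (Ob.map e y)

lemma woW_iff {e : ℕ → Λ} {w : ℕ → ℕ → Prop} (hw : ∀ m n, w m n ↔ e m < e n) (x y : Ob ℕ) :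
    woW w x y ↔ wo (Ob.map e x) (Ob.map e y) := by
  refine ⟨fun ⟨e', h, h'⟩ => ?_, fun h => ⟨e, fun m _ n _ => hw m n, h⟩⟩
  exact (Inv.pat_iff (R := wo) (by fun_prop)
    fun m hm n hn => (h m hm n hn).symm.trans (hw m n)).1 h'

lemma clo_woW (cw : ℕ → ℕ → ℕ) (x y : Ob ℕ) :
    Clo fun F => woW (fun a c => F (cw a c) = 1) x y :=
  Clo.of_finite (((List.finite_toSet (labs (node x y))).prod
    (List.finite_toSet (labs (node x y)))).image fun p => cw p.1 p.2)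
    fun _ _ h ⟨e, h1, h2⟩ => ⟨e, fun m hm n hn => by
      simp only [← h1 m hm n hn, h (cw m n) ⟨(m, n), ⟨hm, hn⟩, rfl⟩], h2⟩

lemma clo_ChW (s : Sys) (cb : ℕ → ℕ) (cw : ℕ → ℕ → ℕ) (x y : Ob ℕ) :
    Clo fun F => ChW s {m | F (cb m) = 1} (fun a c => F (cw a c) = 1) x y :=
  Clo.of_finite ((((List.finite_toSet (labs (node x y))).prod
    (List.finite_toSet (labs (node x y)))).image fun p => cw p.1 p.2).insert (cb (natOf x.snd.fst)))
    fun _ _ h ⟨e, h1, h2⟩ => ⟨e, fun m hm n hn => by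
      simp only [← h1 m hm n hn, h (cw m n) (.inr ⟨(m, n), ⟨hm, hn⟩, rfl⟩)], by
      simpa [Ch, h _ (.inl rfl)] using h2⟩

lemma clo_cap (f g : ℕ → ℕ) (n : ℕ) :
    Clo fun F => cap (fun m => F (f m) = 1) (fun t => F (g t) = 1) n :=
  Clo.bex fun _ => Clo.ball fun _ => (Clo.eq _ _).iff (Clo.eq _ _)

def Px (s : Sys) (b : Set ℕ) (y : ℕ → Prop) (x : Obj) : Prop :=
  ∀ j, ∃ n, j ≤ n ∧ cap (fun m => T s b (plug x (nat m))) y n

/-- The least code that captures `y` infinitely often. -/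
noncomputable def cd (s : Sys) (b : Set ℕ) (y : ℕ → Prop) : Obj :=
  if h : ∃ x, Px s b y x then wo_wf.min {x | Px s b y x} h else nil

lemma cd_spec {s : Sys} {b : Set ℕ} {y : ℕ → Prop} {x : Obj} (h : Px s b y x) :
    Px s b y (cd s b y) ∧ ∀ x', Px s b y x' → ¬ wo x' (cd s b y) := by
  rw [cd, dif_pos ⟨x, h⟩]
  exact ⟨wo_wf.min_mem {x | Px s b y x} _, fun _ h => wo_wf.not_lt_min {x | Px s b y x} h⟩

def uW (u : ℕ → ℕ) (a c : ℕ) : Prop := u (Nat.pair 1 (Nat.pair a c)) = 1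
def uH (u : ℕ → ℕ) (x : Ob ℕ) : Prop := u (Nat.pair 2 (Encodable.encode x)) = 1

abbrev QT := ℕ → (ℕ → ℕ) → (ℕ → Prop) → Prop

def Mx' (Q : QT) (s : Sys) (b : Set ℕ) (z : ℕ → ℕ) (y : ℕ → Prop) (u : ℕ → ℕ) (a0 a1 a2 c : ℕ) :
    Prop :=
  (uW u a0 a1 → uW u a0 a2 ∨ uW u a2 a1) ∧
  (uH u (dO a0) → ∃ a, ChW s b (uW u) (dO a0) a ∧ ¬ uH u a) ∧
  (ChW s b (uW u) (dO a0) (dO a1) ∧ ¬ uH u (dO a1) → uH u (dO a0)) ∧
  (∃ n, a0 ≤ n ∧ cap (fun m => uH u (plug (dO c) (nat m))) y n) ∧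
  (woW (uW u) (dO a0) (dO c) ∧ u (Nat.pair 3 a0) ≤ a1 →
    ¬ cap (fun m => uH u (plug (dO a0) (nat m))) y a1) ∧
  Q a0 z (cap (fun m => uH u (plug (dO c) (nat m))) y)

def Mx (Q : QT) (s : Sys) (b : Set ℕ) (z : ℕ → ℕ) (y : ℕ → Prop) (u v : ℕ → ℕ) : Prop :=
  (∃ n, ¬ uW u (v (n + 1)) (v n)) ∧ Mx' Q s b z y u (v 0) (v 1) (v 2) (u (Nat.pair 0 0))

def OpQ (Q : QT) : Prop := ∀ j (zc : ℕ → ℕ) (h : ℕ → (ℕ → ℕ) → Prop), (∀ n, Clo (h n)) →
  Opn fun F => Q j (fun i => F (zc i)) fun n => h n F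

lemma opn_Mx {Q : QT} (hQ : OpQ Q) (s : Sys) : Opn fun F => Mx Q s {m | F (Nat.pair 4 m) = 1}
    (fun n => F (Nat.pair 0 n)) (fun n => F (Nat.pair 1 n) = 1) (fun n => F (Nat.pair 2 n))
    fun n => F (Nat.pair 3 n) := by
  refine Opn.and (Opn.ex fun n => Opn.bind (R := fun a F => ¬ uW (fun n => F (Nat.pair 2 n)) a
    (F (Nat.pair 3 n))) (Cts.proj _) fun a => Opn.bind (R := fun c F =>
      ¬ uW (fun n => F (Nat.pair 2 n)) a c) (Cts.proj _) fun c => (Clo.eq _ _).not.opn) ?_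
  let R := fun a0 a1 a2 c (F : ℕ → ℕ) => Mx' Q s {m | F (Nat.pair 4 m) = 1}
    (fun n => F (Nat.pair 0 n)) (fun n => F (Nat.pair 1 n) = 1) (fun n => F (Nat.pair 2 n))
    a0 a1 a2 c
  refine Opn.bind (R := fun a F => R a (F _) (F _) (F _) F) (Cts.proj _) fun a0 =>
    Opn.bind (R := fun a F => R a0 a (F _) (F _) F) (Cts.proj _) fun a1 =>
    Opn.bind (R := fun a F => R a0 a1 a (F _) F) (Cts.proj _) fun a2 =>
    Opn.bind (R := R a0 a1 a2) (Cts.proj _) fun c => ?_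
  refine ((Clo.eq _ _).imp ((Clo.eq _ _).or (Clo.eq _ _))).opn.and
    ((Opn.imp (Clo.eq _ _) (Opn.ex fun a => ((clo_ChW _ _ _ _ _).and (Clo.eq _ _).not).opn)).and
    ((((clo_ChW _ _ _ _ _).and (Clo.eq _ _).not).imp (Clo.eq _ _)).opn.and
    ((Opn.ex fun n => ((Clo.const _).and (clo_cap _ _ _)).opn).and
    ((((clo_woW _ _ _).and (Clo.atom _ (· ≤ a1))).imp (clo_cap _ _ _).not).opn.and
    (hQ _ _ _ fun n => clo_cap _ _ n)))))

/-- The code of the open matrix. -/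
def SM (Q : QT) (s : Sys) (b : Set ℕ) : Set (List ℕ × List Bool × List ℕ × List ℕ) :=
  {l | ∀ (b' : Set ℕ) z y u v, (∀ m < l.1.length, m ∈ b ↔ m ∈ b') →
    (pre z l.1.length, pre y l.1.length, pre u l.1.length, pre v l.1.length) = l →
    Mx Q s b' z (y · = true) u v}

lemma causal_SM (Q : QT) : Causal fun s b => Encodable.encode '' SM Q s b := by
  have : ∀ s b b' n, (∀ m < n, m ∈ b ↔ m ∈ b') → n ∈ Encodable.encode '' SM Q s b →
      n ∈ Encodable.encode '' SM Q s b' := by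
    rintro s b b' _ h ⟨l, hl, rfl⟩
    refine ⟨l, fun b'' z y u v h' => hl b'' z y u v fun m hm => (h m ?_).trans (h' m hm), rfl⟩
    exact hm.trans_le ((Encodable.length_le_encode _).trans (Nat.left_le_pair _ _))
  exact fun s b b' n h => ⟨this s b b' n h, this s b' b n fun m hm => (h m hm).symm⟩

lemma mem_SM {Q : QT} (hQ : OpQ Q) (s : Sys) (b : Set ℕ) (z : ℕ → ℕ) (y : ℕ → Bool)
    (u v : ℕ → ℕ) : (∃ n, (pre z n, pre y n, pre u n, pre v n) ∈ SM Q s b) ↔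
      Mx Q s b z (y · = true) u v := by
  refine ⟨fun ⟨n, h⟩ => h b z y u v (fun _ _ => Iff.rfl) (by simp), fun h => ?_⟩
  let J : Set ℕ → (ℕ → ℕ) → (ℕ → Bool) → (ℕ → ℕ) → (ℕ → ℕ) → ℕ → ℕ := fun b z y u v =>
    cns z (cns (ind {n | y n = true}) (cns u (cns v (cns (ind b) fun _ => 0))))
  obtain ⟨N, hN⟩ := opn_Mx hQ s (J b z y u v) (by simpa [J] using h)
  refine ⟨N, fun b' z' y' u' v' h1 h2 => ?_⟩
  simp only [length_pre, Prod.mk.injEq, pre_eq_pre] at h1 h2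
  simpa [J] using hN (J b' z' y' u' v') fun i hi => by
    obtain ⟨a, n, rfl⟩ : ∃ a n, i = Nat.pair a n := ⟨_, _, (Nat.pair_unpair i).symm⟩
    have := (Nat.right_le_pair a n).trans_lt hi
    rcases a with _ | _ | _ | _ | _ | a <;>
      simp [J, ind, h1 n this, h2.1 n this, h2.2.1 n this, h2.2.2.1 n this, h2.2.2.2 n this]

lemma ev_cd : ∀ᶠ C in 𝓕, ∀ Y, C.RR C.k Y → mx (cd C.s C.b (· ∈ Y)) < C.δ ∧
    Px C.s C.b (· ∈ Y) (cd C.s C.b (· ∈ Y)) ∧
    ∀ x, Px C.s C.b (· ∈ Y) x → ¬ wo x (cd C.s C.b (· ∈ Y)) := by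
  filter_upwards [ev_cov] with C h Y hY
  obtain ⟨x, h1, h2⟩ := h Y hY
  refine ⟨lt_of_le_of_lt ?_ (h1.trans (WithBot.coe_lt_coe.2 C.kδ)), cd_spec h2⟩
  rcases wo_tri x (cd C.s C.b (· ∈ Y)) with h | h | h
  exacts [absurd h ((cd_spec h2).2 x h2), h ▸ le_rfl, wo_mx h]

lemma ev_sig {Q : QT} (hQ : OpQ Q) : ∀ᶠ C in 𝓕, Sigma12 (C.W C.k C.δ) {p | ∀ j, Q j p.1
    (cap (fun m => C.T (plug (cd C.s C.b (p.2 · = true)) (nat m))) (p.2 · = true))} := by
  filter_upwards [ev_par (causal_SM Q), ev_cl, ev_wf, ev_cd, ev_hull,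
    ev_ct (Φ := fun n F => F (Nat.pair n 0)) fun n => Cts.proj _,
    ev_op (P := fun c : ℕ => fun u => uW u c.unpair.1 c.unpair.2) fun c => (Clo.eq _ _).opn,
    ev_op (P := fun c : ℕ => fun u => woW (uW u) (dO c.unpair.1) (dO (u (Nat.pair 0 0))) ∧
      ∃ n, c.unpair.2 ≤ n ∧ cap (fun m => uH u (plug (dO c.unpair.1) (nat m)))
        (fun t => u (Nat.pair 3 t) = 1) n) fun c => (Opn.bind (R := fun a u =>
          woW (uW u) (dO c.unpair.1) (dO a)) (Cts.proj _) fun a => (clo_woW _ _ _).opn).and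
        (Opn.ex fun n => ((Clo.const _).and (clo_cap _ _ _)).opn),
    ev_chs (R := fun a j F => ¬ F (Nat.pair a j) = 1) fun a j => (Clo.eq _ _).not]
    with C ⟨j, hj⟩ hC hW hc hH h1 h2 h3 h4
  refine ⟨SM Q C.s C.b, (hC.set le_rfl).2 ((hC.par le_rfl j).of_iff hj), fun z y _ hy => ?_⟩
  simp only [mem_SM hQ, hC.fn le_rfl, Set.mem_ofPred_eq]
  have hy := (hC.set le_rfl).1 hy
  obtain ⟨e1, e2, e3⟩ := hc _ hy
  simp only [Set.mem_ofPred_eq] at e1 e2 e3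
  have h0 := hC.const le_rfl
  constructor
  · intro h
    obtain ⟨e, he⟩ := hH _ e1
    obtain ⟨x, hx⟩ := exists_map he.mem
    have f1 := fun g hg => hC.cns le_rfl (h0 (Encodable.encode x)) (hC.cns le_rfl
      (hC.ind le_rfl (hC.kr le_rfl he.w)) (hC.cns le_rfl (hC.ind le_rfl (hC.kr le_rfl he.h))
      (hC.cns le_rfl (f := g) hg (h0 0))))
    generalize hU : (fun g => cns (fun _ => Encodable.encode x) (cns (ind {c | e c.unpair.1 <
      e c.unpair.2}) (cns (ind {c | C.T (Ob.map e (dO c))}) (cns g fun _ => 0)))) = U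
    have f1 : ∀ g, C.RF C.k g → C.RF C.k (U g) := hU ▸ f1
    have f2 : ∀ g, uW (U g) = fun a c => e a < e c := fun g => by
      ext a c; simp [← hU, uW]
    have f3 : ∀ g, uH (U g) = fun x => C.T (Ob.map e x) := fun g => by
      ext a; simp [← hU, uH]
    have f4 : ∀ g, dO (U g (Nat.pair 0 0)) = x := fun g => by simp [← hU]
    have f5 : ∀ g n, U g (Nat.pair 3 n) = g n := fun g n => by simp [← hU]
    obtain ⟨g, hg, f6⟩ := h4 le_rfl (hC.ind le_rfl (h3.nat le_rfl (f1 _ (hC.ind le_rfl hy))))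
      fun a => by
        simp only [ind_eq_one, Set.mem_ofPred_eq, Nat.unpair_pair, f2, f3, f4, f5,
          woW_iff fun _ _ => Iff.rfl, hx, plug_map, map_nat]
        by_contra hc
        push Not at hc
        exact e3 _ (fun j => (hc j).2) (hc 0).1
    simp only [ind_eq_one, Set.mem_ofPred_eq, Nat.unpair_pair, f2, f3, f4, f5] at f6
    have f7 := isTable_T (fun _ _ => Iff.rfl) he.cl
    refine ⟨U g, f1 g hg, fun v _ => ⟨?_, ?_⟩⟩
    · obtain ⟨_, ⟨n, rfl⟩, hn⟩ := wellFounded_lt.has_min (Set.range fun n => e (v n)) ⟨_, 0, rfl⟩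
      exact ⟨n, f2 g ▸ hn _ ⟨n + 1, rfl⟩⟩
    · simp only [Mx', f2, f3, f4, f5]
      refine ⟨fun h => (lt_or_ge _ _).imp_right fun h' => h'.trans_lt h, (f7 _).1,
        fun h => (f7 _).2 ⟨_, h⟩, ?_, fun h h' => f6 _ ⟨h.1, _, h.2, h'⟩, ?_⟩
      · simpa only [plug_map, map_nat, hx] using e2 (v 0)
      · simpa only [plug_map, map_nat, hx] using h (v 0)
  · rintro ⟨u, hu, h⟩
    have f1 : ∀ a0 a1 a2, Mx' Q C.s C.b z (y · = true) u a0 a1 a2 (u (Nat.pair 0 0)) :=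
      fun a0 a1 a2 => by
        simpa using (h _ (h1 le_rfl (hC.cns le_rfl (h0 a0) (hC.cns le_rfl (h0 a1)
          (hC.cns le_rfl (h0 a2) (h0 0)))))).2
    obtain ⟨e, he, he'⟩ := exists_rank (hW (uW u) (h2.nat le_rfl hu) fun v hv => (h v hv).1)
      fun a b c => (f1 a b c).1
    have f2 : uH u = fun x => C.T (Ob.map e x) := funext fun x => propext
      (IsTable.unique he (closed_lower he') (fun x => ⟨fun h => by
        simpa using (f1 (Encodable.encode x) 0 0).2.1 (by simpa using h), fun ⟨a, h⟩ => by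
        simpa using (f1 (Encodable.encode x) (Encodable.encode a) 0).2.2.1 (by simpa using h)⟩) x)
    simp only [Mx', f2, plug_map, map_nat, woW_iff he] at f1
    have f3 : cd C.s C.b (y · = true) = Ob.map e (dO (u (Nat.pair 0 0))) := by
      rcases wo_tri (cd C.s C.b (y · = true)) (Ob.map e (dO (u (Nat.pair 0 0)))) with h | h | h
      · obtain ⟨x, hx⟩ := exists_map (e := e) (y := cd C.s C.b (y · = true)) fun i hi => by
          have := (le_mx hi).trans (wo_mx h)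
          rcases exists_mx (Ob.map e (dO (u (Nat.pair 0 0)))) with h' | ⟨i', h1, h'⟩
          · simp [h'] at this
          · exact he' (WithBot.coe_le_coe.1 (h' ▸ this)) (mem_range_of_labs _ _ h1)
        obtain ⟨n, f3, f4⟩ := e2 (u (Nat.pair 3 (Encodable.encode x)))
        refine absurd ?_ ((f1 (Encodable.encode x) n 0).2.2.2.2.1 ⟨?_, f3⟩) <;>
          rwa [dO_encode, hx]
      · exact h
      · exact absurd h (e3 _ fun j => (f1 j 0 0).2.2.2.1)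
    rw [f3]
    exact fun j => (f1 j 0 0).2.2.2.2.2

end Pool.Agent.Lib.MP_2c8569_lc
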