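import Pool.Agent.Lib.MP_2c8569_lc.Setup

set_option autoImplicit false

namespace Pool.Agent.Lib.MP_2c8569_lc

open Classical Ob Filter

lemma child.lt {O : Orc} {x z : Obj} {r : Cond} (h : child O x z r) : mx z < mx x :=
  (le_trans (by simp) (le_mx_plug x.snd (enc (z, r)))).trans_lt h.1

lemma child.lt' {O : Orc} {x z : Obj} {r : Cond} (h : child O x z r) : mx (enc r) < mx x :=
  (le_trans (by simp) (le_mx_plug x.snd (enc (z, r)))).trans_lt h.1

namespace Ctx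

variable (C : Ctx)

abbrev M (η : Λ) (p : Cond) (z x : Obj) : Prop := Mem C.T C.k η p z x
abbrev E (η : Λ) (x y : Obj) (p : Cond) : Prop := C.T (pE C.k η x y p)
abbrev Fr (η β : Λ) (φ : Fm) (v : List Obj) (p : Cond) : Prop := C.T (pF C.k η β φ v p)

/-- The value of a name. -/
noncomputable def val (η : Λ) : Obj → ZFSet.{0} :=
  (InvImage.wf mx wellFounded_lt).fix fun x IH =>
    if h : Small.{0} {z // ∃ r ∈ C.G η, child C.T x z r} then
      @ZFSet.range _ h fun z => IH z.1 z.2.choose_spec.2.lt else ∅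

/-- The values of the names of level below `β`. -/
def W (η β : Λ) : Set ZFSet.{0} := {u | ∃ z, mx z < β ∧ C.val η z = u}

variable {C} {η β : Λ} {p q : Cond} {x y z : Obj} {φ ψ : Fm} {v : List Obj}

lemma mem_val (hx : mx x < C.D) {u : ZFSet} :
    u ∈ C.val η x ↔ ∃ z, (∃ r ∈ C.G η, child C.T x z r) ∧ C.val η z = u := by
  have h : Small.{0} {z // ∃ r ∈ C.G η, child C.T x z r} := by
    have := ((countable_obIn C.cnt).mono (s₁ := {z | ∃ r ∈ C.G η, child C.T x z r})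
      fun z ⟨r, _, hz⟩ => mx_lt_iff.1 (hz.lt.trans hx)).to_subtype
    exact Countable.toSmall {z | ∃ r ∈ C.G η, child C.T x z r}
  unfold val
  rw [WellFounded.fix_eq, dif_pos h]
  simp

lemma val_nil : C.val η nil = ∅ := by
  ext u
  simp only [mem_val (x := nil) (by simp), ZFSet.notMem_empty, iff_false]
  rintro ⟨z, ⟨r, -, h⟩, -⟩
  simpa using h.lt

lemma getD_map_val (v : List Obj) (i : ℕ) :
    (v.map (C.val η)).getD i ∅ = C.val η (v.getD i nil) := by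
  rw [← val_nil (C := C) (η := η), List.getD_map]

lemma M_iff : C.M η p z x ↔ ∀ q, C.V η q → Sub p q → ∃ r, C.V η r ∧ Sub q r ∧
    ∃ z' r₀, Sub r₀ r ∧ child C.T x z' r₀ ∧ C.E η z z' r :=
  ⟨fun h q hq hpq => let ⟨r, _, h1, h2, z', _, ⟨r₀, _, h3, h4⟩, h5⟩ := h q hq.mx_lt hq hpq
    ⟨r, h1, h2, z', r₀, h3, h4, h5⟩,
  fun h q _ hq hpq => let ⟨r, h1, h2, z', r₀, h3, h4, h5⟩ := h q hq hpq
    ⟨r, h1.mx_lt, h1, h2, z', h4.lt, ⟨r₀, h4.lt', h3, h4⟩, h5⟩⟩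

lemma E_iff : C.E η x y p ↔ ∀ z, mx z < max (mx x) (mx y) → ∀ q, C.V η q → Sub p q →
    (C.M η q z x ↔ C.M η q z y) :=
  (T_pE C.std _ _ _ _ _).trans ⟨fun h z hz q hq => h z hz q hq.mx_lt hq,
    fun h z hz q _ hq => h z hz q hq⟩

lemma Fr_mem {i j : ℕ} : C.Fr η β (.mem i j) v p ↔ C.M η p (v.getD i nil) (v.getD j nil) := by
  refine (T_pF C.std _ _ _ _ _ _).trans ?_; simp [cF]

lemma Fr_eq {i j : ℕ} : C.Fr η β (.eq i j) v p ↔ C.E η (v.getD i nil) (v.getD j nil) p := by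
  refine (T_pF C.std _ _ _ _ _ _).trans ?_; simp [cF]

lemma Fr_fls : ¬ C.Fr η β .fls v p := by
  refine (T_pF C.std _ _ _ _ _ _).not.2 ?_; simp [cF]

lemma Fr_imp : C.Fr η β (.imp φ ψ) v p ↔
    ∀ q, C.V η q → Sub p q → C.Fr η β φ v q → C.Fr η β ψ v q := by
  refine (T_pF C.std _ _ _ _ _ _).trans ?_
  simp only [cF, reduceCtorEq, false_imp_iff, implies_true, ne_eq, not_false_eq_true, true_and,
    and_true, Fm.imp.injEq, and_imp, forall_apply_eq_imp_iff, forall_eq']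
  exact ⟨fun h q hq => h q hq.mx_lt hq, fun h q _ hq => h q hq⟩

lemma Fr_all : C.Fr η β (.all φ) v p ↔ ∀ z, mx z < β → C.Fr η β φ (z :: v) p := by
  refine (T_pF C.std _ _ _ _ _ _).trans ?_; simp [cF]

lemma M.mono (h : C.M η p z x) (h' : Sub p q) : C.M η q z x :=
  fun r h1 h2 h3 => h r h1 h2 (h'.trans h3)

lemma E.mono (h : C.E η x y p) (h' : Sub p q) : C.E η x y q :=
  E_iff.2 fun z hz r h1 h2 => E_iff.1 h z hz r h1 (h'.trans h2)

lemma Fr.mono (h : C.Fr η β φ v p) (h' : Sub p q) : C.Fr η β φ v q := by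
  induction φ generalizing v with
  | mem i j => exact Fr_mem.2 ((Fr_mem.1 h).mono h')
  | eq i j => exact Fr_eq.2 ((Fr_eq.1 h).mono h')
  | fls => exact absurd h Fr_fls
  | imp φ ψ _ _ => exact Fr_imp.2 fun r h1 h2 => Fr_imp.1 h r h1 (h'.trans h2)
  | all φ ih => exact Fr_all.2 fun z hz => ih (Fr_all.1 h z hz)

lemma M.reg (h : ∀ q, C.V η q → Sub p q → ∃ r, C.V η r ∧ Sub q r ∧ C.M η r z x) : C.M η p z x :=
  M_iff.2 fun q h1 h2 =>
    let ⟨r, h3, h4, h5⟩ := h q h1 h2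
    let ⟨r', h6, h7, h8⟩ := M_iff.1 h5 r h3 Sub.rfl
    ⟨r', h6, h4.trans h7, h8⟩

lemma E.reg (h : ∀ q, C.V η q → Sub p q → ∃ r, C.V η r ∧ Sub q r ∧ C.E η x y r) : C.E η x y p :=
  E_iff.2 fun z hz _ _ h2 => ⟨fun h3 => M.reg fun q' h4 h5 =>
    let ⟨r, h6, h7, h8⟩ := h q' h4 (h2.trans h5)
    ⟨r, h6, h7, (E_iff.1 h8 z hz r h6 Sub.rfl).1 (h3.mono (h5.trans h7))⟩,
  fun h3 => M.reg fun q' h4 h5 =>
    let ⟨r, h6, h7, h8⟩ := h q' h4 (h2.trans h5)
    ⟨r, h6, h7, (E_iff.1 h8 z hz r h6 Sub.rfl).2 (h3.mono (h5.trans h7))⟩⟩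

lemma Fr.reg (hp : C.V η p) (h : ∀ q, C.V η q → Sub p q → ∃ r, C.V η r ∧ Sub q r ∧ C.Fr η β φ v r) :
    C.Fr η β φ v p := by
  induction φ generalizing v p with
  | mem i j => simp only [Fr_mem] at h ⊢; exact M.reg h
  | eq i j => simp only [Fr_eq] at h ⊢; exact E.reg h
  | fls => obtain ⟨r, -, -, h⟩ := h p hp Sub.rfl; exact absurd h Fr_fls
  | imp φ ψ _ ih =>
    refine Fr_imp.2 fun q h1 h2 h3 => ih h1 fun q' h4 h5 => ?_
    obtain ⟨r, h6, h7, h8⟩ := h q' h4 (h2.trans h5)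
    exact ⟨r, h6, h7, Fr_imp.1 h8 r h6 Sub.rfl (h3.mono (h5.trans h7))⟩
  | all φ ih =>
    refine Fr_all.2 fun z hz => ih hp fun q h1 h2 => ?_
    obtain ⟨r, h6, h7, h8⟩ := h q h1 h2
    exact ⟨r, h6, h7, Fr_all.1 h8 z hz⟩

/-- The truth lemma. -/
structure Tr (C : Ctx) : Prop where
  eq : ∀ {η}, η ≤ C.k → ∀ {x y}, mx x < C.D → mx y < C.D →
    ((∃ p ∈ C.G η, C.E η x y p) ↔ C.val η x = C.val η y)
  mem : ∀ {η}, η ≤ C.k → ∀ {x y}, mx x < C.D → mx y < C.D →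
    ((∃ p ∈ C.G η, C.M η p x y) ↔ C.val η x ∈ C.val η y)
  frc : ∀ {η}, η ≤ C.k → ∀ {β}, β < C.D → ∀ φ {v}, mx (enc v) < C.D →
    ((∃ p ∈ C.G η, C.Fr η β φ v p) ↔ Sat (C.W η β) φ (v.map (C.val η)))

end Ctx

open Ctx

lemma ev_tr : ∀ᶠ C in 𝓕, C.Tr := by
  have d1 : Dfn fun O (a : Cond × Λ × Λ × Obj × Obj) => ∃ z', mx z' < mx a.2.2.2.2 ∧
      (∃ r₀ : Cond, mx (enc r₀) < mx a.2.2.2.2 ∧ Sub r₀ a.1 ∧ child O a.2.2.2.2 z' r₀) ∧
      O (pE a.2.1 a.2.2.1 a.2.2.2.1 z' a.1) := by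
    unfold child
    repeat' first
      | (refine Dfn.inv ?_; fun_prop) | (refine Dfn.orc ?_; fun_prop) | assumption
      | refine Dfn.and ?_ ?_ | refine Dfn.or ?_ ?_ | refine Dfn.iff ?_ ?_ | refine Dfn.not ?_
      | refine Dfn.allO (by fun_prop) ?_ | refine Dfn.exO (by fun_prop) ?_
      | refine Dfn.allO' (by fun_prop) ?_ | refine Dfn.exO' (by fun_prop) ?_
      | refine Dfn.allE (by fun_prop) ?_ | refine Dfn.exE (by fun_prop) ?_
      | refine Dfn.allE' (by fun_prop) ?_ | refine Dfn.exE' (by fun_prop) ?_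
      | refine Dfn.allL (by fun_prop) ?_ | refine Dfn.exL (by fun_prop) ?_
      | refine Dfn.allL' (by fun_prop) ?_ | refine Dfn.exL' (by fun_prop) ?_
      | refine Dfn.allM (by fun_prop) ?_ | refine Dfn.exM (by fun_prop) ?_
      | refine Dfn.imp ?_ ?_ | refine Dfn.allP ?_ | refine Dfn.exP ?_
  have d2 : Dfn fun O (a : Cond × Λ × Λ × Obj × Obj) =>
      ∃ z, mx z < max (mx a.2.2.2.1) (mx a.2.2.2.2) ∧ Mem O a.2.1 a.2.2.1 a.1 z a.2.2.2.1 ∧
      ∀ q : Cond, mx (enc q) < a.2.1 → O (pV a.2.1 a.2.2.1 q) → Sub a.1 q →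
        ¬ Mem O a.2.1 a.2.2.1 q z a.2.2.2.2 := by
    unfold Mem child
    repeat' first
      | (refine Dfn.inv ?_; fun_prop) | (refine Dfn.orc ?_; fun_prop) | assumption
      | refine Dfn.and ?_ ?_ | refine Dfn.or ?_ ?_ | refine Dfn.iff ?_ ?_ | refine Dfn.not ?_
      | refine Dfn.allO (by fun_prop) ?_ | refine Dfn.exO (by fun_prop) ?_
      | refine Dfn.allO' (by fun_prop) ?_ | refine Dfn.exO' (by fun_prop) ?_
      | refine Dfn.allE (by fun_prop) ?_ | refine Dfn.exE (by fun_prop) ?_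
      | refine Dfn.allE' (by fun_prop) ?_ | refine Dfn.exE' (by fun_prop) ?_
      | refine Dfn.allL (by fun_prop) ?_ | refine Dfn.exL (by fun_prop) ?_
      | refine Dfn.allL' (by fun_prop) ?_ | refine Dfn.exL' (by fun_prop) ?_
      | refine Dfn.allM (by fun_prop) ?_ | refine Dfn.exM (by fun_prop) ?_
      | refine Dfn.imp ?_ ?_ | refine Dfn.allP ?_ | refine Dfn.exP ?_
  have d3 : Dfn fun O (a : Cond × Λ × Λ × Λ × Fm × List Obj) =>
      O (pF a.2.1 a.2.2.1 a.2.2.2.1 a.2.2.2.2.1 a.2.2.2.2.2 a.1) := by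
    repeat' first
      | (refine Dfn.inv ?_; fun_prop) | (refine Dfn.orc ?_; fun_prop) | assumption
      | refine Dfn.and ?_ ?_ | refine Dfn.or ?_ ?_ | refine Dfn.iff ?_ ?_ | refine Dfn.not ?_
      | refine Dfn.allO (by fun_prop) ?_ | refine Dfn.exO (by fun_prop) ?_
      | refine Dfn.allO' (by fun_prop) ?_ | refine Dfn.exO' (by fun_prop) ?_
      | refine Dfn.allE (by fun_prop) ?_ | refine Dfn.exE (by fun_prop) ?_
      | refine Dfn.allE' (by fun_prop) ?_ | refine Dfn.exE' (by fun_prop) ?_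
      | refine Dfn.allL (by fun_prop) ?_ | refine Dfn.exL (by fun_prop) ?_
      | refine Dfn.allL' (by fun_prop) ?_ | refine Dfn.exL' (by fun_prop) ?_
      | refine Dfn.allM (by fun_prop) ?_ | refine Dfn.exM (by fun_prop) ?_
      | refine Dfn.imp ?_ ?_ | refine Dfn.allP ?_ | refine Dfn.exP ?_
  have d4 : Dfn fun O (a : Cond × Λ × Λ × Λ × Fm × List Obj) => ∃ z, mx z < a.2.2.2.1 ∧
      ∀ q : Cond, mx (enc q) < a.2.1 → O (pV a.2.1 a.2.2.1 q) → Sub a.1 q →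
        ¬ O (pF a.2.1 a.2.2.1 a.2.2.2.1 a.2.2.2.2.1 (z :: a.2.2.2.2.2) q) := by
    repeat' first
      | (refine Dfn.inv ?_; fun_prop) | (refine Dfn.orc ?_; fun_prop) | assumption
      | refine Dfn.and ?_ ?_ | refine Dfn.or ?_ ?_ | refine Dfn.iff ?_ ?_ | refine Dfn.not ?_
      | refine Dfn.allO (by fun_prop) ?_ | refine Dfn.exO (by fun_prop) ?_
      | refine Dfn.allO' (by fun_prop) ?_ | refine Dfn.exO' (by fun_prop) ?_
      | refine Dfn.allE (by fun_prop) ?_ | refine Dfn.exE (by fun_prop) ?_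
      | refine Dfn.allE' (by fun_prop) ?_ | refine Dfn.exE' (by fun_prop) ?_
      | refine Dfn.allL (by fun_prop) ?_ | refine Dfn.exL (by fun_prop) ?_
      | refine Dfn.allL' (by fun_prop) ?_ | refine Dfn.exL' (by fun_prop) ?_
      | refine Dfn.allM (by fun_prop) ?_ | refine Dfn.exM (by fun_prop) ?_
      | refine Dfn.imp ?_ ?_ | refine Dfn.allP ?_ | refine Dfn.exP ?_
  filter_upwards [ev_dec d1, ev_dec d2, ev_dec d3, ev_dec d4] with C h1 h2 h3 h4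
  have hkD := C.kD
  have TM : ∀ {η}, η ≤ C.k → ∀ {z x}, mx z < C.D → mx x < C.D →
      (∀ z', mx z' < mx x → ((∃ p ∈ C.G η, C.E η z z' p) ↔ C.val η z = C.val η z')) →
      ((∃ p ∈ C.G η, C.M η p z x) ↔ C.val η z ∈ C.val η x) := by
    intro η hη z x hz hx ih
    constructor
    · rintro ⟨p, hp, h⟩
      obtain ⟨r, hr, -, z', hz', ⟨r₀, -, h5, h6⟩, h7⟩ := h1.meet hη (a := (C.k, η, z, x))
        (by simp [hz, hx, hkD, hη.trans_lt hkD]) hp fun q hq hpq => by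
          obtain ⟨r, h1, h2, h3, h4⟩ := h q hq.mx_lt hq hpq
          exact ⟨r, h2, h3, h4⟩
      exact (mem_val hx).2 ⟨z', ⟨r₀, (C.gen η hη).lower hr h5, h6⟩, ((ih z' hz').1 ⟨r, hr, h7⟩).symm⟩
    · intro h
      obtain ⟨z', ⟨r₀, hr₀, h5⟩, h6⟩ := (mem_val hx).1 h
      obtain ⟨p, hp, h7⟩ := (ih z' h5.lt).2 h6.symm
      obtain ⟨r, hr, -, h8, h9⟩ := (C.gen η hη).dir hp hr₀
      exact ⟨r, hr, M_iff.2 fun q hq hrq =>
        ⟨q, hq, Sub.rfl, z', r₀, h9.trans hrq, h5, h7.mono (h8.trans hrq)⟩⟩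
  have TE : ∀ {η}, η ≤ C.k → ∀ (μ : WithBot Λ) {x y}, mx x < C.D → mx y < C.D →
      max (mx x) (mx y) = μ → ((∃ p ∈ C.G η, C.E η x y p) ↔ C.val η x = C.val η y) := by
    intro η hη μ
    induction μ using WellFoundedLT.induction with
    | _ μ ih =>
    intro x y hx hy hμ
    have hM : ∀ z w, mx z < μ → mx w ≤ μ → mx w < C.D →
        ((∃ p ∈ C.G η, C.M η p z w) ↔ C.val η z ∈ C.val η w) := fun z w hz hw hw' => by
      have hz' : mx z < C.D := hz.trans (hμ ▸ max_lt hx hy)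
      exact TM hη hz' hw' fun z' h => ih _ (max_lt hz (h.trans_le hw)) hz' (h.trans hw') rfl
    have hxμ : mx x ≤ μ := hμ ▸ le_max_left _ _
    have hyμ : mx y ≤ μ := hμ ▸ le_max_right _ _
    constructor
    · rintro ⟨p, hp, h⟩
      have key : ∀ z, mx z < μ → (C.val η z ∈ C.val η x ↔ C.val η z ∈ C.val η y) := by
        intro z hz
        rw [← hM z x hz hxμ hx, ← hM z y hz hyμ hy]
        constructor <;> rintro ⟨p', hp', h'⟩ <;>
          obtain ⟨r, hr, h5, h6, h7⟩ := (C.gen η hη).dir hp hp'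
        · exact ⟨r, hr, (E_iff.1 h z (hμ ▸ hz) r h5 h6).1 (h'.mono h7)⟩
        · exact ⟨r, hr, (E_iff.1 h z (hμ ▸ hz) r h5 h6).2 (h'.mono h7)⟩
      ext u
      constructor <;> intro hu
      · obtain ⟨z, ⟨r, -, h5⟩, rfl⟩ := (mem_val hx).1 hu
        exact (key z (h5.lt.trans_le hxμ)).1 hu
      · obtain ⟨z, ⟨r, -, h5⟩, rfl⟩ := (mem_val hy).1 hu
        exact (key z (h5.lt.trans_le hyμ)).2 hu
    · intro h
      have key : ∀ x' y', mx x' < C.D → mx y' < C.D → max (mx x') (mx y') = μ →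
          C.val η x' = C.val η y' → ∃ p ∈ C.G η, ∀ z, mx z < μ → ∀ q, C.V η q → Sub p q →
            C.M η q z x' → C.M η q z y' := by
        intro x' y' hx' hy' hμ' h'
        obtain ⟨p, hp, -, h5⟩ := h2.avoid hη (a := (C.k, η, x', y'))
          (by simp [hx', hy', hkD, hη.trans_lt hkD]) (by
            rintro r hr - ⟨z, hz, h5, h6⟩
            simp only [hμ'] at hz
            have := (hM z x' hz (hμ' ▸ le_max_left _ _) hx').1 ⟨r, hr, h5⟩
            rw [h'] at this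
            obtain ⟨p', hp', h7⟩ := (hM z y' hz (hμ' ▸ le_max_right _ _) hy').2 this
            obtain ⟨r', -, h8, h9, h10⟩ := (C.gen η hη).dir hr hp'
            exact h6 r' (V.mx_lt h8) h8 h9 (h7.mono h10))
        refine ⟨p, hp, fun z hz q hq hpq h6 => M.reg fun q' hq' hqq' => ?_⟩
        by_contra hc
        exact h5 q' hq' (hpq.trans hqq') ⟨z, hμ' ▸ hz, h6.mono hqq',
          fun r _ hr hr' h7 => hc ⟨r, hr, hr', h7⟩⟩
      obtain ⟨p, hp, h5⟩ := key x y hx hy hμ h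
      obtain ⟨p', hp', h6⟩ := key y x hy hx (by rw [max_comm, hμ]) h.symm
      obtain ⟨r, hr, -, h8, h9⟩ := (C.gen η hη).dir hp hp'
      exact ⟨r, hr, E_iff.2 fun z hz q hq hrq => ⟨h5 z (hμ ▸ hz) q hq (h8.trans hrq),
        h6 z (hμ ▸ hz) q hq (h9.trans hrq)⟩⟩
  have TM' : ∀ {η}, η ≤ C.k → ∀ {x y}, mx x < C.D → mx y < C.D →
      ((∃ p ∈ C.G η, C.M η p x y) ↔ C.val η x ∈ C.val η y) := fun hη _ _ hx hy =>
    TM hη hx hy fun z' h => TE hη _ hx (h.trans hy) rfl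
  refine ⟨fun hη _ _ hx hy => TE hη _ hx hy rfl, TM', fun {η} hη {β} hβ φ => ?_⟩
  have hηD := hη.trans_lt hkD
  induction φ with
  | mem i j =>
    intro v hv
    simp only [Fr_mem, Sat, getD_map_val]
    exact TM' hη ((mx_getD_le v i).trans_lt hv) ((mx_getD_le v j).trans_lt hv)
  | eq i j =>
    intro v hv
    simp only [Fr_eq, Sat, getD_map_val]
    exact TE hη _ ((mx_getD_le v i).trans_lt hv) ((mx_getD_le v j).trans_lt hv) rfl
  | fls => intro v _; simp [Fr_fls, Sat]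
  | imp φ ψ ih ih' =>
    intro v hv
    simp only [Sat, ← ih hv, ← ih' hv]
    constructor
    · rintro ⟨p, hp, h⟩ ⟨p', hp', h'⟩
      obtain ⟨r, hr, h5, h6, h7⟩ := (C.gen η hη).dir hp hp'
      exact ⟨r, hr, Fr_imp.1 h r h5 h6 (h'.mono h7)⟩
    · intro h
      by_cases h' : ∃ p ∈ C.G η, C.Fr η β φ v p
      · obtain ⟨p, hp, h⟩ := h h'
        exact ⟨p, hp, Fr_imp.2 fun q _ hq _ => h.mono hq⟩
      · obtain ⟨p, hp, -, h5⟩ := h3.avoid hη (a := (C.k, η, β, φ, v))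
          (by simp [hv, hkD, hηD, hβ]) fun r hr _ h => h' ⟨r, hr, h⟩
        exact ⟨p, hp, Fr_imp.2 fun q hq hq' h => absurd h (h5 q hq hq')⟩
  | all φ ih =>
    intro v hv
    have hz : ∀ z, mx z < β → mx (enc (z :: v)) < C.D := fun z hz => by
      simp [hv, hz.trans (WithBot.coe_lt_coe.2 hβ)]
    constructor
    · rintro ⟨p, hp, h⟩ _ ⟨z, hz', rfl⟩
      exact (ih (hz z hz')).1 ⟨p, hp, Fr_all.1 h z hz'⟩
    · intro h
      obtain ⟨p, hp, hp', h5⟩ := h4.avoid hη (a := (C.k, η, β, φ, v))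
        (by simp [hv, hkD, hηD, hβ]) (by
          rintro r hr - ⟨z, hz', h6⟩
          obtain ⟨p', hp', h7⟩ := (ih (hz z hz')).2 (h _ ⟨z, hz', rfl⟩)
          obtain ⟨r', -, h8, h9, h10⟩ := (C.gen η hη).dir hr hp'
          exact h6 r' (V.mx_lt h8) h8 h9 (h7.mono h10))
      refine ⟨p, hp, Fr_all.2 fun z hz' => Fr.reg hp' fun q hq hq' => ?_⟩
      by_contra hc
      exact h5 q hq hq' ⟨z, hz', fun r _ hr hr' h7 => hc ⟨r, hr, hr', h7⟩⟩

end Pool.Agent.Lib.MP_2c8569_lc
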