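import Pool.Agent.Lib.MP_2c8569_lc.Cond

set_option autoImplicit false

namespace Pool.Agent.Lib.MP_2c8569_lc

open Classical Ob Filter

variable {s : Sys} {b : Set ℕ} {k η ξ : Λ} {p q r : Cond}

/-- Valid conditions of the iteration of length `η`. -/
def Valid (s : Sys) (b : Set ℕ) (k η : Λ) (p : Cond) : Prop := T s b (pV k η p)

section
variable (hs : Std s)
include hs

lemma Valid.mx_lt (h : Valid s b k η p) : mx (enc p) < k := ((T_pV hs k η p).1 h).1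
lemma Valid.le (h : Valid s b k η p) : η ≤ k := ((T_pV hs k η p).1 h).2.1
lemma Valid.supp (h : Valid s b k η p) : Supp η p := ((T_pV hs k η p).1 h).2.2.1
lemma Valid.func (h : Valid s b k η p) : ∀ c ∈ p.1, ∀ c' ∈ p.1, c.1 = c'.1 → c.2.1 = c'.2.1 →
    c.2.2 = c'.2.2 := ((T_pV hs k η p).1 h).2.2.2.1
lemma Valid.prom (h : Valid s b k η p) : ∀ c ∈ p.2, ∀ c' ∈ p.1, c'.1 = c.1 → c.2.2 ≤ c'.2.1 →
    Bnd (T s b) k c.1 c.2.1 c'.2.1 c'.2.2 (res c.1 p) := ((T_pV hs k η p).1 h).2.2.2.2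

lemma valid_emp (h : η ≤ k) : Valid s b k η emp :=
  (T_pV hs k η _).2 ⟨by simp, h, by simp [Supp, emp], by simp [emp], by simp [emp]⟩

lemma Valid.of_supp (h : Valid s b k η p) (h' : Supp ξ p) (hξ : ξ ≤ k) : Valid s b k ξ p :=
  (T_pV hs k ξ _).2 ⟨h.mx_lt hs, hξ, h', h.func hs, h.prom hs⟩

lemma Valid.mono (h : Valid s b k ξ p) (h' : ξ ≤ η) (hη : η ≤ k) : Valid s b k η p :=
  h.of_supp hs ((h.supp hs).mono h') hη

lemma Valid.res (h : Valid s b k η p) (hξ : ξ ≤ k) : Valid s b k ξ (res ξ p) := by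
  refine (T_pV hs k ξ _).2 ⟨(res_sub ξ p).mx_lt (h.mx_lt hs), hξ, supp_res ξ p,
    fun c hc c' hc' => h.func hs c (mem_res1.1 hc).1 c' (mem_res1.1 hc').1,
    fun c hc c' hc' h1 h2 => (h.prom hs c (mem_res2.1 hc).1 c' (mem_res1.1 hc').1 h1 h2).mono ?_⟩
  have := (mem_res2.1 hc).2
  exact ⟨fun a ha => by simp only [mem_res1] at ha ⊢; exact ⟨⟨ha.1, ha.2.trans this⟩, ha.2⟩,
    fun a ha => by simp only [mem_res2] at ha ⊢; exact ⟨⟨ha.1, ha.2.trans this⟩, ha.2⟩⟩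

lemma valid_un (hp : Valid s b k η p) (hq : Valid s b k η q)
    (h1 : ∀ c ∈ p.1, ∀ c' ∈ q.1, c.1 = c'.1 → c ∈ q.1 ∨ c' ∈ p.1)
    (h2 : ∀ c ∈ p.2, ∀ c' ∈ q.1, c'.1 = c.1 → c ∈ q.2 ∨ c' ∈ p.1)
    (h3 : ∀ c ∈ q.2, ∀ c' ∈ p.1, c'.1 = c.1 → c ∈ p.2 ∨ c' ∈ q.1) : Valid s b k η (un p q) := by
  refine (T_pV hs k η _).2 ⟨mx_un_lt (hp.mx_lt hs) (hq.mx_lt hs), hp.le hs,
    (hp.supp hs).un (hq.supp hs), fun c hc c' hc' h => ?_, fun c hc c' hc' h h' => ?_⟩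
  · rcases mem_un1.1 hc with hc | hc <;> rcases mem_un1.1 hc' with hc' | hc'
    · exact hp.func hs c hc c' hc' h
    · exact (h1 c hc c' hc' h).elim (fun hc => hq.func hs c hc c' hc' h)
        fun hc' => hp.func hs c hc c' hc' h
    · exact (h1 c' hc' c hc h.symm).elim (fun hc' => hq.func hs c hc c' hc' h)
        fun hc => hp.func hs c hc c' hc' h
    · exact hq.func hs c hc c' hc' h
  · have e1 := fun hc hc' => (hp.prom hs c hc c' hc' h h').mono ((sub_un_left p q).res c.1)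
    have e2 := fun hc hc' => (hq.prom hs c hc c' hc' h h').mono ((sub_un_right p q).res c.1)
    rcases mem_un2.1 hc with hc | hc <;> rcases mem_un1.1 hc' with hc' | hc'
    · exact e1 hc hc'
    · exact (h2 c hc c' hc' h).elim (fun hc => e2 hc hc') fun hc' => e1 hc hc'
    · exact (h3 c hc c' hc' h).elim (fun hc => e1 hc hc') fun hc' => e2 hc hc'
    · exact e2 hc hc'

lemma Valid.amalg (hp : Valid s b k η p) (hr : Valid s b k ξ r) (hξ : ξ ≤ η)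
    (h : Sub (MP_2c8569_lc.res ξ p) r) : Valid s b k η (un p r) :=
  valid_un hs hp (hr.mono hs hξ (hp.le hs))
    (fun _ hc c' hc' h' => .inl (h.1 (mem_res1.2 ⟨hc, h' ▸ (hr.supp hs).1 c' hc'⟩)))
    (fun _ hc c' hc' h' => .inl (h.2 (mem_res2.2 ⟨hc, h' ▸ (hr.supp hs).1 c' hc'⟩)))
    (fun c hc _ hc' h' => .inr (h.1 (mem_res1.2 ⟨hc', h' ▸ (hr.supp hs).2 c hc⟩)))

lemma Valid.add_prom (hp : Valid s b k η p) (hξ : ξ < η) {x : Obj} (hx : mx x < k) :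
    ∃ n, Valid s b k η (p.1, (ξ, x, n) :: p.2) := by
  obtain ⟨n, hn⟩ := (List.finite_toSet (p.1.map fun c => c.2.1)).bddAbove
  have h1 := mx_cond_lt.1 (hp.mx_lt hs)
  refine ⟨n + 1, (T_pV hs k η _).2 ⟨mx_cond_lt.2 ⟨h1.1, ?_⟩, hp.le hs, ⟨(hp.supp hs).1, ?_⟩,
    fun c hc c' hc' => hp.func hs c hc c' hc', fun c hc c' hc' h h' => ?_⟩⟩
  · exact List.forall_mem_cons.2 ⟨⟨hξ.trans_le (hp.le hs), hx⟩, h1.2⟩
  · exact List.forall_mem_cons.2 ⟨hξ, (hp.supp hs).2⟩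
  · rcases List.mem_cons.1 hc with rfl | hc
    · have := hn (List.mem_map.2 ⟨c', hc', rfl⟩)
      simp only at h' this
      omega
    · exact (hp.prom hs c hc c' hc' h h').mono 
        (Sub.res (p := p) (q := (p.1, (ξ, x, n + 1) :: p.2)) ⟨fun _ h => h, by simp⟩ _)

omit hs in
lemma Valid.exists_bnd (hr : Valid s b k ξ r) (n : ℕ) (l : List Obj) :
    ∃ r', Valid s b k ξ r' ∧ Sub r r' ∧ ∃ M, ∀ x ∈ l, Bnd (T s b) k ξ x n M r' := by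
  induction l with
  | nil => exact ⟨r, hr, Sub.rfl, 0, by simp⟩
  | cons x l ih =>
    obtain ⟨r', h1, h2, M, h3⟩ := ih
    by_cases h : ∃ r'', Valid s b k ξ r'' ∧ Sub r' r'' ∧ ∃ m, Hit (T s b) x (Nat.pair n m) r''
    · obtain ⟨r'', h4, h5, m, h6⟩ := h
      refine ⟨r'', h4, h2.trans h5, max M m, List.forall_mem_cons.2 ⟨fun q hq1 hq2 hq3 _ =>
        ⟨q, hq1, hq2, Sub.rfl, m, le_max_right _ _, h6.mono hq3⟩, fun y hy => ?_⟩⟩
      exact ((h3 y hy).mono h5).mono' (le_max_left _ _)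
    · exact ⟨r', h1, h2, M, List.forall_mem_cons.2
        ⟨fun q _ hq2 hq3 hq4 => absurd ⟨q, hq2, hq3, hq4⟩ h, h3⟩⟩

lemma Valid.add_stem (hp : Valid s b k η p) (hξ : ξ < η) {n : ℕ}
    (hn : ∀ c ∈ p.1, c.1 = ξ → c.2.1 ≠ n) (hr : Valid s b k ξ r)
    (h : Sub (MP_2c8569_lc.res ξ p) r) :
    ∃ B, ∀ v, B ≤ v → ∃ q, Valid s b k η q ∧ Sub p q ∧ Sub r q ∧ (ξ, n, v) ∈ q.1 := by
  obtain ⟨r', h1, h2, M, h3⟩ := hr.exists_bnd n (p.2.map fun c => c.2.1)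
  have h4 := hp.amalg hs h1 hξ.le (h.trans h2)
  have h5 := mx_cond_lt.1 (h4.mx_lt hs)
  have hn' : ∀ c ∈ (un p r').1, c.1 = ξ → c.2.1 ≠ n := fun c hc h' =>
    (mem_un1.1 hc).elim (fun hc => hn c hc h') fun hc => absurd ((h1.supp hs).1 c hc) h'.not_lt
  have hsub : ∀ v, Sub (un p r') ((ξ, n, v) :: (un p r').1, (un p r').2) := fun v =>
    ⟨by simp, fun _ h => h⟩
  refine ⟨M, fun v hv => ⟨((ξ, n, v) :: (un p r').1, (un p r').2), (T_pV hs k η _).2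
    ⟨mx_cond_lt.2 ⟨?_, h5.2⟩, hp.le hs, ⟨?_, (h4.supp hs).2⟩, fun c hc c' hc' e1 e2 => ?_,
      fun c hc c' hc' e1 e2 => ?_⟩, (sub_un_left _ _).trans (hsub v),
    (h2.trans (sub_un_right _ _)).trans (hsub v), by simp⟩⟩
  · exact List.forall_mem_cons.2 ⟨hξ.trans_le (hp.le hs), h5.1⟩
  · exact List.forall_mem_cons.2 ⟨hξ, (h4.supp hs).1⟩
  · rcases List.mem_cons.1 hc with rfl | hc <;> rcases List.mem_cons.1 hc' with rfl | hc'
    · rfl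
    · exact absurd e2.symm (hn' c' hc' e1.symm)
    · exact absurd e2 (hn' c hc e1)
    · exact h4.func hs c hc c' hc' e1 e2
  · rcases List.mem_cons.1 hc' with rfl | hc'
    · simp only at e1 e2 ⊢
      rcases mem_un2.1 hc with hc | hc
      · rw [← e1]
        exact ((h3 _ (List.mem_map.2 ⟨c, hc, rfl⟩)).mono' hv).mono
          ((h1.supp hs).sub_res ((sub_un_right _ _).trans (hsub v)))
      · exact absurd ((h1.supp hs).2 c hc) e1.symm.not_lt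
    · exact (h4.prom hs c hc c' hc' e1 e2).mono ((hsub v).res _)

end

/-- The program `x` enumerates the labels below `ζ`. -/
def Enu (O : Orc) (x : Obj) (ζ : Λ) : Prop :=
  (ζ : WithBot Λ) ≤ mx x ∧ (∀ i, i < ζ → ∃ n : ℕ, O (plug x (enc (i, n)))) ∧
  ∀ (n : ℕ) (i : Λ), (i : WithBot Λ) ≤ mx x → ∀ j : Λ, (j : WithBot Λ) ≤ mx x →
    O (plug x (enc (i, n))) → O (plug x (enc (j, n))) → i = j

/-- The properties of the labels `k < a < δ`: below `δ`, `k` is the least label that is not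
enumerated, and reflection and the power set property hold. -/
structure Good (s : Sys) (b : Set ℕ) (k a δ : Λ) : Prop where
  ka : k < a
  aδ : a < δ
  om : Ordinal.omega0 < δ
  enu : ∀ ζ < k, ∃ x, mx x < a ∧ Enu (T s b) x ζ
  nenu : ∀ x, mx x < δ → ¬ Enu (T s b) x k
  refl : ∀ α < δ, ∃ β, α < β ∧ β < δ ∧ Closed s b (insert δ (Set.Iio β))
  pw : ∀ α < δ, ∃ β < δ, ∀ x, mx x < δ → ∃ x', mx x' < β ∧
    ∀ y, mx y < α → (T s b (plug x y) ↔ T s b (plug x' y))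

/-- Generic filters. -/
structure Gen (s : Sys) (b : Set ℕ) (k η D : Λ) (G : Set Cond) : Prop where
  lower : ∀ {p q}, q ∈ G → Sub p q → p ∈ G
  dir : ∀ {p q}, p ∈ G → q ∈ G → ∃ r ∈ G, Valid s b k η r ∧ Sub p r ∧ Sub q r
  dec : ∀ x, mx x < D → ∃ p ∈ G, Valid s b k η p ∧ (T s b (plug x (enc p)) ∨
    ∀ q, Valid s b k η q → Sub p q → ¬ T s b (plug x (enc q)))

/-- All the data of the construction. -/
structure Ctx where
  s : Sys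
  b : Set ℕ
  k : Λ
  a : Λ
  δ : Λ
  D : Λ
  G : Λ → Set Cond
  std : Std s
  good : Good s b k a δ
  δD : δ < D
  lim : ∀ i < D, i + 1 < D
  cnt : (Set.Iio D).Countable
  gen : ∀ η ≤ k, Gen s b k η D (G η)
  mem_G : ∀ η p, p ∈ G η ↔ p ∈ G k ∧ Supp η p

/-- `g s b` at `n` depends only on `b` below `n`. -/
def Causal (g : Sys → Set ℕ → Set ℕ) : Prop :=
  ∀ s b b' n, (∀ m < n, m ∈ b ↔ m ∈ b') → (n ∈ g s b ↔ n ∈ g s b')

/-- The filter of sufficiently rich contexts. -/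
def 𝓕 : Filter Ctx :=
  (⨅ φ : F, 𝓟 {C | ∃ d, C.s d = φ}) ⊓
    ⨅ g : {g // Causal g}, 𝓟 {C | ∃ j, ∀ n, Nat.pair j n ∈ C.b ↔ n ∈ g.1 C.s C.b}

lemma ev_has (φ : F) : ∀ᶠ C in 𝓕, ∃ d, C.s d = φ :=
  mem_inf_of_left (mem_iInf_of_mem φ (mem_principal_self _))

lemma ev_par {g : Sys → Set ℕ → Set ℕ} (hg : Causal g) :
    ∀ᶠ C in 𝓕, ∃ j, ∀ n, Nat.pair j n ∈ C.b ↔ n ∈ g C.s C.b :=
  mem_inf_of_right (mem_iInf_of_mem ⟨g, hg⟩ (mem_principal_self _))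

lemma ev_rep {α : Type*} [Enc α] {P : Orc → α → Prop} (h : Dfn P) :
    ∀ᶠ C in 𝓕, ∃ d, Rep C.s d P := by
  obtain ⟨φ, hφ⟩ := h.exists_rep
  filter_upwards [ev_has φ] with C ⟨d, hd⟩ using ⟨d, hφ _ d hd⟩

lemma ev_prog {α β : Type*} [Enc α] [Enc β] {P : Orc → β × α → Prop} (h : Dfn P) :
    ∀ᶠ C in 𝓕, ∃ d, Prog C.s d P := by
  obtain ⟨φ, hφ⟩ := h.exists_prog
  filter_upwards [ev_has φ] with C ⟨d, hd⟩ using ⟨d, hφ _ d hd⟩

namespace Ctx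

variable (C : Ctx)

abbrev T : Orc := MP_2c8569_lc.T C.s C.b
abbrev V (η : Λ) (p : Cond) : Prop := Valid C.s C.b C.k η p

lemma kδ : C.k < C.δ := C.good.ka.trans C.good.aδ
lemma kD : C.k < C.D := C.kδ.trans C.δD

lemma succ_lt {i : Λ} (h : i < C.δ) : i + 1 < C.δ := by
  obtain ⟨β, h1, h2, -⟩ := C.good.refl i h
  exact (Order.add_one_le_iff.2 h1).trans_lt h2

lemma exists_lt_D {μ : WithBot Λ} (h : μ < C.D) : ∃ l < C.D, C.k < l ∧ μ < l := by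
  cases μ with
  | bot => exact ⟨C.δ, C.δD, C.kδ, by simp⟩
  | coe i =>
    refine ⟨max i C.k + 1, C.lim _ (max_lt (by simpa using h) C.kD), ?_, ?_⟩
    · exact Order.lt_add_one_iff.2 (le_max_right _ _)
    · exact WithBot.coe_lt_coe.2 (Order.lt_add_one_iff.2 (le_max_left _ _))

lemma exists_lt_δ {μ : WithBot Λ} (h : μ < C.δ) : ∃ l < C.δ, C.k < l ∧ μ < l := by
  cases μ with
  | bot => exact ⟨C.a, C.good.aδ, C.good.ka, by simp⟩
  | coe i =>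
    refine ⟨max i C.k + 1, C.succ_lt (max_lt (by simpa using h) C.kδ), ?_, ?_⟩
    · exact Order.lt_add_one_iff.2 (le_max_right _ _)
    · exact WithBot.coe_lt_coe.2 (Order.lt_add_one_iff.2 (le_max_left _ _))

variable {C}

lemma V.mx_lt (h : C.V η p) : mx (enc p) < C.k := Valid.mx_lt C.std h

lemma exists_valid (hη : η ≤ C.k) (hp : p ∈ C.G η) : ∃ r ∈ C.G η, C.V η r ∧ Sub p r :=
  let ⟨r, h1, h2, h3, _⟩ := (C.gen η hη).dir hp hp; ⟨r, h1, h2, h3⟩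

lemma mx_lt_of_mem (hη : η ≤ C.k) (hp : p ∈ C.G η) : mx (enc p) < C.k :=
  let ⟨_, _, h2, h3⟩ := exists_valid hη hp; h3.mx_lt h2.mx_lt

lemma emp_mem (hη : η ≤ C.k) : emp ∈ C.G η :=
  let ⟨p, hp, _⟩ := (C.gen η hη).dec nil (by simp); (C.gen η hη).lower hp (emp_sub p)

lemma G_mono (h : ξ ≤ η) (hp : p ∈ C.G ξ) : p ∈ C.G η :=
  (C.mem_G η p).2 ⟨((C.mem_G ξ p).1 hp).1, ((C.mem_G ξ p).1 hp).2.mono h⟩

/-- The generic filters decide `P`. -/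
def Dec (C : Ctx) {α : Type*} [Enc α] (P : Orc → Cond × α → Prop) : Prop :=
  ∀ η ≤ C.k, ∀ a, mx (enc a) < C.D → ∃ p ∈ C.G η, C.V η p ∧
    (P C.T (p, a) ∨ ∀ q, C.V η q → Sub p q → ¬ P C.T (q, a))

lemma Dec.meet {α : Type*} [Enc α] {P : Orc → Cond × α → Prop} (h : C.Dec P) (hη : η ≤ C.k)
    {a : α} (ha : mx (enc a) < C.D) (hp : p ∈ C.G η)
    (hd : ∀ q, C.V η q → Sub p q → ∃ r, C.V η r ∧ Sub q r ∧ P C.T (r, a)) :
    ∃ r ∈ C.G η, C.V η r ∧ P C.T (r, a) := by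
  obtain ⟨q, h1, h2, h3 | h3⟩ := h η hη a ha
  · exact ⟨q, h1, h2, h3⟩
  · obtain ⟨r, -, h4, h5, h6⟩ := (C.gen η hη).dir hp h1
    obtain ⟨r', h7, h8, h9⟩ := hd r h4 h5
    exact absurd h9 (h3 r' h7 (h6.trans h8))

lemma Dec.avoid {α : Type*} [Enc α] {P : Orc → Cond × α → Prop} (h : C.Dec P) (hη : η ≤ C.k)
    {a : α} (ha : mx (enc a) < C.D) (hd : ∀ r ∈ C.G η, C.V η r → ¬ P C.T (r, a)) :
    ∃ p ∈ C.G η, C.V η p ∧ ∀ q, C.V η q → Sub p q → ¬ P C.T (q, a) :=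
  let ⟨q, h1, h2, h3⟩ := h η hη a ha; ⟨q, h1, h2, h3.resolve_left (hd q h1 h2)⟩

end Ctx

lemma ev_dec {α : Type*} [Enc α] {P : Orc → Cond × α → Prop} (h : Dfn P) :
    ∀ᶠ C in 𝓕, C.Dec P := by
  filter_upwards [ev_prog h] with C ⟨d, hd⟩ η hη a ha
  obtain ⟨l, hl, h1, h2⟩ := C.exists_lt_D ha
  obtain ⟨p, hp, h3, h4⟩ := (C.gen η hη).dec (prog d l a) (by simp [hl, ha])
  refine ⟨p, hp, h3, h4.imp (fun h => ((hd _ l a p h2).1 h).2) fun h q hq hq' h' => ?_⟩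
  exact h q hq hq' ((hd _ l a q h2).2 ⟨hq.mx_lt.trans (WithBot.coe_lt_coe.2 h1), h'⟩)

end Pool.Agent.Lib.MP_2c8569_lc
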