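import Pool.Agent.Lib.MP_2c8569_lc.Truth

set_option autoImplicit false

namespace Pool.Agent.Lib.MP_2c8569_lc

open Classical Ob Filter

lemma mem_natZ {n : ℕ} {u : ZFSet} : u ∈ natZ n ↔ ∃ m < n, natZ m = u := by
  induction n with
  | zero => exact iff_of_false (ZFSet.notMem_empty u) (by simp)
  | succ n ih =>
    have : natZ (n + 1) = insert (natZ n) (natZ n) := rfl
    rw [this, ZFSet.mem_insert_iff, ih]
    constructor
    · rintro (rfl | ⟨m, hm, rfl⟩)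
      exacts [⟨n, by omega, rfl⟩, ⟨m, by omega, rfl⟩]
    · rintro ⟨m, hm, rfl⟩
      rcases Nat.lt_succ_iff_lt_or_eq.1 hm with hm | rfl
      exacts [.inr ⟨m, hm, rfl⟩, .inl rfl]

lemma mem_omega {u : ZFSet} : u ∈ ZFSet.omega ↔ ∃ n, natZ n = u := by
  constructor
  · intro hz
    induction u using Quotient.inductionOn with
    | _ z =>
      obtain ⟨⟨n⟩, hn⟩ := ZFSet.mk_mem_iff.1 hz
      exact ⟨n, (ZFSet.sound hn).symm⟩
  · rintro ⟨n, rfl⟩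
    exact ZFSet.mk_mem_iff.2 ⟨⟨n⟩, PSet.Equiv.refl _⟩

lemma natZ_inj {m n : ℕ} : natZ m = natZ n ↔ m = n := by
  refine ⟨fun h => ?_, fun h => h ▸ rfl⟩
  rcases lt_trichotomy m n with h' | h' | h'
  · exact absurd (mem_natZ.2 ⟨m, h', h⟩) (ZFSet.mem_irrefl _)
  · exact h'
  · exact absurd (mem_natZ.2 ⟨n, h', h.symm⟩) (ZFSet.mem_irrefl _)

lemma mem_setZ {S : Set ℕ} {u : ZFSet} : u ∈ setZ S ↔ ∃ n ∈ S, natZ n = u := by
  simp only [setZ, ZFSet.mem_sep, mem_omega]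
  exact ⟨fun ⟨_, n, h, h'⟩ => ⟨n, h, h'.symm⟩, fun ⟨n, h, h'⟩ => ⟨⟨n, h'⟩, n, h, h'.symm⟩⟩

lemma natZ_mem_setZ {S : Set ℕ} {n : ℕ} : natZ n ∈ setZ S ↔ n ∈ S := by simp [mem_setZ, natZ_inj]

lemma mem_funZ {f : ℕ → ℕ} {u : ZFSet} :
    u ∈ funZ f ↔ ∃ n, ZFSet.pair (natZ n) (natZ (f n)) = u := by simp [funZ]

lemma pair_mem_funZ {f : ℕ → ℕ} {n m : ℕ} :
    ZFSet.pair (natZ n) (natZ m) ∈ funZ f ↔ f n = m := by
  simp [mem_funZ, ZFSet.pair_inj, natZ_inj]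

lemma Prog.child {s : Sys} {α : Type*} [Enc α] {d : ℕ} {P : Orc → (Obj × Cond) × α → Prop}
    (h : Prog s d P) (b : Set ℕ) {l l' : Λ} (hl : l < l') {a : α} (ha : mx (enc a) < l) (z : Obj)
    (r : Cond) : child (T s b) (node (lab l') (prog d l a)) z r ↔
      (mx z < l ∧ mx (enc r) < l) ∧ P (T s b) ((z, r), a) := by
  have h1 := WithBot.coe_lt_coe.2 hl
  unfold MP_2c8569_lc.child
  rw [snd_node, h b l a (z, r) ha]
  simp only [mx_plug_prog, mx_node, mx_lab, mx_prog, enc_pair, enc_obj, max_lt_iff]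
  refine and_iff_right_of_imp fun h => ?_
  have := h.1.1
  have := h.1.2
  refine ⟨⟨?_, ?_⟩, ?_, ?_⟩ <;> order

noncomputable def upn (d : ℕ) (l l' : Λ) (x y : Obj) : Obj := node (lab l') (prog d l (x, y))

/-- The name of an ordered pair. -/
noncomputable def opn (d : ℕ) (L : Λ × Λ × Λ × Λ) (x y : Obj) : Obj :=
  upn d L.2.2.1 L.2.2.2 (upn d L.1 L.2.1 x x) (upn d L.1 L.2.1 x y)

noncomputable def Lv (l : Λ) : Λ × Λ × Λ × Λ := (l, l + 1, l + 1 + 1, l + 1 + 1 + 1)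

@[fun_prop] lemma Inv.opn {α : Type*} [Act α] {d : α → ℕ} {L : α → Λ × Λ × Λ × Λ} {x y : α → Obj}
    (h1 : Inv d) (h2 : Inv L) (h3 : Inv x) (h4 : Inv y) :
    Inv fun a => opn (d a) (L a) (x a) (y a) := by unfold MP_2c8569_lc.opn upn; fun_prop

lemma lt_succ' (l : Λ) : l < l + 1 := Order.lt_add_one_iff.2 le_rfl

lemma lt_succ'' (l : Λ) : (l : WithBot Λ) < (l + 1 : Λ) := WithBot.coe_lt_coe.2 (lt_succ' l)

lemma mx_opn {d : ℕ} {l : Λ} {x y : Obj} (hx : mx x < l) (hy : mx y < l) :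
    mx (opn d (Lv l) x y) = (l + 1 + 1 + 1 : Λ) := by
  have := lt_succ'' l
  have := lt_succ'' (l + 1)
  have := lt_succ'' (l + 1 + 1)
  simp only [opn, upn, Lv, mx_node, mx_lab, mx_prog, enc_pair, enc_obj]
  order

lemma mx_Lv (l : Λ) : mx (enc (Lv l)) = (l + 1 + 1 + 1 : Λ) := by
  have := lt_succ'' l
  have := lt_succ'' (l + 1)
  have := lt_succ'' (l + 1 + 1)
  simp only [Lv, mx_node, mx_lab, enc_pair, enc_lab]
  order

namespace Ctx

variable {C : Ctx} {η β : Λ}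

lemma mem_val_prog {α : Type*} [Enc α] {d : ℕ} {P : Orc → (Obj × Cond) × α → Prop}
    (h : Prog C.s d P) {l l' : Λ} (hl : l < l') (hl' : l' < C.D) {a : α} (ha : mx (enc a) < l)
    {u : ZFSet} : u ∈ C.val η (node (lab l') (prog d l a)) ↔
      ∃ z, ∃ r ∈ C.G η, (mx z < l ∧ mx (enc r) < l) ∧ P C.T ((z, r), a) ∧ C.val η z = u := by
  have h1 := WithBot.coe_lt_coe.2 hl
  have h2 := WithBot.coe_lt_coe.2 hl'
  rw [mem_val (by simp only [mx_node, mx_lab, mx_prog]; order)]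
  simp only [h.child C.b hl ha]
  exact ⟨fun ⟨z, ⟨r, h1, h2, h3⟩, h4⟩ => ⟨z, r, h1, h2, h3, h4⟩,
    fun ⟨z, r, h1, h2, h3, h4⟩ => ⟨z, ⟨r, h1, h2, h3⟩, h4⟩⟩

/-- There are names for the sets defined by `P`. -/
def Nm (C : Ctx) {α : Type*} [Enc α] (P : Orc → (Obj × Cond) × α → Prop) : Prop :=
  ∀ η ≤ C.k, ∀ l, C.k ≤ l → l < C.δ → ∀ a, mx (enc a) < l → ∃ X,
    (X ∈ C.W η C.δ ∧ X ∈ C.W η (l + 1 + 1)) ∧ ∀ u,
    u ∈ X ↔ ∃ z, ∃ r ∈ C.G η, mx z < l ∧ P C.T ((z, r), a) ∧ C.val η z = u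

def Pr (C : Ctx) (d : ℕ) : Prop := ∀ η ≤ C.k, ∀ l, l + 1 + 1 + 1 < C.D → ∀ x y, mx x < l →
  mx y < l → C.val η (opn d (Lv l) x y) = ZFSet.pair (C.val η x) (C.val η y)

lemma mem_val_on (hη : η ≤ C.k) {j : Λ} (hj : j < C.D) {u : ZFSet} :
    u ∈ C.val η (on j) ↔ ∃ i < j, C.val η (on i) = u := by
  rw [mem_val (by simpa using hj)]
  simp only [child_on C.std]
  exact ⟨fun ⟨z, ⟨r, _, _, i, h1, h2⟩, h3⟩ => ⟨i, h1, h2 ▸ h3⟩,
    fun ⟨i, h1, h2⟩ => ⟨_, ⟨emp, emp_mem hη, by simp, i, h1, rfl⟩, h2⟩⟩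

lemma nat_lt_δ (C : Ctx) (n : ℕ) : (n : Λ) < C.δ := (Ordinal.natCast_lt_omega0 n).trans C.good.om

lemma val_on_nat (hη : η ≤ C.k) (n : ℕ) : C.val η (on n) = natZ n := by
  induction n using Nat.strong_induction_on with
  | _ n ih =>
  ext u
  rw [mem_val_on hη ((C.nat_lt_δ n).trans C.δD), mem_natZ]
  constructor
  · rintro ⟨i, hi, rfl⟩
    obtain ⟨m, rfl⟩ := Ordinal.lt_omega0.1 (hi.trans (Ordinal.natCast_lt_omega0 n))
    exact ⟨m, Nat.cast_lt.1 hi, (ih m (Nat.cast_lt.1 hi)).symm⟩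
  · rintro ⟨m, hm, rfl⟩
    exact ⟨m, Nat.cast_lt.2 hm, ih m hm⟩

lemma val_on_omega (hη : η ≤ C.k) : C.val η (on Ordinal.omega0) = ZFSet.omega := by
  ext u
  rw [mem_val_on hη (C.good.om.trans C.δD), mem_omega]
  constructor
  · rintro ⟨i, hi, rfl⟩
    obtain ⟨m, rfl⟩ := Ordinal.lt_omega0.1 hi
    exact ⟨m, (val_on_nat hη m).symm⟩
  · rintro ⟨m, rfl⟩
    exact ⟨m, Ordinal.natCast_lt_omega0 m, val_on_nat hη m⟩

lemma W_trans (hβ : β ≤ C.D) {u y : ZFSet} (hu : u ∈ C.W η β) (hy : y ∈ u) : y ∈ C.W η β := by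
  obtain ⟨x, hx, rfl⟩ := hu
  obtain ⟨z, ⟨r, -, h⟩, rfl⟩ := (mem_val (hx.trans_le (WithBot.coe_le_coe.2 hβ))).1 hy
  exact ⟨z, h.lt.trans hx, rfl⟩

lemma W_mono {β' : Λ} (h : β ≤ β') : C.W η β ⊆ C.W η β' :=
  fun _ ⟨x, hx, h'⟩ => ⟨x, hx.trans_le (WithBot.coe_le_coe.2 h), h'⟩

lemma exists_list {v : List ZFSet} (hv : ∀ x ∈ v, x ∈ C.W η β) :
    ∃ l : List Obj, mx (enc l) < β ∧ l.map (C.val η) = v := by
  induction v with
  | nil => exact ⟨[], by simp, rfl⟩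
  | cons a v ih =>
    obtain ⟨x, hx, rfl⟩ := hv a (by simp)
    obtain ⟨l, hl, rfl⟩ := ih fun x hx => hv x (by simp [hx])
    exact ⟨x :: l, by simp [hx, hl], rfl⟩

lemma exists_refl (C : Ctx) {μ : WithBot Λ} (h : μ < C.δ) : ∃ β < C.δ, C.k < β ∧ μ < β ∧
    Closed C.s C.b (insert C.δ (Set.Iio β)) := by
  obtain ⟨l, h1, h2, h3⟩ := C.exists_lt_δ h
  obtain ⟨β, h4, h5, h6⟩ := C.good.refl l h1
  exact ⟨β, h5, h2.trans h4, h3.trans (WithBot.coe_lt_coe.2 h4), h6⟩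

lemma T_refl (hβ : β < C.δ) (h : Closed C.s C.b (insert C.δ (Set.Iio β))) {x : Obj}
    (hx : ∀ i ∈ labs x, i = C.δ ∨ i < β) : C.T (Ob.map (fun i => min i β) x) ↔ C.T x := by
  refine T_map h ?_ (closed_lower ?_) hx
  · rintro i (rfl | hi) j (rfl | hj) hij
    · exact absurd hij (lt_irrefl _)
    · exact absurd (hij.trans hj) hβ.not_gt
    · simpa [hβ.le] using hi
    · simpa [(Set.mem_Iio.1 hi).le, (Set.mem_Iio.1 hj).le] using hij
  · rintro _ j hj ⟨i, -, rfl⟩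
    rcases (hj.trans (min_le_right _ _)).eq_or_lt with rfl | h
    · exact ⟨C.δ, .inl rfl, by simp [hβ.le]⟩
    · exact ⟨j, .inr h, by simp [h.le]⟩

lemma act_min {α : Type*} [Enc α] {a : α} (h : mx (enc a) < β) : act (fun i => min i β) a = a :=
  act_eq_self fun i hi => min_eq_left (mx_lt_iff.1 h i hi).le

lemma sat_refl (hC : C.Tr) (hη : η ≤ C.k) (hβ : β < C.δ) (hk : C.k < β)
    (h : Closed C.s C.b (insert C.δ (Set.Iio β))) (φ : Fm) {v : List ZFSet}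
    (hv : ∀ x ∈ v, x ∈ C.W η β) : Sat (C.W η C.δ) φ v ↔ Sat (C.W η β) φ v := by
  obtain ⟨l, hl, rfl⟩ := exists_list hv
  have hlD : mx (enc l) < C.D := hl.trans (WithBot.coe_lt_coe.2 (hβ.trans C.δD))
  rw [← hC.frc hη C.δD φ hlD, ← hC.frc hη (hβ.trans C.δD) φ hlD]
  refine exists_congr fun p => and_congr_right fun hp => ?_
  have hp' : mx (enc p) < β := (mx_lt_of_mem hη hp).trans (WithBot.coe_lt_coe.2 hk)
  have := T_refl hβ h (x := pF C.k η C.δ φ l p) (by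
    have h1 := mx_lt_iff.1 hl
    have h2 := mx_lt_iff.1 hp'
    have h3 := hη.trans_lt hk
    intro i hi
    simp only [pF, labs_node, labs_hd, labs_lab, enc_pair, enc_lab, labs_enc_pur, List.mem_append,
      List.mem_singleton, List.not_mem_nil] at hi
    aesop)
  refine this.symm.trans ?_
  simp [Fr, pF, act_min hl, act_min hp', hk.le, hβ.le, (hη.trans_lt hk).le]

end Ctx

open Ctx

lemma ev_nm {α : Type*} [Enc α] {P : Orc → (Obj × Cond) × α → Prop} (h : Dfn P) :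
    ∀ᶠ C in 𝓕, C.Nm P := by
  filter_upwards [ev_prog h] with C ⟨d, hd⟩ η hη l hl hl' a ha
  have h1 := C.succ_lt hl'
  have h2 : mx (node (lab (l + 1)) (prog d l a)) = (l + 1 : Λ) := by
    have := lt_succ'' l
    simp only [mx_node, mx_lab, mx_prog]
    exact max_eq_left (max_le this.le (ha.trans this).le)
  refine ⟨_, ⟨⟨node (lab (l + 1)) (prog d l a), ?_, rfl⟩, ⟨_, ?_, rfl⟩⟩, fun u => ?_⟩
  · rw [h2]; exact WithBot.coe_lt_coe.2 h1
  · rw [h2]; exact lt_succ'' _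
  · rw [mem_val_prog hd (lt_succ' l) (h1.trans C.δD) ha]
    refine exists_congr fun z => exists_congr fun r => and_congr_right fun hr => ?_
    simp [(mx_lt_of_mem hη hr).trans_le (WithBot.coe_le_coe.2 hl)]

lemma ev_pr : ∀ᶠ C in 𝓕, ∃ d, C.Pr d := by
  have d1 : Dfn fun (_ : Orc) (a : (Obj × Cond) × Obj × Obj) => a.1.1 = a.2.1 ∨ a.1.1 = a.2.2 :=
    Dfn.inv (by fun_prop)
  filter_upwards [ev_prog d1] with C ⟨d, hd⟩
  refine ⟨d, fun η hη l hl x y hx hy => ?_⟩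
  have key : ∀ {l l' : Λ} {x y : Obj}, l < l' → l' < C.D → mx x < l → mx y < l →
      C.val η (upn d l l' x y) = {C.val η x, C.val η y} := by
    intro l l' x y h1 h2 hx hy
    ext u
    rw [upn, mem_val_prog hd h1 h2 (by simp [hx, hy]), ZFSet.mem_pair]
    constructor
    · rintro ⟨z, r, -, -, h | h, rfl⟩ <;> simp only at h <;> simp [h]
    · rintro (rfl | rfl)
      · exact ⟨x, emp, emp_mem hη, ⟨hx, by simp⟩, .inl rfl, rfl⟩
      · exact ⟨y, emp, emp_mem hη, ⟨hy, by simp⟩, .inr rfl, rfl⟩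
  have h1 := lt_succ'' l
  have h2 := lt_succ'' (l + 1)
  have h3 : l + 1 < C.D := ((lt_succ' _).trans (lt_succ' _)).trans hl
  have h4 : ∀ y, mx y < l → mx (upn d l (l + 1) x y) < (l + 1 + 1 : Λ) := fun y hy => by
    simp only [upn, mx_node, mx_lab, mx_prog, enc_pair, enc_obj]; order
  rw [opn, Lv, key (lt_succ' _) hl (h4 x hx) (h4 y hy), key (lt_succ' _) h3 hx hx,
    key (lt_succ' _) h3 hx hy]
  simp [ZFSet.pair]

lemma ev_model : ∀ᶠ C in 𝓕, ∀ η ≤ C.k, IsModel (C.W η C.δ) := by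
  have d1 : Dfn fun (_ : Orc) (_ : (Obj × Cond) × ℕ) => True := Dfn.inv (by fun_prop)
  have d2 : Dfn fun O (a : (Obj × Cond) × Λ × Λ × Λ × Fm × List Obj × Obj) =>
      Mem O a.2.1 a.2.2.1 a.1.2 a.1.1 a.2.2.2.2.2.2 ∧
      O (pF a.2.1 a.2.2.1 a.2.2.2.1 a.2.2.2.2.1 (a.1.1 :: a.2.2.2.2.2.1) a.1.2) := by
    unfold Mem child
    repeat' first
      | (refine Dfn.inv ?_; fun_prop) | (refine Dfn.orc ?_; fun_prop) | assumption
      | refine Dfn.and ?_ ?_ | refine Dfn.or ?_ ?_ | refine Dfn.iff ?_ ?_ | refine Dfn.not ?_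
      | refine Dfn.allO (by fun_prop) ?_ | refine Dfn.exO (by fun_prop) ?_
      | refine Dfn.allO' (by fun_prop) ?_ | refine Dfn.exO' (by fun_prop) ?_
      | refine Dfn.allE (by fun_prop) ?_ | refine Dfn.exE (by fun_prop) ?_
      | refine Dfn.allE' (by fun_prop) ?_ | refine Dfn.exE' (by fun_prop) ?_
      | refine Dfn.allL (by fun_prop) ?_ | refine Dfn.exL (by fun_prop) ?_
      | refine Dfn.allL' (by fun_prop) ?_ | refine Dfn.exL' (by fun_prop) ?_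
      | refine Dfn.allM (by fun_prop) ?_ | refine Dfn.exM (by fun_prop) ?_
      | refine Dfn.imp ?_ ?_ | refine Dfn.allP ?_ | refine Dfn.exP ?_
  have d3 : Dfn fun O (a : (Obj × Cond) × Λ × Λ × Obj) =>
      Mem O a.2.1 a.2.2.1 a.1.2 a.1.1 a.2.2.2 := Dfn.Mem (by fun_prop) (by fun_prop) (by fun_prop)
        (by fun_prop) (by fun_prop)
  have d4 : Dfn fun O (a : (Obj × Cond) × Λ × Obj) => mx a.1.1 < a.2.1 ∧
      O (plug a.2.2 (enc a.1)) := (Dfn.inv (by fun_prop)).and (Dfn.orc (by fun_prop))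
  have d5 : Dfn fun O (a : (Obj × Cond) × Λ × Λ × Λ × Obj × ℕ × Λ × Λ × Λ × Λ) =>
      ∃ x, mx x < a.2.2.2.1 ∧ ∃ y, mx y < a.2.2.2.1 ∧
        a.1.1 = opn a.2.2.2.2.2.1 a.2.2.2.2.2.2 x y ∧ Mem O a.2.1 a.2.2.1 a.1.2 y x ∧
        ∀ y', mx y' < a.2.2.2.1 → wo y' y → ∀ q : Cond, mx (enc q) < a.2.1 →
          O (pV a.2.1 a.2.2.1 q) → Sub a.1.2 q → ¬ Mem O a.2.1 a.2.2.1 q y' x := by
    unfold Mem child
    repeat' first
      | (refine Dfn.inv ?_; fun_prop) | (refine Dfn.orc ?_; fun_prop) | assumption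
      | refine Dfn.and ?_ ?_ | refine Dfn.or ?_ ?_ | refine Dfn.iff ?_ ?_ | refine Dfn.not ?_
      | refine Dfn.allO (by fun_prop) ?_ | refine Dfn.exO (by fun_prop) ?_
      | refine Dfn.allO' (by fun_prop) ?_ | refine Dfn.exO' (by fun_prop) ?_
      | refine Dfn.allE (by fun_prop) ?_ | refine Dfn.exE (by fun_prop) ?_
      | refine Dfn.allE' (by fun_prop) ?_ | refine Dfn.exE' (by fun_prop) ?_
      | refine Dfn.allL (by fun_prop) ?_ | refine Dfn.exL (by fun_prop) ?_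
      | refine Dfn.allL' (by fun_prop) ?_ | refine Dfn.exL' (by fun_prop) ?_
      | refine Dfn.allM (by fun_prop) ?_ | refine Dfn.exM (by fun_prop) ?_
      | refine Dfn.imp ?_ ?_ | refine Dfn.allP ?_ | refine Dfn.exP ?_
  have d6 : Dfn fun O (a : Cond × Λ × Λ × Λ × Obj × Obj) =>
      ∃ y', mx y' < a.2.2.2.1 ∧ wo y' a.2.2.2.2.2 ∧ Mem O a.2.1 a.2.2.1 a.1 y' a.2.2.2.2.1 := by
    unfold Mem child
    repeat' first
      | (refine Dfn.inv ?_; fun_prop) | (refine Dfn.orc ?_; fun_prop) | assumption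
      | refine Dfn.and ?_ ?_ | refine Dfn.or ?_ ?_ | refine Dfn.iff ?_ ?_ | refine Dfn.not ?_
      | refine Dfn.allO (by fun_prop) ?_ | refine Dfn.exO (by fun_prop) ?_
      | refine Dfn.allO' (by fun_prop) ?_ | refine Dfn.exO' (by fun_prop) ?_
      | refine Dfn.allE (by fun_prop) ?_ | refine Dfn.exE (by fun_prop) ?_
      | refine Dfn.allE' (by fun_prop) ?_ | refine Dfn.exE' (by fun_prop) ?_
      | refine Dfn.allL (by fun_prop) ?_ | refine Dfn.exL (by fun_prop) ?_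
      | refine Dfn.allL' (by fun_prop) ?_ | refine Dfn.exL' (by fun_prop) ?_
      | refine Dfn.allM (by fun_prop) ?_ | refine Dfn.exM (by fun_prop) ?_
      | refine Dfn.imp ?_ ?_ | refine Dfn.allP ?_ | refine Dfn.exP ?_
  filter_upwards [ev_tr, ev_nm d1, ev_nm d2, ev_prog d3, ev_nm d4, ev_nm d5, ev_dec d6, ev_pr]
    with C hT h1 h2 ⟨d3, h3⟩ h4 h5 h6 ⟨dp, hp⟩ η hη
  have hδ := WithBot.coe_lt_coe.2 C.δD
  have hηk := WithBot.coe_le_coe.2 hη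
  have htr : ∀ x ∈ C.W η C.δ, ∀ y ∈ x, y ∈ C.W η C.δ := fun x hx y hy => W_trans C.δD.le hx hy
  have hW : ∀ β, C.k < β → β < C.δ → ∃ X ∈ C.W η C.δ, ∀ u, u ∈ X ↔ u ∈ C.W η β := by
    intro β hk hβ
    obtain ⟨X, ⟨hX, -⟩, h⟩ := h1 η hη β hk.le hβ 0 (by simp)
    refine ⟨X, hX, fun u => (h u).trans ⟨fun ⟨z, _, _, h1, _, h2⟩ => ⟨z, h1, h2⟩,
      fun ⟨z, h1, h2⟩ => ⟨z, emp, emp_mem hη, h1, trivial, h2⟩⟩⟩
  have hsep : ∀ (φ : Fm) (v : List ZFSet), (∀ x ∈ v, x ∈ C.W η C.δ) → ∀ a ∈ C.W η C.δ,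
      ZFSet.sep (fun x => Sat (C.W η C.δ) φ (x :: v)) a ∈ C.W η C.δ := by
    rintro φ v hv _ ⟨x, hx, rfl⟩
    obtain ⟨l, hl, rfl⟩ := exists_list hv
    obtain ⟨β, hβ, hk, hμ, hcl⟩ := C.exists_refl (max_lt hx hl)
    have hβ' := WithBot.coe_lt_coe.2 hβ
    have hk' := WithBot.coe_lt_coe.2 hk
    have hβ1 := lt_succ'' β
    obtain ⟨X, ⟨hX, -⟩, h⟩ := h2 η hη (β + 1) (hk.trans (lt_succ' β)).le (C.succ_lt hβ)
      (C.k, η, β, φ, l, x) (by
        simp only [enc_pair, mx_node, enc_lab, mx_lab, mx_enc_pur, enc_obj]; order)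
    have hβ2 := WithBot.coe_lt_coe.2 (C.succ_lt hβ)
    have key : ∀ z, mx z < C.D → C.val η z ∈ C.val η x →
        (Sat (C.W η C.δ) φ (C.val η z :: l.map (C.val η)) ↔ ∃ p ∈ C.G η, C.Fr η β φ (z :: l) p) := by
      intro z hz hzx
      rw [hT.frc hη (hβ.trans C.δD) φ (by simp [hz, hl.trans hδ])]
      refine sat_refl hT hη hβ hk hcl φ (List.forall_mem_cons.2 ⟨W_trans (hβ.trans C.δD).le
        ⟨x, (le_max_left _ _).trans_lt hμ, rfl⟩ hzx, List.forall_mem_map.2 fun y hy => ?_⟩)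
      exact ⟨y, ((mx_le_of_mem (a := y) hy).trans (le_max_right _ _)).trans_lt hμ, rfl⟩
    convert hX using 1
    ext u
    rw [h, ZFSet.mem_sep]
    constructor
    · rintro ⟨h7, h8⟩
      obtain ⟨z, ⟨r, -, h9⟩, rfl⟩ := (mem_val (hx.trans hδ)).1 h7
      have hz := h9.lt
      obtain ⟨p, hp, h10⟩ := (hT.mem hη (by order) (by order)).2 h7
      obtain ⟨q, hq, h11⟩ := (key z (by order) h7).1 h8
      obtain ⟨r, hr, -, h12, h13⟩ := (C.gen η hη).dir hp hq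
      exact ⟨z, r, hr, by order, ⟨h10.mono h12, h11.mono h13⟩, rfl⟩
    · rintro ⟨z, r, hr, hz, ⟨h7, h8⟩, rfl⟩
      have := (hT.mem hη (by order) (by order)).1 ⟨r, hr, h7⟩
      exact ⟨this, (key z (by order) this).2 ⟨r, hr, h8⟩⟩
  have hbd : ∀ a ∈ C.W η C.δ, ∀ b ∈ C.W η C.δ, ∃ β, C.k < β ∧ β < C.δ ∧ a ∈ C.W η β ∧
      b ∈ C.W η β := by
    rintro _ ⟨x, hx, rfl⟩ _ ⟨y, hy, rfl⟩
    obtain ⟨β, h7, h8, h9⟩ := C.exists_lt_δ (max_lt hx hy)
    exact ⟨β, h8, h7, ⟨x, by order, rfl⟩, ⟨y, by order, rfl⟩⟩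
  refine ⟨htr, ⟨on Ordinal.omega0, by simpa using C.good.om, val_on_omega hη⟩,
    fun a ha b hb => ?_, fun a ha => ?_, ?_, hsep, fun φ v hv a ha h => ?_, ?_⟩
  · obtain ⟨β, h7, h8, h9, h10⟩ := hbd a ha b hb
    obtain ⟨X, hX, h⟩ := hW β h7 h8
    convert hsep (.imp (.imp (.eq 0 1) .fls) (.eq 0 2)) [a, b] (by simp [ha, hb]) X hX using 1
    ext u
    simp only [ZFSet.mem_pair, ZFSet.mem_sep, h, Sat, List.getD_cons_zero, List.getD_cons_succ]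
    constructor
    · rintro (rfl | rfl) <;> tauto
    · tauto
  · obtain ⟨β, h7, h8, h9, -⟩ := hbd a ha a ha
    obtain ⟨X, hX, h⟩ := hW β h7 h8
    convert hsep (.imp (.all (.imp (.mem 0 2) (.imp (.mem 1 0) .fls))) .fls) [a] (by simp [ha])
      X hX using 1
    ext u
    simp only [ZFSet.mem_sUnion, ZFSet.mem_sep, h, Sat, List.getD_cons_zero, List.getD_cons_succ]
    constructor
    · rintro ⟨y, hy, hu⟩
      have := (h8.trans C.δD).le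
      exact ⟨W_trans this (W_trans this h9 hy) hu, fun h => h y (htr a ha y hy) hy hu⟩
    · rintro ⟨-, h⟩
      by_contra hc
      exact h fun y _ hy hu => hc ⟨y, hy, hu⟩
  · rintro _ ⟨x, hx, rfl⟩
    obtain ⟨α, hα, hk, hxα⟩ := C.exists_lt_δ hx
    obtain ⟨β, hβ, hpw⟩ := C.good.pw α hα
    obtain ⟨γ, hγ, hkγ, hβγ⟩ := C.exists_lt_δ (μ := max (α : WithBot Λ) β) (by simp [hα, hβ])
    simp only [max_lt_iff] at hβγ
    obtain ⟨Y, hY, hY'⟩ := hW (γ + 1 + 1) (hkγ.trans ((lt_succ' _).trans (lt_succ' _)))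
      (C.succ_lt (C.succ_lt hγ))
    refine ⟨Y, hY, ?_⟩
    rintro _ ⟨t, ht, rfl⟩ hsub
    obtain ⟨l, hl, hkl, htl⟩ := C.exists_lt_δ (μ := max (α : WithBot Λ) (mx t)) (by simp [hα, ht])
    simp only [max_lt_iff] at htl
    have hl' : mx (enc (C.k, η, t)) < l := by simp [hkl, hη.trans_lt hkl, htl.2]
    obtain ⟨x', hx', h7⟩ := hpw (prog d3 l (C.k, η, t))
      (by simp [hl, C.kδ, hη.trans_lt C.kδ, ht])
    obtain ⟨X, ⟨-, hX⟩, h⟩ := h4 η hη γ hkγ.le hγ (α, x') (by simp [hβγ.1, hx'.trans hβγ.2])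
    have key : ∀ z, mx z < α → ∀ r ∈ C.G η, C.T (plug x' (enc (z, r))) ↔ C.M η r z t := by
      intro z hz r hr
      have : mx (enc (z, r)) < α := by
        simp [hz, (mx_lt_of_mem hη hr).trans (WithBot.coe_lt_coe.2 hk)]
      exact (h7 _ this).symm.trans ((h3 _ l _ (z, r) hl').trans (and_iff_right (this.trans htl.1)))
    have hαD := WithBot.coe_lt_coe.2 (hα.trans C.δD)
    refine (hY' _).2 (Set.mem_of_eq_of_mem ?_ hX)
    ext u
    rw [h]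
    constructor
    · intro hu
      obtain ⟨z, hz, rfl⟩ := W_trans (hα.trans C.δD).le ⟨x, hxα, rfl⟩ (hsub hu)
      obtain ⟨r, hr, h8⟩ := (hT.mem hη (hz.trans hαD) (ht.trans hδ)).2 hu
      exact ⟨z, r, hr, hz.trans hβγ.1, ⟨hz, (key z hz r hr).2 h8⟩, rfl⟩
    · rintro ⟨z, r, hr, -, ⟨hz, h8⟩, rfl⟩
      exact (hT.mem hη (hz.trans hαD) (ht.trans hδ)).1 ⟨r, hr, (key z hz r hr).1 h8⟩
  · obtain ⟨l, hl, rfl⟩ := exists_list hv
    obtain ⟨x, hx, rfl⟩ := ha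
    obtain ⟨β, hβ, hk, hμ, hcl⟩ := C.exists_refl (max_lt hx hl)
    obtain ⟨X, hX, hX'⟩ := hW β hk hβ
    refine ⟨X, hX, fun u hu => ?_⟩
    have h7 : ∀ y ∈ u :: l.map (C.val η), y ∈ C.W η β :=
      List.forall_mem_cons.2 ⟨W_trans (hβ.trans C.δD).le ⟨x, by order, rfl⟩ hu,
        List.forall_mem_map.2 fun y hy => 
          ⟨y, ((mx_le_of_mem (a := y) hy).trans (le_max_right _ _)).trans_lt hμ, rfl⟩⟩
    have h8 := (sat_refl hT hη hβ hk hcl (.all (.imp φ .fls)) h7).not.1 (by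
      obtain ⟨y, hy, h⟩ := h u hu
      exact fun h' => h' y hy h)
    simp only [Sat, not_forall] at h8
    obtain ⟨y, hy, h8⟩ := h8
    exact ⟨y, (hX' y).2 hy, (sat_refl hT hη hβ hk hcl φ (List.forall_mem_cons.2 ⟨hy, h7⟩)).2
      (by tauto)⟩
  · rintro _ ⟨t, ht, rfl⟩ hne
    obtain ⟨β, hβ, hk, htβ⟩ := C.exists_lt_δ ht
    have e1 := C.succ_lt hβ
    have e2 := C.succ_lt e1
    have e3 := C.succ_lt e2
    have e4 := C.succ_lt e3
    have hβ' := WithBot.coe_lt_coe.2 hβ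
    have hk' := WithBot.coe_lt_coe.2 hk
    have f1 := lt_succ'' β
    have f2 := lt_succ'' (β + 1)
    have f3 := lt_succ'' (β + 1 + 1)
    have f4 := lt_succ'' (β + 1 + 1 + 1)
    obtain ⟨X, ⟨hX, -⟩, h⟩ := h5 η hη (β + 1 + 1 + 1 + 1)
      (WithBot.coe_le_coe.1 (by order)) e4 (C.k, η, β, t, dp, Lv β) (by
      simp only [enc_pair, mx_node, enc_lab, mx_lab, mx_enc_pur, enc_obj, mx_Lv]; order)
    have key : ∀ u w, ZFSet.pair u w ∈ X → ∃ x y, mx x < β ∧ mx y < β ∧ C.val η x = u ∧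
        C.val η y = w ∧ w ∈ u ∧ ∀ y', mx y' < β → wo y' y → C.val η y' ∉ u := by
      intro u w huw
      obtain ⟨z, r, hr, -, ⟨x, hx, y, hy, hz, h7, h8⟩, h9⟩ := (h _).1 huw
      simp only at hx hy hz h7 h8 h9
      rw [hz, hp η hη β (e3.trans C.δD) x y hx hy, ZFSet.pair_inj] at h9
      obtain ⟨rfl, rfl⟩ := h9
      refine ⟨x, y, hx, hy, rfl, rfl, (hT.mem hη (by order) (by order)).1 ⟨r, hr, h7⟩,
        fun y' hy' hw hm => ?_⟩
      obtain ⟨p, hp, h9⟩ := (hT.mem hη (by order) (by order)).2 hm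
      obtain ⟨q, -, h10, h11, h12⟩ := (C.gen η hη).dir hr hp
      exact h8 y' hy' hw q (V.mx_lt h10) h10 h11 (h9.mono h12)
    refine ⟨X, hX, fun u hu => ⟨?_, fun w hw => ?_⟩⟩
    · have hu' := W_trans (hβ.trans C.δD).le ⟨t, htβ, rfl⟩ hu
      obtain ⟨w, hw⟩ := (ZFSet.eq_empty_or_nonempty u).resolve_left fun h => hne (h ▸ hu)
      obtain ⟨y, ⟨hy, hyu⟩, hmin⟩ := wo_wf.has_min {y | mx y < β ∧ C.val η y ∈ u}
        (let ⟨y, hy, h⟩ := W_trans (hβ.trans C.δD).le hu' hw; ⟨y, hy, h ▸ hw⟩)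
      obtain ⟨x, hx, rfl⟩ := hu'
      refine existsUnique_of_exists_of_unique ⟨C.val η y, ?_⟩ fun w1 w2 hw1 hw2 => ?_
      · obtain ⟨p, hp', h7⟩ := (hT.mem hη (by order) (by order)).2 hyu
        obtain ⟨q, hq, -, h8⟩ := h6.avoid hη (a := (C.k, η, β, x, y)) (by
          simp only [enc_pair, mx_node, enc_lab, mx_lab, enc_obj]; order) (by
          rintro r hr - ⟨y', hy', h8, h9⟩
          simp only at hy' h8 h9
          exact hmin y' ⟨hy', (hT.mem hη (by order) (by order)).1 ⟨r, hr, h9⟩⟩ h8)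
        obtain ⟨r, hr, -, h9, h10⟩ := (C.gen η hη).dir hp' hq
        refine (h _).2 ⟨opn dp (Lv β) x y, r, hr, by rw [mx_opn hx hy]; exact f4,
          ⟨x, hx, y, hy, rfl, h7.mono h9, fun y' hy' hw q' _ hq' h11 h12 =>
            h8 q' hq' (h10.trans h11) ⟨y', hy', hw, h12⟩⟩, hp η hη β (e3.trans C.δD) x y hx hy⟩
      · obtain ⟨-, y1, -, hy1, -, rfl, h7, h8⟩ := key _ _ hw1
        obtain ⟨-, y2, -, hy2, -, rfl, h9, h10⟩ := key _ _ hw2
        rcases wo_tri y1 y2 with h | rfl | h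
        exacts [absurd h7 (h10 y1 hy1 h), rfl, absurd h9 (h8 y2 hy2 h)]
    · obtain ⟨-, -, -, -, -, -, h, -⟩ := key _ _ hw
      exact h

end Pool.Agent.Lib.MP_2c8569_lc
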